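import Pool.Agent.Work.MP_ffcd14_ag.Cyc.Dim

/-! # Components, points, choice of forms -/

open MvPolynomial Topology TopologicalSpace

namespace Pool.Agent.Work.MP_ffcd14_ag

universe u

variable {k : Type u} [Field k] {P : Amb}

namespace Noeth

theorem ev_mono_ne {ς : ∀ i, P.σ i} {x : P.Pt k} (hx : InCh ς x) (b : P.ι →₀ ℕ) :
    ev x (mono ς b : MvPolynomial P.V k) ≠ 0 := by
  rw [ev_eq, mono, eval_rename, eval_monomial, one_mul]
  exact Finset.prod_ne_zero_iff.mpr fun i _ => pow_ne_zero _ (hx i)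

theorem mono_add (ς : ∀ i, P.σ i) (a b : P.ι →₀ ℕ) :
    (mono ς (a + b) : MvPolynomial P.V k) = mono ς a * mono ς b := by
  rw [mono, mono, mono, ← map_mul, monomial_mul, one_mul]

theorem exists_minor {x z : P.Pt k} (h : z ≠ x) :
    ∃ (i : P.ι) (g : MvPolynomial P.V k), IsForm g (Finsupp.single i 1) ∧ ev x g = 0 ∧
      ev z g ≠ 0 := by
  obtain ⟨i, hi⟩ := Function.ne_iff.mp h
  obtain ⟨s₀, hs₀⟩ := Function.ne_iff.mp (x i).rep_nonzero
  have h1 : ∃ s, (x i).rep s₀ * (z i).rep s ≠ (x i).rep s * (z i).rep s₀ := by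
    by_contra h0
    push Not at h0
    exact hi ((eq_mk_of_minors (z i) hs₀ h0 (x i).rep_nonzero).trans (x i).mk_rep)
  obtain ⟨s, hs⟩ := h1
  refine ⟨i, C ((x i).rep s₀) * X ⟨i, s⟩ - C ((x i).rep s) * X ⟨i, s₀⟩, ?_, ?_, ?_⟩
  · exact ((weightedHomogeneousSubmodule k _ _).sub_mem
      ((IsForm.X (k := k) (⟨i, s⟩ : P.V)).C_mul _) ((IsForm.X (k := k) (⟨i, s₀⟩ : P.V)).C_mul _))
  · simp only [ev, map_sub, map_mul, eval_C, eval_X]; ring
  · simp only [ev, map_sub, map_mul, eval_C, eval_X]; exact sub_ne_zero.mpr hs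

/-- The ideal generated by the forms vanishing on `A`. -/
noncomputable def idl (A : Set (P.Pt k)) : Ideal (MvPolynomial P.V k) :=
  Ideal.span {f | (∃ a, IsForm f a) ∧ Van A f}

theorem van_of_mem {A : Set (P.Pt k)} {f : MvPolynomial P.V k} (hf : f ∈ idl A) : Van A f := by
  intro x hx
  have : idl A ≤ RingHom.ker (eval (rp x)) := Ideal.span_le.mpr fun g hg => hg.2 x hx
  exact this hf

/-- The polynomials vanishing on `A`. -/
noncomputable def vsub (A : Set (P.Pt k)) : Submodule k (MvPolynomial P.V k) where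
  carrier := {f | Van A f}
  add_mem' hf hg x hx := by
    have h1 := hf x hx
    have h2 := hg x hx
    rw [ev_eq] at h1 h2 ⊢
    rw [map_add, h1, h2, add_zero]
  zero_mem' x _ := map_zero _
  smul_mem' c f hf x hx := by
    have h1 := hf x hx
    rw [ev_eq] at h1 ⊢
    rw [smul_eval, h1, mul_zero]

theorem mono_not_van (T : Sub k P) : ∃ ς : ∀ i, P.σ i, ∃ x ∈ T, InCh ς x := by
  obtain ⟨x, hx⟩ := T.isIrreducible.nonempty
  obtain ⟨ς, h⟩ := exists_inCh x
  exact ⟨ς, x, hx, h⟩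

end Noeth

open Noeth

instance noetherianSpace_pt : NoetherianSpace (P.Pt k) := by
  have h : StrictAnti fun A : Closeds (P.Pt k) => idl (A : Set (P.Pt k)) := by
    intro A B hAB
    refine lt_of_le_of_ne (Ideal.span_mono fun f hf => ⟨hf.1, fun x hx => hf.2 x (hAB.le hx)⟩)
      fun h => hAB.not_ge ?_
    refine subset_of_van A.isClosed fun f a hf hA => van_of_mem ?_
    have h' : idl (B : Set (P.Pt k)) = idl (A : Set (P.Pt k)) := h
    rw [h']
    exact Ideal.subset_span ⟨⟨a, hf⟩, hA⟩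
  exact ((noetherianSpace_TFAE (P.Pt k)).out 1 0).mp h.wellFoundedLT

instance t1Space_pt : T1Space (P.Pt k) := by
  refine ⟨fun x => isClosed_iff_form.mpr fun z hz => ?_⟩
  obtain ⟨i, g, hg, h0, h1⟩ := exists_minor (x := x) (z := z) hz
  exact ⟨g, _, hg, h1, fun y hy => by rw [Set.mem_singleton_iff.mp hy]; exact h0⟩

theorem exists_comps {A : Set (P.Pt k)} (hA : IsClosed A) :
    ∃ s : Set (Sub k P), s.Finite ∧ (∀ Z ∈ s, (Z : Set (P.Pt k)) ⊆ A) ∧
      ∀ U : Sub k P, (U : Set (P.Pt k)) ⊆ A → ∃ Z ∈ s, U ≤ Z := by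
  obtain ⟨S, hS, hc, hi, rfl⟩ := NoetherianSpace.exists_finite_set_isClosed_irreducible hA
  refine ⟨{Z | (Z : Set (P.Pt k)) ∈ S}, hS.preimage SetLike.coe_injective.injOn,
    fun Z hZ => Set.subset_sUnion_of_mem hZ, fun U hU => ?_⟩
  obtain ⟨z, hz, h⟩ := isIrreducible_iff_sUnion_isClosed.mp U.isIrreducible hS.toFinset
    (fun z hz => hc z (hS.mem_toFinset.mp hz)) (by rwa [hS.coe_toFinset])
  have hz' := hS.mem_toFinset.mp hz
  exact ⟨⟨z, hi z hz', hc z hz'⟩, hz', h⟩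

/-- The forms `g i` of degree `a` vanish on `T` and generate its ideal locally. -/
structure Cuts (T : Set (P.Pt k)) {κ : Type} [Fintype κ] (g : κ → MvPolynomial P.V k)
    (a : P.ι →₀ ℕ) : Prop where
  form : ∀ i, IsForm (g i) a
  van : ∀ i, Van T (g i)
  gen : ∀ (x : P.Pt k) f b, IsForm f b → Van T f →
    ∃ (s : MvPolynomial P.V k) (c : P.ι →₀ ℕ) (e : κ → MvPolynomial P.V k),
      IsForm s c ∧ ev x s ≠ 0 ∧ s * f = ∑ i, e i * g i

theorem exists_cuts (T : Set (P.Pt k)) :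
    ∃ (κ : Type) (_ : Fintype κ) (g : κ → MvPolynomial P.V k) (a : P.ι →₀ ℕ), Cuts T g a := by
  classical
  obtain ⟨t, ht, hsp⟩ := (Submodule.fg_span_iff_fg_span_finset_subset
    {f : MvPolynomial P.V k | (∃ a, IsForm f a) ∧ Van T f}).mp
    (IsNoetherian.noetherian (idl T))
  let F : Fin t.card → MvPolynomial P.V k := fun j => (t.equivFin.symm j : MvPolynomial P.V k)
  have hF : ∀ j, (∃ a, IsForm (F j) a) ∧ Van T (F j) := fun j => ht (t.equivFin.symm j).2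
  have hr : Set.range F = t := by
    ext f
    constructor
    · rintro ⟨j, rfl⟩; exact (t.equivFin.symm j).2
    · intro hf; exact ⟨t.equivFin ⟨f, hf⟩, by simp [F]⟩
  choose d hd using fun j => (hF j).1
  have hle : ∀ j, d j ≤ ∑ j, d j := fun j =>
    Finset.single_le_sum (f := d) (fun _ _ => zero_le) (Finset.mem_univ j)
  let _ : Fintype (∀ i, P.σ i) := Fintype.ofFinite _
  refine ⟨Fin t.card × ∀ i, P.σ i, inferInstance,
    fun p => mono p.2 (∑ j, d j - d p.1) * F p.1, ∑ j, d j, fun p => ?_, fun p x hx => ?_,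
    fun x f b hf hT => ?_⟩
  · have := (mono_form (k := k) p.2 (∑ j, d j - d p.1)).mul (hd p.1)
    rwa [tsub_add_cancel_of_le (hle p.1)] at this
  · rw [ev_mul, (hF p.1).2 x hx, mul_zero]
  · obtain ⟨ς, hς⟩ := exists_inCh x
    have hm : f ∈ Submodule.span (MvPolynomial P.V k) (Set.range F) := by
      rw [hr, ← hsp]
      exact Submodule.subset_span ⟨⟨b, hf⟩, hT⟩
    obtain ⟨c, hc⟩ := (Submodule.mem_span_range_iff_exists_fun _).mp hm
    refine ⟨mono ς (∑ j, d j), _, fun p => if p.2 = ς then c p.1 * mono ς (d p.1) else 0,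
      mono_form ς _, ev_mono_ne hς _, ?_⟩
    rw [Fintype.sum_prod_type, ← hc, Finset.mul_sum]
    refine Finset.sum_congr rfl fun j _ => ?_
    rw [Finset.sum_eq_single ς (fun ς' _ h => by simp [h]) (by simp)]
    conv_lhs => rw [← tsub_add_cancel_of_le (hle j), mono_add]
    simp only [if_true, smul_eq_mul]
    ring

theorem Cuts.mem {T : Set (P.Pt k)} (hT : IsClosed T) {κ : Type} [Fintype κ]
    {g : κ → MvPolynomial P.V k} {a : P.ι →₀ ℕ} (h : Cuts T g a) {x : P.Pt k}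
    (hx : ∀ i, ev x (g i) = 0) : x ∈ T := by
  by_contra hn
  obtain ⟨f, b, hf, h1, h2⟩ := isClosed_iff_form.mp hT x hn
  obtain ⟨s, c, e, -, hs, he⟩ := h.gen x f b hf h2
  have h3 := congrArg (ev x) he
  rw [ev_mul, ev_eq x (∑ i, e i * g i), map_sum] at h3
  refine mul_ne_zero hs h1 (h3.trans (Finset.sum_eq_zero fun i _ => ?_))
  rw [← ev_eq, ev_mul, hx i, mul_zero]

variable [IsAlgClosed k]

theorem finite_div (Z : Sub k P) {g : MvPolynomial P.V k} {a : P.ι →₀ ℕ} (hg : IsForm g a)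
    (hZ : ¬ Van (Z : Set (P.Pt k)) g) :
    {T : Sub k P | T ≤ Z ∧ sdim T + 1 = sdim Z ∧ Van (T : Set (P.Pt k)) g}.Finite := by
  obtain ⟨s, hs, h1, h2⟩ := exists_comps (Z.isClosed.inter (isClosed_zero hg))
  refine hs.subset ?_
  rintro T ⟨hT, hd, hv⟩
  obtain ⟨U, hU, hTU⟩ := h2 T fun x hx => ⟨hT hx, hv x hx⟩
  have hUZ : U < Z := lt_of_le_of_ne (fun x hx => (h1 U hU hx).1) fun h =>
    hZ fun x hx => (h1 U hU (h ▸ hx)).2
  have := sdim_lt hUZ
  rwa [eq_of_sdim_le hTU (by omega)]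

set_option linter.unusedSectionVars false in
theorem sdim_pt (x : P.Pt k) : sdim ({x} : Sub k P) = 0 := by
  have h : IsMin ({x} : Sub k P) := by
    intro U hU
    obtain ⟨y, hy⟩ := U.isIrreducible.nonempty
    have h1 : y = x := hU hy
    intro z hz
    have h2 : z = x := hz
    rw [h2, ← h1]
    exact hy
  rw [sdim, Order.height_eq_zero.mpr h]
  rfl

theorem eq_pt_of_sdim {Z : Sub k P} (h : sdim Z = 0) {x : P.Pt k} (hx : x ∈ Z) : Z = {x} := by
  refine (eq_of_sdim_le (U := {x}) (fun z hz => ?_) (by omega)).symm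
  have h2 : z = x := hz
  rw [h2]
  exact hx

theorem exists_form_avoid {F : Set (Sub k P)} (hF : F.Finite)
    (W : Submodule k (MvPolynomial P.V k))
    (h : ∀ T ∈ F, ∃ f ∈ W, ¬ Van (T : Set (P.Pt k)) f) :
    ∃ f ∈ W, ∀ T ∈ F, ¬ Van (T : Set (P.Pt k)) f := by
  have := hF.to_subtype
  obtain ⟨f, hf⟩ := Submodule.exists_forall_notMem_of_forall_ne_top
    (fun T : F => (vsub (T.1 : Set (P.Pt k))).comap W.subtype) fun T h0 => by
      obtain ⟨f, hW, hn⟩ := h T.1 T.2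
      have h1 : (⟨f, hW⟩ : W) ∈ (vsub (T.1 : Set (P.Pt k))).comap W.subtype := by
        rw [h0]; exact Submodule.mem_top
      exact hn h1
  exact ⟨f.1, f.2, fun T hT => hf ⟨T, hT⟩⟩

theorem exists_form_deg {F : Set (Sub k P)} (hF : F.Finite) (a : P.ι →₀ ℕ) :
    ∃ f, IsForm f a ∧ ∀ T ∈ F, ¬ Van (T : Set (P.Pt k)) f := by
  refine exists_form_avoid hF
    (weightedHomogeneousSubmodule k (fun s : P.V => Finsupp.single s.1 1) a) fun T _ => ?_
  obtain ⟨ς, x, hx, h⟩ := mono_not_van T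
  exact ⟨mono ς a, mono_form ς a, fun hv => ev_mono_ne h a (hv x hx)⟩

theorem exists_form_van {A : Set (P.Pt k)} (hA : IsClosed A) {F : Set (Sub k P)} (hF : F.Finite)
    (h : ∀ T ∈ F, ¬ (T : Set (P.Pt k)) ⊆ A) {a : P.ι →₀ ℕ} (ha : ∀ i, 0 < a i) :
    ∃ (n : ℕ) (g : MvPolynomial P.V k), 0 < n ∧ IsForm g (n • a) ∧ Van A g ∧
      ∀ T ∈ F, ¬ Van (T : Set (P.Pt k)) g := by
  classical
  have h1 : ∀ T : F, ∃ (x : P.Pt k) (g : MvPolynomial P.V k) (b : P.ι →₀ ℕ),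
      x ∈ T.1 ∧ IsForm g b ∧ ev x g ≠ 0 ∧ Van A g := by
    intro T
    obtain ⟨x, hx, hxA⟩ := Set.not_subset.mp (h T.1 T.2)
    obtain ⟨g, b, hg, h2, h3⟩ := isClosed_iff_form.mp hA x hxA
    exact ⟨x, g, b, hx, hg, h2, h3⟩
  choose x g b hx hg h2 h3 using h1
  have := hF.fintype
  let _ : Fintype P.ι := Fintype.ofFinite _
  have hle : ∀ T, b T ≤ (∑ T, ∑ i, b T i + 1) • a := by
    intro T i
    have e1 : b T i ≤ ∑ i, b T i :=
      Finset.single_le_sum (f := fun i => b T i) (fun _ _ => zero_le) (Finset.mem_univ i)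
    have e2 : ∑ i, b T i ≤ ∑ T, ∑ i, b T i :=
      Finset.single_le_sum (f := fun T => ∑ i, b T i) (fun _ _ => zero_le) (Finset.mem_univ T)
    have e3 := ha i
    rw [Finsupp.smul_apply, smul_eq_mul]
    nlinarith
  obtain ⟨f, hf, hn⟩ := exists_form_avoid hF
    (weightedHomogeneousSubmodule k (fun s : P.V => Finsupp.single s.1 1)
      ((∑ T, ∑ i, b T i + 1) • a) ⊓ vsub A) fun T hT => by
      obtain ⟨ς, hς⟩ := exists_inCh (x ⟨T, hT⟩)
      refine ⟨mono ς ((∑ T, ∑ i, b T i + 1) • a - b ⟨T, hT⟩) * g ⟨T, hT⟩, ⟨?_, ?_⟩, fun hv => ?_⟩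
      · have := (mono_form (k := k) ς ((∑ T, ∑ i, b T i + 1) • a - b ⟨T, hT⟩)).mul (hg ⟨T, hT⟩)
        rwa [tsub_add_cancel_of_le (hle _)] at this
      · intro y hy
        rw [ev_mul, h3 _ y hy, mul_zero]
      · have := hv _ (hx ⟨T, hT⟩)
        rw [ev_mul] at this
        exact mul_ne_zero (ev_mono_ne hς _) (h2 _) this
  exact ⟨_, f, Nat.succ_pos _, hf.1, hf.2, hn⟩

theorem exists_form_pt {Z : Sub k P} (h : 0 < sdim Z) (x : P.Pt k) {a : P.ι →₀ ℕ}
    (ha : ∀ i, 0 < a i) : ∃ g, IsForm g a ∧ ev x g = 0 ∧ ¬ Van (Z : Set (P.Pt k)) g := by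
  have h1 : ∃ z ∈ Z, z ≠ x := by
    by_contra h0
    push Not at h0
    have h2 : Z ≤ ({x} : Sub k P) := fun z hz => h0 z hz
    have h3 := sdim_mono h2
    rw [sdim_pt] at h3
    omega
  obtain ⟨z, hz, hzx⟩ := h1
  obtain ⟨i, g, hg, h0, h2⟩ := exists_minor hzx
  obtain ⟨ς, hς⟩ := exists_inCh z
  refine ⟨g * mono ς (a - Finsupp.single i 1), ?_, by rw [ev_mul, h0, zero_mul], fun hv => ?_⟩
  · have := hg.mul (mono_form (k := k) ς (a - Finsupp.single i 1))
    rwa [add_tsub_cancel_of_le (Finsupp.single_le_iff.mpr (ha i))] at this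
  · have := hv z hz
    rw [ev_mul] at this
    exact mul_ne_zero h2 (ev_mono_ne hς _) this

end Pool.Agent.Work.MP_ffcd14_ag
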