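import Pool.Agent.Work.MP_ffcd14_ag.Cyc.PDefs
import Pool.Agent.Work.MP_ffcd14_ag.Cyc.Noeth

/-! # Numerical theories of cycles

The properties of cycle classes which are used in the proofs.  They hold for the even part of a
Weil cohomology theory and for cycles modulo numerical equivalence. -/

open MvPolynomial Topology TopologicalSpace Filter

namespace Pool.Agent.Work.MP_ffcd14_ag

universe u v w

variable {k : Type u} [Field k] {P : Amb}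

/-- The multiplicity of `T` in the divisor of `f` on `Z`. -/
noncomputable def mu (Z T : Sub k P) (f : MvPolynomial P.V k) : ℕ :=
  if sdim T + 1 = sdim Z then
    (len (Noeth.idl (T : Set (P.Pt k))) (Noeth.idl (Z : Set (P.Pt k)) ⊔ Ideal.span {f})).toNat
  else 0

/-- The span of the classes of the subvarieties of `A` with the property `p`. -/
def spn {B : Type w} [AddCommGroup B] [Module ℚ B] (cy : Sub k P → B) (A : Set (P.Pt k))
    (p : Sub k P → Prop) : Submodule ℚ B :=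
  Submodule.span ℚ {y | ∃ U : Sub k P, (U : Set (P.Pt k)) ⊆ A ∧ p U ∧ y = cy U}

/-- A numerical theory of cycles. -/
structure NT (k : Type u) (K : Type v) [Field k] [Field K] where
  E : ∀ {P : Amb}, Var k P → Type w
  [ring : ∀ {P : Amb} (X : Var k P), CommRing (E X)]
  [alg : ∀ {P : Amb} (X : Var k P), Algebra ℚ (E X)]
  tau : ∀ {P : Amb} (X : Var k P), E X →ₗ[ℚ] ℚ
  hy : ∀ {P : Amb} (X : Var k P), P.ι → E X
  pl : ∀ {P P' : Amb} {Ω : Var k P'} {X : Var k P}, Prj Ω X → E X →ₐ[ℚ] E Ω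
  cy : ∀ {P : Amb} (X : Var k P), Sub k P → E X
  AA : ∀ {P : Amb} (X : Var k P), ℕ → Submodule ℚ (E X)
  hy_mem : ∀ {P : Amb} (X : Var k P) (i : P.ι), hy X i ∈ AA X 1
  AA_mul : ∀ {P : Amb} (X : Var k P) {c c' : ℕ} {x y : E X}, x ∈ AA X c → y ∈ AA X c' →
    x * y ∈ AA X (c + c')
  AA_pl : ∀ {P P' : Amb} {Ω : Var k P'} {X : Var k P} (π : Prj Ω X) {c : ℕ} {y : E X},
    y ∈ AA X c → pl π y ∈ AA Ω c
  tau_AA : ∀ {P : Amb} (X : Var k P) {c : ℕ} {x : E X}, x ∈ AA X c → c ≠ X.dim → tau X x = 0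
  pl_id : ∀ {P : Amb} {X : Var k P} (π : Prj X X), (∀ x ∈ X.pts, π.pr x = x) → ∀ y, pl π y = y
  pl_comp : ∀ {P P' P'' : Amb} {Ω' : Var k P''} {Ω : Var k P'} {X : Var k P} (ρ : Prj Ω' Ω)
    (π : Prj Ω X) (χ : Prj Ω' X), (∀ x ∈ Ω'.pts, χ.pr x = π.pr (ρ.pr x)) →
    ∀ z, pl χ z = pl ρ (pl π z)
  pl_hy : ∀ {P P' : Amb} {Ω : Var k P'} {X : Var k P} (π : Prj Ω X) (i : P.ι),
    pl π (hy X i) = hy Ω (π.ψ i)
  cy_zero : ∀ {P : Amb} (X : Var k P) (Z : Sub k P), ¬ (Z : Set (P.Pt k)) ⊆ X.pts → cy X Z = 0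
  cy_mem : ∀ {P : Amb} (X : Var k P) (Z : Sub k P), ∃ c, cy X Z ∈ AA X c
  AA_le : ∀ {P : Amb} (X : Var k P) (c : ℕ), AA X c ≤ spn (cy X) X.pts fun _ => True
  AA_eq : ∀ {P : Amb} (X : Var k P), IsIrreducible X.pts → ∀ c,
    AA X c = spn (cy X) X.pts fun U => sdim U + c = X.dim
  cy_top : ∀ {P : Amb} (X : Var k P) (h : IsIrreducible X.pts), cy X (X.top h) = 1
  pd : ∀ {P : Amb} (X : Var k P) (x : E X), (∀ z, tau X (x * z) = 0) → x = 0
  tau_iso : ∀ {P P' : Amb} {Ω : Var k P'} {X : Var k P} (π : Prj Ω X) (ψ : Hom X Ω),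
    IsIrreducible X.pts → Inv π.hom ψ → ∀ y, tau Ω (pl π y) = tau X y
  tau_pt : ∀ {P : Amb} (X : Var k P) (Z : Sub k P), (Z : Set (P.Pt k)) ⊆ X.pts → sdim Z = 0 →
    tau X (cy X Z) = 1

attribute [instance] NT.ring NT.alg

variable {K : Type v} [Field K]

/-- The compatibility of cycle classes with divisors, push-forward and proper intersections. -/
structure NT.Chow (C : NT.{u, v, w} k K) : Prop where
  div : ∀ {P : Amb} (X : Var k P) {Z : Sub k P}, (Z : Set (P.Pt k)) ⊆ X.pts →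
    ∀ (f : MvPolynomial P.V k) (a : P.ι →₀ ℕ), IsForm f a → ¬ Van (Z : Set (P.Pt k)) f →
    ∀ s : Finset (Sub k P), (∀ T, 0 < mu Z T f → T ∈ s) →
      C.cy X Z * lin (C.hy X) a = ∑ T ∈ s, (mu Z T f : ℚ) • C.cy X T
  push : ∀ {P P' : Amb} {Ω : Var k P'} {X : Var k P} (π : Prj Ω X) {Z : Sub k P'},
    (Z : Set (P'.Pt k)) ⊆ Ω.pts → ∃ n : ℕ, (0 < n ↔ sdim Z = sdim (π.img Z)) ∧
      ∀ y, C.tau Ω (C.cy Ω Z * C.pl π y) = n * C.tau X (C.cy X (π.img Z) * y)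
  meet : ∀ {P P' : Amb} {Ω : Var k P'} {X : Var k P} (π : Prj Ω X) {Z : Sub k P'},
    (Z : Set (P'.Pt k)) ⊆ Ω.pts → ∀ {T : Sub k P}, (T : Set (P.Pt k)) ⊆ X.pts →
    (∀ U ≤ Z, π.img U ≤ T → sdim U + X.dim ≤ sdim Z + sdim T) →
    C.cy Ω Z * C.pl π (C.cy X T) ∈
      spn (C.cy Ω) Ω.pts fun U => U ≤ Z ∧ π.img U ≤ T ∧ sdim U + X.dim = sdim Z + sdim T

end Pool.Agent.Work.MP_ffcd14_ag
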