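import Pool.Agent.Work.MP_ffcd14_ag.Cyc.Noeth

/-! # Multihomogeneous ideals -/

open MvPolynomial Topology TopologicalSpace Filter

namespace Pool.Agent.Work.MP_ffcd14_ag

universe u v w

open Noeth

variable {k : Type u} [Field k] {P : Amb}

/-- The component of degree `a`. -/
noncomputable def cpt (a : P.ι →₀ ℕ) : MvPolynomial P.V k →ₗ[k] MvPolynomial P.V k :=
  weightedHomogeneousComponent (fun s : P.V => Finsupp.single s.1 1) a

/-- `J` is multihomogeneous. -/
def Hmg (J : Ideal (MvPolynomial P.V k)) : Prop := ∀ f ∈ J, ∀ a, cpt a f ∈ J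

theorem cpt_form (a : P.ι →₀ ℕ) (f : MvPolynomial P.V k) : IsForm (cpt a f) a := by
  exact weightedHomogeneousComponent_isWeightedHomogeneous a f

theorem cpt_self {a : P.ι →₀ ℕ} {f : MvPolynomial P.V k} (hf : IsForm f a) : cpt a f = f := by
  exact IsWeightedHomogeneous.weightedHomogeneousComponent_same hf

theorem GrA_ne {a b : P.ι →₀ ℕ} {f : MvPolynomial P.V k} (hf : IsForm f b) (h : a ≠ b) :
    cpt a f = 0 :=
  IsWeightedHomogeneous.weightedHomogeneousComponent_ne a hf h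

theorem GrA_mem {J : Ideal (MvPolynomial P.V k)} {f : MvPolynomial P.V k}
    (h : ∀ a, cpt a f ∈ J) : f ∈ J := by
  rw [← sum_weightedHomogeneousComponent (fun s : P.V => (Finsupp.single s.1 1 : P.ι →₀ ℕ)) f,
    finsum_eq_sum _ (weightedHomogeneousComponent_finsupp f)]
  exact J.sum_mem fun a _ => h a

theorem cpt_mul {g : MvPolynomial P.V k} {e : P.ι →₀ ℕ} (hg : IsForm g e) (a : P.ι →₀ ℕ)
    (f : MvPolynomial P.V k) : cpt (a + e) (f * g) = cpt a f * g := by
  induction f using MvPolynomial.induction_on' with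
  | monomial d r =>
    have h1 : IsForm (monomial d r : MvPolynomial P.V k)
        (Finsupp.weight (fun s : P.V => Finsupp.single s.1 1) d) :=
      isWeightedHomogeneous_monomial _ d r rfl
    by_cases h : a = Finsupp.weight (fun s : P.V => Finsupp.single s.1 1) d
    · rw [h, cpt_self h1, cpt_self (h1.mul hg)]
    · rw [GrA_ne h1 h, GrA_ne (h1.mul hg) fun e => h (add_right_cancel e), zero_mul]
  | add p q hp hq => rw [add_mul, map_add, map_add, hp, hq, add_mul]

theorem Hmg.le {J J' : Ideal (MvPolynomial P.V k)} (hJ : Hmg J)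
    (h : ∀ f a, IsForm f a → f ∈ J → f ∈ J') : J ≤ J' := by
  exact fun f hf => GrA_mem fun a => h _ a (cpt_form a f) (hJ f hf a)

theorem Hmg.span {s : Set (MvPolynomial P.V k)} (h : ∀ f ∈ s, ∃ a, IsForm f a) :
    Hmg (Ideal.span s) := by
  classical
  let _ := weightedGradedAlgebra k (fun s : P.V => (Finsupp.single s.1 1 : P.ι →₀ ℕ))
  have h1 : (Ideal.span s).IsHomogeneous
      (weightedHomogeneousSubmodule k (fun s : P.V => (Finsupp.single s.1 1 : P.ι →₀ ℕ))) :=
    Ideal.homogeneous_span _ s h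
  exact fun f hf a => weightedHomogeneousComponent_mem_of_mem k _ h1 hf a

theorem Hmg.sup {J J' : Ideal (MvPolynomial P.V k)} (hJ : Hmg J) (hJ' : Hmg J') :
    Hmg (J ⊔ J') := by
  intro f hf a
  obtain ⟨x, hx, y, hy, rfl⟩ := Submodule.mem_sup.mp hf
  rw [map_add]
  exact Submodule.add_mem_sup (hJ x hx a) (hJ' y hy a)

theorem Hmg.colon {J : Ideal (MvPolynomial P.V k)} (hJ : Hmg J) {g : MvPolynomial P.V k}
    {e : P.ι →₀ ℕ} (hg : IsForm g e) : Hmg (J.colon {g}) := by
  intro f hf a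
  rw [Submodule.mem_colon_singleton, smul_eq_mul] at hf ⊢
  rw [← cpt_mul hg]
  exact hJ _ hf _

theorem Hmg.isPrime {J : Ideal (MvPolynomial P.V k)} (hJ : Hmg J) (h1 : J ≠ ⊤)
    (h : ∀ f g a b, IsForm f a → IsForm g b → f * g ∈ J → f ∈ J ∨ g ∈ J) : J.IsPrime := by
  let _ : LinearOrder P.ι := IsWellOrder.linearOrder WellOrderingRel
  let w : P.V → Lex (P.ι →₀ ℕ) := fun s => toLex (Finsupp.single s.1 1)
  let _ : DecidableEq (Lex (P.ι →₀ ℕ)) := LinearOrder.toDecidableEq
  let _ := weightedGradedAlgebra k w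
  have hw : ∀ d : P.V →₀ ℕ, ofLex (Finsupp.weight w d) =
      Finsupp.weight (fun s : P.V => (Finsupp.single s.1 1 : P.ι →₀ ℕ)) d := fun _ => rfl
  have hc : ∀ a f, weightedHomogeneousComponent w a f = cpt (k := k) (ofLex a) f := by
    intro a f
    ext d
    rw [cpt, coeff_weightedHomogeneousComponent, coeff_weightedHomogeneousComponent, ← hw]
    simp only [ofLex_inj]
  have hf : ∀ (f : MvPolynomial P.V k) a, IsWeightedHomogeneous w f a → IsForm f (ofLex a) := by
    intro f a hf d hd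
    rw [← hw, hf hd]
  refine Ideal.IsHomogeneous.isPrime_of_homogeneous_mem_or_mem
    (𝒜 := weightedHomogeneousSubmodule k w) (fun a f hf => ?_) h1 ?_
  · have h2 := weightedDecomposition.decompose'_apply k w f a
    rw [hc] at h2
    have h3 := hJ f hf (ofLex a)
    rw [← h2] at h3
    exact h3
  · rintro x y ⟨a, ha⟩ ⟨b, hb⟩
    exact h x y _ _ (hf x a ha) (hf y b hb)

/-- Filtration by multihomogeneous primes. -/
theorem gr_induction {Q : Ideal (MvPolynomial P.V k) → Prop} (top : Q ⊤)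
    (step : ∀ J g e, Hmg J → IsForm g e → (J.colon {g}).IsPrime → Q (J ⊔ Ideal.span {g}) → Q J)
    {J : Ideal (MvPolynomial P.V k)} (hJ : Hmg J) : Q J := by
  induction J using IsNoetherian.induction with
  | hgt J ih =>
    by_cases hT : J = ⊤
    · exact hT ▸ top
    obtain ⟨_, ⟨g, e, hg, hgJ, rfl⟩, hmax⟩ :=
      (wellFounded_gt (α := Ideal (MvPolynomial P.V k))).has_min
      {I | ∃ g e, IsForm g e ∧ g ∉ J ∧ I = J.colon {g}}
      ⟨_, 1, 0, IsForm.one, (Ideal.ne_top_iff_one J).mp hT, rfl⟩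
    refine step J g e hJ hg ((hJ.colon hg).isPrime ?_ fun f h a b _ hh hfh => ?_) (ih _ ?_ ?_)
    · rw [Ideal.ne_top_iff_one, Submodule.mem_colon_singleton, one_smul]
      exact hgJ
    · by_cases h1 : h * g ∈ J
      · exact Or.inr (Submodule.mem_colon_singleton.mpr h1)
      · have h2 : J.colon {g} ≤ J.colon {h * g} := fun x hx => by
          rw [Submodule.mem_colon_singleton, smul_eq_mul] at hx ⊢
          rw [mul_left_comm]
          exact Ideal.mul_mem_left J _ hx
        have h3 := h2.eq_of_not_lt (hmax _ ⟨h * g, _, hh.mul hg, h1, rfl⟩)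
        refine Or.inl (h3 ▸ ?_)
        rw [Submodule.mem_colon_singleton, smul_eq_mul] at hfh ⊢
        rwa [← mul_assoc]
    · exact lt_of_le_of_ne le_sup_left fun h =>
        hgJ (h ▸ Submodule.mem_sup_right (Ideal.mem_span_singleton_self g))
    · exact hJ.sup (Hmg.span fun f hf => ⟨e, hf ▸ hg⟩)

theorem idl_hmg (A : Set (P.Pt k)) : Hmg (idl A) := by
  exact Hmg.span fun f hf => hf.1

theorem mem_idl {A : Set (P.Pt k)} {f : MvPolynomial P.V k} {a : P.ι →₀ ℕ} (hf : IsForm f a) :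
    f ∈ idl A ↔ Van A f := by
  exact ⟨van_of_mem, fun h => Ideal.subset_span ⟨⟨a, hf⟩, h⟩⟩

theorem idl_prime (T : Sub k P) : (idl (T : Set (P.Pt k))).IsPrime := by
  refine (idl_hmg _).isPrime ?_ fun f g a b hf hg h => ?_
  · obtain ⟨x, hx⟩ := T.isIrreducible.nonempty
    rw [Ideal.ne_top_iff_one]
    intro h
    simpa [ev] using van_of_mem h x hx
  · rw [mem_idl hf, mem_idl hg]
    exact Van.mul hf hg (van_of_mem h)

theorem idl_le_iff {Z T : Sub k P} :
    idl (Z : Set (P.Pt k)) ≤ idl (T : Set (P.Pt k)) ↔ T ≤ Z := by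
  exact ⟨fun h => subset_of_van Z.isClosed fun f a hf hv => van_of_mem (h ((mem_idl hf).mpr hv)),
    fun h => Ideal.span_mono fun f hf => ⟨hf.1, fun x hx => hf.2 x (h hx)⟩⟩

theorem X_notMem_idl (T : Sub k P) (i : P.ι) :
    ∃ s, (X ⟨i, s⟩ : MvPolynomial P.V k) ∉ idl (T : Set (P.Pt k)) := by
  obtain ⟨ς, h⟩ := mono_not_van T
  exact ⟨ς i, fun h0 => exists_inCh_iff.mp h i (van_of_mem h0)⟩

/-- A multihomogeneous prime is irrelevant or the ideal of a subvariety. -/
theorem Hmg.rel [IsAlgClosed k] {p : Ideal (MvPolynomial P.V k)} (hp : Hmg p) [p.IsPrime] :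
    (∃ i, ∀ s, (X ⟨i, s⟩ : MvPolynomial P.V k) ∈ p) ∨
      ∃ T : Sub k P, p = idl (T : Set (P.Pt k)) := by
  by_cases h : ∃ i, ∀ s, (X ⟨i, s⟩ : MvPolynomial P.V k) ∈ p
  · exact Or.inl h
  push Not at h
  obtain ⟨L, _, _, v, hv, -⟩ := exists_frac p
  obtain ⟨T, hT⟩ := exists_loc (k := k) v fun i => (h i).imp fun s hs h0 =>
    hs ((hv _).mp (by rw [aeval_X]; exact h0))
  exact Or.inr ⟨T, le_antisymm
    (hp.le fun f a hf h0 => (mem_idl hf).mpr ((hT.iff f a hf).mp ((hv f).mpr h0)))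
    ((idl_hmg _).le fun f a hf h0 => (hv f).mp ((hT.iff f a hf).mpr ((mem_idl hf).mp h0)))⟩

end Pool.Agent.Work.MP_ffcd14_ag
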