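import Pool.Agent.Work.MP_ffcd14_ag.Cyc.VDefs

/-! # Multiplicities: additivity -/

open MvPolynomial Topology TopologicalSpace Filter

namespace Pool.Agent.Work.MP_ffcd14_ag

universe u v w

variable {R : Type u} [CommRing R]

theorem Mult_exact (S : Submonoid R) {A B C : Type u} [AddCommGroup A] [Module R A]
    [AddCommGroup B] [Module R B] [AddCommGroup C] [Module R C] (f : A →ₗ[R] B) (g : B →ₗ[R] C)
    (hf : Function.Injective f) (hg : Function.Surjective g) (h : Function.Exact f g) :
    Module.length (Localization S) (LocalizedModule S B) =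
      Module.length (Localization S) (LocalizedModule S A) +
        Module.length (Localization S) (LocalizedModule S C) :=
  Module.length_eq_add_of_exact (LocalizedModule.map S f) (LocalizedModule.map S g)
    (LocalizedModule.map_injective S f hf) (LocalizedModule.map_surjective S g hg)
    (LocalizedModule.map_exact S f g h)

theorem Mult_mem (p : Ideal R) [hp : p.IsPrime] {x : R} :
    x ∈ Submonoid.closure (p : Set R)ᶜ ↔ x ∉ p := by
  have : Submonoid.closure (p : Set R)ᶜ = p.primeCompl := Submonoid.closure_eq p.primeCompl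
  rw [this]
  rfl

theorem len_add (p J : Ideal R) (g : R) :
    len p J = len p (J.colon {g}) + len p (J ⊔ Ideal.span {g}) := by
  have hle : J.colon {g} ≤ Submodule.comap (LinearMap.mul R R g) J := fun x hx => by
    rw [Submodule.mem_colon_singleton, smul_eq_mul, mul_comm] at hx
    exact hx
  refine Mult_exact _ (Submodule.mapQ (J.colon {g}) J (LinearMap.mul R R g) hle)
    (Submodule.factor (le_sup_left : J ≤ J ⊔ Ideal.span {g})) ?_
    (Submodule.factor_surjective _) ?_
  · rw [injective_iff_map_eq_zero]
    intro x hx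
    obtain ⟨y, rfl⟩ := Submodule.Quotient.mk_surjective _ x
    rw [Submodule.mapQ_apply, Submodule.Quotient.mk_eq_zero] at hx
    rw [Submodule.Quotient.mk_eq_zero, Submodule.mem_colon_singleton, smul_eq_mul, mul_comm]
    exact hx
  · intro x
    obtain ⟨y, rfl⟩ := Submodule.Quotient.mk_surjective _ x
    have e : Submodule.factor (le_sup_left : J ≤ J ⊔ Ideal.span {g})
        (Submodule.Quotient.mk y) = Submodule.Quotient.mk y := rfl
    rw [e, Submodule.Quotient.mk_eq_zero]
    constructor
    · intro hy
      obtain ⟨a, ha, b, hb, rfl⟩ := Submodule.mem_sup.1 hy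
      obtain ⟨c, rfl⟩ := Ideal.mem_span_singleton'.1 hb
      refine ⟨Submodule.Quotient.mk c, ?_⟩
      rw [Submodule.mapQ_apply, Submodule.Quotient.eq]
      have : (LinearMap.mul R R g) c - (a + c * g) = -a := by
        simp only [LinearMap.mul_apply']
        ring
      rw [this]
      exact J.neg_mem ha
    · rintro ⟨z, hz⟩
      obtain ⟨c, rfl⟩ := Submodule.Quotient.mk_surjective _ z
      rw [Submodule.mapQ_apply, Submodule.Quotient.eq] at hz
      have : y = -((LinearMap.mul R R g) c - y) + c * g := by
        simp only [LinearMap.mul_apply']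
        ring
      rw [this]
      exact Submodule.add_mem_sup (J.neg_mem hz) (Ideal.mem_span_singleton'.2 ⟨c, rfl⟩)

theorem len_eq_zero_iff (p J : Ideal R) [p.IsPrime] : len p J = 0 ↔ ¬ J ≤ p := by
  rw [len, Module.length_eq_zero_iff, LocalizedModule.subsingleton_iff]
  constructor
  · intro h hJ
    obtain ⟨r, hr, e⟩ := h (Submodule.Quotient.mk 1)
    rw [← Submodule.Quotient.mk_smul, Submodule.Quotient.mk_eq_zero, smul_eq_mul, mul_one] at e
    exact (Mult_mem p).1 hr (hJ e)
  · intro h m
    obtain ⟨r, hr, hr'⟩ := Set.not_subset.1 h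
    obtain ⟨y, rfl⟩ := Submodule.Quotient.mk_surjective _ m
    refine ⟨r, (Mult_mem p).2 hr', ?_⟩
    rw [← Submodule.Quotient.mk_smul, Submodule.Quotient.mk_eq_zero, smul_eq_mul]
    exact J.mul_mem_right _ hr

theorem len_self (p : Ideal R) [p.IsPrime] : len p p = 1 := by
  have h0 := (len_eq_zero_iff p p).not.2 (not_not.2 le_rfl)
  rw [len, Module.length_eq_zero_iff, not_subsingleton_iff_nontrivial] at h0
  rw [len, Module.length_eq_one_iff, isSimpleModule_iff_toSpanSingleton_surjective]
  refine ⟨h0, fun x hx y => ?_⟩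
  induction x using LocalizedModule.induction_on with
  | _ m s =>
  induction y using LocalizedModule.induction_on with
  | _ m' s' =>
  obtain ⟨a, rfl⟩ := Submodule.Quotient.mk_surjective _ m
  obtain ⟨b, rfl⟩ := Submodule.Quotient.mk_surjective _ m'
  have ha : a ∉ p := fun ha => hx (by
    rw [(Submodule.Quotient.mk_eq_zero _).2 ha, LocalizedModule.zero_mk])
  refine ⟨Localization.mk (b * s) (⟨a, (Mult_mem p).2 ha⟩ * s'), ?_⟩
  rw [LinearMap.toSpanSingleton_apply, LocalizedModule.mk_smul_mk, LocalizedModule.mk_eq]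
  refine ⟨1, ?_⟩
  simp only [one_smul, Submonoid.smul_def, ← Submodule.Quotient.mk_smul, smul_eq_mul,
    Submonoid.coe_mul]
  congr 1
  ring

theorem colon_prime {p : Ideal R} [p.IsPrime] {g : R} (hg : g ∉ p) : p.colon {g} = p := by
  ext x
  rw [Submodule.mem_colon_singleton, smul_eq_mul]
  exact ⟨fun h => (Ideal.IsPrime.mem_or_mem ‹_› h).resolve_right hg, fun h => p.mul_mem_right _ h⟩

theorem len_mul (p I : Ideal R) [I.IsPrime] (f : R) {g : R} (hg : g ∉ I) :
    len p (I ⊔ Ideal.span {f * g}) = len p (I ⊔ Ideal.span {f}) + len p (I ⊔ Ideal.span {g}) := by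
  have e1 : (I ⊔ Ideal.span {f * g}).colon {g} = I ⊔ Ideal.span {f} := by
    ext x
    rw [Submodule.mem_colon_singleton, smul_eq_mul]
    constructor
    · intro h
      obtain ⟨a, ha, b, hb, e⟩ := Submodule.mem_sup.1 h
      obtain ⟨c, rfl⟩ := Ideal.mem_span_singleton'.1 hb
      have h1 : (x - c * f) * g ∈ I := by
        have : (x - c * f) * g = a := by linear_combination -e
        rw [this]
        exact ha
      have h2 := (Ideal.IsPrime.mem_or_mem ‹_› h1).resolve_right hg
      have : x = (x - c * f) + c * f := by ring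
      rw [this]
      exact Submodule.add_mem_sup h2 (Ideal.mem_span_singleton'.2 ⟨c, rfl⟩)
    · intro h
      obtain ⟨a, ha, b, hb, rfl⟩ := Submodule.mem_sup.1 h
      obtain ⟨c, rfl⟩ := Ideal.mem_span_singleton'.1 hb
      have : (a + c * f) * g = a * g + c * (f * g) := by ring
      rw [this]
      exact Submodule.add_mem_sup (I.mul_mem_right _ ha) (Ideal.mem_span_singleton'.2 ⟨c, rfl⟩)
  have e2 : I ⊔ Ideal.span {f * g} ⊔ Ideal.span {g} = I ⊔ Ideal.span {g} := by
    rw [sup_assoc, sup_eq_right.2 (Ideal.span_singleton_le_span_singleton.2 (dvd_mul_left g f))]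
  rw [len_add p _ g, e1, e2]

end Pool.Agent.Work.MP_ffcd14_ag
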