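import Mathlib

/-! # Transcendence degree of quotients of polynomial rings by primes -/

open MvPolynomial

namespace Pool.Agent.Work.MP_ffcd14_ag

universe u

variable {k : Type u} [Field k] {σ : Type} [Finite σ]

theorem KR_drop {B C : Type u} [CommRing B] [IsDomain B] [Algebra k B] [CommRing C] [IsDomain C]
    [Algebra k C] (f : B →ₐ[k] C) (hf : Function.Surjective f) {g : B} (hg : g ≠ 0)
    (hfg : f g = 0) : Algebra.trdeg k C + 1 ≤ Algebra.trdeg k B := by
  obtain ⟨ι, x, hx⟩ := exists_isTranscendenceBasis' k C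
  choose y hy using fun i => hf (x i)
  have e : f ∘ y = x := funext hy
  have h1 : AlgebraicIndependent k y := AlgebraicIndependent.of_comp f (e ▸ hx.1)
  have h2 : Transcendental (Algebra.adjoin k (Set.range y)) g := by
    intro ha
    obtain ⟨r, hr, c, hc⟩ := ha.exists_nonzero_dvd (mem_nonZeroDivisors_of_ne_zero hg)
    obtain ⟨r, hr'⟩ := r
    rw [Algebra.adjoin_range_eq_range_aeval] at hr'
    obtain ⟨P, rfl⟩ := hr'
    have h3 : f (aeval y P) = 0 := by
      have h4 : aeval y P = g * c := hc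
      rw [h4, map_mul, hfg, zero_mul]
    rw [← AlgHom.comp_apply, comp_aeval] at h3
    have h5 : P = 0 := hx.1.eq_zero_of_aeval_eq_zero P (by rw [← e]; exact h3)
    exact hr (Subtype.ext (by simp [h5]))
  have h3 := ((h1.option_iff_transcendental g).2 h2).cardinalMk_le_trdeg
  rwa [Cardinal.mk_option, hx.cardinalMk_eq_trdeg] at h3

/-- The transcendence degree drops strictly along a strict inclusion of primes. -/
theorem trdeg_drop (p q : Ideal (MvPolynomial σ k)) [p.IsPrime] [q.IsPrime] (h : p < q) :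
    Algebra.trdeg k (MvPolynomial σ k ⧸ q) + 1 ≤ Algebra.trdeg k (MvPolynomial σ k ⧸ p) := by
  obtain ⟨g, hgq, hgp⟩ := Set.exists_of_ssubset h
  refine KR_drop (Ideal.Quotient.factorₐ k h.le) (Ideal.Quotient.factor_surjective h.le)
    (g := Ideal.Quotient.mk p g) (fun e => hgp (Ideal.Quotient.eq_zero_iff_mem.1 e)) ?_
  exact Ideal.Quotient.eq_zero_iff_mem.2 hgq

theorem KR_hyp {n : ℕ} {φ : MvPolynomial (Fin n) k} (hφ : Prime φ) :
    Algebra.trdeg k (MvPolynomial (Fin n) k) ≤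
      Algebra.trdeg k (MvPolynomial (Fin n) k ⧸ Ideal.span {φ}) + 1 := by
  classical
  obtain ⟨j, hj⟩ : φ.vars.Nonempty := by
    rw [Finset.nonempty_iff_ne_empty]
    intro e
    rw [vars_eq_empty_iff_eq_C] at e
    have h0 : coeff 0 φ ≠ 0 := fun h => hφ.ne_zero (by rw [e, h, map_zero])
    exact hφ.not_isUnit (e ▸ (IsUnit.mk0 _ h0).map C)
  have h1 : AlgebraicIndependent k fun i : {i // i ≠ j} =>
      Ideal.Quotient.mk (Ideal.span {φ}) (X i.1) := by
    rw [algebraicIndependent_iff]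
    intro P hP
    have e : aeval (fun i : {i // i ≠ j} => Ideal.Quotient.mk (Ideal.span {φ}) (X i.1)) P =
        Ideal.Quotient.mkₐ k (Ideal.span {φ}) (rename Subtype.val P) := by
      rw [rename_eq_aeval, ← AlgHom.comp_apply, comp_aeval]
      rfl
    rw [e, Ideal.Quotient.mkₐ_eq_mk, Ideal.Quotient.eq_zero_iff_mem, Ideal.mem_span_singleton] at hP
    obtain ⟨ψ, hψ⟩ := hP
    by_contra h0
    have h2 : rename (Subtype.val : {i // i ≠ j} → Fin n) P ≠ 0 := fun h =>
      h0 (rename_injective _ Subtype.val_injective (h.trans (map_zero _).symm))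
    have h3 : degreeOf j (rename (Subtype.val : {i // i ≠ j} → Fin n) P) = 0 := by
      by_contra h4
      obtain ⟨i, -, hi⟩ := Finset.mem_image.1
        (vars_rename _ _ (mem_vars_iff_degreeOf_ne_zero.2 h4))
      exact i.2 hi
    rw [hψ] at h2 h3
    rw [degreeOf_mul_eq (left_ne_zero_of_mul h2) (right_ne_zero_of_mul h2)] at h3
    exact mem_vars_iff_degreeOf_ne_zero.1 hj (by omega)
  have h2 := h1.lift_cardinalMk_le_trdeg
  rw [trdeg_of_isDomain]
  have h3 : Cardinal.mk (Fin n) = Cardinal.mk {i : Fin n // i ≠ j} + 1 := by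
    rw [← Cardinal.mk_option]
    exact (Cardinal.mk_congr (Equiv.optionSubtypeNe j)).symm
  rw [h3, Cardinal.lift_add, Cardinal.lift_one]
  rw [Cardinal.lift_uzero] at h2
  exact add_le_add_left h2 1

theorem KR_main {B : Type u} [CommRing B] [IsDomain B] [Algebra k B] [Algebra.FiniteType k B]
    (r : Ideal B) [r.IsPrime] {g : B} (hg : g ≠ 0) (hr : r ∈ (Ideal.span {g}).minimalPrimes) :
    Algebra.trdeg k B ≤ Algebra.trdeg k (B ⧸ r) + 1 := by
  have := Algebra.FiniteType.isNoetherianRing k B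
  have hh := Ideal.height_le_one_of_isPrincipal_of_mem_minimalPrimes _ r hr
  obtain ⟨n, f, hinj, hint⟩ := exists_integral_inj_algHom_of_fg k B
  let _ : Algebra (MvPolynomial (Fin n) k) B := f.toRingHom.toAlgebra
  have : IsScalarTower k (MvPolynomial (Fin n) k) B :=
    IsScalarTower.of_algebraMap_eq fun c => (f.commutes c).symm
  have : FaithfulSMul (MvPolynomial (Fin n) k) B :=
    (faithfulSMul_iff_algebraMap_injective _ _).2 hinj
  have : Algebra.IsIntegral (MvPolynomial (Fin n) k) B := ⟨hint⟩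
  have e1 : Algebra.trdeg k (MvPolynomial (Fin n) k) = Algebra.trdeg k B := by
    rw [← trdeg_add_eq k (MvPolynomial (Fin n) k) (A := B),
      trdeg_eq_zero (R := MvPolynomial (Fin n) k) (A := B), add_zero]
  have hgr : g ∈ r := hr.1.2 (Ideal.mem_span_singleton_self g)
  have hne : r.under (MvPolynomial (Fin n) k) ≠ ⊥ := by
    obtain ⟨a, ha, c, hc⟩ := (Algebra.IsAlgebraic.isAlgebraic
      (R := MvPolynomial (Fin n) k) g).exists_nonzero_dvd (mem_nonZeroDivisors_of_ne_zero hg)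
    intro e
    have h1 : a ∈ r.under (MvPolynomial (Fin n) k) := by
      rw [Ideal.under_def, Ideal.mem_comap, hc]
      exact r.mul_mem_right _ hgr
    rw [e] at h1
    exact ha h1
  obtain ⟨φ, hφ, hφp⟩ := Ideal.IsPrime.exists_mem_prime_of_ne_bot inferInstance hne
  have hsp : (Ideal.span {φ}).IsPrime := (Ideal.span_singleton_prime hφp.ne_zero).2 hφp
  have e2 : Ideal.span {φ} = r.under (MvPolynomial (Fin n) k) := by
    by_contra hc
    have hlt := lt_of_le_of_ne ((Ideal.span_singleton_le_iff_mem _).2 hφ) hc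
    obtain ⟨P, hP, hPp, hPl⟩ := Ideal.exists_ideal_lt_liesOver_of_lt r hlt
    have h1 : (⊥ : Ideal B) < P := by
      refine bot_lt_iff_ne_bot.2 fun e => ?_
      have h2 : φ ∈ P.under (MvPolynomial (Fin n) k) :=
        hPl.over ▸ Ideal.mem_span_singleton_self φ
      rw [e, Ideal.under_def, Ideal.mem_comap, Ideal.mem_bot] at h2
      exact hφp.ne_zero (hinj (h2.trans (map_zero f).symm))
    have h2 := Ideal.height_add_one_le_of_lt_of_isPrime h1
    have h3 := Ideal.height_add_one_le_of_lt_of_isPrime hP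
    rw [Ideal.height_bot, zero_add] at h2
    have h4 : (1 : ℕ∞) + 1 ≤ 1 := ((add_le_add_left h2 1).trans h3).trans hh
    exact absurd h4 (by decide)
  have h5 : Algebra.trdeg k (MvPolynomial (Fin n) k ⧸ Ideal.span {φ}) ≤
      Algebra.trdeg k (B ⧸ r) :=
    trdeg_le_of_injective (Ideal.quotientMapₐ r f e2.le)
      (Ideal.quotientMap_injective' (H := e2.le) e2.ge)
  rw [← e1]
  exact (KR_hyp hφp).trans (add_le_add_left h5 1)

/-- Krull's principal ideal theorem, with transcendence degrees. -/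
theorem kr (p q : Ideal (MvPolynomial σ k)) [p.IsPrime] [q.IsPrime] (hpq : p ≤ q)
    {g : MvPolynomial σ k} (hgp : g ∉ p) (hgq : g ∈ q) :
    ∃ r : Ideal (MvPolynomial σ k), r.IsPrime ∧ p ≤ r ∧ r ≤ q ∧ g ∈ r ∧
      Algebra.trdeg k (MvPolynomial σ k ⧸ r) + 1 = Algebra.trdeg k (MvPolynomial σ k ⧸ p) := by
  have hq : (q.map (Ideal.Quotient.mk p)).IsPrime :=
    Ideal.map_isPrime_of_surjective Ideal.Quotient.mk_surjective (by rwa [Ideal.mk_ker])
  have hg : Ideal.Quotient.mk p g ≠ 0 := fun e => hgp (Ideal.Quotient.eq_zero_iff_mem.1 e)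
  obtain ⟨r, hr, hrq⟩ := Ideal.exists_minimalPrimes_le
    ((Ideal.span_singleton_le_iff_mem _).2 (Ideal.mem_map_of_mem (Ideal.Quotient.mk p) hgq))
  have hrp : r.IsPrime := hr.1.1
  let F : MvPolynomial σ k →ₐ[k] (MvPolynomial σ k ⧸ p) ⧸ r :=
    (Ideal.Quotient.mkₐ k r).comp (Ideal.Quotient.mkₐ k p)
  have hF : Function.Surjective F :=
    (Ideal.Quotient.mkₐ_surjective k r).comp (Ideal.Quotient.mkₐ_surjective k p)
  have mem : ∀ a, a ∈ RingHom.ker F ↔ Ideal.Quotient.mk p a ∈ r := fun a =>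
    Ideal.Quotient.eq_zero_iff_mem
  have h1 : (RingHom.ker F).IsPrime := RingHom.ker_isPrime F
  have h2 : p ≤ RingHom.ker F := fun a ha => (mem a).2 (by
    rw [Ideal.Quotient.eq_zero_iff_mem.2 ha]; exact r.zero_mem)
  have h3 : g ∈ RingHom.ker F := (mem g).2 (hr.1.2 (Ideal.mem_span_singleton_self _))
  refine ⟨RingHom.ker F, h1, h2, fun a ha => ?_, h3, le_antisymm
    (trdeg_drop p _ (lt_of_le_of_ne h2 fun e => hgp (e ▸ h3))) ?_⟩
  · have h4 := hrq ((mem a).1 ha)
    rwa [Ideal.mem_quotient_iff_mem hpq] at h4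
  · have h4 : Algebra.trdeg k (MvPolynomial σ k ⧸ RingHom.ker F) =
        Algebra.trdeg k ((MvPolynomial σ k ⧸ p) ⧸ r) :=
      AlgEquiv.trdeg_eq (Ideal.quotientKerAlgEquivOfSurjective hF)
    rw [h4]
    exact KR_main r hg hr

theorem KR_fin (q : Ideal (MvPolynomial σ k)) [q.IsPrime] (m : ℕ) :
    ∀ (p : Ideal (MvPolynomial σ k)) [p.IsPrime] (_ : p ≤ q) (g : Fin m → MvPolynomial σ k)
      (_ : ∀ j, g j ∈ q), ∃ r : Ideal (MvPolynomial σ k), r.IsPrime ∧ p ≤ r ∧ r ≤ q ∧
        (∀ j, g j ∈ r) ∧ Algebra.trdeg k (MvPolynomial σ k ⧸ p) ≤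
          Algebra.trdeg k (MvPolynomial σ k ⧸ r) + (m : Cardinal) := by
  induction m with
  | zero => exact fun p hp hpq g _ => ⟨p, hp, le_rfl, hpq, fun j => j.elim0, by simp⟩
  | succ m ih =>
    intro p hp hpq g hg
    obtain ⟨r, hr, h1, h2, h3, h4⟩ := ih p hpq (fun j => g j.succ) fun j => hg _
    by_cases h0 : g 0 ∈ r
    · refine ⟨r, hr, h1, h2, Fin.cases h0 h3, h4.trans ?_⟩
      push_cast
      rw [← add_assoc]
      exact le_self_add
    · obtain ⟨r', hr', a1, a2, a3, a4⟩ := kr r q h2 h0 (hg 0)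
      refine ⟨r', hr', h1.trans a1, a2, Fin.cases a3 fun j => a1 (h3 j), h4.trans ?_⟩
      rw [← a4]
      push_cast
      rw [add_assoc, add_comm 1]

/-- Krull's height theorem, with transcendence degrees. -/
theorem kr_many (p q : Ideal (MvPolynomial σ k)) [p.IsPrime] [q.IsPrime] (hpq : p ≤ q)
    {κ : Type} [Finite κ] (g : κ → MvPolynomial σ k) (hgq : ∀ j, g j ∈ q) :
    ∃ r : Ideal (MvPolynomial σ k), r.IsPrime ∧ p ≤ r ∧ r ≤ q ∧ (∀ j, g j ∈ r) ∧
      Algebra.trdeg k (MvPolynomial σ k ⧸ p) ≤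
        Algebra.trdeg k (MvPolynomial σ k ⧸ r) + (Nat.card κ : Cardinal) := by
  obtain ⟨r, hr, h1, h2, h3, h4⟩ := KR_fin q (Nat.card κ) p hpq
    (fun j => g ((Finite.equivFin κ).symm j)) fun j => hgq _
  exact ⟨r, hr, h1, h2, fun j => by simpa using h3 (Finite.equivFin κ j), h4⟩

end Pool.Agent.Work.MP_ffcd14_ag
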