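import Pool.Agent.Work.MP_ffcd14_ag.Defs

/-!
# The axioms for the cycle class map

The cycle class map of a Weil cohomology is compatible with first Chern classes, with push-forward
and with the intersection of cycles which meet properly.
-/

open MvPolynomial Topology TopologicalSpace Filter

namespace Pool.Agent.Work.MP_ffcd14_ag

universe u v w

variable {k : Type u} [Field k] {P Q : Amb} {K : Type v} [Field K] {B : Type w} [Ring B]
  [Algebra K B]

variable (K) in
/-- The rational span of the classes of the irreducible closed subsets satisfying `p`. -/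
def cyc {X : Var k P} (cl : IrreducibleCloseds X.pts → B) (p : IrreducibleCloseds X.pts → Prop) :
    AddSubgroup B :=
  AddSubgroup.closure {y | ∃ (q : ℚ) (Z : IrreducibleCloseds X.pts), p Z ∧ y = (q : K) • cl Z}

/-- All algebraic classes with rational coefficients, by codimension. -/
def Weil.A (C : Weil.{u, v, w} k K) (X : Var k P) (c : ℕ) : AddSubgroup (C.H X) :=
  cyc K (C.cl X) fun Z => Order.coheight Z = c

/-- The dimension of an irreducible closed subset. -/
noncomputable def hgt {X : Var k P} (Z : IrreducibleCloseds X.pts) : ℕ∞ := Order.height Z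

/-- `f` vanishes on `Z`. -/
def Zer {X : Var k P} (Z : IrreducibleCloseds X.pts) (f : MvPolynomial P.V k) : Prop :=
  ∀ x ∈ Z, ev x.1 f = 0

/-- The multihomogeneous ideal of `Z`. -/
noncomputable def idZ {X : Var k P} (Z : IrreducibleCloseds X.pts) : Ideal (MvPolynomial P.V k) :=
  Ideal.span {f | (∃ a, IsForm f a) ∧ Zer Z f}

/-- The multiplicity of `R / J` at the prime ideal `p`: the length of `(R / J)ₚ` over `Rₚ`. -/
noncomputable def len {R : Type u} [CommRing R] (p J : Ideal R) : ℕ∞ :=
  Module.length (Localization (Submonoid.closure (p : Set R)ᶜ))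
    (LocalizedModule (Submonoid.closure (p : Set R)ᶜ) (R ⧸ J))

/-- Intersecting `Z` with `O(a)` gives the divisor of a section `f` on `Z`, with the usual
multiplicities. -/
def Weil.Div (C : Weil.{u, v, w} k K) : Prop :=
  ∀ {P : Amb} (X : Var k P) (Z : IrreducibleCloseds X.pts) (f : MvPolynomial P.V k)
    (a : P.ι →₀ ℕ), IsForm f a → ¬ Zer Z f → C.cl X Z * lin (C.hyp X) a =
      ∑ᶠ (T) (_ : hgt T + 1 = hgt Z), (len (idZ T) (idZ Z ⊔ Ideal.span {f})).toNat • C.cl X T

/-- The projection formula; `n` is the degree of `Z` over its image. -/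
def Weil.Push (C : Weil.{u, v, w} k K) : Prop :=
  ∀ {P Q : Amb} {X : Var k P} {Y : Var k Q} (φ : Hom X Y) (Z : IrreducibleCloseds X.pts)
    (Z' : IrreducibleCloseds Y.pts), closure (φ.toFun '' Z) = Z' →
    ∃ n : ℕ, (0 < n ↔ hgt Z = hgt Z') ∧
      ∀ y, C.tr X (C.cl X Z * C.pull φ y) = n * C.tr Y (C.cl Y Z' * y)

/-- If `Z` meets the preimage of `S` properly, the product of the classes is a combination of the
classes of the components of the intersection. -/
def Weil.Meet (C : Weil.{u, v, w} k K) : Prop :=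
  ∀ {P Q : Amb} {X : Var k P} {Y : Var k Q} (φ : Hom X Y) (Z : IrreducibleCloseds X.pts)
    (S : IrreducibleCloseds Y.pts),
    (∀ U ≤ Z, (∀ x ∈ U, φ.toFun x ∈ S) → hgt U + Y.dim ≤ hgt Z + hgt S) →
    C.cl X Z * C.pull φ (C.cl Y S) ∈ cyc K (C.cl X) fun U =>
      U ≤ Z ∧ (∀ x ∈ U, φ.toFun x ∈ S) ∧ hgt U + Y.dim = hgt Z + hgt S

/-- The axioms for the cycle class map. -/
def Weil.Chow (C : Weil.{u, v, w} k K) : Prop := C.Div ∧ C.Push ∧ C.Meet

end Pool.Agent.Work.MP_ffcd14_ag
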