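import Pool.Agent.Work.MP_ffcd14_ag.Cyc.Num1

/-! # Positivity, vanishing and divisors of ratios -/

open MvPolynomial Topology TopologicalSpace Filter

namespace Pool.Agent.Work.MP_ffcd14_ag

universe u v w

variable {k : Type u} [Field k] [IsAlgClosed k] {K : Type v} [Field K] [CharZero K]
  {P P' Q : Amb} {C : NT.{u, v, w} k K}

omit [IsAlgClosed k] in
theorem num2_sub {X : Var k P} {T Z : Sub k P} (h : T ≤ Z) (hZ : (Z : Set (P.Pt k)) ⊆ X.pts) :
    (T : Set (P.Pt k)) ⊆ X.pts := fun _ hx => hZ (h hx)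

omit [IsAlgClosed k] in
theorem num2_van_mono {T Z : Sub k P} (h : T ≤ Z) {f : MvPolynomial P.V k}
    (hf : Van (Z : Set (P.Pt k)) f) : Van (T : Set (P.Pt k)) f := fun x hx => hf x (h hx)

omit [IsAlgClosed k] in
theorem num2_van_cancel {Z : Set (P.Pt k)} {f g f' g' : MvPolynomial P.V k}
    (h : Van Z (f * g - f' * g')) (h' : Van Z f') : Van Z (f * g) := by
  intro x hx
  have h1 := h x hx
  have h2 := h' x hx
  rw [ev_eq] at h1 h2 ⊢
  rw [map_sub, map_mul (eval (rp x)) f' g', h2, zero_mul, sub_zero] at h1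
  exact h1

omit [IsAlgClosed k] in
theorem num2_cy_mem (X : Var k P) {p : Sub k P → Prop} {U : Sub k P}
    (hU : (U : Set (P.Pt k)) ⊆ X.pts) (hp : p U) : cy C X U ∈ CS C X p :=
  Submodule.subset_span ⟨U, hU, hp, rfl⟩

omit [IsAlgClosed k] in
theorem num2_CS_mono (X : Var k P) {p q : Sub k P → Prop} (h : ∀ U, p U → q U) :
    CS C X p ≤ CS C X q :=
  Submodule.span_mono fun _ ⟨U, hU, hp, hy⟩ => ⟨U, hU, h U hp, hy⟩

omit [IsAlgClosed k] in
/-- A linear map sends `CS p` into a submodule as soon as it does so on the generators. -/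
theorem num2_CS_map (X : Var k P) {p : Sub k P → Prop} {M : Type*} [AddCommGroup M] [Module ℚ M]
    (φ : EE C X →ₗ[ℚ] M) (N : Submodule ℚ M)
    (h : ∀ U : Sub k P, (U : Set (P.Pt k)) ⊆ X.pts → p U → φ (cy C X U) ∈ N) {y : EE C X}
    (hy : y ∈ CS C X p) : φ y ∈ N := by
  have : CS C X p ≤ N.comap φ := Submodule.span_le.mpr (by
    rintro _ ⟨U, hU, hp, rfl⟩
    exact h U hU hp)
  exact this hy

theorem num2_form (Z : Sub k P) (a : P.ι →₀ ℕ) :
    ∃ f, IsForm f a ∧ ¬ Van (Z : Set (P.Pt k)) f := by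
  obtain ⟨f, hf, h⟩ := exists_form_deg (k := k) (F := {Z}) (Set.finite_singleton Z) a
  exact ⟨f, hf, h Z rfl⟩

theorem num2_hilb {Z : Sub k P} (h : sdim Z = 0) (a : P.ι →₀ ℕ) :
    hilb (Z : Set (P.Pt k)) a = 1 := by
  obtain ⟨x, hx⟩ := Z.isIrreducible.nonempty
  have hZ : (Z : Set (P.Pt k)) = {x} := by
    rw [eq_pt_of_sdim h hx]; rfl
  obtain ⟨f, hf, hv⟩ := num2_form Z a
  rw [hZ] at hv ⊢
  unfold hilb
  have htop : Submodule.span k {u : ({x} : Set (P.Pt k)) → k |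
      ∃ f, IsForm f a ∧ u = fun y => ev y.1 f} = ⊤ := by
    have hx0 : ev x f ≠ 0 := fun h0 => hv fun y hy => by rw [hy]; exact h0
    rw [eq_top_iff]
    intro u _
    have : u = (u ⟨x, rfl⟩ / ev x f) • fun y : ({x} : Set (P.Pt k)) => ev y.1 f := by
      funext y
      obtain ⟨y, rfl⟩ := y
      simp [hx0]
    rw [this]
    exact Submodule.smul_mem _ _ (Submodule.subset_span ⟨f, hf, rfl⟩)
  rw [htop, finrank_top, Module.finrank_fintype_fun_eq_card]
  simp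

omit [IsAlgClosed k] [CharZero K] in
theorem num2_lp_cons (X : Var k P) (a : P.ι →₀ ℕ) (as : List (P.ι →₀ ℕ)) :
    lp' C X (a :: as) = ln C X a * lp' C X as := by
  simp [lp']

omit [IsAlgClosed k] [CharZero K] in
theorem num2_lp_rep (X : Var k P) (a b : P.ι →₀ ℕ) (j e : ℕ) :
    lp' C X (List.replicate j a ++ List.replicate e b) = ln C X a ^ j * ln C X b ^ e := by
  simp [lp']

omit [IsAlgClosed k] in
theorem num2_nm_mul (X : Var k P) {Z : Sub k P} {l : EE C X} {s : Finset (Sub k P)}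
    {m : Sub k P → ℚ} (h : cy C X Z * l = ∑ T ∈ s, m T • cy C X T) (y : EE C X) :
    nm C X Z (l * y) = ∑ T ∈ s, m T * nm C X T y := by
  rw [nm_apply, ← mul_assoc, h, Finset.sum_mul, map_sum]
  refine Finset.sum_congr rfl fun T _ => ?_
  rw [smul_mul_assoc, map_smul, nm_apply, smul_eq_mul]

variable (hC : C.Cyc)
include hC

/-- The divisor of a form. -/
theorem n_div' (X : Var k P) {Z : Sub k P} (hZ : (Z : Set (P.Pt k)) ⊆ X.pts)
    {f : MvPolynomial P.V k} {a : P.ι →₀ ℕ} (hf : IsForm f a) (h : ¬ Van (Z : Set (P.Pt k)) f) :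
    ∃ (s : Finset (Sub k P)) (m : Sub k P → ℚ),
      (∀ T, T ∈ s ↔ T ≤ Z ∧ sdim T + 1 = sdim Z ∧ Van (T : Set (P.Pt k)) f) ∧
      (∀ T ∈ s, 0 < m T) ∧ cy C X Z * ln C X a = ∑ T ∈ s, m T • cy C X T := by
  obtain ⟨m, hm⟩ := n_div hC X hZ
  obtain ⟨h1, -, -, h4⟩ := hm f a hf h
  refine ⟨(finite_div Z hf h).toFinset, fun T => m T f, fun T => by simp, fun T hT => ?_,
    h4 _ fun T hT => ?_⟩
  · exact Nat.cast_pos.mpr ((h1 T).2 (by simpa using hT))
  · simpa using (h1 T).1 hT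

theorem nm_point (X : Var k P) {Z : Sub k P} (hZ : (Z : Set (P.Pt k)) ⊆ X.pts)
    (h : sdim Z = 0) : nm C X Z 1 = 1 := by
  have hv := n_vol hC X hZ (a := Finsupp.equivFunOnFinite.symm fun _ => 1) (fun i => by simp)
  simp only [num2_hilb h, h, pow_zero, Nat.factorial_zero, Nat.cast_one, mul_one, div_one] at hv
  have := tendsto_nhds_unique hv tendsto_const_nhds
  exact_mod_cast this

theorem nm_nonneg (X : Var k P) {Z : Sub k P} (hZ : (Z : Set (P.Pt k)) ⊆ X.pts)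
    (as : List (P.ι →₀ ℕ)) (h : as.length = sdim Z) : 0 ≤ nm C X Z (lp' C X as) := by
  induction as generalizing Z with
  | nil =>
    have : lp' C X [] = 1 := by simp [lp']
    rw [this, nm_point hC X hZ (by simpa using h.symm)]
    exact zero_le_one
  | cons a as ih =>
    obtain ⟨f, hf, hv⟩ := num2_form Z a
    obtain ⟨s, m, hs, hm, he⟩ := n_div' hC X hZ hf hv
    rw [num2_lp_cons, num2_nm_mul X he]
    refine Finset.sum_nonneg fun T hT => mul_nonneg (hm T hT).le ?_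
    obtain ⟨h1, h2, -⟩ := (hs T).1 hT
    refine ih (num2_sub h1 hZ) ?_
    rw [List.length_cons] at h
    omega

theorem cy_van (X : Var k P') (β : Crd k P P') {Z : Sub k P'} (hZ : (Z : Set (P'.Pt k)) ⊆ X.pts)
    (as : List (P.ι →₀ ℕ)) (h : sdim (β.img Z) < as.length) :
    cy C X Z * lp' C X (as.map (Finsupp.mapDomain β.ψ)) = 0 := by
  induction as generalizing Z with
  | nil => simp at h
  | cons a as ih =>
    obtain ⟨f, hf, hv⟩ := num2_form (β.img Z) a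
    obtain ⟨s, m, hs, -, he⟩ := n_div' hC X hZ (β.form hf) (fun h' => hv ((β.van_img hf).2 h'))
    rw [List.map_cons, num2_lp_cons, ← mul_assoc, he, Finset.sum_mul]
    refine Finset.sum_eq_zero fun T hT => ?_
    obtain ⟨h1, -, h3⟩ := (hs T).1 hT
    have hlt : β.img T < β.img Z := lt_of_le_of_ne (β.img_mono h1) fun he' =>
      hv (he' ▸ (β.van_img hf).2 h3)
    have := sdim_lt hlt
    rw [List.length_cons] at h
    rw [smul_mul_assoc, ih (num2_sub h1 hZ) (by omega), smul_zero]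

/-- One step of the positivity induction. -/
theorem num2_step (X : Var k P) {Z : Sub k P} (hZ : (Z : Set (P.Pt k)) ⊆ X.pts)
    {g : MvPolynomial P.V k} {c : P.ι →₀ ℕ} (hg : IsForm g c) (hgZ : ¬ Van (Z : Set (P.Pt k)) g)
    (as : List (P.ι →₀ ℕ)) (h : as.length + 1 = sdim Z) {T : Sub k P} (hT : T ≤ Z)
    (hd : sdim T + 1 = sdim Z) (hv : Van (T : Set (P.Pt k)) g) (hp : 0 < nm C X T (lp' C X as)) :
    0 < nm C X Z (ln C X c * lp' C X as) := by
  obtain ⟨s, m, hs, hm, he⟩ := n_div' hC X hZ hg hgZ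
  rw [num2_nm_mul X he]
  have hTs : T ∈ s := (hs T).2 ⟨hT, hd, hv⟩
  refine Finset.sum_pos' (fun U hU => mul_nonneg (hm U hU).le ?_) ⟨T, hTs, mul_pos (hm T hTs) hp⟩
  obtain ⟨h1, h2, -⟩ := (hs U).1 hU
  exact nm_nonneg hC X (num2_sub h1 hZ) as (by omega)

omit hC in
/-- A prime divisor through a given point, cut by the pull-back of a form. -/
theorem num2_cut (β : Crd k P P') {Z : Sub k P'} (h : 0 < sdim (β.img Z)) {x : P'.Pt k}
    (hx : x ∈ Z) {a : P.ι →₀ ℕ} (ha : ∀ i, 0 < a i) :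
    ∃ (g : MvPolynomial P'.V k) (T : Sub k P'), IsForm g (a.mapDomain β.ψ) ∧
      ¬ Van (Z : Set (P'.Pt k)) g ∧ x ∈ T ∧ T ≤ Z ∧ Van (T : Set (P'.Pt k)) g ∧
      sdim T + 1 = sdim Z := by
  obtain ⟨g, hg, hgx, hgZ⟩ := exists_form_pt h (β.pr x) ha
  have hgZ' : ¬ Van (Z : Set (P'.Pt k)) (rename β.ε g) := fun h' => hgZ ((β.van_img hg).2 h')
  have hxZ : ({x} : Sub k P') ≤ Z := by
    intro y hy
    have : y = x := hy
    rw [this]; exact hx
  obtain ⟨T, h1, h2, h3, h4⟩ := krg hxZ (β.form hg) hgZ' (by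
    intro y hy
    have : y = x := hy
    rw [this, β.ev_rename]; exact hgx)
  exact ⟨_, T, β.form hg, hgZ', h1 (show x ∈ ({x} : Sub k P') from rfl), h2, h3, h4⟩

theorem nm_pos (X : Var k P') (β : Crd k P P') (γ : Crd k Q P') {Z : Sub k P'}
    (hZ : (Z : Set (P'.Pt k)) ⊆ X.pts) (hγ : ∀ U ≤ Z, sdim U ≤ sdim (γ.img U))
    {a : P.ι →₀ ℕ} (ha : ∀ i, 0 < a i) {b : Q.ι →₀ ℕ} (hb : ∀ i, 0 < b i) (j e : ℕ)
    (hj : j ≤ sdim (β.img Z)) (he : j + e = sdim Z) :
    0 < nm C X Z (ln C X (a.mapDomain β.ψ) ^ j * ln C X (b.mapDomain γ.ψ) ^ e) := by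
  induction j generalizing Z with
  | zero =>
    clear hj
    induction e generalizing Z with
    | zero =>
      rw [pow_zero, pow_zero, mul_one, nm_point hC X hZ (by omega)]
      exact one_pos
    | succ e ih =>
      obtain ⟨x, hx⟩ := Z.isIrreducible.nonempty
      have h0 : 0 < sdim (γ.img Z) := lt_of_lt_of_le (by omega) (hγ Z le_rfl)
      obtain ⟨g, T, hg, hgZ, -, hT, hv, hd⟩ := num2_cut γ h0 hx hb
      have := ih (num2_sub hT hZ) (fun U hU => hγ U (hU.trans hT)) (by omega)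
      rw [← num2_lp_rep] at this
      have := num2_step hC X hZ hg hgZ _ (by simp; omega) hT hd hv this
      rw [num2_lp_rep] at this
      convert this using 2
      ring
  | succ j ih =>
    obtain ⟨h, c, hh, hhZ, hf⟩ := β.fibre Z
    obtain ⟨x, hx, hxh⟩ : ∃ x ∈ Z, ev x h ≠ 0 := by
      by_contra hc
      push Not at hc
      exact hhZ hc
    obtain ⟨g, T, hg, hgZ, hxT, hT, hv, hd⟩ := num2_cut β (by omega) hx ha
    have h1 := hf T hT fun h' => hxh (h' x hxT)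
    have := ih (num2_sub hT hZ) (fun U hU => hγ U (hU.trans hT)) (by omega) (by omega)
    rw [← num2_lp_rep] at this
    have := num2_step hC X hZ hg hgZ _ (by simp; omega) hT hd hv this
    rw [num2_lp_rep] at this
    convert this using 2
    ring

theorem cy_mul_HS (X : Var k P) {Z : Sub k P} (hZ : (Z : Set (P.Pt k)) ⊆ X.pts) {u : EE C X}
    (hu : u ∈ HS C X) : cy C X Z * u ∈ CS C X fun U => U ≤ Z ∧ sdim U + 1 = sdim Z := by
  have : HS C X ≤ (CS C X fun U => U ≤ Z ∧ sdim U + 1 = sdim Z).comap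
      (LinearMap.mulLeft ℚ (cy C X Z)) := Submodule.span_le.mpr (by
    rintro _ ⟨i, rfl⟩
    obtain ⟨f, hf, hv⟩ := num2_form Z (Finsupp.single i 1)
    obtain ⟨s, m, hs, -, he⟩ := n_div' hC X hZ hf hv
    change cy C X Z * hy C X i ∈ CS C X _
    rw [← ln_single, he]
    refine Submodule.sum_mem _ fun T hT => Submodule.smul_mem _ _ ?_
    obtain ⟨h1, h2, -⟩ := (hs T).1 hT
    exact num2_cy_mem X (num2_sub h1 hZ) ⟨h1, h2⟩)
  exact this hu

theorem cy_mul_HA (X : Var k P) {Z : Sub k P} (hZ : (Z : Set (P.Pt k)) ⊆ X.pts) {u : EE C X}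
    (hu : u ∈ HA C X) : cy C X Z * u ∈ CS C X fun U => U ≤ Z := by
  unfold HA at hu
  induction hu using Algebra.adjoin_induction generalizing Z with
  | mem x hx =>
    exact num2_CS_mono X (fun U hU => hU.1) (cy_mul_HS hC X hZ (Submodule.subset_span hx))
  | algebraMap r =>
    rw [← Algebra.commutes, ← Algebra.smul_def]
    exact Submodule.smul_mem _ _ (num2_cy_mem X hZ le_rfl)
  | add x y _ _ hx hy =>
    rw [mul_add]
    exact Submodule.add_mem _ (hx hZ) (hy hZ)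
  | mul x y _ _ hx hy =>
    rw [← mul_assoc]
    exact num2_CS_map X (LinearMap.mulRight ℚ y) _
      (fun U hU hp => num2_CS_mono X (fun V hV => hV.trans hp) (hy hU)) (hx hZ)

theorem CS_mul_HA (X : Var k P) {x u : EE C X} (hx : x ∈ CS C X fun _ => True)
    (hu : u ∈ HA C X) : x * u ∈ CS C X fun _ => True :=
  num2_CS_map X (LinearMap.mulRight ℚ u) _
    (fun _ hU _ => num2_CS_mono X (fun _ _ => trivial) (cy_mul_HA hC X hU hu)) hx

/-- The effective divisor of common zeros of the `f s` when the `e s` have none. -/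
theorem n_ratio (X : Var k P) {Z : Sub k P} (hZ : (Z : Set (P.Pt k)) ⊆ X.pts) {κ : Type}
    {f e : κ → MvPolynomial P.V k} {a b : P.ι →₀ ℕ} (hf : ∀ s, IsForm (f s) a)
    (he : ∀ s, IsForm (e s) b) (hfe : ∀ s t, Van (Z : Set (P.Pt k)) (f s * e t - f t * e s))
    (h0 : ∃ s, ¬ Van (Z : Set (P.Pt k)) (f s)) (h1 : ∀ T ≤ Z, ∃ s, ¬ Van (T : Set (P.Pt k)) (e s)) :
    ∃ (s : Finset (Sub k P)) (m : Sub k P → ℚ),
      (∀ T, T ∈ s ↔ T ≤ Z ∧ sdim T + 1 = sdim Z ∧ ∀ t, Van (T : Set (P.Pt k)) (f t)) ∧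
      (∀ T ∈ s, 0 < m T) ∧ cy C X Z * (ln C X a - ln C X b) = ∑ T ∈ s, m T • cy C X T := by
  classical
  obtain ⟨m, hm⟩ := n_div hC X hZ
  -- on a subvariety `T ≤ Z`, if `e t` does not vanish and `f t` does, all the `f` vanish
  have hall : ∀ T ≤ Z, ∀ t, ¬ Van (T : Set (P.Pt k)) (e t) → Van (T : Set (P.Pt k)) (f t) →
      ∀ s, Van (T : Set (P.Pt k)) (f s) := fun T hT t het hft s =>
    (Van.mul (hf s) (he t) (num2_van_cancel (num2_van_mono hT (hfe s t)) hft)).resolve_right het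
  have hfZ : ∀ t, ¬ Van (Z : Set (P.Pt k)) (e t) → ¬ Van (Z : Set (P.Pt k)) (f t) :=
    fun t het hft => h0.elim fun s hs => hs (hall Z le_rfl t het hft s)
  obtain ⟨s0, hs0⟩ := h1 Z le_rfl
  have hf0 := hfZ s0 hs0
  obtain ⟨a1, -, a3, a4⟩ := hm (f s0) a (hf s0) hf0
  obtain ⟨b1, -, -, b4⟩ := hm (e s0) b (he s0) hs0
  -- the key identity
  have key : ∀ T ≤ Z, ∃ n : ℕ, m T (f s0) = n + m T (e s0) ∧
      (0 < n ↔ sdim T + 1 = sdim Z ∧ ∀ t, Van (T : Set (P.Pt k)) (f t)) := by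
    intro T hT
    obtain ⟨t, ht⟩ := h1 T hT
    have htZ : ¬ Van (Z : Set (P.Pt k)) (e t) := fun h => ht (num2_van_mono hT h)
    have hft := hfZ t htZ
    obtain ⟨c1, -, c3, -⟩ := hm (f t) a (hf t) hft
    have hnz : ¬ Van (Z : Set (P.Pt k)) (f t * e s0) := fun h =>
      (Van.mul (hf t) (he s0) h).elim hft hs0
    obtain ⟨-, d2, -, -⟩ := hm (f t * e s0) (a + b) ((hf t).mul (he s0)) hnz
    have e1 := d2 (f s0 * e t) ((hf s0).mul (he t)) (hfe s0 t) T
    have e2 := a3 (e t) b (he t) htZ T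
    have e3 := c3 (e s0) b (he s0) hs0 T
    have e4 : m T (e t) = 0 := by
      by_contra hne
      exact ht ((hm (e t) b (he t) htZ).1 T |>.1 (Nat.pos_of_ne_zero hne)).2.2
    refine ⟨m T (f t), by omega, (c1 T).trans ⟨fun h => ⟨h.2.1, hall T hT t ht h.2.2⟩,
      fun h => ⟨hT, h.1, h.2 t⟩⟩⟩
  have hfin : {T : Sub k P | T ≤ Z ∧ sdim T + 1 = sdim Z ∧
      ∀ t, Van (T : Set (P.Pt k)) (f t)}.Finite :=
    (finite_div Z (hf s0) hf0).subset fun T hT => ⟨hT.1, hT.2.1, hT.2.2 s0⟩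
  let B := (finite_div Z (hf s0) hf0).toFinset
  have hB : ∀ T, T ∈ B ↔ T ≤ Z ∧ sdim T + 1 = sdim Z ∧ Van (T : Set (P.Pt k)) (f s0) :=
    fun T => by simp [B]
  refine ⟨hfin.toFinset, fun T => (m T (f s0) : ℚ) - m T (e s0), fun T => by simp,
    fun T hT => ?_, ?_⟩
  · obtain ⟨h1, h2, h3⟩ : T ≤ Z ∧ sdim T + 1 = sdim Z ∧ ∀ t, Van (T : Set (P.Pt k)) (f t) := by
      simpa using hT
    obtain ⟨n, hn, hn'⟩ := key T h1
    have := hn'.2 ⟨h2, h3⟩
    beta_reduce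
    rw [hn]
    push_cast
    rw [add_sub_cancel_right]
    exact_mod_cast this
  · rw [mul_sub, a4 B fun T hT => (hB T).2 ((a1 T).1 hT), b4 B fun T hT => ?_,
      ← Finset.sum_sub_distrib]
    · simp only [← sub_smul]
      symm
      refine Finset.sum_subset (fun T hT => ?_) fun T hT hT' => ?_
      · obtain ⟨h1, h2, h3⟩ : T ≤ Z ∧ sdim T + 1 = sdim Z ∧
            ∀ t, Van (T : Set (P.Pt k)) (f t) := by simpa using hT
        exact (hB T).2 ⟨h1, h2, h3 s0⟩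
      · obtain ⟨h1, -, -⟩ := (hB T).1 hT
        obtain ⟨n, hn, hn'⟩ := key T h1
        have : n = 0 := by
          by_contra hne
          exact hT' (by simpa using And.intro h1 (hn'.1 (Nat.pos_of_ne_zero hne)))
        rw [hn, this, zero_add, sub_self, zero_smul]
    · obtain ⟨n, hn, -⟩ := key T ((b1 T).1 hT).1
      exact (hB T).2 ((a1 T).1 (by omega))

theorem nm_kill {Ω : Var k P'} {X : Var k P} (hX : IsIrreducible X.pts) (π : Prj Ω X)
    {T : Sub k P'} (hT : (T : Set (P'.Pt k)) ⊆ Ω.pts) {c : ℕ} {x : EE C X} (hx : x ∈ AA C X c)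
    (h : sdim (π.img T) < c) {u : EE C Ω} (hu : u ∈ HA C Ω) :
    nm C Ω T (pl C π x * u) = 0 := by
  have := num2_CS_map Ω (tau C Ω ∘ₗ LinearMap.mulRight ℚ (pl C π x)) ⊥ (fun U hU hp => by
    obtain ⟨n, -, hn⟩ := n_push hC π hU
    have h1 := sdim_mono (π.img_mono hp)
    change nm C Ω U (pl C π x) ∈ _
    rw [hn, nm_AA C X hX _ hx (by omega), mul_zero]
    exact Submodule.zero_mem _) (cy_mul_HA hC Ω hT hu)
  rw [nm_apply, mul_comm (pl C π x), ← mul_assoc]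
  exact this

theorem tau_N0 {Ω : Var k P'} {X : Var k P} (π : Prj Ω X) {z : EE C X} (hz : N0 C X z)
    {y : EE C Ω} (hy : y ∈ CS C Ω fun _ => True) : tau C Ω (y * pl C π z) = 0 :=
  num2_CS_map Ω (tau C Ω ∘ₗ LinearMap.mulRight ℚ (pl C π z)) ⊥ (fun U hU _ => by
    obtain ⟨n, -, hn⟩ := n_push hC π hU
    obtain ⟨c, hc⟩ := cy_mem_AA C X (π.img U)
    change nm C Ω U (pl C π z) ∈ _
    rw [hn, nm_apply, mul_comm (cy C X _), hz c _ hc, mul_zero]
    exact Submodule.zero_mem _) hy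

end Pool.Agent.Work.MP_ffcd14_ag
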