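import Mathlib
import Pool.Agent.Work.MP_ffcd14_ag.Defs
import Pool.Agent.Work.MP_ffcd14_ag.Cyc.Num2
import Pool.Agent.Work.MP_ffcd14_ag.Cyc.GrA
import Pool.Agent.Work.MP_ffcd14_ag.Cyc.Mult

-- merged part: Pool.Agent.Work.MP_ffcd14_ag.Cyc.BM
section
/-! # A discrete midpoint Brunn-Minkowski inequality -/

open Pointwise

namespace Pool.Agent.Work.MP_ffcd14_ag

/-- Layer cake formula for natural-valued functions. -/
lemma bm_layer (S : Finset ℤ) (φ : ℤ → ℕ) (N : ℕ) :
    ∑ t ∈ Finset.Icc 1 N, (S.filter (fun x => t ≤ φ x)).card = ∑ x ∈ S, min (φ x) N := by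
  simp only [Finset.card_filter]
  rw [Finset.sum_comm]
  refine Finset.sum_congr rfl fun x _ => ?_
  rw [← Finset.card_filter]
  have : (Finset.Icc 1 N).filter (fun t => t ≤ φ x) = Finset.Icc 1 (min (φ x) N) := by
    ext t
    simp only [Finset.mem_filter, Finset.mem_Icc, le_min_iff]
    omega
  rw [this]
  simp

/-- Cauchy-Davenport on the integers, with the extra summand `{0,1}`. -/
lemma bm_cd (X Y W : Finset ℤ) (hX : X.Nonempty) (hY : Y.Nonempty)
    (h : ∀ i ∈ X, ∀ j ∈ Y, i + j ∈ W ∧ i + j + 1 ∈ W) : X.card + Y.card ≤ W.card := by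
  have h1 := cauchy_davenport_add_of_linearOrder_isCancelAdd hX hY
  have hne : (X + Y).Nonempty := hX.add hY
  have hm := Finset.max'_mem _ hne
  set m := (X + Y).max' hne with hmdef
  have hnot : m + 1 ∉ X + Y := fun hh => by
    have := Finset.le_max' _ _ hh
    omega
  have hsub : insert (m + 1) (X + Y) ⊆ W := by
    intro z hz
    rcases Finset.mem_insert.1 hz with rfl | hz
    · obtain ⟨i, hi, j, hj, hij⟩ := Finset.mem_add.1 hm
      rw [← hij]
      exact (h i hi j hj).2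
    · obtain ⟨i, hi, j, hj, hij⟩ := Finset.mem_add.1 hz
      rw [← hij]
      exact (h i hi j hj).1
  have h2 := Finset.card_le_card hsub
  rw [Finset.card_insert_of_notMem hnot] at h2
  have := hX.card_pos
  omega

/-- The one-dimensional functional inequality, for functions with the same maximum. -/
lemma bm_one (S T U : Finset ℤ) (F G K : ℤ → ℕ) (N : ℕ)
    (hF : ∀ i ∈ S, F i ≤ N) (hG : ∀ j ∈ T, G j ≤ N)
    (hF' : ∃ i ∈ S, F i = N) (hG' : ∃ j ∈ T, G j = N)
    (h : ∀ i ∈ S, ∀ j ∈ T, (i + j ∈ U ∧ min (F i) (G j) ≤ K (i + j)) ∧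
      (i + j + 1 ∈ U ∧ min (F i) (G j) ≤ K (i + j + 1))) :
    ∑ i ∈ S, F i + ∑ j ∈ T, G j ≤ ∑ l ∈ U, K l := by
  have e1 : ∑ i ∈ S, F i = ∑ i ∈ S, min (F i) N :=
    Finset.sum_congr rfl fun i hi => (min_eq_left (hF i hi)).symm
  have e2 : ∑ i ∈ T, G i = ∑ i ∈ T, min (G i) N :=
    Finset.sum_congr rfl fun i hi => (min_eq_left (hG i hi)).symm
  have e3 : ∑ i ∈ U, min (K i) N ≤ ∑ i ∈ U, K i :=
    Finset.sum_le_sum fun i _ => min_le_left _ _
  refine le_trans ?_ e3
  rw [e1, e2, ← bm_layer, ← bm_layer, ← bm_layer, ← Finset.sum_add_distrib]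
  refine Finset.sum_le_sum fun t ht => ?_
  have htN := (Finset.mem_Icc.1 ht).2
  obtain ⟨i0, hi0, hi0'⟩ := hF'
  obtain ⟨j0, hj0, hj0'⟩ := hG'
  refine bm_cd _ _ _ ⟨i0, Finset.mem_filter.2 ⟨hi0, by omega⟩⟩
    ⟨j0, Finset.mem_filter.2 ⟨hj0, by omega⟩⟩ ?_
  intro i hi j hj
  obtain ⟨hi1, hi2⟩ := Finset.mem_filter.1 hi
  obtain ⟨hj1, hj2⟩ := Finset.mem_filter.1 hj
  obtain ⟨⟨a1, a2⟩, ⟨b1, b2⟩⟩ := h i hi1 j hj1
  have hmin : t ≤ min (F i) (G j) := le_min hi2 hj2
  exact ⟨Finset.mem_filter.2 ⟨a1, hmin.trans a2⟩, Finset.mem_filter.2 ⟨b1, hmin.trans b2⟩⟩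

/-- The one-dimensional functional inequality. -/
lemma bm_one' (S T U : Finset ℤ) (f g c : ℤ → ℕ) (q : ℕ) (hq : 0 < q)
    (h : ∀ i ∈ S, ∀ j ∈ T, (i + j ∈ U ∧ q ^ 2 * f i * g j ≤ c (i + j) ^ 2) ∧
      (i + j + 1 ∈ U ∧ q ^ 2 * f i * g j ≤ c (i + j + 1) ^ 2)) :
    4 * q ^ 2 * (∑ i ∈ S, f i) * (∑ j ∈ T, g j) ≤ (∑ l ∈ U, c l) ^ 2 := by
  rcases S.eq_empty_or_nonempty with rfl | hS
  · simp
  rcases T.eq_empty_or_nonempty with rfl | hT
  · simp
  obtain ⟨i0, hi0, hi0'⟩ := Finset.exists_max_image S f hS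
  obtain ⟨j0, hj0, hj0'⟩ := Finset.exists_max_image T g hT
  set a := f i0 with ha
  set b := g j0 with hb
  rcases Nat.eq_zero_or_pos a with ha0 | ha0
  · have : ∑ i ∈ S, f i = 0 := Finset.sum_eq_zero fun i hi => by
      have := hi0' i hi
      omega
    simp [this]
  rcases Nat.eq_zero_or_pos b with hb0 | hb0
  · have : ∑ i ∈ T, g i = 0 := Finset.sum_eq_zero fun i hi => by
      have := hj0' i hi
      omega
    simp [this]
  set r : ℝ := Real.sqrt (a * b) with hr
  have hab : (0 : ℝ) < a * b := by positivity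
  have hr0 : 0 < r := Real.sqrt_pos.2 hab
  have hr2 : r ^ 2 = a * b := Real.sq_sqrt hab.le
  have hqR : (0 : ℝ) < q := by exact_mod_cast hq
  have key : ∀ x y z : ℕ, q ^ 2 * x * y ≤ z ^ 2 →
      min (b * x) (a * y) ≤ ⌊r * z / q⌋₊ := by
    intro x y z hz
    apply Nat.le_floor
    rw [le_div_iff₀ hqR]
    have hzR : (q : ℝ) ^ 2 * x * y ≤ (z : ℝ) ^ 2 := by exact_mod_cast hz
    set m : ℕ := min (b * x) (a * y) with hm
    have m1 : (m : ℝ) ≤ b * x := by exact_mod_cast min_le_left _ _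
    have m2 : (m : ℝ) ≤ a * y := by exact_mod_cast min_le_right _ _
    have m0 : (0 : ℝ) ≤ m := Nat.cast_nonneg _
    have m3 : (m : ℝ) * m ≤ (b * x) * (a * y) := mul_le_mul m1 m2 m0 (by positivity)
    refine (pow_le_pow_iff_left₀ (by positivity) (by positivity) two_ne_zero).1 ?_
    calc ((m : ℝ) * q) ^ 2 = ((m : ℝ) * m) * (q : ℝ) ^ 2 := by ring
      _ ≤ (((b : ℝ) * x) * (a * y)) * (q : ℝ) ^ 2 := by gcongr
      _ = ((a : ℝ) * b) * ((q : ℝ) ^ 2 * x * y) := by ring
      _ ≤ ((a : ℝ) * b) * (z : ℝ) ^ 2 := by gcongr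
      _ = (r * z) ^ 2 := by rw [mul_pow, hr2]
  have h1 := bm_one S T U (fun i => b * f i) (fun j => a * g j) (fun l => ⌊r * c l / q⌋₊) (a * b)
    (fun i hi => by
      have := hi0' i hi
      show b * f i ≤ a * b
      rw [mul_comm a b]
      exact Nat.mul_le_mul_left _ this)
    (fun j hj => by
      have := hj0' j hj
      exact Nat.mul_le_mul_left _ this)
    ⟨i0, hi0, mul_comm _ _⟩ ⟨j0, hj0, rfl⟩
    (fun i hi j hj => by
      obtain ⟨⟨a1, a2⟩, ⟨b1, b2⟩⟩ := h i hi j hj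
      exact ⟨⟨a1, key _ _ _ a2⟩, ⟨b1, key _ _ _ b2⟩⟩)
  rw [← Finset.mul_sum, ← Finset.mul_sum] at h1
  have h2 : ((∑ l ∈ U, ⌊r * c l / q⌋₊ : ℕ) : ℝ) ≤ r * (∑ l ∈ U, c l : ℕ) / q := by
    push_cast
    rw [Finset.mul_sum, Finset.sum_div]
    exact Finset.sum_le_sum fun l _ => Nat.floor_le (by positivity)
  set X := ∑ i ∈ S, f i
  set Y := ∑ j ∈ T, g j
  set Z := ∑ l ∈ U, c l
  have h3 : (b : ℝ) * X + a * Y ≤ r * Z / q := by
    refine le_trans ?_ h2
    exact_mod_cast h1
  rw [le_div_iff₀ hqR] at h3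
  have h4 : (((b : ℝ) * X + a * Y) * q) ^ 2 ≤ (r * Z) ^ 2 :=
    pow_le_pow_left₀ (by positivity) h3 2
  have h5 : 4 * (a * b : ℝ) * X * Y ≤ ((b : ℝ) * X + a * Y) ^ 2 := by
    nlinarith [sq_nonneg ((b : ℝ) * X - a * Y)]
  have h6 : (a * b : ℝ) * (4 * q ^ 2 * X * Y) ≤ (a * b : ℝ) * Z ^ 2 := by
    calc (a * b : ℝ) * (4 * q ^ 2 * X * Y) = (4 * (a * b : ℝ) * X * Y) * q ^ 2 := by ring
      _ ≤ ((b : ℝ) * X + a * Y) ^ 2 * q ^ 2 := by gcongr
      _ = (((b : ℝ) * X + a * Y) * q) ^ 2 := by ring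
      _ ≤ (r * Z) ^ 2 := h4
      _ = (a * b : ℝ) * Z ^ 2 := by rw [mul_pow, hr2]
  have h7 := le_of_mul_le_mul_left h6 hab
  exact_mod_cast h7

/-- The slice of a finite set of integer points over a given first coordinate. -/
def bmSlice {n : ℕ} (A : Finset (Fin (n + 1) → ℤ)) (i : ℤ) : Finset (Fin n → ℤ) :=
  (A.filter (fun a => a 0 = i)).image Fin.tail

lemma mem_bmSlice {n : ℕ} {A : Finset (Fin (n + 1) → ℤ)} {i : ℤ} {x : Fin n → ℤ} :
    x ∈ bmSlice A i ↔ (Fin.cons i x : Fin (n + 1) → ℤ) ∈ A := by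
  unfold bmSlice
  simp only [Finset.mem_image, Finset.mem_filter]
  constructor
  · rintro ⟨a, ⟨ha, rfl⟩, rfl⟩
    rwa [Fin.cons_self_tail]
  · intro hx
    exact ⟨_, ⟨hx, by simp⟩, by simp⟩

lemma card_bmSlice {n : ℕ} (A : Finset (Fin (n + 1) → ℤ)) :
    A.card = ∑ i ∈ A.image (fun a => a 0), (bmSlice A i).card := by
  rw [Finset.card_eq_sum_card_fiberwise (f := fun a => a 0) (t := A.image (fun a => a 0))
    (fun a ha => Finset.mem_coe.2 (Finset.mem_image_of_mem _ (Finset.mem_coe.1 ha)))]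
  refine Finset.sum_congr rfl fun i _ => ?_
  unfold bmSlice
  rw [Finset.card_image_of_injOn]
  intro x hx y hy hxy
  have hx' := (Finset.mem_filter.1 (Finset.mem_coe.1 hx)).2
  have hy' := (Finset.mem_filter.1 (Finset.mem_coe.1 hy)).2
  rw [← Fin.cons_self_tail x, ← Fin.cons_self_tail y, hxy, hx', hy']

theorem bm (n : ℕ) (A B C : Finset (Fin n → ℤ))
    (h : ∀ a ∈ A, ∀ b ∈ B, ∀ e : Fin n → ℤ, (∀ i, e i = 0 ∨ e i = 1) → a + b + e ∈ C) :
    4 ^ n * A.card * B.card ≤ C.card ^ 2 := by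
  induction n with
  | zero =>
    rcases A.eq_empty_or_nonempty with rfl | ⟨a, ha⟩
    · simp
    rcases B.eq_empty_or_nonempty with rfl | ⟨b, hb⟩
    · simp
    have hC : 0 < C.card := Finset.card_pos.2 ⟨_, h a ha b hb 0 (fun i => Or.inl rfl)⟩
    have hA : A.card ≤ 1 := Finset.card_le_one.2 fun x _ y _ => Subsingleton.elim _ _
    have hB : B.card ≤ 1 := Finset.card_le_one.2 fun x _ y _ => Subsingleton.elim _ _
    calc 4 ^ 0 * A.card * B.card ≤ 4 ^ 0 * 1 * 1 := by gcongr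
      _ = 1 ^ 2 := by norm_num
      _ ≤ C.card ^ 2 := by gcongr; exact hC
  | succ n ih =>
    have hs : ∀ i j d : ℤ, (d = 0 ∨ d = 1) → ∀ a ∈ bmSlice A i, ∀ b ∈ bmSlice B j,
        ∀ e : Fin n → ℤ, (∀ k, e k = 0 ∨ e k = 1) → a + b + e ∈ bmSlice C (i + j + d) := by
      intro i j d hd a ha b hb e he
      rw [mem_bmSlice] at ha hb ⊢
      have := h _ ha _ hb (Fin.cons d e) (fun k => by
        refine Fin.cases ?_ (fun k => ?_) k
        · simpa using hd
        · simpa using he k)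
      convert this using 1
      funext k
      refine Fin.cases ?_ (fun k => ?_) k <;> simp
    have hU : ∀ i ∈ A.image (fun a => a 0), ∀ j ∈ B.image (fun a => a 0), ∀ d : ℤ,
        (d = 0 ∨ d = 1) → i + j + d ∈ C.image (fun a => a 0) := by
      intro i hi j hj d hd
      obtain ⟨a, ha, rfl⟩ := Finset.mem_image.1 hi
      obtain ⟨b, hb, rfl⟩ := Finset.mem_image.1 hj
      exact Finset.mem_image.2 ⟨_, h a ha b hb (fun _ => d) (fun _ => hd), by simp⟩
    have h4 : (2 ^ n) ^ 2 = 4 ^ n := by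
      rw [← pow_mul, mul_comm, pow_mul]
      norm_num
    have := bm_one' (A.image (fun a => a 0)) (B.image (fun a => a 0)) (C.image (fun a => a 0))
      (fun i => (bmSlice A i).card) (fun i => (bmSlice B i).card) (fun i => (bmSlice C i).card)
      (2 ^ n) (by positivity) (fun i hi j hj => by
        rw [h4]
        refine ⟨⟨?_, ?_⟩, ⟨hU i hi j hj 1 (Or.inr rfl), ih _ _ _ (hs i j 1 (Or.inr rfl))⟩⟩
        · simpa using hU i hi j hj 0 (Or.inl rfl)
        · simpa using ih _ _ _ (hs i j 0 (Or.inl rfl)))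
    rw [← card_bmSlice, ← card_bmSlice, ← card_bmSlice, h4] at this
    rw [pow_succ']
    exact this

end Pool.Agent.Work.MP_ffcd14_ag
end

-- merged part: Pool.Agent.Work.MP_ffcd14_ag.Cyc.VAL
section
/-! # A valuation with one-dimensional leaves on a function field -/

namespace Pool.Agent.Work.MP_ffcd14_ag

universe u

namespace VAL

open Polynomial

section count

variable {k L Γ : Type*} [Field k] [Field L] [Algebra k L] [LinearOrderedCommGroupWithZero Γ]
  (w : Valuation L Γ)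

/-- With one-dimensional leaves, the number of values on a subspace is its dimension. -/
theorem count (hk : ∀ c : k, c ≠ 0 → w (algebraMap k L c) = 1)
    (hres : ∀ x y : L, y ≠ 0 → w x = w y → ∃ c : k, w (x - c • y) < w y)
    (V : Submodule k L) [FiniteDimensional k V] :
    (w '' ((V : Set L) \ {0})).Finite ∧ (w '' ((V : Set L) \ {0})).ncard = Module.finrank k V := by
  classical
  obtain ⟨s, rfl⟩ : V.FG := Module.Finite.iff_fg.1 inferInstance
  rename_i h
  clear h
  have hsm : ∀ (c : k) (y : L), c ≠ 0 → w (c • y) = w y := fun c y hc => by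
    rw [Algebra.smul_def, map_mul, hk c hc, one_mul]
  induction s using Finset.induction_on with
  | empty => rw [Finset.coe_empty, Submodule.span_empty]; simp
  | insert z s _ ih =>
    by_cases hz : z ∈ Submodule.span k (s : Set L)
    · rwa [Finset.coe_insert, Submodule.span_insert_eq_span hz]
    set V := Submodule.span k (s : Set L) with hV
    obtain ⟨y, hy, hn⟩ : ∃ y ∈ V, w (z + y) ∉ w '' ((V : Set L) \ {0}) := by
      by_contra hn
      push Not at hn
      obtain ⟨_, ⟨y, hy, rfl⟩, hmin⟩ := Set.exists_min_image ((fun y => w (z + y)) '' (V : Set L)) id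
        (ih.1.subset (by rintro _ ⟨y, hy, rfl⟩; exact hn y hy)) ⟨_, 0, V.zero_mem, rfl⟩
      obtain ⟨y', hy', he⟩ := hn y hy
      obtain ⟨c, hc⟩ := hres (z + y) y' hy'.2 he.symm
      have := hmin _ ⟨y - c • y', V.sub_mem hy (V.smul_mem c hy'.1), rfl⟩
      simp only [id, ← add_sub_assoc] at this
      exact absurd (hc.trans_eq he) (not_lt.2 this)
    have hzy : z + y ∉ V := fun h => hz (by simpa using V.sub_mem h hy)
    have hsp : Submodule.span k ((insert z s : Finset L) : Set L) = V ⊔ k ∙ (z + y) := by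
      rw [Finset.coe_insert, Submodule.span_insert, ← hV, sup_comm]
      refine le_antisymm (sup_le le_sup_left ?_) (sup_le le_sup_left ?_) <;>
        rw [Submodule.span_singleton_le_iff_mem]
      · simpa using Submodule.sub_mem _
          (Submodule.mem_sup_right (Submodule.mem_span_singleton_self (z + y)))
          (Submodule.mem_sup_left (T := k ∙ (z + y)) hy)
      · exact Submodule.add_mem _ (Submodule.mem_sup_right (Submodule.mem_span_singleton_self z))
          (Submodule.mem_sup_left hy)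
    have hz0 : z + y ≠ 0 := fun h => hzy (h ▸ V.zero_mem)
    have him : w '' (((V ⊔ k ∙ (z + y) : Submodule k L) : Set L) \ {0}) =
        insert (w (z + y)) (w '' ((V : Set L) \ {0})) := by
      refine Set.Subset.antisymm ?_ (Set.insert_subset ⟨_, ⟨Submodule.mem_sup_right
        (Submodule.mem_span_singleton_self _), hz0⟩, rfl⟩ (Set.image_mono
          (Set.sdiff_subset_sdiff_left (SetLike.coe_subset_coe.2 le_sup_left))))
      rintro _ ⟨x, ⟨hx, hx0⟩, rfl⟩
      obtain ⟨a, ha, b, hb, rfl⟩ := Submodule.mem_sup.1 hx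
      obtain ⟨c, rfl⟩ := Submodule.mem_span_singleton.1 hb
      by_cases hc : c = 0
      · subst hc
        exact Or.inr ⟨a, ⟨ha, by simpa using hx0⟩, by simp⟩
      by_cases ha0 : a = 0
      · subst ha0
        exact Or.inl (by rw [zero_add, hsm c _ hc])
      have hne : w a ≠ w (c • (z + y)) := fun h => hn ⟨a, ⟨ha, ha0⟩, h.trans (hsm c _ hc)⟩
      rcases hne.lt_or_gt with h | h
      · exact Or.inl ((w.map_add_eq_of_lt_right h).trans (hsm c _ hc))
      · exact Or.inr ⟨a, ⟨ha, ha0⟩, (w.map_add_eq_of_lt_left h).symm⟩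
    rw [hsp, him]
    refine ⟨ih.1.insert _, ?_⟩
    have hd : V ⊓ (k ∙ (z + y)) = ⊥ := by
      rw [eq_bot_iff]
      rintro x ⟨h1, h2⟩
      obtain ⟨c, rfl⟩ := Submodule.mem_span_singleton.1 h2
      by_cases hc : c = 0
      · simp [hc]
      · exact absurd ((V.smul_mem_iff hc).1 h1) hzy
    have := Submodule.finrank_sup_add_finrank_inf_eq V (k ∙ (z + y))
    rw [hd, finrank_bot, finrank_span_singleton hz0] at this
    rw [Set.ncard_insert_of_notMem hn ih.1, ih.2]
    omega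

end count

section ext

variable {F L Γ : Type*} [Field F] [Field L] [Algebra F L] [LinearOrderedCommGroupWithZero Γ]
  (w : Valuation L Γ)

/-- A bounded power of every value is a value of the base field. -/
theorem pow_mem [FiniteDimensional F L] (y : L) (hy : y ≠ 0) :
    ∃ x : F, x ≠ 0 ∧ w (algebraMap F L x) = w y ^ (Module.finrank F L).factorial := by
  classical
  have hint : IsIntegral F y := Algebra.IsIntegral.isIntegral y
  set p := minpoly F y with hp
  have key : ∃ i ∈ p.support, ∃ j ∈ p.support, i < j ∧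
      w (algebraMap F L (p.coeff i) * y ^ i) = w (algebraMap F L (p.coeff j) * y ^ j) := by
    by_contra hn
    push Not at hn
    obtain ⟨j, hj, hmax⟩ := p.support.exists_max_image
      (fun i => w (algebraMap F L (p.coeff i) * y ^ i)) (support_nonempty.2 (minpoly.ne_zero hint))
    have h1 := w.map_sum_eq_of_lt (f := fun i => algebraMap F L (p.coeff i) * y ^ i) hj
      fun i hi => by
        rw [Finset.mem_sdiff, Finset.mem_singleton] at hi
        refine (hmax i hi.1).lt_of_ne ?_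
        rcases (Ne.lt_or_gt hi.2) with h | h
        · exact hn i hi.1 j hj h
        · exact (hn j hj i hi.1 h).symm
    have h2 : ∑ i ∈ p.support, algebraMap F L (p.coeff i) * y ^ i = 0 := by
      rw [← minpoly.aeval F y, aeval_def, eval₂_eq_sum, sum_def]
    rw [h2, map_zero, eq_comm, w.zero_iff] at h1
    exact mul_ne_zero ((_root_.map_ne_zero _).2 (mem_support_iff.1 hj)) (pow_ne_zero _ hy) h1
  obtain ⟨i, hi, j, hj, hij, h⟩ := key
  have hjn : j ≤ Module.finrank F L :=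
    (le_natDegree_of_mem_supp j hj).trans (minpoly.natDegree_le y)
  obtain ⟨m, hm⟩ := Nat.dvd_factorial (Nat.sub_pos_of_lt hij) ((Nat.sub_le j i).trans hjn)
  have hi0 := mem_support_iff.1 hi
  have hj0 := mem_support_iff.1 hj
  refine ⟨(p.coeff i / p.coeff j) ^ m, pow_ne_zero _ (div_ne_zero hi0 hj0), ?_⟩
  rw [hm, pow_mul, map_pow, map_pow]
  congr 1
  have a1 : w (algebraMap F L (p.coeff j)) ≠ 0 := w.ne_zero_iff.2 ((_root_.map_ne_zero _).2 hj0)
  have a2 : w y ^ i ≠ 0 := pow_ne_zero _ (w.ne_zero_iff.2 hy)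
  obtain ⟨d, rfl⟩ := Nat.exists_eq_add_of_le hij.le
  rw [map_mul, map_mul, map_pow, map_pow, pow_add, mul_comm (w y ^ i), ← mul_assoc] at h
  rw [map_div₀, map_div₀, mul_right_cancel₀ a2 h, Nat.add_sub_cancel_left,
    mul_div_cancel_left₀ _ a1]

/-- The residue field does not grow. -/
theorem residue {k : Type*} [Field k] [IsAlgClosed k] [Algebra k F] [Algebra k L]
    [IsScalarTower k F L] [Algebra.IsAlgebraic F L]
    (hk : ∀ c : k, c ≠ 0 → w (algebraMap k L c) = 1)
    (hF : ∀ x : F, w (algebraMap F L x) ≤ 1 →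
      ∃ c : k, w (algebraMap F L x - algebraMap k L c) < 1) (y : L) (hy : w y ≤ 1) :
    ∃ c : k, w (y - algebraMap k L c) < 1 := by
  classical
  by_contra hn
  push Not at hn
  have h1 : ∀ A : k[X], A ≠ 0 → 1 ≤ w (aeval y A) := fun A => by
    have hA : A ∈ Submonoid.closure ({C a | a : k} ∪ {X + C a | a : k}) := IsAlgClosed.splits A
    induction hA using Submonoid.closure_induction with
    | mem f hf =>
      rcases hf with ⟨a, rfl⟩ | ⟨a, rfl⟩
      · exact fun h => by rw [aeval_C, hk a fun h' => h (by simp [h'])]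
      · exact fun _ => by simpa using hn (-a)
    | one => simp
    | mul f g _ _ hf hg =>
      intro h
      rw [map_mul, map_mul]
      exact Left.one_le_mul (hf (left_ne_zero_of_mul h)) (hg (right_ne_zero_of_mul h))
  obtain ⟨p, hp0, hp⟩ := Algebra.IsAlgebraic.isAlgebraic (R := F) y
  obtain ⟨j, hj, hmax⟩ := p.support.exists_max_image
    (fun i => w (algebraMap F L (p.coeff i))) (support_nonempty.2 hp0)
  have hj0 := mem_support_iff.1 hj
  have a1 : 0 < w (algebraMap F L (p.coeff j)) := w.pos_iff.2 ((_root_.map_ne_zero _).2 hj0)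
  choose! a ha using fun i (hi : i ∈ p.support) => hF (p.coeff i / p.coeff j) (by
    rw [map_div₀, map_div₀, div_le_one₀ a1]; exact hmax i hi)
  have h2 : ∑ i ∈ p.support, algebraMap F L (p.coeff i / p.coeff j) * y ^ i = 0 := by
    have : ∑ i ∈ p.support, algebraMap F L (p.coeff i) * y ^ i = 0 := by
      rw [← hp, aeval_def, eval₂_eq_sum, sum_def]
    simp only [map_div₀, div_mul_eq_mul_div, ← Finset.sum_div, this, zero_div]
  have h3 := h1 (∑ i ∈ p.support, monomial i (a i)) fun h => by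
    have h4 := congrArg (coeff · j) h
    simp only [finsetSum_coeff, coeff_monomial, Finset.sum_ite_eq', if_pos hj, coeff_zero] at h4
    have := ha j hj
    rw [h4, div_self hj0] at this
    simp at this
  have h5 : aeval y (∑ i ∈ p.support, monomial i (a i)) = -∑ i ∈ p.support,
      (algebraMap F L (p.coeff i / p.coeff j) - algebraMap k L (a i)) * y ^ i := by
    simp only [map_sum, aeval_monomial, sub_mul, Finset.sum_sub_distrib, h2, zero_sub, neg_neg]
  rw [h5, w.map_neg] at h3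
  refine absurd (w.map_sum_lt one_ne_zero fun i hi => ?_) (not_lt.2 h3)
  rw [map_mul, map_pow]
  exact (mul_le_of_le_one_right' (pow_le_one' hy i)).trans_lt (ha i hi)

/-- Extension of valuations. -/
theorem exists_ext {Δ : Type*} [LinearOrderedAddCommGroupWithTop Δ] (o : AddValuation F Δ) :
    ∃ O : ValuationSubring L, (∀ x, 0 ≤ o x → O.valuation (algebraMap F L x) ≤ 1) ∧
      ∀ x, 0 < o x → O.valuation (algebraMap F L x) < 1 := by
  let A : Subring L :=
    { carrier := {y | ∃ x, 0 ≤ o x ∧ algebraMap F L x = y}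
      mul_mem' := by
        rintro _ _ ⟨a, ha, rfl⟩ ⟨b, hb, rfl⟩
        exact ⟨a * b, by rw [o.map_mul]; exact add_nonneg ha hb, map_mul _ _ _⟩
      one_mem' := ⟨1, o.map_one.ge, map_one _⟩
      add_mem' := by
        rintro _ _ ⟨a, ha, rfl⟩ ⟨b, hb, rfl⟩
        exact ⟨a + b, o.map_le_add ha hb, map_add _ _ _⟩
      zero_mem' := ⟨0, by simp, map_zero _⟩
      neg_mem' := by
        rintro _ ⟨a, ha, rfl⟩
        exact ⟨-a, by rwa [o.map_neg], map_neg _ _⟩ }
  let I : Ideal A :=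
    { carrier := {y | ∃ x, 0 < o x ∧ algebraMap F L x = y}
      add_mem' := by
        rintro a' b' ⟨a, ha, h1⟩ ⟨b, hb, h2⟩
        exact ⟨a + b, o.map_lt_add ha hb, by rw [map_add, h1, h2]; rfl⟩
      zero_mem' := ⟨0, by simp, map_zero _⟩
      smul_mem' := by
        rintro ⟨_, a, ha, rfl⟩ b' ⟨b, hb, h2⟩
        exact ⟨a * b, by rw [o.map_mul]; exact hb.trans_le (le_add_of_nonneg_left ha),
          by rw [map_mul, h2]; rfl⟩ }
  obtain ⟨O, h1, h2⟩ := Ideal.image_subset_nonunits_valuationSubring I (by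
    rw [Ideal.ne_top_iff_one]
    rintro ⟨x, hx, h⟩
    obtain rfl : x = 1 := (algebraMap F L).injective (by rw [h, map_one]; rfl)
    simp at hx)
  exact ⟨O, fun x hx => (O.valuation_le_one_iff _).2 (h1 ⟨x, hx, rfl⟩), fun x hx =>
    O.mem_nonunits_iff.1 (h2 ⟨⟨_, x, hx.le, rfl⟩, ⟨x, hx, rfl⟩, rfl⟩)⟩

end ext

open HahnSeries in
/-- The rational function field embeds in the field of Hahn series. -/
theorem exists_hahn (k : Type*) [Field k] (r : ℕ) :
    ∃ φ : FractionRing (MvPolynomial (Fin r) k) →ₐ[k] HahnSeries (Lex (Fin r → ℤ)) k,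
      ∀ m, ∃ x, φ x = single m 1 := by
  classical
  let h : Fin r → HahnSeries (Lex (Fin r → ℤ)) k := fun i => single (toLex (Pi.single i 1)) 1
  let e : (Fin r →₀ ℕ) → Lex (Fin r → ℤ) := fun d => toLex fun i => (d i : ℤ)
  have he : Function.Injective e := fun d d' hd => Finsupp.ext fun i => by
    exact_mod_cast congrFun (toLex.injective hd) i
  have hp : ∀ (s : Finset (Fin r)) (a : Fin r → Lex (Fin r → ℤ)),
      ∏ i ∈ s, single (a i) (1 : k) = single (∑ i ∈ s, a i) 1 := fun s a => by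
    induction s using Finset.induction_on with
    | empty => simp
    | insert i s hi ih => rw [Finset.prod_insert hi, Finset.sum_insert hi, ih, single_mul_single,
        one_mul]
  have hm : ∀ d a, MvPolynomial.aeval h (MvPolynomial.monomial d a) = single (e d) a := by
    intro d a
    rw [MvPolynomial.aeval_monomial, Finsupp.prod_fintype _ _ (by simp)]
    simp only [h, single_pow, one_pow, hp]
    rw [← HahnSeries.C_eq_algebraMap, HahnSeries.C_apply, single_mul_single, zero_add, mul_one]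
    congr 2
    refine ofLex.injective (funext fun i => ?_)
    change (∑ j : Fin r, d j • (Pi.single j 1 : Fin r → ℤ)) i = (d i : ℤ)
    simp [Finset.sum_apply, Pi.single_apply]
  have hc : ∀ p d, (MvPolynomial.aeval h p).coeff (e d) = p.coeff d := fun p d => by
    induction p using MvPolynomial.induction_on' with
    | monomial d' a => rw [hm, coeff_single, MvPolynomial.coeff_monomial]; simp [he.eq_iff, eq_comm]
    | add p q hp hq => rw [map_add, HahnSeries.coeff_add, hp, hq, MvPolynomial.coeff_add]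
  have hinj : Function.Injective (MvPolynomial.aeval h : MvPolynomial (Fin r) k →ₐ[k] _) :=
    fun p q hpq => MvPolynomial.ext _ _ fun d => by rw [← hc, ← hc, hpq]
  refine ⟨IsFractionRing.liftAlgHom hinj, fun m => ⟨algebraMap _ _ (MvPolynomial.monomial
    (Finsupp.equivFunOnFinite.symm fun i => (ofLex m i).toNat) (1 : k)) / algebraMap _ _
    (MvPolynomial.monomial (Finsupp.equivFunOnFinite.symm fun i => (-ofLex m i).toNat) (1 : k)), ?_⟩⟩
  rw [map_div₀, IsFractionRing.liftAlgHom_apply, IsFractionRing.liftAlgHom_apply,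
    IsFractionRing.lift_algebraMap, IsFractionRing.lift_algebraMap]
  change MvPolynomial.aeval h _ / MvPolynomial.aeval h _ = _
  rw [hm, hm, single_div_single, div_one]
  congr 2
  refine ofLex.injective (funext fun i => ?_)
  change (((ofLex m i).toNat : ℤ)) - ((-ofLex m i).toNat : ℤ) = _
  omega

open HahnSeries in
theorem main {k F L : Type*} [Field k] [IsAlgClosed k] [Field F] [Field L] [Algebra k F]
    [Algebra k L] [Algebra F L] [IsScalarTower k F L] [FiniteDimensional F L] {r : ℕ}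
    (φ : F →ₐ[k] HahnSeries (Lex (Fin r → ℤ)) k) (hφ : ∀ m, ∃ x, φ x = single m 1) :
    ∃ (r' : ℕ) (ν : L → Fin r' → ℤ), r ≤ r' ∧
      (∀ x y, x ≠ 0 → y ≠ 0 → ν (x * y) = ν x + ν y) ∧ (∀ m, ∃ x, x ≠ 0 ∧ ν x = m) ∧
      ∀ V : Submodule k L, FiniteDimensional k V →
        (ν '' ((V : Set L) \ {0})).Finite ∧
          (ν '' ((V : Set L) \ {0})).ncard = Module.finrank k V := by
  classical
  obtain ⟨O, h1, h2⟩ := exists_ext (L := L) ((addVal (Lex (Fin r → ℤ)) k).comap (φ : F →+* _))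
  set w := O.valuation with hw
  change ∀ x, 0 ≤ (φ x).orderTop → _ at h1
  change ∀ x, 0 < (φ x).orderTop → _ at h2
  have n0 : ∀ {x : F}, x ≠ 0 → φ x ≠ 0 := fun h => (_root_.map_ne_zero φ).2 h
  have n1 : ∀ {x : F}, x ≠ 0 → w (algebraMap F L x) ≠ 0 := fun h =>
    w.ne_zero_iff.2 ((_root_.map_ne_zero _).2 h)
  have omul : ∀ x y : F, x ≠ 0 → y ≠ 0 → (φ (x * y)).order = (φ x).order + (φ y).order :=
    fun x y hx hy => by rw [map_mul, order_mul (n0 hx) (n0 hy)]
  have odiv : ∀ x y : F, x ≠ 0 → y ≠ 0 → (φ (x / y)).order = (φ x).order - (φ y).order :=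
    fun x y hx hy => by
      rw [eq_sub_iff_add_eq, ← omul _ _ (div_ne_zero hx hy) hy, div_mul_cancel₀ _ hy]
  have hle : ∀ x y : F, x ≠ 0 → y ≠ 0 →
      (w (algebraMap F L x) ≤ w (algebraMap F L y) ↔ (φ y).order ≤ (φ x).order) := by
    intro x y hx hy
    refine ⟨fun h => le_of_not_gt fun h' => ?_, fun h => ?_⟩
    · have := h2 (y / x) (zero_lt_orderTop_of_order (by rwa [odiv _ _ hy hx, sub_pos]))
      rw [map_div₀, map_div₀, div_lt_one₀ (zero_lt_iff.2 (n1 hx))] at this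
      exact absurd h (not_le.2 this)
    · have := h1 (x / y) (zero_le_orderTop_iff.2 (by rwa [odiv _ _ hx hy, sub_nonneg]))
      rwa [map_div₀, map_div₀, div_le_one₀ (zero_lt_iff.2 (n1 hy))] at this
  have heq : ∀ x y : F, x ≠ 0 → y ≠ 0 →
      (w (algebraMap F L x) = w (algebraMap F L y) ↔ (φ x).order = (φ y).order) := by
    intro x y hx hy
    rw [le_antisymm_iff, hle x y hx hy, hle y x hy hx, le_antisymm_iff, and_comm]
  have hk : ∀ c : k, c ≠ 0 → w (algebraMap k L c) = 1 := fun c hc => by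
    rw [IsScalarTower.algebraMap_apply k F L, ← w.map_one, ← (algebraMap F L).map_one,
      heq _ _ ((_root_.map_ne_zero _).2 hc) one_ne_zero, φ.commutes, map_one, order_one,
      ← HahnSeries.C_eq_algebraMap, order_C]
  have hF : ∀ x : F, w (algebraMap F L x) ≤ 1 →
      ∃ c : k, w (algebraMap F L x - algebraMap k L c) < 1 := fun x hx => by
    refine ⟨(φ x).coeff 0, ?_⟩
    rw [IsScalarTower.algebraMap_apply k F L, ← map_sub]
    apply h2
    have h0 : 0 ≤ (φ x).orderTop := by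
      by_cases h : x = 0
      · simp [h]
      · rw [zero_le_orderTop_iff, ← order_one (R := k), ← map_one φ, ← hle _ _ h one_ne_zero]
        simpa using hx
    rw [map_sub, φ.commutes, ← HahnSeries.C_eq_algebraMap, HahnSeries.C_apply]
    refine lt_of_le_of_ne (le_trans (le_min h0 orderTop_single_le) min_orderTop_le_orderTop_sub)
      (orderTop_ne_of_coeff_eq_zero (by simp)).symm
  have hres : ∀ x y : L, y ≠ 0 → w x = w y → ∃ c : k, w (x - c • y) < w y := fun x y hy h => by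
    have a1 : 0 < w y := w.pos_iff.2 hy
    obtain ⟨c, hc⟩ := residue w hk hF (x / y) (by rw [map_div₀, div_le_one₀ a1, h])
    refine ⟨c, ?_⟩
    rwa [← div_lt_one₀ a1, ← map_div₀, sub_div, Algebra.smul_def, mul_div_cancel_right₀ _ hy]
  set N := (Module.finrank F L).factorial with hN
  choose! X X0 hX using fun g (hg : ∃ y, y ≠ 0 ∧ w y = g) =>
    (show ∃ x : F, x ≠ 0 ∧ w (algebraMap F L x) = g ^ N from
      let ⟨y, a, b⟩ := hg; b ▸ pow_mem w y a)
  let μ : O.ValueGroup → Fin r → ℤ := fun g => ofLex (φ (X g)).order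
  have X0' : ∀ y, y ≠ 0 → X (w y) ≠ 0 := fun y hy => X0 _ ⟨y, hy, rfl⟩
  have hX' : ∀ y, y ≠ 0 → w (algebraMap F L (X (w y))) = w y ^ N := fun y hy => hX _ ⟨y, hy, rfl⟩
  have μmul : ∀ x y, x ≠ 0 → y ≠ 0 → μ (w (x * y)) = μ (w x) + μ (w y) := fun x y hx hy => by
    change ofLex _ = ofLex ((φ (X (w x))).order + (φ (X (w y))).order)
    rw [← omul _ _ (X0' x hx) (X0' y hy),
      (heq _ _ (X0' _ (mul_ne_zero hx hy)) (mul_ne_zero (X0' x hx) (X0' y hy))).1]
    rw [hX' _ (mul_ne_zero hx hy), map_mul, map_mul, map_mul, hX' x hx, hX' y hy, mul_pow]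
  have μ1 : μ (w 1) = 0 := by simpa using μmul 1 1 one_ne_zero one_ne_zero
  have μinj : ∀ x y, x ≠ 0 → y ≠ 0 → μ (w x) = μ (w y) → w x = w y := fun x y hx hy h => by
    have := (heq _ _ (X0' x hx) (X0' y hy)).2 (ofLex.injective h)
    rw [hX' x hx, hX' y hy] at this
    exact (pow_left_inj₀ zero_le zero_le (Nat.factorial_ne_zero _)).1 this
  let Λ : Submodule ℤ (Fin r → ℤ) := AddSubgroup.toIntSubmodule
    { carrier := {m | ∃ y, y ≠ 0 ∧ μ (w y) = m}
      add_mem' := by
        rintro _ _ ⟨x, hx, rfl⟩ ⟨y, hy, rfl⟩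
        exact ⟨x * y, mul_ne_zero hx hy, μmul x y hx hy⟩
      zero_mem' := ⟨1, one_ne_zero, μ1⟩
      neg_mem' := by
        rintro _ ⟨x, hx, rfl⟩
        refine ⟨x⁻¹, inv_ne_zero hx, eq_neg_of_add_eq_zero_left ?_⟩
        rw [← μmul _ _ (inv_ne_zero hx) hx, inv_mul_cancel₀ hx, μ1] }
  have mem : ∀ y, y ≠ 0 → μ (w y) ∈ Λ := fun y hy => ⟨y, hy, rfl⟩
  let b := (Module.finBasis ℤ Λ).equivFun
  let θ : O.ValueGroup → Fin (Module.finrank ℤ Λ) → ℤ := fun g =>
    if h : μ g ∈ Λ then b ⟨μ g, h⟩ else 0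
  have hθ : ∀ y (hy : y ≠ 0), θ (w y) = b ⟨μ (w y), mem y hy⟩ := fun y hy => dif_pos (mem y hy)
  refine ⟨Module.finrank ℤ Λ, fun y => θ (w y), ?_, fun x y hx hy => ?_, fun m => ?_,
    fun V hV => ?_⟩
  · have hm : ∀ m : Fin r → ℤ, ((N : ℤ) • LinearMap.id (R := ℤ)) m ∈ Λ := fun m => by
      obtain ⟨x, hx⟩ := hφ (toLex m)
      have x0 : x ≠ 0 := fun h => by
        rw [h, map_zero] at hx
        exact single_ne_zero one_ne_zero hx.symm
      have x1 := (_root_.map_ne_zero (algebraMap F L)).2 x0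
      refine ⟨algebraMap F L x, x1, ?_⟩
      change ofLex _ = _
      rw [(heq _ _ (X0' _ x1) (pow_ne_zero N x0)).1 (by rw [hX' _ x1, map_pow, map_pow]), map_pow,
        order_pow, hx, order_single one_ne_zero]
      simp
    have := LinearMap.finrank_le_finrank_of_injective (f := LinearMap.codRestrict Λ _ hm)
      fun m m' h => smul_right_injective (Fin r → ℤ)
        (Int.natCast_ne_zero.2 (Nat.factorial_ne_zero _)) (congrArg Subtype.val h)
    simpa using this
  · beta_reduce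
    rw [hθ _ (mul_ne_zero hx hy), hθ x hx, hθ y hy, ← map_add]
    exact congrArg b (Subtype.ext (μmul x y hx hy))
  · obtain ⟨y, hy, h⟩ := (b.symm m).2
    exact ⟨y, hy, (hθ y hy).trans (b.eq_symm_apply.1 (Subtype.ext h))⟩
  · obtain ⟨a1, a2⟩ := count w hk hres V
    rw [← Set.image_image θ w]
    refine ⟨a1.image _, (Set.InjOn.ncard_image ?_).trans a2⟩
    rintro _ ⟨x, hx, rfl⟩ _ ⟨y, hy, rfl⟩ h
    rw [hθ x hx.2, hθ y hy.2] at h
    exact μinj x y hx.2 hy.2 (congrArg Subtype.val (b.injective h))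

end VAL

theorem exists_val {k L : Type u} [Field k] [IsAlgClosed k] [Field L] [Algebra k L]
    {σ : Type} [Finite σ] (v : σ → L) (hv : IntermediateField.adjoin k (Set.range v) = ⊤) :
    ∃ (r : ℕ) (ν : L → Fin r → ℤ), Algebra.trdeg k L ≤ (r : Cardinal) ∧
      (∀ x y, x ≠ 0 → y ≠ 0 → ν (x * y) = ν x + ν y) ∧ (∀ m, ∃ x, x ≠ 0 ∧ ν x = m) ∧
      ∀ V : Submodule k L, FiniteDimensional k V →
        (ν '' ((V : Set L) \ {0})).Finite ∧
          (ν '' ((V : Set L) \ {0})).ncard = Module.finrank k V := by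
  have : Algebra.IsAlgebraic (Algebra.adjoin k (Set.range v)) L := by
    rw [← IntermediateField.isAlgebraic_adjoin_iff_top, hv, Algebra.isAlgebraic_iff_isIntegral]
    exact Algebra.isIntegral_of_surjective IntermediateField.topEquiv.surjective
  obtain ⟨s, hs, ht⟩ := exists_isTranscendenceBasis_subset (R := k) (Set.range v)
  have : Finite s := ((Set.finite_range v).subset hs).to_subtype
  obtain ⟨r, ⟨e⟩⟩ := Finite.exists_equiv_fin s
  have ht' := ht.comp_equiv e.symm
  have halg := ht'.isAlgebraic_field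
  set F := IntermediateField.adjoin k (Set.range (Subtype.val ∘ e.symm))
  have : FiniteDimensional F L := by
    have := IntermediateField.finiteDimensional_adjoin (K := F) (S := Set.range v)
      fun x _ => Algebra.IsIntegral.isIntegral x
    rw [IntermediateField.adjoin_eq_top_of_adjoin_eq_top k hv] at this
    exact IntermediateField.topEquiv.toLinearEquiv.finiteDimensional
  obtain ⟨φ, hφ⟩ := VAL.exists_hahn k r
  obtain ⟨r', ν, h1, h2⟩ := VAL.main (F := F) (L := L) (φ.comp ht'.1.reprField) fun m =>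
    let ⟨x, hx⟩ := hφ m
    ⟨ht'.1.aevalEquivField x, (congrArg φ (ht'.1.aevalEquivField.symm_apply_apply x)).trans hx⟩
  refine ⟨r', ν, ?_, h2⟩
  have := ht'.lift_cardinalMk_eq_trdeg
  rw [Cardinal.mk_fin, Cardinal.lift_natCast, Cardinal.lift_uzero] at this
  rw [← this]
  exact_mod_cast h1

end Pool.Agent.Work.MP_ffcd14_ag
end

-- merged part: Pool.Agent.Work.MP_ffcd14_ag.Cyc.RCSAlg
section
/-! # From the midpoint inequality to the reverse Cauchy-Schwarz inequality -/

namespace Pool.Agent.Work.MP_ffcd14_ag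

open Filter Topology

universe w

variable {B : Type w} [CommRing B] [Algebra ℚ B]

/-- The reverse Cauchy-Schwarz inequality for the form `(y, z) ↦ ν (ω y z)` on `S`. -/
def RCS (ν : B →ₗ[ℚ] ℚ) (S : Submodule ℚ B) (ω : B) : Prop :=
  ∀ y ∈ S, ∀ z ∈ S, 0 < ν (ω * y * y) → ν (ω * y * y) * ν (ω * z * z) ≤ ν (ω * y * z) ^ 2

theorem rcs_limit {ν : B →ₗ[ℚ] ℚ} {S : Submodule ℚ B} (F : ℚ → B)
    (hF : ∀ c, Continuous fun t => ν (F t * c)) {α : Type} (l : Filter α) [l.NeBot] (τ : α → ℚ)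
    (hτ : Tendsto τ l (𝓝 0)) (h : ∀ᶠ i in l, RCS ν S (F (τ i))) : RCS ν S (F 0) := by
  intro y hy z hz h0
  have t : ∀ c, Tendsto (fun i => ν (F (τ i) * c)) l (𝓝 (ν (F 0 * c))) := fun c =>
    ((hF c).tendsto 0).comp hτ
  simp only [mul_assoc] at h0 ⊢
  have e1 := (t (y * y)).eventually (lt_mem_nhds h0)
  refine le_of_tendsto_of_tendsto ((t (y * y)).mul (t (z * z))) ((t (y * z)).pow 2) ?_
  filter_upwards [h, e1] with i hi h1
  have := hi y hy z hz (by simpa only [mul_assoc] using h1)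
  simpa only [mul_assoc] using this

theorem rcs_cont (ν : B →ₗ[ℚ] ℚ) (w u : B) (m : ℕ) :
    ∀ c, Continuous fun t : ℚ => ν ((w + t • u) ^ m * c) := by
  induction m with
  | zero => intro c; simpa using continuous_const
  | succ m ih =>
    intro c
    have : (fun t : ℚ => ν ((w + t • u) ^ (m + 1) * c)) =
        fun t => ν ((w + t • u) ^ m * (w * c)) + t * ν ((w + t • u) ^ m * (u * c)) := by
      funext t
      rw [← smul_eq_mul t, ← map_smul, ← map_add]
      congr 1
      simp only [Algebra.smul_def]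
      ring
    rw [this]
    exact (ih _).add (continuous_id.mul (ih _))

theorem rcs_expand (ν : B →ₗ[ℚ] ℚ) (w D : B) (n : ℕ) : ∀ c, ∃ g : ℚ → ℚ, Continuous g ∧
    ∀ t : ℚ, ν ((w + t • D) ^ (n + 2) * c) = ν (w ^ (n + 2) * c) +
      (n + 2) * t * ν (w ^ (n + 1) * D * c) +
      ((n + 2) * (n + 1) / 2) * t ^ 2 * ν (w ^ n * D * D * c) + t ^ 3 * g t := by
  induction n with
  | zero =>
    intro c
    refine ⟨fun _ => 0, continuous_const, fun t => ?_⟩
    have : (w + t • D) ^ (0 + 2) * c = w ^ (0 + 2) * c + (2 * t) • (w ^ (0 + 1) * D * c) +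
        (t ^ 2) • (w ^ 0 * D * D * c) := by
      simp only [Algebra.smul_def, map_mul, map_pow, map_ofNat]
      ring
    rw [this]
    simp only [map_add, map_smul, smul_eq_mul]
    push_cast
    ring
  | succ n ih =>
    intro c
    obtain ⟨g1, c1, h1⟩ := ih (w * c)
    obtain ⟨g2, c2, h2⟩ := ih (D * c)
    refine ⟨fun t => g1 t + ((n + 2) * (n + 1) / 2) * ν (w ^ n * D * D * (D * c)) + t * g2 t,
      by fun_prop, fun t => ?_⟩
    have : (w + t • D) ^ (n + 1 + 2) * c =
        (w + t • D) ^ (n + 2) * (w * c) + t • ((w + t • D) ^ (n + 2) * (D * c)) := by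
      simp only [Algebra.smul_def]
      ring
    rw [this, map_add, map_smul, smul_eq_mul, h1, h2]
    have e1 : w ^ (n + 2) * (w * c) = w ^ (n + 1 + 2) * c := by ring
    have e2 : w ^ (n + 1) * D * (w * c) = w ^ (n + 1 + 1) * D * c := by ring
    have e3 : w ^ (n + 2) * (D * c) = w ^ (n + 1 + 1) * D * c := by ring
    have e4 : w ^ n * D * D * (w * c) = w ^ (n + 1) * D * D * c := by ring
    have e5 : w ^ (n + 1) * D * (D * c) = w ^ (n + 1) * D * D * c := by ring
    rw [e1, e2, e3, e4, e5]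
    push_cast
    ring

theorem rcs_den {ι : Type} [Finite ι] (a : ι → ℚ) (ha : ∀ i, 0 < a i) :
    ∃ N : ℕ, 0 < N ∧ ∃ a' : ι → ℕ, ∀ i, (a' i : ℚ) = N * a i := by
  have := Fintype.ofFinite ι
  classical
  refine ⟨∏ i, (a i).den, Finset.prod_pos fun i _ => (a i).den_pos, ?_⟩
  have : ∀ i, ∃ n : ℕ, (n : ℚ) = (∏ j, (a j).den : ℕ) * a i := by
    intro i
    obtain ⟨k, hk⟩ := Finset.dvd_prod_of_mem (fun j => (a j).den) (Finset.mem_univ i)
    refine ⟨k * (a i).num.toNat, ?_⟩
    have h1 : (((a i).num.toNat : ℕ) : ℚ) = (a i).num := by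
      have : (((a i).num.toNat : ℕ) : ℤ) = (a i).num :=
        Int.toNat_of_nonneg (Rat.num_nonneg.mpr (ha i).le)
      exact_mod_cast congrArg (Int.cast : ℤ → ℚ) this
    rw [hk, Nat.cast_mul, Nat.cast_mul, h1, ← Rat.mul_den_eq_num]
    ring
  choose a' h using this
  exact ⟨a', h⟩

theorem rcs_lin {ι : Type} [Fintype ι] (h : ι → B) (a : ι →₀ ℕ) :
    lin h a = ∑ i, (a i : ℚ) • h i := by
  unfold lin
  rw [Finsupp.sum_fintype _ _ (by simp)]
  simp [Nat.cast_smul_eq_nsmul]

theorem rcs_scale {ι : Type} [Fintype ι] (h : ι → B) (a : ι → ℚ) (N : ℕ) (a' : ι → ℕ)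
    (e : ∀ i, (a' i : ℚ) = N * a i) :
    lin h (Finsupp.equivFunOnFinite.symm a') = (N : ℚ) • ∑ i, a i • h i := by
  rw [rcs_lin, Finset.smul_sum]
  refine Finset.sum_congr rfl fun i _ => ?_
  simp [e, mul_smul]

theorem rcs_of_orth {ν : B →ₗ[ℚ] ℚ} {S : Submodule ℚ B} {ω w : B} (hw : w ∈ S)
    (h : ∀ D ∈ S, ν (ω * w * D) = 0 → ν (ω * D * D) ≤ 0) : RCS ν S ω := by
  intro y hy z hz h0
  have hyw : ν (ω * w * y) ≠ 0 := fun e => absurd (h y hy e) (not_le.mpr h0)
  have e : ∀ (p q : ℚ) (x : B), ν (ω * x * (p • y - q • z)) = p * ν (ω * x * y) - q * ν (ω * x * z) := by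
    intro p q x
    rw [mul_sub, mul_smul_comm, mul_smul_comm, map_sub, map_smul, map_smul, smul_eq_mul,
      smul_eq_mul]
  have h1 := h (ν (ω * w * z) • y - ν (ω * w * y) • z)
    (S.sub_mem (S.smul_mem _ hy) (S.smul_mem _ hz)) (by rw [e]; ring)
  have h2 : 0 < ν (ω * w * y) ^ 2 := by positivity
  generalize ν (ω * w * y) = b at *
  generalize ν (ω * w * z) = a at *
  rw [e, mul_right_comm ω (a • y - b • z) y, mul_right_comm ω (a • y - b • z) z, e, e,
    mul_right_comm ω z y] at h1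
  generalize ν (ω * y * y) = P at *
  generalize ν (ω * y * z) = Q at *
  generalize ν (ω * z * z) = R at *
  have h3 : b ^ 2 * (P * R - Q ^ 2) ≤ 0 := by
    nlinarith [mul_nonneg h0.le (neg_nonneg.mpr h1), sq_nonneg (a * P - b * Q)]
  by_contra hc
  have : 0 < b ^ 2 * (P * R - Q ^ 2) := mul_pos h2 (by linarith [not_le.mp hc])
  linarith

theorem RCS.of_midpoint (ν : B →ₗ[ℚ] ℚ) {ι : Type} [Finite ι] (h : ι → B) (m : ℕ)
    (hpos : ∀ a : ι →₀ ℕ, (∀ i, 0 < a i) → 0 < ν (lin h a ^ (m + 2)))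
    (hmid : ∀ a b : ι →₀ ℕ, (∀ i, 0 < a i) → (∀ i, 0 < b i) →
      4 ^ (m + 2) * ν (lin h a ^ (m + 2)) * ν (lin h b ^ (m + 2)) ≤
        ν (lin h (a + b) ^ (m + 2)) ^ 2) (a : ι →₀ ℕ) :
    RCS ν (Submodule.span ℚ (Set.range h)) (lin h a ^ m) := by
  have := Fintype.ofFinite ι
  have pos' : ∀ (a : ι → ℚ) (N : ℕ) (a' : ι → ℕ), 0 < N → (∀ i, 0 < a i) →
      (∀ i, (a' i : ℚ) = N * a i) → ∀ i, 0 < (Finsupp.equivFunOnFinite.symm a') i := by
    intro a N a' hN ha e i
    have : (0 : ℚ) < a' i := by rw [e]; have := ha i; positivity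
    simpa using this
  have qpos : ∀ a : ι → ℚ, (∀ i, 0 < a i) → 0 < ν ((∑ i, a i • h i) ^ (m + 2)) := by
    intro a ha
    obtain ⟨N, hN, a', e⟩ := rcs_den a ha
    have := hpos _ (pos' a N a' hN ha e)
    rw [rcs_scale h a N a' e, smul_pow, map_smul, smul_eq_mul] at this
    exact (mul_pos_iff_of_pos_left (by positivity)).mp this
  have qmid : ∀ a b : ι → ℚ, (∀ i, 0 < a i) → (∀ i, 0 < b i) →
      4 ^ (m + 2) * ν ((∑ i, a i • h i) ^ (m + 2)) * ν ((∑ i, b i • h i) ^ (m + 2)) ≤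
        ν (((∑ i, a i • h i) + ∑ i, b i • h i) ^ (m + 2)) ^ 2 := by
    intro a b ha hb
    obtain ⟨N, hN, c, e⟩ := rcs_den (Sum.elim a b) (by rintro (i | i); exacts [ha i, hb i])
    have ea : ∀ i, (c (Sum.inl i) : ℚ) = N * a i := fun i => e (Sum.inl i)
    have eb : ∀ i, (c (Sum.inr i) : ℚ) = N * b i := fun i => e (Sum.inr i)
    have := hmid _ _ (pos' a N _ hN ha ea) (pos' b N _ hN hb eb)
    have hadd : ∀ x y : ι →₀ ℕ, lin h (x + y) = lin h x + lin h y := by
      intro x y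
      simp [rcs_lin, add_smul, Finset.sum_add_distrib]
    rw [hadd, rcs_scale h a N _ ea, rcs_scale h b N _ eb, ← smul_add] at this
    simp only [smul_pow, map_smul, smul_eq_mul] at this
    have hN' : (0 : ℚ) < ((N : ℚ) ^ (m + 2)) ^ 2 := by positivity
    refine le_of_mul_le_mul_left ?_ hN'
    nlinarith [this]
  have hmem : ∀ a : ι → ℚ, ∑ i, a i • h i ∈ Submodule.span ℚ (Set.range h) := fun a =>
    (Submodule.mem_span_range_iff_exists_fun ℚ).mpr ⟨a, rfl⟩
  have step : ∀ a : ι → ℚ, (∀ i, 0 < a i) →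
      RCS ν (Submodule.span ℚ (Set.range h)) ((∑ i, a i • h i) ^ m) := by
    intro a ha
    refine rcs_of_orth (hmem a) fun D hD h0 => ?_
    obtain ⟨d, rfl⟩ := (Submodule.mem_span_range_iff_exists_fun ℚ).mp hD
    have p0 := qpos a ha
    have ev : ∀ᶠ t : ℚ in 𝓝 0, ∀ i, 0 < a i + t * d i ∧ 0 < a i + (-t) * d i := by
      refine eventually_all.mpr fun i => Eventually.and ?_ ?_
      · exact (by fun_prop : Continuous fun t : ℚ => a i + t * d i).continuousAt.eventually
          (lt_mem_nhds (by simpa using ha i))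
      · exact (by fun_prop : Continuous fun t : ℚ => a i + (-t) * d i).continuousAt.eventually
          (lt_mem_nhds (by simpa using ha i))
    have es : ∀ t : ℚ, ∑ i, (a i + t * d i) • h i = (∑ i, a i • h i) + t • ∑ i, d i • h i := by
      intro t
      simp [add_smul, Finset.sum_add_distrib, Finset.smul_sum, mul_smul]
    generalize ∑ i, a i • h i = w at *
    generalize ∑ i, d i • h i = D at *
    obtain ⟨g, hg, eg⟩ := rcs_expand ν w D m 1
    simp only [mul_one] at eg
    rw [← pow_succ] at h0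
    rw [h0] at eg
    set k : ℚ := ((m : ℚ) + 2) * (m + 1) / 2 with hk
    have hk0 : 0 < k := by positivity
    generalize ν (w ^ m * D * D) = p2 at *
    have key : ∀ᶠ t : ℚ in 𝓝[≠] 0, 2 * k * ν (w ^ (m + 2)) * p2 +
        t * (ν (w ^ (m + 2)) * (g t - g (-t)) + t * (k * p2 + t * g t) * (k * p2 - t * g (-t)))
          ≤ 0 := by
      filter_upwards [mem_nhdsWithin_of_mem_nhds ev, self_mem_nhdsWithin] with t ht ht0
      have h1 := qmid _ _ (fun i => (ht i).1) (fun i => (ht i).2)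
      have e2 : w + t • D + (w + (-t) • D) = (2 : ℚ) • w := by
        rw [neg_smul, two_smul]; abel
      rw [es, es, e2, smul_pow, map_smul, smul_eq_mul, eg, eg, mul_pow, ← pow_mul,
        mul_comm (m + 2) 2, pow_mul, mul_assoc] at h1
      have h2 := le_of_mul_le_mul_left (a := (4 : ℚ) ^ (m + 2)) (by norm_num at h1 ⊢; exact h1)
        (by positivity)
      have ht2 : 0 < t ^ 2 := by have : t ≠ 0 := ht0; positivity
      refine le_of_mul_le_mul_left (a := t ^ 2) ?_ ht2
      nlinarith [h2]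
    have lim : Tendsto (fun t : ℚ => 2 * k * ν (w ^ (m + 2)) * p2 +
        t * (ν (w ^ (m + 2)) * (g t - g (-t)) + t * (k * p2 + t * g t) * (k * p2 - t * g (-t))))
        (𝓝[≠] 0) (𝓝 (2 * k * ν (w ^ (m + 2)) * p2)) := by
      refine Tendsto.mono_left ?_ nhdsWithin_le_nhds
      have : Continuous (fun t : ℚ => 2 * k * ν (w ^ (m + 2)) * p2 +
        t * (ν (w ^ (m + 2)) * (g t - g (-t)) + t * (k * p2 + t * g t) * (k * p2 - t * g (-t)))) := by
        fun_prop
      simpa using this.tendsto 0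
    have := le_of_tendsto lim key
    by_contra hc
    have : 0 < 2 * k * ν (w ^ (m + 2)) * p2 := by have := not_le.mp hc; positivity
    linarith
  have := rcs_limit (S := Submodule.span ℚ (Set.range h))
    (fun t => (lin h a + t • ∑ i, h i) ^ m) (rcs_cont ν _ _ m) (𝓝[>] (0 : ℚ)) id
    nhdsWithin_le_nhds (by
      filter_upwards [self_mem_nhdsWithin] with t ht
      have ht' : 0 < t := ht
      have := step (fun i => a i + t) (fun i => by positivity)
      simpa [rcs_lin, add_smul, Finset.sum_add_distrib, Finset.smul_sum] using this)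
  simpa using this

theorem RCS.lead {ν : B →ₗ[ℚ] ℚ} {S : Submodule ℚ B} {ω₀ ω₁ : B}
    (h : ∀ s : ℕ, RCS ν S (ω₀ + (s : ℚ) • ω₁)) : RCS ν S ω₁ := by
  have := rcs_limit (S := S) (fun t => (ω₁ + t • ω₀) ^ 1) (rcs_cont ν _ _ 1) atTop
    (fun n : ℕ => ((n : ℚ))⁻¹) tendsto_inv_atTop_nhds_zero_nat (by
      filter_upwards [eventually_gt_atTop 0] with s hs
      have hs' : (0 : ℚ) < s := by exact_mod_cast hs
      have e : ω₀ + (s : ℚ) • ω₁ = (s : ℚ) • (ω₁ + ((s : ℚ))⁻¹ • ω₀) ^ 1 := by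
        rw [pow_one, smul_add, smul_smul, mul_inv_cancel₀ hs'.ne', one_smul, add_comm]
      intro y hy z hz h0
      have := h s y hy z hz
      simp only [e, smul_mul_assoc, map_smul, smul_eq_mul] at this
      have h2 := this (mul_pos hs' h0)
      refine le_of_mul_le_mul_left (a := (s : ℚ) ^ 2) ?_ (by positivity)
      nlinarith [h2])
  simpa using this

theorem RCS.nonpos {ν : B →ₗ[ℚ] ℚ} {S : Submodule ℚ B} {ω : B} (h : RCS ν S ω) {y z : B}
    (hy : y ∈ S) (hz : z ∈ S) (h1 : 0 < ν (ω * y * y)) (h2 : ν (ω * y * z) = 0) :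
    ν (ω * z * z) ≤ 0 := by
  have := h y hy z hz h1
  rw [h2] at this
  by_contra hc
  have := mul_pos h1 (not_le.mp hc)
  linarith

theorem RCS.null {ν : B →ₗ[ℚ] ℚ} {S : Submodule ℚ B} {ω : B} (h : RCS ν S ω) {y z : B}
    (hy : y ∈ S) (hz : z ∈ S) (h1 : 0 < ν (ω * y * y)) (h2 : ν (ω * y * z) = 0)
    (h3 : ν (ω * z * z) = 0) {z' : B} (hz' : z' ∈ S) : ν (ω * z * z') = 0 := by
  have key : ∀ c : ℚ, ν (ω * y * y) * (2 * c * ν (ω * z * z') + ν (ω * z' * z')) ≤
      ν (ω * y * z') ^ 2 := by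
    intro c
    have := h y hy (c • z + z') (S.add_mem (S.smul_mem _ hz) hz') h1
    have e1 : ω * (c • z + z') * (c • z + z') =
        (c ^ 2) • (ω * z * z) + (2 * c) • (ω * z * z') + ω * z' * z' := by
      simp only [Algebra.smul_def, map_mul, map_pow, map_ofNat]; ring
    have e2 : ω * y * (c • z + z') = c • (ω * y * z) + ω * y * z' := by
      simp only [Algebra.smul_def]; ring
    rw [e1, e2] at this
    simp only [map_add, map_smul, smul_eq_mul, h2, h3] at this
    simpa using this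
  by_contra hne
  generalize ν (ω * z * z') = q at *
  generalize ν (ω * y * y) = P at *
  have := key ((ν (ω * y * z') ^ 2 / P - ν (ω * z' * z') + 1) / (2 * q))
  have e : P * (2 * ((ν (ω * y * z') ^ 2 / P - ν (ω * z' * z') + 1) / (2 * q)) * q +
      ν (ω * z' * z')) = ν (ω * y * z') ^ 2 + P := by
    field_simp
    ring
  linarith

end Pool.Agent.Work.MP_ffcd14_ag
end

-- merged part: Pool.Agent.Work.MP_ffcd14_ag.Cyc.KT
section
/-! # The Khovanskii-Teissier inequality -/

open MvPolynomial Topology TopologicalSpace Filter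

namespace Pool.Agent.Work.MP_ffcd14_ag

universe u v w

variable {k : Type u} [Field k] [IsAlgClosed k] {K : Type v} [Field K] [CharZero K]
  {P : Amb} {C : NT.{u, v, w} k K}

section aux

omit [IsAlgClosed k]

theorem KT_rank {M N N' : Type*} [AddCommGroup M] [Module k M] [AddCommGroup N] [Module k N]
    [AddCommGroup N'] [Module k N'] (p : Submodule k M) [FiniteDimensional k p] (f : M →ₗ[k] N)
    (g : M →ₗ[k] N') (h : ∀ x ∈ p, f x = 0 ↔ g x = 0) :
    Module.finrank k (p.map f) = Module.finrank k (p.map g) := by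
  have h1 := (f.domRestrict p).finrank_range_add_finrank_ker
  have h2 := (g.domRestrict p).finrank_range_add_finrank_ker
  have h3 : LinearMap.ker (f.domRestrict p) = LinearMap.ker (g.domRestrict p) :=
    Submodule.ext fun x => h x.1 x.2
  rw [LinearMap.range_domRestrict] at h1 h2
  rw [h3] at h1
  omega

variable (k) in
/-- The forms of degree `a`. -/
noncomputable def KT_F (a : P.ι →₀ ℕ) : Submodule k (MvPolynomial P.V k) :=
  weightedHomogeneousSubmodule k (fun s : P.V => Finsupp.single s.1 1) a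

instance KT_fin (a : P.ι →₀ ℕ) : FiniteDimensional k (KT_F k a) := by
  have h : KT_F k a ≤ weightedHomogeneousSubmodule k (fun _ : P.V => 1) a.degree := by
    intro f hf d hd
    rw [← hf hd, Finsupp.weight_apply, Finsupp.weight_apply, map_finsuppSum]
    simp
  have : Module.Finite k (weightedHomogeneousSubmodule k (fun _ : P.V => 1) a.degree) :=
    Module.Finite.iff_fg.2 (weightedHomogeneousSubmodule_fg k _ (fun _ => one_ne_zero) _)
  exact Submodule.finiteDimensional_of_le h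

variable {L : Type u} [Field L] [Algebra k L]

variable (k) in
/-- The values at `v` of the forms of degree `a`. -/
noncomputable def KT_V (v : P.V → L) (a : P.ι →₀ ℕ) : Submodule k L :=
  (KT_F k a).map (aeval v : MvPolynomial P.V k →ₐ[k] L).toLinearMap

instance KT_fin' (v : P.V → L) (a : P.ι →₀ ℕ) : FiniteDimensional k (KT_V k v a) :=
  Module.Finite.map _ _

theorem KT_hilb {Z : Set (P.Pt k)} {v : P.V → L} (h : IsGen Z v) (a : P.ι →₀ ℕ) :
    hilb Z a = Module.finrank k (KT_V k v a) := by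
  let ψ : MvPolynomial P.V k →ₗ[k] Z → k :=
    LinearMap.pi fun x => (aeval (rp x.1) : MvPolynomial P.V k →ₐ[k] k).toLinearMap
  have e : ∀ f, ψ f = fun x => ev x.1 f := fun f => funext fun x => by
    simp [ψ, ev_eq]
  have e1 : {u : Z → k | ∃ f, IsForm f a ∧ u = fun x => ev x.1 f} = (KT_F k a).map ψ := by
    ext u
    exact ⟨fun ⟨f, h1, h2⟩ => ⟨f, h1, (e f).trans h2.symm⟩,
      fun ⟨f, h1, h2⟩ => ⟨f, h1, h2.symm.trans (e f)⟩⟩
  rw [hilb, e1, Submodule.span_eq]
  refine KT_rank _ _ _ fun f hf => Iff.trans ?_ (h.iff f a hf).symm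
  rw [e]
  exact ⟨fun h x hx => congrFun h ⟨x, hx⟩, fun h => funext fun x => h x.1 x.2⟩

theorem KT_mul {v : P.V → L} {a b : P.ι →₀ ℕ} {x y : L} (hx : x ∈ KT_V k v a)
    (hy : y ∈ KT_V k v b) : x * y ∈ KT_V k v (a + b) := by
  obtain ⟨f, hf, rfl⟩ := hx
  obtain ⟨g, hg, rfl⟩ := hy
  exact ⟨f * g, IsForm.mul hf hg, map_mul (aeval v) f g⟩

theorem KT_prod {v : P.V → L} {c : P.ι →₀ ℕ} {κ : Type} (s : Finset κ) {x : κ → L}
    (hx : ∀ i, x i ∈ KT_V k v c) : ∏ i ∈ s, x i ∈ KT_V k v (s.card • c) := by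
  classical
  induction s using Finset.induction_on with
  | empty =>
    rw [Finset.card_empty, zero_smul]
    exact ⟨1, IsForm.one, by simp⟩
  | insert i s hi ih =>
    rw [Finset.prod_insert hi, Finset.card_insert_of_notMem hi, succ_nsmul']
    exact KT_mul (hx i) ih

theorem KT_one {v : P.V → L} {ς : ∀ i, P.σ i} (hv : ∀ i, v ⟨i, ς i⟩ = 1) (c : P.ι →₀ ℕ) :
    (1 : L) ∈ KT_V k v c := by
  induction c using Finsupp.induction_linear with
  | zero => exact ⟨1, IsForm.one, by simp⟩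
  | add a b ha hb => simpa using KT_mul ha hb
  | single i n =>
    have h : (1 : L) ∈ KT_V k v (Finsupp.single i 1) :=
      ⟨X ⟨i, ς i⟩, IsForm.X ⟨i, ς i⟩, by simp [hv]⟩
    simpa using KT_prod (Finset.range n) (x := fun _ => (1 : L)) fun _ => h

theorem KT_nu {r : ℕ} {ν : L → Fin r → ℤ} (hν : ∀ x y, x ≠ 0 → y ≠ 0 → ν (x * y) = ν x + ν y)
    {κ : Type} (s : Finset κ) {x : κ → L} (hx : ∀ i, x i ≠ 0) :
    ν (∏ i ∈ s, x i) = ∑ i ∈ s, ν (x i) := by
  classical
  induction s using Finset.induction_on with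
  | empty => simpa using hν 1 1 one_ne_zero one_ne_zero
  | insert i s hi ih =>
    rw [Finset.prod_insert hi, Finset.sum_insert hi,
      hν _ _ (hx i) (Finset.prod_ne_zero_iff.2 fun j _ => hx j), ih]

end aux

theorem hilb_mid (Z : Sub k P) {a b : P.ι →₀ ℕ} (ha : ∀ i, 0 < a i) :
    ∃ n₀ : ℕ, ∀ n : ℕ, 4 ^ sdim Z * hilb (Z : Set (P.Pt k)) (n • a) *
      hilb (Z : Set (P.Pt k)) (n • b) ≤ hilb (Z : Set (P.Pt k)) ((n + n₀) • (a + b)) ^ 2 := by
  classical
  obtain ⟨x, hx⟩ := Z.isIrreducible.nonempty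
  obtain ⟨ς, hς⟩ := exists_inCh x
  obtain ⟨L, _, _, v, hg, hv, ht⟩ := exists_gen Z ς ⟨x, hx, hς⟩
  obtain ⟨r, ν, h1, hν, h2, h3⟩ := exists_val v ht
  have hr : sdim Z ≤ r := by
    rw [← rk_range_eq_trdeg_top v ht, ← rk_rat_norm v ς hv, hg.rk_rat] at h1
    exact_mod_cast h1
  choose u hu0 hu using fun i : Fin r => h2 (Pi.single i 1)
  choose f g hfg using fun i => (IntermediateField.mem_adjoin_range_iff k v (u i)).1
    (ht ▸ IntermediateField.mem_top)
  obtain ⟨G, c, h4, h5⟩ := homog_many ς (Sum.elim f g)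
  have hf : ∀ i, aeval v (f i) ∈ KT_V k v c := fun i =>
    ⟨G (Sum.inl i), h4 _, h5 L v hv (Sum.inl i)⟩
  have hg' : ∀ i, aeval v (g i) ∈ KT_V k v c := fun i =>
    ⟨G (Sum.inr i), h4 _, h5 L v hv (Sum.inr i)⟩
  have g0 : ∀ i, aeval v (g i) ≠ 0 := fun i h => hu0 i (by rw [hfg, h, div_zero])
  have e0 : ∀ i, aeval v (f i) = u i * aeval v (g i) := fun i => by
    rw [hfg, div_mul_cancel₀ _ (g0 i)]
  have hW : ∀ e : Fin r → ℤ, (∀ i, e i = 0 ∨ e i = 1) → ∃ w ∈ KT_V k v (r • c), w ≠ 0 ∧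
      ν w = e + ∑ i, ν (aeval v (g i)) := by
    intro e he
    have n0 : ∀ i, (if e i = 1 then aeval v (f i) else aeval v (g i)) ≠ 0 := fun i => by
      split_ifs
      · rw [e0]
        exact mul_ne_zero (hu0 i) (g0 i)
      · exact g0 i
    refine ⟨∏ i, if e i = 1 then aeval v (f i) else aeval v (g i), ?_,
      Finset.prod_ne_zero_iff.2 fun i _ => n0 i, ?_⟩
    · simpa using KT_prod (c := c) Finset.univ
        (x := fun i => if e i = 1 then aeval v (f i) else aeval v (g i)) fun i => by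
          split_ifs
          exacts [hf i, hg' i]
    · rw [KT_nu hν _ n0]
      conv_rhs => rw [← Finset.univ_sum_single e]
      rw [← Finset.sum_add_distrib]
      refine Finset.sum_congr rfl fun i _ => ?_
      rcases he i with h | h
      · simp [h]
      · rw [if_pos h, e0, hν _ _ (hu0 i) (g0 i), hu, h]
  refine ⟨r * c.degree, fun n => ?_⟩
  have hc : r • c ≤ (r * c.degree) • (a + b) := fun i => by
    have h6 := Finsupp.le_degree i c
    have h7 := ha i
    simp only [Finsupp.smul_apply, smul_eq_mul, Finsupp.add_apply, mul_assoc]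
    exact Nat.mul_le_mul_left _ (h6.trans (Nat.le_mul_of_pos_right _ (by omega)))
  obtain ⟨d, hd⟩ := exists_add_of_le hc
  obtain ⟨fa, ca⟩ := h3 (KT_V k v (n • a)) inferInstance
  obtain ⟨fb, cb⟩ := h3 (KT_V k v (n • b)) inferInstance
  obtain ⟨fc, cc⟩ := h3 (KT_V k v ((n + r * c.degree) • (a + b))) inferInstance
  rw [KT_hilb hg, KT_hilb hg, KT_hilb hg, ← ca, ← cb, ← cc, Set.ncard_eq_toFinset_card _ fa,
    Set.ncard_eq_toFinset_card _ fb, Set.ncard_eq_toFinset_card _ fc]
  refine le_trans ?_ (le_trans (bm r fa.toFinset fb.toFinset (Finset.image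
    (fun m : Fin r → ℤ => m - ∑ i, ν (aeval v (g i))) fc.toFinset) fun α hα β hβ e he => ?_) ?_)
  · gcongr
    norm_num
  · obtain ⟨x, ⟨x1, x0⟩, rfl⟩ := fa.mem_toFinset.1 hα
    obtain ⟨y, ⟨y1, y0⟩, rfl⟩ := fb.mem_toFinset.1 hβ
    obtain ⟨w, w1, w0, w2⟩ := hW e he
    refine Finset.mem_image.2 ⟨ν (x * y * w), fc.mem_toFinset.2 ⟨_, ⟨?_,
      mul_ne_zero (mul_ne_zero x0 y0) w0⟩, rfl⟩, ?_⟩
    · have := KT_mul (KT_mul (KT_mul x1 y1) w1) (KT_one hv d)
      rwa [mul_one, add_assoc, ← hd, ← smul_add, ← add_smul] at this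
    · rw [hν _ _ (mul_ne_zero x0 y0) w0, hν _ _ x0 y0, w2]
      abel
  · exact Nat.pow_le_pow_left Finset.card_image_le 2

theorem kt_mid (hC : C.Cyc) (X : Var k P) {Z : Sub k P} (hZ : (Z : Set (P.Pt k)) ⊆ X.pts)
    {a b : P.ι →₀ ℕ} (ha : ∀ i, 0 < a i) (hb : ∀ i, 0 < b i) :
    4 ^ sdim Z * nm C X Z (ln C X a ^ sdim Z) * nm C X Z (ln C X b ^ sdim Z) ≤
      nm C X Z (ln C X (a + b) ^ sdim Z) ^ 2 := by
  obtain ⟨n₀, h⟩ := hilb_mid Z (b := b) ha
  have t1 := n_vol hC X hZ ha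
  have t2 := n_vol hC X hZ hb
  have t3 := (n_vol hC X hZ (a := a + b) fun i => Nat.add_pos_left (ha i) _).comp
    (tendsto_add_atTop_nat n₀)
  have t4 : Tendsto (fun n : ℕ => (1 + (n₀ : ℝ) / n) ^ sdim Z) atTop (𝓝 ((1 + 0) ^ sdim Z)) :=
    ((tendsto_const_div_atTop_nhds_zero_nat (n₀ : ℝ)).const_add 1).pow _
  have t5 := le_of_tendsto_of_tendsto ((t1.const_mul (4 ^ sdim Z)).mul t2) ((t3.mul t4).pow 2)
    ((eventually_gt_atTop 0).mono fun n hn => by
      have h1 : (0 : ℝ) < n := by exact_mod_cast hn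
      have h2 : ((4 ^ sdim Z * hilb (Z : Set (P.Pt k)) (n • a) *
        hilb (Z : Set (P.Pt k)) (n • b) : ℕ) : ℝ) ≤
        (hilb (Z : Set (P.Pt k)) ((n + n₀) • (a + b)) ^ 2 : ℕ) := by exact_mod_cast h n
      have h3 : 1 + (n₀ : ℝ) / n = ((n + n₀ : ℕ) : ℝ) / n := by
        push_cast
        field_simp
      have h4 : (0 : ℝ) < ((n + n₀ : ℕ) : ℝ) := by positivity
      simp only [Function.comp_apply, h3, div_pow]
      push_cast at h2
      generalize ((n + n₀ : ℕ) : ℝ) = N at *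
      have h5 := mul_le_mul_of_nonneg_left h2
        (by positivity : (0 : ℝ) ≤ ((sdim Z).factorial / n ^ sdim Z) ^ 2)
      refine le_of_eq_of_le ?_ (h5.trans (le_of_eq ?_))
      · ring
      · field_simp)
  rw [add_zero, one_pow, mul_one] at t5
  exact_mod_cast t5

theorem rcs_pure (hC : C.Cyc) (X : Var k P) {Z : Sub k P} (hZ : (Z : Set (P.Pt k)) ⊆ X.pts)
    (m : ℕ) (hm : m + 2 = sdim Z) (a : P.ι →₀ ℕ) :
    RCS (nm C X Z) (HS C X) (ln C X a ^ m) := by
  refine RCS.of_midpoint (nm C X Z) (hy C X) m (fun a ha => ?_) (fun a b ha hb => ?_) a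
  · have := nm_pos hC X (Crd.refl k P) (Crd.refl k P) hZ (fun U _ => by rw [Crd.img_refl]) ha ha
      0 (m + 2) (Nat.zero_le _) (by omega)
    rwa [pow_zero, one_mul, show (Crd.refl k P).ψ = id from rfl, Finsupp.mapDomain_id] at this
  · rw [hm]
    exact kt_mid hC X hZ ha hb

end Pool.Agent.Work.MP_ffcd14_ag
end

-- merged part: Pool.Agent.Work.MP_ffcd14_ag.Cyc.Hq
section
/-! # Hilbert functions of multihomogeneous ideals -/

open MvPolynomial Topology TopologicalSpace Filter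

namespace Pool.Agent.Work.MP_ffcd14_ag

universe u v w

open Noeth

variable {k : Type u} [Field k] {P : Amb}

/-- The Hilbert function of the quotient by `J`. -/
noncomputable def hq (J : Ideal (MvPolynomial P.V k)) (a : P.ι →₀ ℕ) : ℕ :=
  Module.finrank k ((weightedHomogeneousSubmodule k (fun s : P.V => Finsupp.single s.1 1) a).map
    (Ideal.Quotient.mkₐ k J).toLinearMap)

theorem Hq_rank {M N N' : Type*} [AddCommGroup M] [Module k M] [AddCommGroup N] [Module k N]
    [AddCommGroup N'] [Module k N'] (p : Submodule k M) [FiniteDimensional k p] (f : M →ₗ[k] N)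
    (g : M →ₗ[k] N') (h : ∀ x ∈ p, f x = 0 ↔ g x = 0) :
    Module.finrank k (p.map f) = Module.finrank k (p.map g) := by
  have h1 := (f.domRestrict p).finrank_range_add_finrank_ker
  have h2 := (g.domRestrict p).finrank_range_add_finrank_ker
  have h3 : LinearMap.ker (f.domRestrict p) = LinearMap.ker (g.domRestrict p) :=
    Submodule.ext fun x => h x.1 x.2
  rw [LinearMap.range_domRestrict] at h1 h2
  rw [h3] at h1
  omega

theorem Hq_fin (a : P.ι →₀ ℕ) : FiniteDimensional k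
    (weightedHomogeneousSubmodule k (fun s : P.V => Finsupp.single s.1 1) a) := by
  have h : weightedHomogeneousSubmodule k (fun s : P.V => Finsupp.single s.1 1) a ≤
      weightedHomogeneousSubmodule k (fun _ : P.V => 1) a.degree := by
    intro f hf d hd
    rw [← hf hd, Finsupp.weight_apply, Finsupp.weight_apply, map_finsuppSum]
    simp
  have : Module.Finite k (weightedHomogeneousSubmodule k (fun _ : P.V => 1) a.degree) :=
    Module.Finite.iff_fg.2 (weightedHomogeneousSubmodule_fg k _ (fun _ => one_ne_zero) _)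
  exact Submodule.finiteDimensional_of_le h

theorem Hq_zero {J : Ideal (MvPolynomial P.V k)} {a : P.ι →₀ ℕ}
    (h : ∀ f, IsForm f a → f ∈ J) : hq J a = 0 := by
  have e : (weightedHomogeneousSubmodule k (fun s : P.V => Finsupp.single s.1 1) a).map
      (Ideal.Quotient.mkₐ k J).toLinearMap = ⊥ := by
    rw [eq_bot_iff]
    rintro _ ⟨f, hf, rfl⟩
    exact Ideal.Quotient.eq_zero_iff_mem.2 (h f hf)
  rw [hq, e, finrank_bot]

theorem hq_top (a : P.ι →₀ ℕ) : hq (⊤ : Ideal (MvPolynomial P.V k)) a = 0 :=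
  Hq_zero fun _ _ => Submodule.mem_top

theorem hq_add {J : Ideal (MvPolynomial P.V k)} (hJ : Hmg J) {g : MvPolynomial P.V k}
    {e : P.ι →₀ ℕ} (hg : IsForm g e) (c : P.ι →₀ ℕ) :
    hq J (c + e) = hq (J.colon {g}) c + hq (J ⊔ Ideal.span {g}) (c + e) := by
  have := Hq_fin (k := k) (P := P) c
  have := Hq_fin (k := k) (P := P) (c + e)
  let π : (MvPolynomial P.V k ⧸ J) →ₗ[k] MvPolynomial P.V k ⧸ (J ⊔ Ideal.span {g}) :=
    (Ideal.Quotient.factorₐ k (le_sup_left : J ≤ J ⊔ Ideal.span {g})).toLinearMap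
  let V := (weightedHomogeneousSubmodule k (fun s : P.V => Finsupp.single s.1 1) (c + e)).map
    (Ideal.Quotient.mkₐ k J).toLinearMap
  let W := (weightedHomogeneousSubmodule k (fun s : P.V => Finsupp.single s.1 1) c).map
    ((Ideal.Quotient.mkₐ k J).toLinearMap ∘ₗ LinearMap.mulRight k g)
  have hWV : W ≤ V := by
    rintro _ ⟨f, hf, rfl⟩
    exact ⟨f * g, IsForm.mul hf hg, rfl⟩
  have h1 := (π.domRestrict V).finrank_range_add_finrank_ker
  have h2 : LinearMap.ker (π.domRestrict V) = W.comap V.subtype := by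
    ext ⟨_, f, hf, rfl⟩
    have e0 : π ((Ideal.Quotient.mkₐ k J).toLinearMap f) =
        Ideal.Quotient.mk (J ⊔ Ideal.span {g}) f := rfl
    rw [LinearMap.mem_ker, LinearMap.domRestrict_apply, Submodule.mem_comap, e0,
      Ideal.Quotient.eq_zero_iff_mem]
    constructor
    · intro h
      obtain ⟨a, ha, b, hb, e1⟩ := Submodule.mem_sup.1 h
      obtain ⟨y, rfl⟩ := Ideal.mem_span_singleton'.1 hb
      refine ⟨cpt c y, cpt_form c y, Ideal.Quotient.eq.2 ?_⟩
      have e2 := congrArg (cpt (c + e)) e1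
      rw [map_add, cpt_mul hg, cpt_self hf] at e2
      have e3 : LinearMap.mulRight k g (cpt c y) - f = -cpt (c + e) a := by
        rw [LinearMap.mulRight_apply, ← e2]
        ring
      rw [e3]
      exact J.neg_mem (hJ a ha _)
    · rintro ⟨y, -, e1⟩
      have e2 : y * g - f ∈ J := Ideal.Quotient.eq.1 e1
      have e3 : f = -(y * g - f) + y * g := by ring
      rw [e3]
      exact Submodule.add_mem_sup (J.neg_mem e2) (Ideal.mem_span_singleton'.2 ⟨y, rfl⟩)
  have h3 : Module.finrank k W = hq (J.colon {g}) c :=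
    Hq_rank _ _ _ fun f _ => (Ideal.Quotient.eq_zero_iff_mem (a := f * g)).trans
      (Iff.trans (by rw [Submodule.mem_colon_singleton, smul_eq_mul])
        (Ideal.Quotient.eq_zero_iff_mem (a := f)).symm)
  have h4 : V.map π = (weightedHomogeneousSubmodule k (fun s : P.V => Finsupp.single s.1 1)
      (c + e)).map (Ideal.Quotient.mkₐ k (J ⊔ Ideal.span {g})).toLinearMap := by
    rw [← Submodule.map_comp]
    rfl
  rw [LinearMap.range_domRestrict, h2, (Submodule.comapSubtypeEquivOfLe hWV).finrank_eq, h3,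
    h4] at h1
  rw [add_comm (hq _ c)]
  exact h1.symm

theorem hq_idl (A : Set (P.Pt k)) (a : P.ι →₀ ℕ) : hq (idl A) a = hilb A a := by
  have := Hq_fin (k := k) (P := P) a
  let ψ : MvPolynomial P.V k →ₗ[k] A → k :=
    LinearMap.pi fun x => (aeval (rp x.1) : MvPolynomial P.V k →ₐ[k] k).toLinearMap
  have e : ∀ f, ψ f = fun x => ev x.1 f := fun f => funext fun x => by
    simp [ψ, ev_eq]
  have e1 : {u : A → k | ∃ f, IsForm f a ∧ u = fun x => ev x.1 f} =
      (weightedHomogeneousSubmodule k (fun s : P.V => Finsupp.single s.1 1) a).map ψ := by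
    ext u
    exact ⟨fun ⟨f, h1, h2⟩ => ⟨f, h1, (e f).trans h2.symm⟩,
      fun ⟨f, h1, h2⟩ => ⟨f, h1, h2.symm.trans (e f)⟩⟩
  rw [hilb, e1, Submodule.span_eq]
  refine Hq_rank _ _ _ fun f hf => (Ideal.Quotient.eq_zero_iff_mem (a := f)).trans
    ((mem_idl hf).trans ?_)
  rw [e]
  exact ⟨fun h => funext fun x => h x.1 x.2, fun h x hx => congrFun h ⟨x, hx⟩⟩

theorem hq_irr {J : Ideal (MvPolynomial P.V k)} {i : P.ι}
    (h : ∀ s, (X ⟨i, s⟩ : MvPolynomial P.V k) ∈ J) {a : P.ι →₀ ℕ} (ha : 0 < a i) : hq J a = 0 := by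
  classical
  refine Hq_zero fun f hf => ?_
  induction hf using IsWeightedHomogeneous.induction_on with
  | zero => exact J.zero_mem
  | add p q _ _ hp hq => exact J.add_mem hp hq
  | monomial d r hr =>
    rw [← hr, Finsupp.weight_apply, Finsupp.sum, Finsupp.finsetSum_apply] at ha
    obtain ⟨⟨j, s⟩, hs, e⟩ := Finset.exists_ne_zero_of_sum_ne_zero ha.ne'
    obtain rfl : j = i := by
      by_contra hj
      simp [hj] at e
    exact J.mem_of_dvd (X_dvd_monomial.2 (Or.inr (Finsupp.mem_support_iff.1 hs))) (h s)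

theorem hilb_step (Z : Sub k P) {f : MvPolynomial P.V k} {e : P.ι →₀ ℕ} (hf : IsForm f e)
    (hZ : ¬ Van (Z : Set (P.Pt k)) f) (c : P.ι →₀ ℕ) : hilb (Z : Set (P.Pt k)) (c + e) =
      hilb (Z : Set (P.Pt k)) c + hq (idl (Z : Set (P.Pt k)) ⊔ Ideal.span {f}) (c + e) := by
  have := idl_prime Z
  have h := hq_add (idl_hmg (Z : Set (P.Pt k))) hf c
  rwa [colon_prime fun h => hZ ((mem_idl hf).1 h), hq_idl, hq_idl] at h

variable [IsAlgClosed k]

theorem hilb_mono (Z : Sub k P) {a b : P.ι →₀ ℕ} (h : a ≤ b) :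
    hilb (Z : Set (P.Pt k)) a ≤ hilb (Z : Set (P.Pt k)) b := by
  obtain ⟨e, rfl⟩ := exists_add_of_le h
  obtain ⟨f, hf, hZ⟩ := exists_form_deg (Set.finite_singleton Z) e
  rw [hilb_step Z hf (hZ Z rfl)]
  exact Nat.le_add_right _ _

open Classical in
/-- Multiplicities and Hilbert function in terms of a filtration by primes. -/
theorem filt (r : ℕ) {J : Ideal (MvPolynomial P.V k)} (hJ : Hmg J)
    (hd : ∀ T : Sub k P, J ≤ idl (T : Set (P.Pt k)) → sdim T ≤ r) :
    ∃ (l : List (Sub k P × (P.ι →₀ ℕ))) (c₀ : P.ι →₀ ℕ),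
      (∀ p ∈ l, J ≤ idl (p.1 : Set (P.Pt k))) ∧
      (∀ T : Sub k P, sdim T = r →
        len (idl (T : Set (P.Pt k))) J = ((l.map Prod.fst).count T : ℕ)) ∧
      ∀ c, c₀ ≤ c → hq J c = (l.map fun p => hilb (p.1 : Set (P.Pt k)) (c - p.2)).sum := by
  revert hd
  refine gr_induction (Q := fun J => (∀ T : Sub k P, J ≤ idl (T : Set (P.Pt k)) → sdim T ≤ r) →
    ∃ (l : List (Sub k P × (P.ι →₀ ℕ))) (c₀ : P.ι →₀ ℕ),
      (∀ p ∈ l, J ≤ idl (p.1 : Set (P.Pt k))) ∧
      (∀ T : Sub k P, sdim T = r →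
        len (idl (T : Set (P.Pt k))) J = ((l.map Prod.fst).count T : ℕ)) ∧
      ∀ c, c₀ ≤ c → hq J c = (l.map fun p => hilb (p.1 : Set (P.Pt k)) (c - p.2)).sum)
    (fun _ => ⟨[], 0, by simp, fun T _ => ?_, fun c _ => by simp [hq_top]⟩) ?_ hJ
  · have := idl_prime T
    simpa using (len_eq_zero_iff _ _).2 fun h => this.ne_top (top_le_iff.1 h)
  intro J g e hJ hg hp ih hd
  obtain ⟨l, c₀, h1, h2, h3⟩ := ih fun T h => hd T (le_sup_left.trans h)
  have h4 : ∀ c, c₀ + e ≤ c → hq J c = hq (J.colon {g}) (c - e) +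
      (l.map fun p => hilb (p.1 : Set (P.Pt k)) (c - p.2)).sum := fun c hc => by
    have e1 : c - e + e = c := tsub_add_cancel_of_le (le_add_self.trans hc)
    have := hq_add hJ hg (c - e)
    rwa [e1, h3 c (le_self_add.trans hc)] at this
  rcases (hJ.colon hg).rel with ⟨i, hi⟩ | ⟨T', hT'⟩
  · refine ⟨l, c₀ + e + Finsupp.single i 1, fun p hp => le_sup_left.trans (h1 p hp),
      fun T hT => ?_, fun c hc => ?_⟩
    · have := idl_prime T
      obtain ⟨s, hs⟩ := X_notMem_idl T i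
      rw [len_add _ J g, h2 T hT, (len_eq_zero_iff _ _).2 fun h => hs (h (hi s)), zero_add]
    · have h5 := hc i
      simp only [Finsupp.add_apply, Finsupp.single_eq_same] at h5
      rw [h4 c (le_self_add.trans hc), hq_irr hi (by rw [Finsupp.tsub_apply]; omega), zero_add]
  · have h5 : J ≤ idl (T' : Set (P.Pt k)) := hT' ▸ Ideal.le_colon
    refine ⟨(T', e) :: l, c₀ + e, fun p hp => ?_, fun T hT => ?_, fun c hc => ?_⟩
    · rcases List.mem_cons.1 hp with rfl | hp
      · exact h5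
      · exact le_sup_left.trans (h1 p hp)
    · have := idl_prime T
      rw [len_add _ J g, h2 T hT, hT', List.map_cons, List.count_cons]
      by_cases e1 : T' = T
      · subst e1
        rw [len_self]
        simp [add_comm]
      · rw [(len_eq_zero_iff _ _).2 fun h => e1
          (eq_of_sdim_le (idl_le_iff.1 h) (hT ▸ hd T' h5)).symm]
        simp [e1]
    · rw [h4 c hc, hT', hq_idl, List.map_cons, List.sum_cons]

end Pool.Agent.Work.MP_ffcd14_ag
end

-- merged part: Pool.Agent.Work.MP_ffcd14_ag.Cyc.HilA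
section
/-! # Leading coefficients of sequences -/

open Topology Filter

namespace Pool.Agent.Work.MP_ffcd14_ag

/-- `u n` is asymptotic to `q n ^ r / r!`. -/
def Lim (r : ℕ) (u : ℕ → ℕ) (q : ℝ) : Prop :=
  Tendsto (fun n : ℕ => (r.factorial * u n : ℝ) / n ^ r) atTop (𝓝 q)

variable {r r' : ℕ} {u v : ℕ → ℕ} {q q' : ℝ}

theorem Lim.congr (h : Lim r u q) (e : ∀ᶠ n in atTop, u n = v n) : Lim r v q :=
  Tendsto.congr' (e.mono fun n k => by simp only [k]) h

theorem Lim.one : Lim 0 (fun _ => 1) 1 := by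
  simp [Lim]

theorem Lim.sum {α : Type*} (l : List α) {w : α → ℕ → ℕ} {c : α → ℝ}
    (h : ∀ p ∈ l, Lim r (w p) (c p)) : Lim r (fun n => (l.map fun p => w p n).sum) (l.map c).sum := by
  induction l with
  | nil => simp [Lim]
  | cons a l ih =>
    have := (h a (by simp)).add (ih fun p hp => h p (by simp [hp]))
    simp only [List.map_cons, List.sum_cons]
    refine this.congr fun n => ?_
    push_cast
    ring

theorem HilA_ratio (c : ℝ) : Tendsto (fun n : ℕ => ((n : ℝ) + c) / n) atTop (𝓝 1) := by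
  have := (tendsto_const_div_atTop_nhds_zero_nat c).const_add 1
  rw [add_zero] at this
  refine this.congr' ?_
  filter_upwards [eventually_gt_atTop 0] with n hn
  have : (n : ℝ) ≠ 0 := by positivity
  field_simp

theorem Lim.squeeze (h : Lim r u q) (N : ℕ) (e : ∀ᶠ n in atTop, u (n - N) ≤ v n ∧ v n ≤ u n) :
    Lim r v q := by
  have h1 := (h.comp (tendsto_sub_atTop_nat N)).mul ((HilA_ratio (-(N : ℝ))).pow r)
  rw [one_pow, mul_one] at h1
  refine tendsto_of_tendsto_of_tendsto_of_le_of_le' h1 h ?_ ?_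
  · filter_upwards [e, eventually_gt_atTop N] with n k hn
    have a : (0 : ℝ) < n := by exact_mod_cast (Nat.zero_le N).trans_lt hn
    have b : (0 : ℝ) < ((n - N : ℕ) : ℝ) := by exact_mod_cast Nat.sub_pos_of_lt hn
    have c : (n : ℝ) + -(N : ℝ) = ((n - N : ℕ) : ℝ) := by rw [Nat.cast_sub hn.le]; ring
    rw [Function.comp, c, div_pow, div_mul_div_cancel₀ (pow_pos b r).ne']
    have k1 : (u (n - N) : ℝ) ≤ v n := by exact_mod_cast k.1
    gcongr
  · filter_upwards [e] with n k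
    have k2 : (v n : ℝ) ≤ u n := by exact_mod_cast k.2
    gcongr

theorem Lim.of_lt (h : Lim r u q) (hr : r < r') : Lim r' u 0 := by
  obtain ⟨k, rfl⟩ := Nat.exists_eq_add_of_lt hr
  have h0 : Tendsto (fun n : ℕ => ((n : ℝ)⁻¹) ^ (k + 1)) atTop (𝓝 0) := by
    simpa using (tendsto_inv_atTop_nhds_zero_nat (𝕜 := ℝ)).pow (k + 1)
  have h1 := (h.mul h0).const_mul (((r + k + 1).factorial : ℝ) / r.factorial)
  rw [mul_zero, mul_zero] at h1
  refine h1.congr' ?_
  filter_upwards [eventually_gt_atTop 0] with n hn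
  have a : (n : ℝ) ≠ 0 := by positivity
  have b : (r.factorial : ℝ) ≠ 0 := by positivity
  rw [inv_pow]
  field_simp
  ring

theorem Lim.stolz (h : Lim r v q) (e : ∀ n, u (n + 1) = u n + v (n + 1)) : Lim (r + 1) u q := by
  set g : ℕ → ℝ := fun i => ((i + 1 : ℕ) : ℝ) ^ (r + 1) - (i : ℝ) ^ (r + 1) with hg
  have pos : ∀ i : ℕ, (0 : ℝ) < ((i + 1 : ℕ) : ℝ) ^ r := fun i => by positivity
  have ge : ∀ i, ((i + 1 : ℕ) : ℝ) ^ r ≤ g i := by
    intro i
    have : (i : ℝ) ^ r ≤ ((i + 1 : ℕ) : ℝ) ^ r := by gcongr; omega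
    have := mul_le_mul_of_nonneg_right this (Nat.cast_nonneg (α := ℝ) i)
    simp only [hg, pow_succ]
    push_cast at this ⊢
    nlinarith
  have sg : ∀ n, ∑ i ∈ Finset.range n, g i = (n : ℝ) ^ (r + 1) := fun n => by
    simp only [hg]
    rw [Finset.sum_range_sub (fun i : ℕ => (i : ℝ) ^ (r + 1))]
    simp
  have t1 : Tendsto (fun i : ℕ => (i : ℝ) / ((i + 1 : ℕ) : ℝ)) atTop (𝓝 1) := by
    have := (HilA_ratio (-1)).comp (tendsto_add_atTop_nat 1)
    refine this.congr fun i => ?_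
    simp
  have t2 : Tendsto (fun i => g i / ((i + 1 : ℕ) : ℝ) ^ r) atTop (𝓝 (r + 1)) := by
    have := tendsto_finsetSum (Finset.range (r + 1)) fun j _ => t1.pow j
    simp only [one_pow, Finset.sum_const, Finset.card_range, nsmul_eq_mul, mul_one] at this
    push_cast at this
    refine this.congr fun i => ?_
    have a : (i : ℝ) + 1 ≠ 0 := by positivity
    have b := mul_neg_geom_sum ((i : ℝ) / (i + 1)) (r + 1)
    rw [show 1 - (i : ℝ) / (i + 1) = ((i : ℝ) + 1)⁻¹ by field_simp; ring,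
      inv_mul_eq_iff_eq_mul₀ a] at b
    rw [b]
    simp only [hg, div_pow]
    push_cast
    field_simp
    ring
  have t3 := ((h.comp (tendsto_add_atTop_nat 1)).const_mul ((r : ℝ) + 1)).sub (t2.const_mul q)
  rw [mul_comm q, sub_self] at t3
  have o1 : (fun i => ((r + 1).factorial * v (i + 1) : ℝ) - q * g i) =o[atTop] g := by
    refine (Asymptotics.isLittleO_of_tendsto (fun i k => absurd k (pos i).ne')
      (t3.congr fun i => ?_)).trans_isBigO (Asymptotics.IsBigO.of_bound' (.of_forall fun i => ?_))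
    · simp only [Function.comp, Nat.factorial_succ]
      push_cast
      ring
    · rw [Real.norm_of_nonneg (pos i).le, Real.norm_of_nonneg ((pos i).le.trans (ge i))]
      exact ge i
  have tp : Tendsto (fun n : ℕ => (n : ℝ) ^ (r + 1)) atTop atTop :=
    (tendsto_pow_atTop (Nat.succ_ne_zero r)).comp tendsto_natCast_atTop_atTop
  have o2 := (o1.sum_range (fun i => (pos i).le.trans (ge i))
    (by simpa only [sg] using tp)).tendsto_div_nhds_zero
  have su : ∀ n, ∑ i ∈ Finset.range n, (v (i + 1) : ℝ) = u n - u 0 := fun n => by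
    rw [← Finset.sum_range_sub (fun i => (u i : ℝ))]
    refine Finset.sum_congr rfl fun i _ => ?_
    rw [e]
    push_cast
    ring
  simp only [Finset.sum_sub_distrib, ← Finset.mul_sum, sg, su] at o2
  have o3 := (o2.add (tp.const_div_atTop ((r + 1).factorial * u 0 : ℝ))).add_const q
  rw [zero_add, zero_add] at o3
  refine o3.congr' ?_
  filter_upwards [eventually_gt_atTop 0] with n hn
  have a : (n : ℝ) ≠ 0 := by positivity
  field_simp
  ring

end Pool.Agent.Work.MP_ffcd14_ag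
end

-- merged part: Pool.Agent.Work.MP_ffcd14_ag.Cyc.VolT
section
/-! # Degrees and Hilbert functions -/

open MvPolynomial Topology TopologicalSpace Filter

namespace Pool.Agent.Work.MP_ffcd14_ag

universe u v w

open Noeth

variable {k : Type u} [Field k] {K : Type v} [Field K] {P : Amb}

theorem VolT_zer (X : Var k P) (Z : IrreducibleCloseds X.pts) (f : MvPolynomial P.V k) :
    Zer Z f ↔ Van (X.amb Z : Set (P.Pt k)) f := by
  constructor
  · rintro h _ ⟨x, hx, rfl⟩
    exact h x hx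
  · intro h x hx
    exact h x.1 ⟨x, hx, rfl⟩

theorem idZ_eq (X : Var k P) (Z : IrreducibleCloseds X.pts) :
    idZ Z = idl (X.amb Z : Set (P.Pt k)) := by
  simp only [idZ, idl, VolT_zer]

theorem VolT_hmg (A : Set (P.Pt k)) {f : MvPolynomial P.V k} {a : P.ι →₀ ℕ} (hf : IsForm f a) :
    Hmg (idl A ⊔ Ideal.span {f}) :=
  (idl_hmg A).sup (Hmg.span fun g hg => ⟨a, by rw [Set.mem_singleton_iff.1 hg]; exact hf⟩)

theorem VolT_le_iff {Z T : Sub k P} {f : MvPolynomial P.V k} {a : P.ι →₀ ℕ} (hf : IsForm f a) :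
    idl (Z : Set (P.Pt k)) ⊔ Ideal.span {f} ≤ idl (T : Set (P.Pt k)) ↔
      T ≤ Z ∧ Van (T : Set (P.Pt k)) f := by
  rw [sup_le_iff, idl_le_iff, Ideal.span_singleton_le_iff_mem, mem_idl hf]

theorem VolT_sup_eq {R : Type u} [CommRing R] {I : Ideal R} {f g : R} (h : g - f ∈ I) :
    I ⊔ Ideal.span {g} = I ⊔ Ideal.span {f} := by
  have key : ∀ {f g : R}, g - f ∈ I → I ⊔ Ideal.span {g} ≤ I ⊔ Ideal.span {f} := by
    intro f g h
    refine sup_le le_sup_left ((Ideal.span_singleton_le_iff_mem _).2 ?_)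
    have : g = (g - f) + f := by ring
    rw [this]
    exact Submodule.add_mem_sup h (Ideal.mem_span_singleton_self f)
  exact le_antisymm (key h) (key (by rw [← neg_sub]; exact I.neg_mem h))

theorem VolT_exN (e : P.ι →₀ ℕ) {a : P.ι →₀ ℕ} (ha : ∀ i, 0 < a i) :
    ∃ N : ℕ, ∀ n, N ≤ n → e ≤ n • a := by
  refine ⟨e.degree, fun n hn i => ?_⟩
  have h1 : e i ≤ e.degree := Finsupp.le_degree i e
  have h2 := ha i
  simp only [Finsupp.coe_smul, Pi.smul_apply, smul_eq_mul]
  nlinarith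

theorem VolT_finsum {α M : Type*} [AddCommMonoid M] [DecidableEq α] (l : List α) (g : α → M) :
    ∑ᶠ x, l.count x • g x = (l.map g).sum := by
  rw [Finset.sum_list_map_count, finsum_eq_sum_of_support_subset (s := l.toFinset)]
  intro x hx
  by_contra h
  rw [Finset.mem_coe, List.mem_toFinset] at h
  exact hx (by simp only [List.count_eq_zero_of_not_mem h, zero_smul])

variable [IsAlgClosed k] {C : NT.{u, v, w} k K}

theorem VolT_lt {Z T : Sub k P} {f : MvPolynomial P.V k} {a : P.ι →₀ ℕ} (hf : IsForm f a)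
    (hZ : ¬ Van (Z : Set (P.Pt k)) f)
    (h : idl (Z : Set (P.Pt k)) ⊔ Ideal.span {f} ≤ idl (T : Set (P.Pt k))) : sdim T < sdim Z := by
  obtain ⟨h1, h2⟩ := (VolT_le_iff hf).1 h
  refine sdim_lt (lt_of_le_of_ne h1 ?_)
  rintro rfl
  exact hZ h2

theorem VolT_fin {Z T : Sub k P} {f : MvPolynomial P.V k} {a : P.ι →₀ ℕ} (hf : IsForm f a)
    (hZ : ¬ Van (Z : Set (P.Pt k)) f) (hT : sdim T + 1 = sdim Z) :
    len (idl (T : Set (P.Pt k))) (idl (Z : Set (P.Pt k)) ⊔ Ideal.span {f}) ≠ ⊤ := by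
  obtain ⟨l, c₀, -, h, -⟩ := filt (sdim T) (VolT_hmg _ hf) fun U hU => by
    have := VolT_lt hf hZ hU
    omega
  rw [h T rfl]
  exact ENat.natCast_ne_top _

theorem VolT_hgt (X : Var k P) (T Z : IrreducibleCloseds X.pts) :
    hgt T + 1 = hgt Z ↔ sdim (X.amb T) + 1 = sdim (X.amb Z) := by
  rw [hgt, hgt, X.height_eq, X.height_eq]
  norm_cast

theorem mu_pos {Z : Sub k P} {f : MvPolynomial P.V k} {a : P.ι →₀ ℕ} (hf : IsForm f a)
    (hZ : ¬ Van (Z : Set (P.Pt k)) f) (T : Sub k P) :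
    0 < mu Z T f ↔ T ≤ Z ∧ sdim T + 1 = sdim Z ∧ Van (T : Set (P.Pt k)) f := by
  by_cases hT : sdim T + 1 = sdim Z
  · have := idl_prime T
    rw [mu, if_pos hT, Nat.pos_iff_ne_zero, Ne, ENat.toNat_eq_zero,
      or_iff_left (VolT_fin hf hZ hT), len_eq_zero_iff, not_not, VolT_le_iff hf]
    simp only [hT, true_and]
  · simp only [mu, hT, if_false, lt_self_iff_false, false_and, and_false]

omit [IsAlgClosed k] in
theorem mu_congr {Z : Sub k P} {f g : MvPolynomial P.V k} {a : P.ι →₀ ℕ} (hf : IsForm f a)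
    (hg : IsForm g a) (h : Van (Z : Set (P.Pt k)) (g - f)) (T : Sub k P) :
    mu Z T g = mu Z T f := by
  simp only [mu, VolT_sup_eq ((mem_idl (hg.sub hf)).2 h)]

theorem mu_mul {Z : Sub k P} {f g : MvPolynomial P.V k} {a b : P.ι →₀ ℕ} (hf : IsForm f a)
    (hg : IsForm g b) (hZ : ¬ Van (Z : Set (P.Pt k)) f) (hZ' : ¬ Van (Z : Set (P.Pt k)) g)
    (T : Sub k P) : mu Z T (f * g) = mu Z T f + mu Z T g := by
  by_cases hT : sdim T + 1 = sdim Z
  · have := idl_prime Z
    simp only [mu, if_pos hT]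
    rw [len_mul _ _ f (mt (mem_idl hg).1 hZ'),
      ENat.toNat_add (VolT_fin hf hZ hT) (VolT_fin hg hZ' hT)]
  · simp only [mu, hT, if_false]

theorem VolT_shift (Z : Sub k P) {r : ℕ} {a : P.ι →₀ ℕ} (ha : ∀ i, 0 < a i) {q : ℝ}
    (h : Lim r (fun n => hilb (Z : Set (P.Pt k)) (n • a)) q) (e : P.ι →₀ ℕ) :
    Lim r (fun n => hilb (Z : Set (P.Pt k)) (n • a - e)) q := by
  obtain ⟨N, hN⟩ := VolT_exN e ha
  refine h.squeeze N (Eventually.of_forall fun n => ⟨hilb_mono Z fun i => ?_,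
    hilb_mono Z tsub_le_self⟩)
  have h1 := hN N le_rfl i
  simp only [Finsupp.coe_smul, Pi.smul_apply, smul_eq_mul, Finsupp.coe_tsub, Pi.sub_apply,
    Nat.sub_mul] at h1 ⊢
  omega

theorem VolT_main [CharZero K] (h : C.Chow) (X : Var k P) {a : P.ι →₀ ℕ} (ha : ∀ i, 0 < a i)
    (r : ℕ) : ∀ Z : Sub k P, (Z : Set (P.Pt k)) ⊆ X.pts → sdim Z = r →
      Lim r (fun n => hilb (Z : Set (P.Pt k)) (n • a)) (nm C X Z (ln C X a ^ r) : ℚ) := by
  classical
  induction r using Nat.strong_induction_on with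
  | h r ih =>
  intro Z hZ hr
  rcases r with _ | r
  · have : nm C X Z 1 = 1 := by
      rw [nm_apply, mul_one]
      exact C.tau_pt X Z hZ hr
    simp only [num2_hilb hr, pow_zero, this, Rat.cast_one]
    exact Lim.one
  obtain ⟨f, hf, hv⟩ := exists_form_deg (Set.finite_singleton Z) a
  replace hv := hv _ rfl
  obtain ⟨l, c₀, h1, h2, h3⟩ := filt r (VolT_hmg _ hf) fun U hU => by
    have := VolT_lt hf hv hU
    omega
  let g : Sub k P → EE C X := fun T => if sdim T = r then cy C X T else 0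
  have hq : ∀ p ∈ l, Lim r (fun n => hilb (p.1 : Set (P.Pt k)) (n • a - p.2))
      (tau C X (g p.1 * ln C X a ^ r) : ℚ) := by
    intro p hp
    have h4 := VolT_lt hf hv (h1 _ hp)
    have h6 := ih _ (hr ▸ h4) p.1 (Set.Subset.trans ((VolT_le_iff hf).1 (h1 p hp)).1 hZ) rfl
    refine VolT_shift _ ha ?_ _
    by_cases h7 : sdim p.1 = r
    · rw [h7] at h6
      simpa only [g, if_pos h7, nm_apply] using h6
    · simp only [g, if_neg h7, zero_mul, map_zero, Rat.cast_zero]
      exact h6.of_lt (by omega)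
  have hm : ∀ T, sdim T = r → mu Z T f = (l.map Prod.fst).count T := fun T h7 => by
    rw [mu, if_pos (by omega), h2 _ h7, ENat.toNat_natCast]
  have hcl : cy C X Z * ln C X a = (l.map fun p => g p.1).sum := by
    have e1 : (l.map fun p => g p.1) = (l.map Prod.fst).map g := by
      rw [List.map_map]; rfl
    rw [e1, Finset.sum_list_map_count]
    refine (h.div X hZ f a hf hv (l.map Prod.fst).toFinset fun T hT => ?_).trans
      (Finset.sum_congr rfl fun T _ => ?_)
    · rw [hm T (by have := ((mu_pos hf hv T).1 hT).2.1; omega)] at hT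
      exact List.mem_toFinset.2 (List.count_pos_iff.1 hT)
    · by_cases h7 : sdim T = r
      · simp only [g, if_pos h7, hm T h7]
        exact Nat.cast_smul_eq_nsmul ℚ _ (cy C X T)
      · simp only [g, if_neg h7, smul_zero, mu, if_neg (show ¬ sdim T + 1 = sdim Z by omega),
          Nat.cast_zero, zero_smul]
        rfl
  have h4 := Lim.sum l hq
  obtain ⟨N, hN⟩ := VolT_exN c₀ ha
  have h5 : Lim r (fun n => MP_ffcd14_ag.hq
      (idl (Z : Set (P.Pt k)) ⊔ Ideal.span {f}) (n • a)) (nm C X Z (ln C X a ^ (r + 1)) : ℚ) := by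
    rw [nm_apply, pow_succ', ← mul_assoc, hcl, ← List.sum_map_mul_right, map_list_sum,
      List.map_map, Rat.cast_list_sum, List.map_map]
    refine h4.congr ?_
    filter_upwards [eventually_ge_atTop N] with n hn
    rw [h3 _ (hN n hn)]
  refine h5.stolz fun n => ?_
  simp only [succ_nsmul]
  exact hilb_step _ hf hv _

end Pool.Agent.Work.MP_ffcd14_ag
end

-- merged part: Pool.Agent.Work.MP_ffcd14_ag.Cyc.ChowCyc
section
/-! # From the axioms for cycle classes to their working form -/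

open MvPolynomial Topology TopologicalSpace Filter

namespace Pool.Agent.Work.MP_ffcd14_ag

universe u v w

theorem NT.Chow.cyc {k : Type u} [Field k] [IsAlgClosed k] {K : Type v} [Field K] [CharZero K]
    {C : NT.{u, v, w} k K} (h : C.Chow) : C.Cyc where
  vol X Z hZ _ ha := VolT_main h X ha _ Z hZ rfl
  div X Z hZ := ⟨mu Z, fun f a hf hv => ⟨mu_pos hf hv, fun _ hg h => mu_congr hf hg h,
    fun _ _ hg hv' => mu_mul hf hg hv hv', h.div X hZ f a hf hv⟩⟩
  chow := h

end Pool.Agent.Work.MP_ffcd14_ag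
end
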