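import Pool.Agent.Work.MP_ffcd14_ag.Cyc.DefsLn

/-! # Working form of the axioms for the cycle class map -/

open MvPolynomial Topology TopologicalSpace Filter

namespace Pool.Agent.Work.MP_ffcd14_ag

universe u v w

variable {k : Type u} [Field k] {P Q : Amb}

/-- The Hilbert function: dimension of the space of restrictions to `Z` of forms of degree `a`. -/
noncomputable def hilb (Z : Set (P.Pt k)) (a : P.ι →₀ ℕ) : ℕ :=
  Module.finrank k (Submodule.span k {u : Z → k | ∃ f, IsForm f a ∧ u = fun x => ev x.1 f})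

variable {K : Type v} [Field K] {B : Type w} [Ring B] [Algebra K B]

/-- Standard properties of the cycle class map; `Order.height Z` is the dimension of `Z`.
`vol`: the degree is the leading coefficient of the Hilbert function;
`div`: intersecting with `O(a)` gives the divisor of a section, `m T f` being the order of
vanishing of `f` along `T`;
`push`: projection formula, `n` being the degree of `Z` over its image;
`supp`: the product of properly meeting cycles is supported on the intersection. -/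
structure Weil.Cyc (C : Weil.{u, v, w} k K) : Prop where
  vol : ∀ {P : Amb} (X : Var k P) (Z : IrreducibleCloseds X.pts) (r : ℕ) (a : P.ι →₀ ℕ),
    Order.height Z = r → (∀ i, 0 < a i) → ∃ q : ℚ,
      C.tr X (C.cl X Z * lin (C.hyp X) a ^ r) = q ∧
      Tendsto (fun n : ℕ => (r.factorial * hilb (Subtype.val '' (Z : Set X.pts)) (n • a) : ℝ) /
        n ^ r) atTop (𝓝 q)
  div : ∀ {P : Amb} (X : Var k P) (Z : IrreducibleCloseds X.pts),
    ∃ m : IrreducibleCloseds X.pts → MvPolynomial P.V k → ℕ,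
      ∀ f a, IsForm f a → (∃ x ∈ Z, ev x.1 f ≠ 0) →
        (∀ T, 0 < m T f ↔
          T ≤ Z ∧ Order.height T + 1 = Order.height Z ∧ ∀ x ∈ T, ev x.1 f = 0) ∧
        (∀ g, IsForm g a → (∀ x ∈ Z, ev x.1 g = ev x.1 f) → ∀ T, m T g = m T f) ∧
        (∀ g b, IsForm g b → (∃ x ∈ Z, ev x.1 g ≠ 0) → ∀ T, m T (f * g) = m T f + m T g) ∧
        C.cl X Z * lin (C.hyp X) a = ∑ᶠ T, m T f • C.cl X T
  push : ∀ {P Q : Amb} {X : Var k P} {Y : Var k Q} (φ : Hom X Y) (Z : IrreducibleCloseds X.pts)
    (Z' : IrreducibleCloseds Y.pts), closure (φ.toFun '' Z) = Z' →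
    ∃ n : ℕ, (0 < n ↔ Order.height Z = Order.height Z') ∧
      ∀ y, C.tr X (C.cl X Z * C.pull φ y) = n * C.tr Y (C.cl Y Z' * y)
  supp : ∀ {P Q : Amb} {X : Var k P} {Y : Var k Q} (φ : Hom X Y) (Z : IrreducibleCloseds X.pts)
    (S : IrreducibleCloseds Y.pts), (∀ U ≤ Z, (∀ x ∈ U, φ.toFun x ∈ S) →
      Order.height U + Y.dim ≤ Order.height Z + Order.height S) →
    C.cl X Z * C.pull φ (C.cl Y S) ∈ cyc K (C.cl X) fun U =>
      U ≤ Z ∧ (∀ x ∈ U, φ.toFun x ∈ S) ∧
        Order.height U + Y.dim = Order.height Z + Order.height S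

end Pool.Agent.Work.MP_ffcd14_ag
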