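import Pool.Agent.Work.MP_ffcd14_ag.Cyc.Chow

/-! # Varieties swept out by lines -/

open MvPolynomial Topology TopologicalSpace Filter

namespace Pool.Agent.Work.MP_ffcd14_ag

universe u v w

variable {k : Type u} [Field k] {P Q : Amb}

/-- Projective space of dimension `M`. -/
def Amb.proj (M : ℕ) : Amb where
  ι := Unit
  σ _ := Fin (M + 1)

/-- `φ` is a regular map: each component is locally given by forms of one degree. -/
def IsReg {Y : Set (Q.Pt k)} (φ : Y → P.Pt k) : Prop :=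
  ∀ x j, ∃ (a : Q.ι →₀ ℕ) (F : P.σ j → MvPolynomial Q.V k), (∀ s, IsForm (F s) a) ∧
    ∀ᶠ y in 𝓝 x, ∃ h, φ y j = Projectivization.mk k (fun s => ev y.1 (F s)) h

/-- Every point of `Y` lies on a line contained in `Y`. -/
def Lines {M : ℕ} (Y : Set ((Amb.proj M).Pt k)) : Prop :=
  ∀ y ∈ Y, ∃ Λ : Submodule k (Fin (M + 1) → k), Module.finrank k Λ = 2 ∧ (y ()).rep ∈ Λ ∧
    ∀ z : (Amb.proj M).Pt k, (z ()).rep ∈ Λ → z ∈ Y

end Pool.Agent.Work.MP_ffcd14_ag
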