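import Pool.Agent.Work.MP_ffcd14_ag.Cyc.Gen
import Pool.Agent.Work.MP_ffcd14_ag.Cyc.KR

/-! # Dimension theory of subvarieties -/

open MvPolynomial Topology TopologicalSpace

namespace Pool.Agent.Work.MP_ffcd14_ag

universe u

variable {k : Type u} [Field k] [IsAlgClosed k] {L : Type u} [Field L] [Algebra k L] {P : Amb}

omit [IsAlgClosed k] in
theorem Dim_key {Z : Sub k P} {v : P.V → L} (h : IsGen (Z : Set (P.Pt k)) v) {ς : ∀ i, P.σ i}
    (hς : ∃ x ∈ Z, InCh ς x) : rk k (rat v) ≠ ⊤ ∧ ((rk k (rat v)).toNat : Cardinal) =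
      Algebra.trdeg k (MvPolynomial P.V k ⧸ chI (Z : Set (P.Pt k)) ς) := by
  have h1 : ∀ i, v ⟨i, ς i⟩ ≠ 0 := fun i e => exists_inCh_iff.1 hς i
    ((h.iff _ _ (isWeightedHomogeneous_X k _ _)).1 (by rw [aeval_X]; exact e))
  have h2 : ∀ i, (v ⟨i, ς i⟩)⁻¹ ≠ 0 := fun i => inv_ne_zero (h1 i)
  have h3 : ∀ i, (fun s : P.V => (v ⟨s.1, ς s.1⟩)⁻¹ * v s) ⟨i, ς i⟩ = 1 :=
    fun i => inv_mul_cancel₀ (h1 i)
  rw [← rat_scale v _ h2, rk_rat_norm _ ς h3, rk_range_eq_trdeg, (h.scale _ h2).ker h3]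
  exact ⟨rk_range_ne_top _, rfl⟩

omit [IsAlgClosed k] in
theorem Dim_ex (Z : Sub k P) : ∃ n : ℕ, ∀ ς : ∀ i, P.σ i, (∃ x ∈ Z, InCh ς x) →
    (n : Cardinal) = Algebra.trdeg k (MvPolynomial P.V k ⧸ chI (Z : Set (P.Pt k)) ς) := by
  obtain ⟨L, _, _, v, h⟩ := exists_gen' Z
  exact ⟨_, fun ς hς => (Dim_key h hς).2⟩

/-- The transcendence degree of the function field. -/
noncomputable def Dim_t (Z : Sub k P) : ℕ := (Dim_ex Z).choose

omit [IsAlgClosed k] in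
theorem Dim_spec {Z : Sub k P} {ς : ∀ i, P.σ i} (h : ∃ x ∈ Z, InCh ς x) :
    (Dim_t Z : Cardinal) = Algebra.trdeg k (MvPolynomial P.V k ⧸ chI (Z : Set (P.Pt k)) ς) :=
  (Dim_ex Z).choose_spec ς h

omit [IsAlgClosed k] in
theorem Dim_chart (Z : Sub k P) : ∃ ς : ∀ i, P.σ i, ∃ x ∈ Z, InCh ς x := by
  obtain ⟨x, hx⟩ := Z.isIrreducible.nonempty
  obtain ⟨ς, h⟩ := exists_inCh x
  exact ⟨ς, x, hx, h⟩

omit [IsAlgClosed k] in
theorem Dim_lt {U Z : Sub k P} (h : U < Z) : Dim_t U + 1 ≤ Dim_t Z := by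
  obtain ⟨ς, hU⟩ := Dim_chart U
  have hZ : ∃ x ∈ Z, InCh ς x := hU.imp fun x hx => ⟨h.le hx.1, hx.2⟩
  have := chI_prime hU
  have := chI_prime hZ
  have h1 := trdeg_drop (chI (Z : Set (P.Pt k)) ς) (chI (U : Set (P.Pt k)) ς)
    (lt_of_le_not_ge (chI_anti h.le ς) fun h' => h.not_ge (le_of_chI_le hU hZ h'))
  rw [← Dim_spec hU, ← Dim_spec hZ] at h1
  exact_mod_cast h1

theorem Dim_krg {U Z : Sub k P} (h : U ≤ Z) {g : MvPolynomial P.V k} {a : P.ι →₀ ℕ}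
    (hg : IsForm g a) (hZ : ¬ Van (Z : Set (P.Pt k)) g) (hU : Van (U : Set (P.Pt k)) g) :
    ∃ T : Sub k P, U ≤ T ∧ T ≤ Z ∧ Van (T : Set (P.Pt k)) g ∧ Dim_t T + 1 = Dim_t Z := by
  obtain ⟨ς, cU⟩ := Dim_chart U
  have cZ : ∃ x ∈ Z, InCh ς x := cU.imp fun x hx => ⟨h hx.1, hx.2⟩
  have := chI_prime cU
  have := chI_prime cZ
  obtain ⟨r, hr, h1, h2, h3, h4⟩ := kr (chI (Z : Set (P.Pt k)) ς) (chI (U : Set (P.Pt k)) ς)
    (chI_anti h ς) (fun e => hZ ((mem_chI_form cZ hg).1 e)) ((mem_chI_form cU hg).2 hU)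
  obtain ⟨T, cT, rfl⟩ := exists_chI_eq ς r fun i => h1 fun x _ hx => by
    rw [map_sub, eval_X, hat_one hx, map_one, sub_self]
  rw [← Dim_spec cT, ← Dim_spec cZ] at h4
  exact ⟨T, le_of_chI_le cT cU h2, le_of_chI_le cZ cT h1, (mem_chI_form cT hg).1 h3,
    by exact_mod_cast h4⟩

theorem Dim_cover {U Z : Sub k P} (h : U < Z) :
    ∃ T : Sub k P, U ≤ T ∧ T ≤ Z ∧ Dim_t T + 1 = Dim_t Z := by
  by_contra hc
  refine h.not_ge (subset_of_van U.isClosed fun f a hf hU => by_contra fun hZ => hc ?_)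
  obtain ⟨T, h1, h2, -, h3⟩ := Dim_krg h.le hf hZ hU
  exact ⟨T, h1, h2, h3⟩

theorem Dim_point (Z : Sub k P) : ∃ U : Sub k P, U ≤ Z ∧ Dim_t U = 0 := by
  obtain ⟨ς, x, hx, h⟩ := Dim_chart Z
  have := RingHom.ker_isPrime (aeval (hat ς x) : MvPolynomial P.V k →ₐ[k] k)
  obtain ⟨U, cU, e⟩ := exists_chI_eq ς
    (RingHom.ker (aeval (hat ς x) : MvPolynomial P.V k →ₐ[k] k)) fun i => by
      rw [RingHom.mem_ker, map_sub, aeval_X, hat_one h, map_one, sub_self]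
  refine ⟨U, le_of_chI_le ⟨x, hx, h⟩ cU (e ▸ fun f hf => ?_), ?_⟩
  · rw [RingHom.mem_ker, aeval_eq_eval]
    exact hf x hx h
  · have h1 := Dim_spec cU
    have h2 : rk k (Set.range (hat ς x)) ≤ 0 :=
      (rk_le_of_mem (s := ∅) fun y _ => IntermediateField.algebraMap_mem _ y).trans
        ((rk_le_encard _).trans_eq Set.encard_empty)
    rw [e, ← rk_range_eq_trdeg, le_zero_iff.1 h2] at h1
    exact_mod_cast h1

theorem Dim_height (Z : Sub k P) : Order.height Z = Dim_t Z := by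
  induction h : Dim_t Z using Nat.strong_induction_on generalizing Z with
  | h n ih =>
    subst h
    refine le_antisymm (Order.height_le_coe_iff.2 fun U hU => ?_) ?_
    · rw [ih _ (Dim_lt hU) U rfl]
      exact_mod_cast Dim_lt hU
    · obtain ⟨U, h1, h2⟩ := Dim_point Z
      rcases h1.eq_or_lt with rfl | h3
      · rw [h2]; exact zero_le
      · obtain ⟨T, -, h4, h5⟩ := Dim_cover h3
        have h6 := Order.height_add_one_le (lt_of_le_of_ne h4 fun e => by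
          rw [e] at h5; omega)
        rw [ih _ (by omega) T rfl] at h6
        rw [← h5]
        exact_mod_cast h6

theorem Dim_sdim (Z : Sub k P) : sdim Z = Dim_t Z := by
  rw [sdim, Dim_height, ENat.toNat_natCast]

theorem sdim_eq_trdeg {Z : Sub k P} {ς : ∀ i, P.σ i} (h : ∃ x ∈ Z, InCh ς x) :
    (sdim Z : Cardinal) =
      Algebra.trdeg k (MvPolynomial P.V k ⧸ chI (Z : Set (P.Pt k)) ς) := by
  rw [Dim_sdim, Dim_spec h]

theorem height_eq (Z : Sub k P) : Order.height Z = sdim Z := by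
  rw [Dim_sdim, Dim_height]

theorem IsGen.rk_rat {Z : Sub k P} {v : P.V → L} (h : IsGen (Z : Set (P.Pt k)) v) :
    rk k (rat v) = sdim Z := by
  obtain ⟨ς, hς⟩ := Dim_chart Z
  obtain ⟨h1, h2⟩ := Dim_key h hς
  rw [← sdim_eq_trdeg hς] at h2
  rw [← ENat.natCast_toNat h1, Nat.cast_injective h2]

theorem sdim_lt {U Z : Sub k P} (h : U < Z) : sdim U < sdim Z := by
  rw [Dim_sdim, Dim_sdim]
  exact Dim_lt h

theorem sdim_mono {U Z : Sub k P} (h : U ≤ Z) : sdim U ≤ sdim Z := by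
  rcases h.eq_or_lt with rfl | h
  · exact le_rfl
  · exact (sdim_lt h).le

theorem eq_of_sdim_le {U Z : Sub k P} (h : U ≤ Z) (h' : sdim Z ≤ sdim U) : U = Z := by
  exact h.eq_or_lt.resolve_right fun e => absurd (sdim_lt e) (not_lt.2 h')

theorem sdim_le_card (Z : Sub k P) : sdim Z + Nat.card P.ι ≤ Nat.card P.V := by
  obtain ⟨ς, hς⟩ := Dim_chart Z
  obtain ⟨L, _, _, v, h, hv, -⟩ := exists_gen Z ς hς
  have hi : Function.Injective fun i => (⟨i, ς i⟩ : P.V) := fun i j e => congrArg Sigma.fst e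
  set A := Set.range fun i => (⟨i, ς i⟩ : P.V)
  have h1 : (sdim Z : ℕ∞) ≤ Aᶜ.encard := by
    rw [← h.rk_rat, rk_rat_norm v ς hv]
    refine (rk_le_of_mem (s := v '' Aᶜ) ?_).trans
      ((rk_le_encard _).trans (Set.encard_image_le _ _))
    rintro _ ⟨s, rfl⟩
    by_cases hs : s ∈ A
    · obtain ⟨i, rfl⟩ := hs
      rw [hv]; exact one_mem _
    · exact IntermediateField.subset_adjoin _ _ ⟨s, hs, rfl⟩
  rw [← (Set.toFinite _).cast_ncard_eq, Nat.cast_le] at h1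
  have h2 : A.ncard + Aᶜ.ncard = Nat.card P.V := Set.ncard_add_ncard_compl A
  have h3 : A.ncard = Nat.card P.ι := Set.ncard_range_of_injective hi
  omega

/-- Krull's principal ideal theorem. -/
theorem krg {U Z : Sub k P} (h : U ≤ Z) {g : MvPolynomial P.V k} {a : P.ι →₀ ℕ} (hg : IsForm g a)
    (hZ : ¬ Van (Z : Set (P.Pt k)) g) (hU : Van (U : Set (P.Pt k)) g) :
    ∃ T : Sub k P, U ≤ T ∧ T ≤ Z ∧ Van (T : Set (P.Pt k)) g ∧ sdim T + 1 = sdim Z := by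
  simp only [Dim_sdim]
  exact Dim_krg h hg hZ hU

theorem exists_cover {U Z : Sub k P} (h : U < Z) :
    ∃ T : Sub k P, U ≤ T ∧ T ≤ Z ∧ sdim T + 1 = sdim Z := by
  simp only [Dim_sdim]
  exact Dim_cover h

theorem exists_cover_up {U Z : Sub k P} (h : U < Z) :
    ∃ T : Sub k P, U ≤ T ∧ T ≤ Z ∧ sdim U + 1 = sdim T := by
  induction hn : sdim Z using Nat.strong_induction_on generalizing Z with
  | h n ih =>
    obtain ⟨T, h1, h2, h3⟩ := exists_cover h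
    rcases h1.eq_or_lt with rfl | h4
    · exact ⟨Z, h.le, le_rfl, h3⟩
    · obtain ⟨T', h5, h6, h7⟩ := ih _ (by omega) h4 rfl
      exact ⟨T', h5, h6.trans h2, h7⟩

end Pool.Agent.Work.MP_ffcd14_ag
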