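import Pool.Agent.Work.MP_ffcd14_ag.Cyc.NDefs

/-! # Families of curves and their fibre squares: definitions -/

open MvPolynomial Topology TopologicalSpace Filter

namespace Pool.Agent.Work.MP_ffcd14_ag

universe u v w w'

variable {k : Type u} [Field k] {P P' P₀ P₁ P₂ Q S : Amb}

/-- The product of a coordinate map with the identity of `Q`. -/
def Crd.map (β : Crd k P P') (Q : Amb) : Crd k (P.sum Q) (P'.sum Q) :=
  (β.comp (Crd.inl k P' Q)).pair (Crd.inr k P' Q)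

/-- The exchange of the two factors. -/
def Crd.swap (k : Type u) [Field k] (P Q : Amb) : Crd k (Q.sum P) (P.sum Q) :=
  (Crd.inr k P Q).pair (Crd.inl k P Q)

/-- The diagonal. -/
def Crd.diag (k : Type u) [Field k] (P : Amb) : Crd k (P.sum P) P :=
  (Crd.refl k P).pair (Crd.refl k P)

theorem Crd.inl_pair (β : Crd k P S) (γ : Crd k Q S) (y : S.Pt k) :
    (Crd.inl k P Q).pr ((β.pair γ).pr y) = β.pr y := rfl

theorem Crd.inr_pair (β : Crd k P S) (γ : Crd k Q S) (y : S.Pt k) :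
    (Crd.inr k P Q).pr ((β.pair γ).pr y) = γ.pr y := rfl

theorem Crd.comp_pr (β : Crd k P P') (γ : Crd k P' S) (y : S.Pt k) :
    (β.comp γ).pr y = β.pr (γ.pr y) := rfl

theorem Crd.inl_map (β : Crd k P P') (y : (P'.sum Q).Pt k) :
    (Crd.inl k P Q).pr ((β.map Q).pr y) = β.pr ((Crd.inl k P' Q).pr y) := rfl

theorem Crd.inr_map (β : Crd k P P') (y : (P'.sum Q).Pt k) :
    (Crd.inr k P Q).pr ((β.map Q).pr y) = (Crd.inr k P' Q).pr y := rfl

theorem sum_ext {x y : (P.sum Q).Pt k} (h1 : (Crd.inl k P Q).pr x = (Crd.inl k P Q).pr y)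
    (h2 : (Crd.inr k P Q).pr x = (Crd.inr k P Q).pr y) : x = y := by
  funext j
  rcases j with i | j
  · exact congrFun h1 i
  · exact congrFun h2 j

/-- The point with given components. -/
def mkPt (x : P.Pt k) (y : Q.Pt k) : (P.sum Q).Pt k :=
  Sum.rec (motive := fun j => Projectivization k ((P.sum Q).σ j → k)) x y

theorem inl_mkPt (x : P.Pt k) (y : Q.Pt k) : (Crd.inl k P Q).pr (mkPt x y) = x := rfl

theorem inr_mkPt (x : P.Pt k) (y : Q.Pt k) : (Crd.inr k P Q).pr (mkPt x y) = y := rfl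

/-- The product of a coordinate map of varieties with the identity of `Q`. -/
noncomputable def Prj.map {Ω : Var k P'} {X : Var k P} (π : Prj Ω X) (Q : Amb) :
    Prj (Ω.ext Q) (X.ext Q) where
  toCrd := π.toCrd.map Q
  maps _ hx := Var.mem_ext.2 (π.maps _ (Var.mem_ext.1 hx))

/-- First projection. -/
def Prj.p1 (X : Var k P) (Y : Var k Q) : Prj (X.prod Y) X where
  toCrd := Crd.inl k P Q
  maps _ hx := hx.1

/-- Second projection. -/
def Prj.p2 (X : Var k P) (Y : Var k Q) : Prj (X.prod Y) Y where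
  toCrd := Crd.inr k P Q
  maps _ hx := hx.2

/-- The diagonal. -/
def Prj.diag (X : Var k P) : Prj X (X.prod X) where
  toCrd := Crd.diag k P
  maps _ hx := ⟨hx, hx⟩

/-- The exchange of the two factors. -/
def Prj.swap (X : Var k P) (Y : Var k Q) : Prj (X.prod Y) (Y.prod X) where
  toCrd := Crd.swap k P Q
  maps _ hx := ⟨hx.2, hx.1⟩

/-- `β` is constant on `T`. -/
def Crd.Cst (β : Crd k P P') (T : Sub k P') : Prop := ∀ x ∈ T, ∀ y ∈ T, β.pr x = β.pr y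

/-- The fibres of `β` on `E` have dimension at most one. -/
def Fib1 (β : Crd k P P') (E : Sub k P') : Prop := ∀ T ≤ E, β.Cst T → sdim T ≤ 1

/-- The general fibre of `β` on `E` is irreducible. -/
def GI (β : Crd k P P') (E : Sub k P') : Prop :=
  ∃ h a, IsForm h a ∧ ¬ Van (β.img E : Set (P.Pt k)) h ∧
    ∀ x ∈ E, ev (β.pr x) h ≠ 0 → IsIrreducible {y | y ∈ E ∧ β.pr y = β.pr x}

/-- Over a general subvariety of the base there is only one family of curves in `E`. -/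
def UQ (β : Crd k P P') (E : Sub k P') : Prop :=
  ∃ h a, IsForm h a ∧ ¬ Van (β.img E : Set (P.Pt k)) h ∧
    ∀ T ≤ E, ∀ T' ≤ E, β.img T = β.img T' → ¬ Van (β.img T : Set (P.Pt k)) h →
      sdim T = sdim (β.img T) + 1 → sdim T' = sdim (β.img T') + 1 → T = T'

/-- `c` is smooth in codimension one. -/
def R1 (c : Sub k P) : Prop :=
  ∃ 𝒩 : Set (Sub k P), 𝒩.Finite ∧ (∀ N ∈ 𝒩, sdim N + 2 ≤ sdim c) ∧
    ∀ x ∈ c, (∀ N ∈ 𝒩, x ∉ N) → SmAt c x

/-- `B` is a main component of the fibre product of `E` and `E'` over the base `β`. -/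
structure Sq (β : Crd k P₀ P₁) (r1 r2 : Crd k P₁ P₂) (E E' : Sub k P₁) (B : Sub k P₂) : Prop where
  img1 : r1.img B = E
  img2 : r2.img B = E'
  base : ∀ x ∈ B, β.pr (r1.pr x) = β.pr (r2.pr x)
  inj : ∀ x ∈ B, ∀ y ∈ B, r1.pr x = r1.pr y → r2.pr x = r2.pr y → x = y
  dim1 : sdim B = sdim E + 1
  dim2 : sdim B = sdim E' + 1

theorem Sq.symm {β : Crd k P₀ P₁} {r1 r2 : Crd k P₁ P₂} {E E' : Sub k P₁} {B : Sub k P₂}
    (h : Sq β r1 r2 E E' B) : Sq β r2 r1 E' E B :=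
  ⟨h.img2, h.img1, fun x hx => (h.base x hx).symm, fun x hx y hy h2 h1 => h.inj x hx y hy h1 h2,
    h.dim2, h.dim1⟩

/-- Finitely many families of curves `E j` over the same base `c`, with their fibre squares. -/
structure Fam {Ω₁ : Var k P₁} {Ω₂ : Var k P₂} (β : Crd k P₀ P₁) (r1 r2 : Prj Ω₂ Ω₁) {J : Type w'}
    (c : Sub k P₀) (E : J → Sub k P₁) (B : J → J → Sub k P₂) : Prop where
  sub1 : ∀ j, (E j : Set (P₁.Pt k)) ⊆ Ω₁.pts
  sub2 : ∀ j j', (B j j' : Set (P₂.Pt k)) ⊆ Ω₂.pts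
  img : ∀ j, β.img (E j) = c
  sq : ∀ j j', Sq β r1.toCrd r2.toCrd (E j) (E j') (B j j')
  dim : ∀ j, sdim (E j) = sdim c + 1
  fib : ∀ j, Fib1 β (E j)
  uq : ∀ j, UQ β (E j)

/-- A threefold in `Y` whose image is a surface. -/
def Vert (Y : Var k P₁) (β : Crd k P₀ P₁) (E : Sub k P₁) : Prop :=
  (E : Set (P₁.Pt k)) ⊆ Y.pts ∧ sdim E = 3 ∧ sdim (β.img E) = 2

/-- A family of curves in `Y` with irreducible general member. -/
structure Adm (Y : Var k P₁) (β : Crd k P₀ P₁) (E : Sub k P₁) : Prop where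
  sub : (E : Set (P₁.Pt k)) ⊆ Y.pts
  dim : sdim E = sdim (β.img E) + 1
  fib : Fib1 β E
  gi : GI β E

open Classical in
/-- The vertical threefolds over `c`. -/
noncomputable def JJ (Y : Var k P₁) (β : Crd k P₀ P₁) (c : Sub k P₀) : Finset (Sub k P₁) :=
  if h : {E | Vert Y β E ∧ β.img E = c}.Finite then h.toFinset else ∅

/-- A fourfold fibred in connected curves, generically ruled, whose vertical prime divisors have
irreducible general fibres. -/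
structure Ruled (Y : Var k P₁) (hY : IsIrreducible Y.pts) (β : Crd k P₀ P₁) : Prop where
  dim : Y.dim = 4
  fib : Fib1 β (Y.top hY)
  base : sdim (β.img (Y.top hY)) = 3
  gi : GI β (Y.top hY)
  giv : ∀ E, Vert Y β E → GI β E
  conn : ∀ x ∈ Y.pts, IsPreconnected {y | y ∈ Y.pts ∧ β.pr y = β.pr x}
  inj : ∃ (τ₀ τ₁ h : MvPolynomial P₁.V k) (c c' : P₁.ι →₀ ℕ), IsForm τ₀ c ∧ IsForm τ₁ c ∧
    IsForm h c' ∧ ¬ Van Y.pts h ∧ ∀ x ∈ Y.pts, ∀ y ∈ Y.pts, ev x h ≠ 0 → ev y h ≠ 0 →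
      β.pr x = β.pr y → ev x τ₀ * ev y τ₁ = ev x τ₁ * ev y τ₀ → x = y

variable {K : Type v} [Field K] [CharZero K] (C : NT.{u, v, w} k K)

/-- The classes coming from the hyperplanes of the base. -/
noncomputable def BS (X : Var k P') (β : Crd k P P') : Submodule ℚ (EE C X) :=
  Submodule.span ℚ (Set.range fun i => hy C X (β.ψ i))

/-- The bilinear form defined by a correspondence. -/
noncomputable def BB {Ω₁ : Var k P₁} {Ω₂ : Var k P₂} (r1 r2 : Prj Ω₂ Ω₁) (B : Sub k P₂) :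
    EE C Ω₁ →ₗ[ℚ] EE C Ω₁ →ₗ[ℚ] ℚ :=
  ((LinearMap.mul ℚ (EE C Ω₂)).compl₁₂ (pl C r1).toLinearMap
    (pl C r2).toLinearMap).compr₂ (nm C Ω₂ B)

theorem BB_apply {Ω₁ : Var k P₁} {Ω₂ : Var k P₂} (r1 r2 : Prj Ω₂ Ω₁) (B : Sub k P₂)
    (z z' : EE C Ω₁) : BB C r1 r2 B z z' = nm C Ω₂ B (pl C r1 z * pl C r2 z') := rfl

theorem BB_swap {Ω₁ : Var k P₁} {Ω₂ : Var k P₂} (r1 r2 : Prj Ω₂ Ω₁) (B : Sub k P₂)
    (z z' : EE C Ω₁) : BB C r1 r2 B z z' = BB C r2 r1 B z' z := by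
  rw [BB_apply, BB_apply, mul_comm]

/-- The pull-back of the class `O(a)` of the base. -/
noncomputable def bA (Y : Var k P₁) (β : Crd k P₀ P₁) (a : P₀.ι →₀ ℕ) : EE C Y :=
  ln C Y (a.mapDomain β.ψ)

/-- The degree on the fibres of `E`. -/
noncomputable def fE (Y : Var k P₁) (β : Crd k P₀ P₁) (a : P₀.ι →₀ ℕ) (E : Sub k P₁) :
    EE C Y →ₗ[ℚ] ℚ :=
  nm C Y E ∘ₗ LinearMap.mulLeft ℚ (bA C Y β a ^ sdim (β.img E))

theorem fE_apply (Y : Var k P₁) (β : Crd k P₀ P₁) (a : P₀.ι →₀ ℕ) (E : Sub k P₁) (D : EE C Y) :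
    fE C Y β a E D = nm C Y E (bA C Y β a ^ sdim (β.img E) * D) := rfl

open Classical in
/-- The normalised form of the fibre product of `E` and `E'`. -/
noncomputable def bh (Y : Var k P₁) (β : Crd k P₀ P₁) (a : P₀.ι →₀ ℕ) (b : P₁.ι →₀ ℕ)
    (E E' : Sub k P₁) : EE C Y →ₗ[ℚ] EE C Y →ₗ[ℚ] ℚ :=
  if h : ∃ B, Sq β (Crd.inl k P₁ P₁) (Crd.inr k P₁ P₁) E E' B then
    (fE C Y β a E (ln C Y b) * fE C Y β a E' (ln C Y b) /
      BB C (Prj.p1 Y Y) (Prj.p2 Y Y) h.choose (bA C Y β a ^ sdim (β.img E) * ln C Y b)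
        (ln C Y b)) • BB C (Prj.p1 Y Y) (Prj.p2 Y Y) h.choose
  else 0

/-- Semi-positivity on a subspace of codimension less than the Picard number. -/
def PS (X : Var k P) : Prop :=
  ∃ L ∈ AA C X 1, (∃ D ∈ AA C X 1, tau C X (L ^ 3 * D) ≠ 0) ∧ ∀ y ∈ AA C X 2,
    (∀ D ∈ AA C X 1, tau C X (L ^ 3 * D) = 0 → tau C X (y * L * D) = 0) → 0 ≤ tau C X (y * y)

end Pool.Agent.Work.MP_ffcd14_ag
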