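import Pool.Agent.Work.MP_ffcd14_ag.Cyc.Fib

/-! # Existence of fibre products -/

open MvPolynomial Topology TopologicalSpace Filter

namespace Pool.Agent.Work.MP_ffcd14_ag

universe u v w w'

variable {k : Type u} [Field k] [IsAlgClosed k] {P P' P₀ P₁ P₂ Q : Amb}

/-- A transcendence basis can be sent to any independent family of an algebraically closed
field. -/
theorem FP_ext {F E M : Type u} [Field F] [Field E] [Field M] [IsAlgClosed M] [Algebra F E]
    [Algebra F M] {T : Type u} {x : T → E} (hx : IsTranscendenceBasis F x) {y : T → M}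
    (hy : AlgebraicIndependent F y) : ∃ φ : E →ₐ[F] M, ∀ t, φ (x t) = y t := by
  let R := Algebra.adjoin F (Set.range x)
  have : Algebra.IsAlgebraic R E := hx.isAlgebraic
  let g : R →ₐ[F] M := (aeval y : MvPolynomial T F →ₐ[F] M).comp hx.1.aevalEquiv.symm.toAlgHom
  have hg : Function.Injective g :=
    (algebraicIndependent_iff_injective_aeval.1 hy).comp hx.1.aevalEquiv.symm.injective
  let _ : Algebra R M := g.toRingHom.toAlgebra
  have : IsScalarTower F R M := .of_algebraMap_eq fun c => (g.commutes c).symm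
  have : FaithfulSMul R M := (faithfulSMul_iff_algebraMap_injective R M).2 hg
  let φ : E →ₐ[R] M := IsAlgClosed.lift
  refine ⟨φ.restrictScalars F, fun t => ?_⟩
  have h1 : x t = algebraMap R E (hx.1.aevalEquiv (X t)) := by
    rw [hx.1.algebraMap_aevalEquiv, aeval_X]
  rw [h1]
  refine (φ.commutes _).trans ?_
  change aeval y (hx.1.aevalEquiv.symm (hx.1.aevalEquiv (X t))) = y t
  rw [AlgEquiv.symm_apply_apply, aeval_X]

theorem FP_big (K : Type u) [Field K] (T : Type u) : ∃ (L : Type u) (_ : Field L)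
    (_ : IsAlgClosed L) (_ : Algebra K L) (y : T → L), AlgebraicIndependent K y := by
  let L := AlgebraicClosure (FractionRing (MvPolynomial T K))
  exact ⟨L, inferInstance, inferInstance, inferInstance,
    IsScalarTower.toAlgHom K (MvPolynomial T K) L ∘ X, (algebraicIndependent_X T K).map'
      ((algebraMap (FractionRing (MvPolynomial T K)) L).injective.comp
        (IsFractionRing.injective (MvPolynomial T K) (FractionRing (MvPolynomial T K))))⟩

omit [IsAlgClosed k] in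
theorem FP_rk {K L : Type u} [Field K] [Field L] [Algebra k K] [Algebra k L] [Algebra K L]
    [IsScalarTower k K L] {T : Type u} {y : T → L} (hy : AlgebraicIndependent K y) (A : Set K)
    {J : Set T} (hJ : J.Finite) :
    rk k (IsScalarTower.toAlgHom k K L '' A ∪ y '' J) = rk k A + J.encard := by
  induction J, hJ using Set.Finite.induction_on with
  | empty => simp only [Set.image_empty, Set.union_empty, Set.encard_empty, add_zero, rk_image]
  | @insert t J ht _ ih =>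
    rw [Set.image_insert_eq, Set.union_insert, Set.encard_insert_of_notMem ht, ← add_assoc, ← ih]
    refine rk_insert fun h => hy.transcendental_adjoin ht ?_
    have hle : Algebra.adjoin k (IsScalarTower.toAlgHom k K L '' A ∪ y '' J) ≤
        (Algebra.adjoin K (y '' J)).restrictScalars k := by
      refine Algebra.adjoin_le ?_
      rintro _ (⟨a, -, rfl⟩ | h)
      · exact SetLike.mem_coe.2 ((Subalgebra.mem_restrictScalars k).2
          (Subalgebra.algebraMap_mem (Algebra.adjoin K (y '' J)) a))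
      · exact SetLike.mem_coe.2 ((Subalgebra.mem_restrictScalars k).2
          (SetLike.mem_coe.1 (Algebra.subset_adjoin h)))
    exact h.tower_top_of_subalgebra_le hle

omit [IsAlgClosed k] in
/-- Free amalgamation of two extensions of a field. -/
theorem FP_amalg {L₀ L₁ L₂ : Type u} [Field L₀] [Field L₁] [Field L₂] [Algebra k L₀]
    [Algebra k L₁] [Algebra k L₂] (ψ₁ : L₀ →ₐ[k] L₁) (ψ₂ : L₀ →ₐ[k] L₂) {S : Set L₀}
    (hS : IntermediateField.adjoin k S = ⊤) (A : Set L₁) {B : Set L₂} (hB : B.Finite) :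
    ∃ (L : Type u) (_ : Field L) (_ : Algebra k L) (φ₁ : L₁ →ₐ[k] L) (φ₂ : L₂ →ₐ[k] L),
      (∀ x, φ₁ (ψ₁ x) = φ₂ (ψ₂ x)) ∧ rk k A + rk k B ≤ rk k (φ₁ '' A ∪ φ₂ '' B) + rk k S := by
  let _ : Algebra L₀ L₂ := ψ₂.toRingHom.toAlgebra
  have : IsScalarTower k L₀ L₂ := .of_algebraMap_eq fun c => (ψ₂.commutes c).symm
  obtain ⟨I, hI⟩ := (AlgebraicIndependent.matroid L₀ L₂).exists_isBasis B (Set.subset_univ _)
  obtain ⟨T, hT, hIT⟩ := hI.indep.exists_isBase_superset
  have hT' : IsTranscendenceBasis L₀ ((↑) : T → L₂) := hT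
  obtain ⟨L, _, _, _, y, hy⟩ := FP_big L₁ T
  let _ : Algebra k L := ((algebraMap L₁ L).comp (algebraMap k L₁)).toAlgebra
  have : IsScalarTower k L₁ L := .of_algebraMap_eq fun c => rfl
  let φ₁ : L₁ →ₐ[k] L := IsScalarTower.toAlgHom k L₁ L
  let _ : Algebra L₀ L₁ := ψ₁.toRingHom.toAlgebra
  let _ : Algebra L₀ L := (φ₁.comp ψ₁).toRingHom.toAlgebra
  have : IsScalarTower k L₀ L := .of_algebraMap_eq fun c => ((φ₁.comp ψ₁).commutes c).symm
  have : IsScalarTower L₀ L₁ L := .of_algebraMap_eq fun c => rfl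
  obtain ⟨φ, hφ⟩ := FP_ext hT' (hy.restrictScalars (algebraMap L₀ L₁).injective)
  refine ⟨L, inferInstance, inferInstance, φ₁, φ.restrictScalars k,
    fun x => (φ.commutes x).symm, ?_⟩
  have hIf : I.Finite := hB.subset hI.subset
  have h1 : rk k A + I.encard ≤ rk k (φ₁ '' A ∪ φ.restrictScalars k '' B) := by
    have h2 := FP_rk (k := k) hy A (J := Subtype.val ⁻¹' I)
      (hIf.preimage Subtype.val_injective.injOn)
    rw [Set.encard_preimage_of_injective_subset_range Subtype.val_injective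
      (by rwa [Subtype.range_coe])] at h2
    rw [← h2]
    refine rk_mono (Set.union_subset_union_right _ ?_)
    rintro _ ⟨t, ht, rfl⟩
    exact ⟨t, hI.subset ht, hφ t⟩
  have h2 : rk k B ≤ I.encard + rk k S := by
    refine (rk_le_of_alg (s := I ∪ ψ₂ '' S) fun b hb => ?_).trans ((rk_union_le _ _).trans
      (add_le_add (rk_le_encard _) (rk_image ψ₂ S).le))
    have h3 : IsAlgebraic (Algebra.adjoin L₀ I) b := Rk_mem_closure.1 (hI.subset_closure hb)
    have hm : ∀ c : L₀, ψ₂ c ∈ IntermediateField.adjoin k (I ∪ ψ₂ '' S) := fun c => by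
      refine IntermediateField.adjoin.mono k _ _ Set.subset_union_right ?_
      rw [← IntermediateField.adjoin_map, hS]
      exact ⟨c, trivial, rfl⟩
    have hle : (Algebra.adjoin L₀ I).restrictScalars k ≤
        (IntermediateField.adjoin k (I ∪ ψ₂ '' S)).toSubalgebra := by
      intro z hz
      rw [Subalgebra.mem_restrictScalars] at hz
      rw [IntermediateField.mem_toSubalgebra]
      induction hz using Algebra.adjoin_induction with
      | mem z hz => exact IntermediateField.subset_adjoin _ _ (Or.inl hz)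
      | algebraMap c => exact hm c
      | add _ _ _ _ h h' => exact add_mem h h'
      | mul _ _ _ _ h h' => exact mul_mem h h'
    exact IntermediateField.isAlgebraic_adjoin_iff.1
      (IsAlgebraic.tower_top_of_subalgebra_le hle h3)
  calc rk k A + rk k B ≤ rk k A + (I.encard + rk k S) := add_le_add le_rfl h2
    _ = rk k A + I.encard + rk k S := (add_assoc _ _ _).symm
    _ ≤ _ := add_le_add h1 le_rfl

omit [IsAlgClosed k] in
theorem FP_lift (β : Crd k P₀ P₁) {E : Sub k P₁} {L₀ L₁ : Type u} [Field L₀] [Field L₁]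
    [Algebra k L₀] [Algebra k L₁] {u : P₀.V → L₀} {v : P₁.V → L₁} {ς : ∀ i, P₀.σ i}
    (hu : IsGen (β.img E : Set (P₀.Pt k)) u) (h1 : ∀ i, u ⟨i, ς i⟩ = 1)
    (ht : IntermediateField.adjoin k (Set.range u) = ⊤) (hv : IsGen (E : Set (P₁.Pt k)) v) :
    (∀ i, v (β.ε ⟨i, ς i⟩) ≠ 0) ∧
      ∃ ψ : L₀ →ₐ[k] L₁, ∀ s, v (β.ε ⟨s.1, ς s.1⟩) * ψ (u s) = v (β.ε s) := by
  have h2 := β.isGen_img hv
  have h3 : ∀ i, v (β.ε ⟨i, ς i⟩) ≠ 0 := fun i h0 => by
    have := (hu.iff _ _ (IsForm.X ⟨i, ς i⟩)).2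
      ((h2.iff _ _ (IsForm.X ⟨i, ς i⟩)).1 (by simpa using h0))
    simp [h1] at this
  obtain ⟨ψ, hψ⟩ := hu.lift (h2.scale (fun i => (v (β.ε ⟨i, ς i⟩))⁻¹) fun i => inv_ne_zero (h3 i))
    h1 (fun i => inv_mul_cancel₀ (h3 i)) ht
  exact ⟨h3, ψ, fun s => by rw [hψ]; exact mul_inv_cancel_left₀ (h3 _) _⟩

theorem exists_fp (β₁ : Crd k P₀ P₁) (β₂ : Crd k P₀ P₂) {E : Sub k P₁} {E' : Sub k P₂}
    (h : β₁.img E = β₂.img E') : ∃ B : Sub k (P₁.sum P₂), (Crd.inl k P₁ P₂).img B = E ∧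
      (Crd.inr k P₁ P₂).img B = E' ∧
      (∀ x ∈ B, β₁.pr ((Crd.inl k P₁ P₂).pr x) = β₂.pr ((Crd.inr k P₁ P₂).pr x)) ∧
      sdim E + sdim E' ≤ sdim B + sdim (β₁.img E) := by
  obtain ⟨ς, hς⟩ := Dim_chart (β₁.img E)
  obtain ⟨L₀, _, _, u, hu, hu1, ht⟩ := exists_gen (β₁.img E) ς hς
  obtain ⟨L₁, _, _, v₁, hv₁⟩ := exists_gen' E
  obtain ⟨L₂, _, _, v₂, hv₂⟩ := exists_gen' E'
  obtain ⟨n₁, ψ₁, e₁⟩ := FP_lift β₁ hu hu1 ht hv₁
  obtain ⟨n₂, ψ₂, e₂⟩ := FP_lift β₂ (h ▸ hu) hu1 ht hv₂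
  have hB : (rat v₂).Finite := by
    refine (Set.finite_range fun p : P₂.V × P₂.V => v₂ p.1 / v₂ p.2).subset ?_
    rintro _ ⟨i, s, t, rfl⟩
    exact ⟨(⟨i, s⟩, ⟨i, t⟩), rfl⟩
  obtain ⟨L, _, _, φ₁, φ₂, hφ, hr⟩ := FP_amalg ψ₁ ψ₂ ht (rat v₁) hB
  let w : (P₁.sum P₂).V → L := Amb.elim (fun s => φ₁ (v₁ s)) fun s => φ₂ (v₂ s)
  obtain ⟨B, hw⟩ := exists_loc (k := k) w (by
    rintro (i | j)
    · exact (hv₁.map φ₁).ne i
    · exact (hv₂.map φ₂).ne j)
  refine ⟨B, ((Crd.inl k P₁ P₂).isGen_img hw).unique (hv₁.map φ₁),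
    ((Crd.inr k P₁ P₂).isGen_img hw).unique (hv₂.map φ₂), fun x hx => ?_, ?_⟩
  · let γ := (β₁.comp (Crd.inl k P₁ P₂)).pair (β₂.comp (Crd.inr k P₁ P₂))
    have h1 := ((Crd.diag k P₀).isGen_img (hu.map (φ₁.comp ψ₁))).scale
      (Sum.elim (fun i => φ₁ (v₁ (β₁.ε ⟨i, ς i⟩))) fun i => φ₂ (v₂ (β₂.ε ⟨i, ς i⟩))) (by
        rintro (i | i)
        · exact (map_ne_zero φ₁).2 (n₁ i)
        · exact (map_ne_zero φ₂).2 (n₂ i))
    have h2 : γ.img B = (Crd.diag k P₀).img (β₁.img E) := by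
      refine (γ.isGen_img hw).unique ?_
      convert h1 using 1
      funext s
      rcases s with ⟨i | i, s⟩
      · exact (congrArg φ₁ (e₁ ⟨i, s⟩)).symm.trans (map_mul φ₁ _ _)
      · refine (congrArg φ₂ (e₂ ⟨i, s⟩)).symm.trans ((map_mul φ₂ _ _).trans ?_)
        exact congrArg _ (hφ _).symm
    have h3 := ((Crd.diag k P₀).img_sub (Z := β₁.img E)
      (isClosed_eq_crd (Crd.inl k P₀ P₀) (Crd.inr k P₀ P₀))).2 fun _ _ => rfl
    exact h3 (h2 ▸ γ.mem_img hx)
  · have h1 : rk k (φ₁ '' rat v₁ ∪ φ₂ '' rat v₂) ≤ rk k (rat w) := by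
      refine rk_mono ?_
      rintro _ (⟨_, ⟨i, s, t, rfl⟩, rfl⟩ | ⟨_, ⟨i, s, t, rfl⟩, rfl⟩)
      · exact ⟨Sum.inl i, s, t, map_div₀ _ _ _⟩
      · exact ⟨Sum.inr i, s, t, map_div₀ _ _ _⟩
    have h2 := hr.trans (add_le_add h1 le_rfl)
    rw [← rk_rat_norm u ς hu1, hu.rk_rat, hv₁.rk_rat, hv₂.rk_rat, hw.rk_rat] at h2
    exact_mod_cast h2

theorem exists_sq {β : Crd k P₀ P₁} {E E' : Sub k P₁} (he : β.img E = β.img E')
    (hF : Fib1 β E') (hd : sdim E = sdim (β.img E) + 1) (hd' : sdim E' = sdim (β.img E') + 1) :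
    ∃ B, Sq β (Crd.inl k P₁ P₁) (Crd.inr k P₁ P₁) E E' B := by
  obtain ⟨B, h1, h2, hb, h3⟩ := exists_fp β β he
  have h4 := (fib1_inl β hF h2.le hb).le le_rfl
  rw [h1] at h4
  rw [← he] at hd'
  exact ⟨B, h1, h2, hb, fun _ _ _ _ => sum_ext, by omega, by omega⟩

/-- The ambient space with one point. -/
def FP_pt : Amb where
  ι := Empty
  σ _ := Empty

/-- The map to the point. -/
def FP_toPt (k : Type u) [Field k] (P : Amb) : Crd k FP_pt P where
  ε s := s.1.elim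
  ψ i := i.elim
  fst s := s.1.elim
  pr _ i := i.elim
  rp_pr _ s := s.1.elim

theorem Var.prod_irr {X : Var k P} {Y : Var k Q} (hX : IsIrreducible X.pts)
    (hY : IsIrreducible Y.pts) : IsIrreducible (X.prod Y).pts := by
  have hle : ∀ Z Z' : Sub k FP_pt, Z ≤ Z' := fun Z Z' x _ => by
    obtain ⟨y, hy⟩ := Z'.isIrreducible.nonempty
    have : x = y := funext fun i => i.elim
    exact this ▸ hy
  obtain ⟨B, h1, h2, -, h3⟩ := exists_fp (FP_toPt k P) (FP_toPt k Q) (E := X.top hX)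
    (E' := Y.top hY) (le_antisymm (hle _ _) (hle _ _))
  have h0 : sdim ((FP_toPt k P).img (X.top hX)) = 0 := by
    have := sdim_le_card ((FP_toPt k P).img (X.top hX))
    have h4 : IsEmpty FP_pt.V := ⟨fun s => s.1.elim⟩
    rw [Nat.card_of_isEmpty (α := FP_pt.V)] at this
    omega
  convert B.isIrreducible using 1
  refine Set.Subset.antisymm (fun p hp => ?_) fun p hp => ⟨?_, ?_⟩
  · obtain ⟨z, hz, e⟩ := (Crd.inl k P Q).mem_img_iff.1
      (show (Crd.inl k P Q).pr p ∈ (Crd.inl k P Q).img B from h1 ▸ hp.1)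
    obtain ⟨T, hT, hzT, hc, h4⟩ := fib_low (Crd.inl k P Q) hz
    have h5 := sdim_img_of_inj (Crd.inr k P Q) (U := T) fun x hx y hy => sum_ext (hc x hx y hy)
    have h6 : (Crd.inr k P Q).img T = Y.top hY := by
      refine eq_of_sdim_le (h2 ▸ (Crd.inr k P Q).img_mono hT) ?_
      rw [h1] at h4
      omega
    obtain ⟨z', hz', e'⟩ := (Crd.inr k P Q).mem_img_iff.1
      (show (Crd.inr k P Q).pr p ∈ (Crd.inr k P Q).img T from h6 ▸ hp.2)
    exact sum_ext ((hc z' hz' z hzT).trans e) e' ▸ hT hz'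
  · have := (Crd.inl k P Q).mem_img hp
    rwa [h1] at this
  · have := (Crd.inr k P Q).mem_img hp
    rwa [h2] at this

end Pool.Agent.Work.MP_ffcd14_ag
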