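import Pool.Agent.Work.MP_ffcd14_ag.Cyc.FibA

/-! # Fibres of coordinate maps -/

open MvPolynomial Topology TopologicalSpace Filter

namespace Pool.Agent.Work.MP_ffcd14_ag

universe u v w w'

variable {k : Type u} [Field k] [IsAlgClosed k] {P P' P₀ P₁ P₂ Q : Amb}

omit [IsAlgClosed k] in
theorem Fib_closed (β : Crd k P P') (E : Sub k P') (x : P.Pt k) :
    IsClosed {y | y ∈ E ∧ β.pr y = x} :=
  E.isClosed.inter (isClosed_singleton.preimage β.continuous)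

theorem Fib_uq_le {β : Crd k P P'} {E : Sub k P'} (hF : Fib1 β E) {h : MvPolynomial P.V k}
    {a : P.ι →₀ ℕ} (hh : IsForm h a)
    (H : ∀ x ∈ E, ev (β.pr x) h ≠ 0 → IsIrreducible {y | y ∈ E ∧ β.pr y = β.pr x})
    {T T' : Sub k P'} (hT : T ≤ E) (hT' : T' ≤ E) (he : β.img T = β.img T')
    (hv : ¬ Van (β.img T : Set (P.Pt k)) h) (hd : sdim T' = sdim (β.img T') + 1) : T ≤ T' := by
  refine le_of_open (β.form hh) (by rwa [← β.van_img hh]) fun x hx hne => ?_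
  rw [β.ev_rename] at hne
  let Φ : Sub k P' := ⟨{y | y ∈ E ∧ β.pr y = β.pr x}, H x (hT hx) hne, Fib_closed β E _⟩
  have hΦ : sdim Φ ≤ 1 := hF Φ (fun y hy => hy.1) fun y hy z hz => hy.2.trans hz.2.symm
  have hle : Φ ≤ T' := fib_full β hd.ge (he ▸ β.mem_img hx) hΦ fun z hz hzx => ⟨hT' hz, hzx⟩
  exact hle ⟨hT hx, rfl⟩

theorem GI.uq {β : Crd k P P'} {E : Sub k P'} (hF : Fib1 β E) (h : GI β E) : UQ β E := by
  obtain ⟨g, a, hg, hv, H⟩ := h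
  refine ⟨g, a, hg, hv, fun T hT T' hT' he hv' hd hd' => le_antisymm ?_ ?_⟩
  · exact Fib_uq_le hF hg H hT hT' he hv' hd'
  · exact Fib_uq_le hF hg H hT' hT he.symm (he ▸ hv') hd

theorem img_base {β : Crd k P₀ P₁} {r1 r2 : Crd k P₁ P₂} {U : Sub k P₂}
    (h : ∀ x ∈ U, β.pr (r1.pr x) = β.pr (r2.pr x)) : β.img (r1.img U) = β.img (r2.img U) := by
  rw [← Crd.img_comp, ← Crd.img_comp]
  exact Crd.img_congr _ _ h

theorem Fib_aux {β : Crd k P₀ P₁} {r1 r2 : Crd k P₁ P₂} {E' : Sub k P₁} {B : Sub k P₂}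
    (h2 : r2.img B ≤ E') (hb : ∀ x ∈ B, β.pr (r1.pr x) = β.pr (r2.pr x))
    (hi : ∀ x ∈ B, ∀ y ∈ B, r1.pr x = r1.pr y → r2.pr x = r2.pr y → x = y)
    (hF : Fib1 β E') : Fib1 r1 B := by
  intro T hT hc
  rw [← sdim_img_of_inj r2 fun x hx y hy => hi x (hT hx) y (hT hy) (hc x hx y hy)]
  refine hF _ ((r2.img_mono hT).trans h2) fun x hx y hy => ?_
  obtain ⟨x', hx', rfl⟩ := r2.mem_img_iff.1 hx
  obtain ⟨y', hy', rfl⟩ := r2.mem_img_iff.1 hy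
  rw [← hb x' (hT hx'), ← hb y' (hT hy'), hc x' hx' y' hy']

theorem Sq.fib1 {β : Crd k P₀ P₁} {r1 r2 : Crd k P₁ P₂} {E E' : Sub k P₁} {B : Sub k P₂}
    (h : Sq β r1 r2 E E' B) (hF : Fib1 β E') : Fib1 r1 B := by
  exact Fib_aux h.img2.le h.base h.inj hF

theorem fib1_inl (β : Crd k P₀ P₁) {E' : Sub k P₁} (hF : Fib1 β E') {U : Sub k (P₁.sum P₁)}
    (h2 : (Crd.inr k P₁ P₁).img U ≤ E')
    (hb : ∀ x ∈ U, β.pr ((Crd.inl k P₁ P₁).pr x) = β.pr ((Crd.inr k P₁ P₁).pr x)) :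
    Fib1 (Crd.inl k P₁ P₁) U := by
  exact Fib_aux h2 hb (fun x _ y _ => sum_ext) hF

theorem sq_full (β : Crd k P₀ P₁) {E E' : Sub k P₁} (hF : Fib1 β E') {U : Sub k (P₁.sum P₁)}
    (h1 : (Crd.inl k P₁ P₁).img U ≤ E) (h2 : (Crd.inr k P₁ P₁).img U ≤ E')
    (hb : ∀ x ∈ U, β.pr ((Crd.inl k P₁ P₁).pr x) = β.pr ((Crd.inr k P₁ P₁).pr x))
    (hd : sdim U = sdim E + 1) : (Crd.inl k P₁ P₁).img U = E ∧
      ∀ x ∈ E, ∀ y ∈ E', β.pr x = β.pr y → IsIrreducible {z | z ∈ E' ∧ β.pr z = β.pr y} →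
        mkPt x y ∈ U := by
  have hle := (fib1_inl β hF h2 hb).le le_rfl
  have he : (Crd.inl k P₁ P₁).img U = E := eq_of_sdim_le h1 (by omega)
  refine ⟨he, fun x hx y hy hxy hirr => ?_⟩
  let Ψ : Sub k P₁ := ⟨{z | z ∈ E' ∧ β.pr z = β.pr y}, hirr, Fib_closed β E' _⟩
  have hΨ : sdim Ψ ≤ 1 := hF Ψ (fun z hz => hz.1) fun z hz w hw => hz.2.trans hw.2.symm
  let Φ : Sub k (P₁.sum P₁) := Ψ.map (mkPt x) (continuous_mkPt x)
  have hin : ∀ z ∈ Ψ, mkPt x z ∈ Φ := fun z hz => subset_closure ⟨z, hz, rfl⟩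
  have hout : ∀ z ∈ Φ, (Crd.inl k P₁ P₁).pr z = x ∧ (Crd.inr k P₁ P₁).pr z ∈ Ψ := by
    have hc : IsClosed {z : (P₁.sum P₁).Pt k |
        (Crd.inl k P₁ P₁).pr z = x ∧ (Crd.inr k P₁ P₁).pr z ∈ Ψ} :=
      (isClosed_singleton.preimage (Crd.inl k P₁ P₁).continuous).inter
        (Ψ.isClosed.preimage (Crd.inr k P₁ P₁).continuous)
    intro z hz
    refine closure_minimal ?_ hc hz
    rintro _ ⟨w, hw, rfl⟩
    exact ⟨rfl, hw⟩
  have hΦ : sdim Φ ≤ 1 := by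
    rw [← sdim_img_of_inj (Crd.inr k P₁ P₁) fun z hz w hw =>
      sum_ext ((hout z hz).1.trans (hout w hw).1.symm)]
    refine (sdim_mono ?_).trans hΨ
    exact ((Crd.inr k P₁ P₁).img_sub Ψ.isClosed).2 fun z hz => (hout z hz).2
  refine fib_full (Crd.inl k P₁ P₁) (by rw [he, hd]) (he ▸ hx) hΦ (fun z hz hzx => ?_)
    (hin y ⟨hy, rfl⟩)
  have hz' : z = mkPt x ((Crd.inr k P₁ P₁).pr z) := sum_ext hzx rfl
  rw [hz']
  exact hin _ ⟨h2 ((Crd.inr k P₁ P₁).mem_img hz), by rw [← hb z hz, hzx, hxy]⟩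

theorem Fib_sq_le (β : Crd k P₀ P₁) {E E' : Sub k P₁} (hF : Fib1 β E') (hG : GI β E')
    (he : β.img E = β.img E') {U U' : Sub k (P₁.sum P₁)}
    (h1 : (Crd.inl k P₁ P₁).img U ≤ E) (h2 : (Crd.inr k P₁ P₁).img U ≤ E')
    (hb : ∀ x ∈ U, β.pr ((Crd.inl k P₁ P₁).pr x) = β.pr ((Crd.inr k P₁ P₁).pr x))
    (hd : sdim U = sdim E + 1)
    (h1' : (Crd.inl k P₁ P₁).img U' ≤ E) (h2' : (Crd.inr k P₁ P₁).img U' ≤ E')
    (hb' : ∀ x ∈ U', β.pr ((Crd.inl k P₁ P₁).pr x) = β.pr ((Crd.inr k P₁ P₁).pr x))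
    (hd' : sdim U' = sdim E + 1) : U ≤ U' := by
  obtain ⟨g, a, hg, hv, H⟩ := hG
  refine le_of_open ((Crd.inr k P₁ P₁).form (β.form hg)) ?_ fun z hz hne => ?_
  · rwa [← (Crd.inr k P₁ P₁).van_img (β.form hg), ← β.van_img hg, ← img_base hb,
      (sq_full β hF h1 h2 hb hd).1, he]
  · rw [Crd.ev_rename, Crd.ev_rename] at hne
    have hz2 := h2 ((Crd.inr k P₁ P₁).mem_img hz)
    have := (sq_full β hF h1' h2' hb' hd').2 _ (h1 ((Crd.inl k P₁ P₁).mem_img hz)) _ hz2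
      (hb z hz) (H _ hz2 hne)
    have hz' : z = mkPt ((Crd.inl k P₁ P₁).pr z) ((Crd.inr k P₁ P₁).pr z) := sum_ext rfl rfl
    rwa [hz']

theorem sq_unique (β : Crd k P₀ P₁) {E E' : Sub k P₁} (hF : Fib1 β E') (hG : GI β E')
    (he : β.img E = β.img E') {U U' : Sub k (P₁.sum P₁)}
    (h1 : (Crd.inl k P₁ P₁).img U ≤ E) (h2 : (Crd.inr k P₁ P₁).img U ≤ E')
    (hb : ∀ x ∈ U, β.pr ((Crd.inl k P₁ P₁).pr x) = β.pr ((Crd.inr k P₁ P₁).pr x))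
    (hd : sdim U = sdim E + 1)
    (h1' : (Crd.inl k P₁ P₁).img U' ≤ E) (h2' : (Crd.inr k P₁ P₁).img U' ≤ E')
    (hb' : ∀ x ∈ U', β.pr ((Crd.inl k P₁ P₁).pr x) = β.pr ((Crd.inr k P₁ P₁).pr x))
    (hd' : sdim U' = sdim E + 1) : U = U' := by
  exact le_antisymm (Fib_sq_le β hF hG he h1 h2 hb hd h1' h2' hb' hd')
    (Fib_sq_le β hF hG he h1' h2' hb' hd' h1 h2 hb hd)

omit [IsAlgClosed k] in
theorem Fib_inl_swap (U : Sub k (P.sum Q)) :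
    (Crd.inl k Q P).img ((Crd.swap k P Q).img U) = (Crd.inr k P Q).img U := by
  rw [← Crd.img_comp]
  exact Crd.img_congr _ _ fun _ _ => rfl

omit [IsAlgClosed k] in
theorem Fib_inr_swap (U : Sub k (P.sum Q)) :
    (Crd.inr k Q P).img ((Crd.swap k P Q).img U) = (Crd.inl k P Q).img U := by
  rw [← Crd.img_comp]
  exact Crd.img_congr _ _ fun _ _ => rfl

omit [IsAlgClosed k] in
theorem Fib_swap_swap (U : Sub k (P.sum Q)) :
    (Crd.swap k Q P).img ((Crd.swap k P Q).img U) = U := by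
  rw [← Crd.img_comp, ← Crd.img_refl U, ← Crd.img_comp]
  exact Crd.img_congr _ _ fun _ _ => sum_ext rfl rfl

theorem Fib_sdim_swap (U : Sub k (P.sum Q)) : sdim ((Crd.swap k P Q).img U) = sdim U :=
  sdim_img_of_inj _ fun _ _ _ _ h =>
    sum_ext (congrArg (Crd.inr k Q P).pr h) (congrArg (Crd.inl k Q P).pr h)

theorem Fib_base_swap {β : Crd k P₀ P₁} {U : Sub k (P₁.sum P₁)}
    (hb : ∀ x ∈ U, β.pr ((Crd.inl k P₁ P₁).pr x) = β.pr ((Crd.inr k P₁ P₁).pr x)) :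
    ∀ x ∈ (Crd.swap k P₁ P₁).img U,
      β.pr ((Crd.inl k P₁ P₁).pr x) = β.pr ((Crd.inr k P₁ P₁).pr x) := by
  intro x hx
  obtain ⟨z, hz, rfl⟩ := (Crd.mem_img_iff _).1 hx
  exact (hb z hz).symm

theorem Sq.swap {β : Crd k P₀ P₁} {E E' : Sub k P₁} {B : Sub k (P₁.sum P₁)}
    (h : Sq β (Crd.inl k P₁ P₁) (Crd.inr k P₁ P₁) E E' B) :
    Sq β (Crd.inl k P₁ P₁) (Crd.inr k P₁ P₁) E' E ((Crd.swap k P₁ P₁).img B) := by
  exact ⟨(Fib_inl_swap B).trans h.img2, (Fib_inr_swap B).trans h.img1, Fib_base_swap h.base,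
    fun _ _ _ _ => sum_ext, (Fib_sdim_swap B).trans h.dim2, (Fib_sdim_swap B).trans h.dim1⟩

theorem sq_unique' (β : Crd k P₀ P₁) {E E' : Sub k P₁} (hF : Fib1 β E) (hG : GI β E)
    (he : β.img E = β.img E') {U U' : Sub k (P₁.sum P₁)}
    (h1 : (Crd.inl k P₁ P₁).img U ≤ E) (h2 : (Crd.inr k P₁ P₁).img U ≤ E')
    (hb : ∀ x ∈ U, β.pr ((Crd.inl k P₁ P₁).pr x) = β.pr ((Crd.inr k P₁ P₁).pr x))
    (hd : sdim U = sdim E' + 1)
    (h1' : (Crd.inl k P₁ P₁).img U' ≤ E) (h2' : (Crd.inr k P₁ P₁).img U' ≤ E')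
    (hb' : ∀ x ∈ U', β.pr ((Crd.inl k P₁ P₁).pr x) = β.pr ((Crd.inr k P₁ P₁).pr x))
    (hd' : sdim U' = sdim E' + 1) : U = U' := by
  have := sq_unique β hF hG he.symm (U := (Crd.swap k P₁ P₁).img U)
    (U' := (Crd.swap k P₁ P₁).img U') ((Fib_inl_swap U).trans_le h2)
    ((Fib_inr_swap U).trans_le h1) (Fib_base_swap hb) ((Fib_sdim_swap U).trans hd)
    ((Fib_inl_swap U').trans_le h2') ((Fib_inr_swap U').trans_le h1') (Fib_base_swap hb')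
    ((Fib_sdim_swap U').trans hd')
  rw [← Fib_swap_swap U, this, Fib_swap_swap]

end Pool.Agent.Work.MP_ffcd14_ag
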