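import Pool.Agent.Work.MP_ffcd14_ag.Cyc.Img

/-! # Rational images and closures of graphs -/

open MvPolynomial Topology TopologicalSpace

namespace Pool.Agent.Work.MP_ffcd14_ag

universe u

variable {k : Type u} [Field k] {L : Type u} [Field L] [Algebra k L] {P Q : Amb}

theorem GC_aeval_minor {A : Type*} [CommRing A] [Algebra k A] (w : (P.sum Q).V → A) {j : Q.ι}
    (F : Q.σ j → MvPolynomial P.V k) (s t : Q.σ j) :
    aeval w (minor F s t) = aeval (w ∘ (Crd.inl k P Q).ε) (F s) * w ⟨Sum.inr j, t⟩ -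
      aeval (w ∘ (Crd.inl k P Q).ε) (F t) * w ⟨Sum.inr j, s⟩ := by
  simp only [minor, map_sub, map_mul, aeval_rename, aeval_X]
  rfl

theorem GC_aeval_elim {A : Type*} [CommRing A] [Algebra k A] (v : P.V → A)
    (F : Q.V → MvPolynomial P.V k) (f : MvPolynomial (P.sum Q).V k) :
    aeval (Amb.elim v fun s => aeval v (F s)) f = aeval v (aeval (Amb.elim X F) f) := by
  rw [comp_aeval_apply]
  refine congrArg (fun u => aeval u f) (funext ?_)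
  rintro ⟨i | j, s⟩
  · exact (aeval_X v ⟨i, s⟩).symm
  · rfl

theorem GC_form_elim {F : Q.V → MvPolynomial P.V k} {b : Q.ι → P.ι →₀ ℕ}
    (hF : ∀ s, IsForm (F s) (b s.1)) {f : MvPolynomial (P.sum Q).V k} {a : (P.sum Q).ι →₀ ℕ}
    (hf : IsForm f a) : ∃ c, IsForm (aeval (Amb.elim X F) f) c := by
  refine ⟨_, IsForm.aeval (b := Sum.elim (fun i => Finsupp.single i 1) b) ?_ hf⟩
  rintro ⟨i | j, s⟩
  · exact IsForm.X ⟨i, s⟩
  · exact hF ⟨j, s⟩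

theorem GC_ne {Z : Set (P.Pt k)} {F : Q.V → MvPolynomial P.V k} {b : Q.ι → P.ι →₀ ℕ}
    (hF : ∀ s, IsForm (F s) (b s.1)) (hd : DefOn Z F) {v : P.V → L} (hv : IsGen Z v) (j : Q.ι) :
    ∃ s, aeval v (F ⟨j, s⟩) ≠ 0 :=
  (hd j).imp fun s hs h => hs ((hv.iff _ _ (hF ⟨j, s⟩)).1 h)

theorem GC_ne_elim {Z : Set (P.Pt k)} {F : Q.V → MvPolynomial P.V k} {b : Q.ι → P.ι →₀ ℕ}
    (hF : ∀ s, IsForm (F s) (b s.1)) (hd : DefOn Z F) {v : P.V → L} (hv : IsGen Z v)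
    (i : (P.sum Q).ι) : ∃ s, Amb.elim v (fun s => aeval v (F s)) ⟨i, s⟩ ≠ 0 := by
  rcases i with i | j
  · exact hv.ne i
  · exact GC_ne hF hd hv j

theorem OnGraph.mono {T U : Set ((P.sum Q).Pt k)} {F : Q.V → MvPolynomial P.V k}
    (h : OnGraph T F) (hU : U ⊆ T) : OnGraph U F :=
  fun j s t x hx => h j s t x (hU hx)

theorem OnGraph.isGen {T : Sub k (P.sum Q)} {F : Q.V → MvPolynomial P.V k}
    {b : Q.ι → P.ι →₀ ℕ} (hF : ∀ s, IsForm (F s) (b s.1))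
    (hd : DefOn ((Crd.inl k P Q).img T : Set (P.Pt k)) F)
    (h : OnGraph (T : Set ((P.sum Q).Pt k)) F) {v : P.V → L}
    (hv : IsGen ((Crd.inl k P Q).img T : Set (P.Pt k)) v) :
    IsGen (T : Set ((P.sum Q).Pt k)) (Amb.elim v fun s => aeval v (F s)) := by
  obtain ⟨L', _, _, w, hw⟩ := exists_gen' T
  have hw1 := (Crd.inl k P Q).isGen_img hw
  set w1 := w ∘ (Crd.inl k P Q).ε with hw1d
  choose s0 hs0 using GC_ne hF hd hw1
  have hm : ∀ j t, w ⟨Sum.inr j, t⟩ =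
      w ⟨Sum.inr j, s0 j⟩ / aeval w1 (F ⟨j, s0 j⟩) * aeval w1 (F ⟨j, t⟩) := fun j t => by
    obtain ⟨c, hc⟩ := minor_form (F := fun s => F ⟨j, s⟩) (a := b j) (fun s => hF ⟨j, s⟩) (s0 j) t
    have h1 := (hw.iff _ _ hc).2 (h j (s0 j) t)
    rw [GC_aeval_minor] at h1
    have h2 := hs0 j
    field_simp
    linear_combination h1
  set μ : (P.sum Q).ι → L' :=
    Sum.elim (fun _ => 1) fun j => w ⟨Sum.inr j, s0 j⟩ / aeval w1 (F ⟨j, s0 j⟩) with hμ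
  have hμ0 : ∀ i, μ i ≠ 0 := by
    rintro (i | j)
    · exact one_ne_zero
    · obtain ⟨t, ht⟩ := hw.ne (Sum.inr j)
      exact left_ne_zero_of_mul (hm j t ▸ ht)
  have he : w = fun s => μ s.1 * Amb.elim w1 (fun s => aeval w1 (F s)) s := by
    funext s
    rcases s with ⟨i | j, s⟩
    · exact (one_mul _).symm
    · exact hm j s
  refine ⟨GC_ne_elim hF hd hv, fun f a hf => ?_⟩
  obtain ⟨c, hc⟩ := GC_form_elim hF hf
  rw [GC_aeval_elim, hv.iff _ _ hc, ← hw1.iff _ _ hc, ← hw.iff _ _ hf, ← GC_aeval_elim]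
  conv_rhs => rw [he]
  rw [hf.aeval_scale]
  exact (mul_eq_zero_iff_left
    (Finset.prod_ne_zero_iff.2 fun i _ => pow_ne_zero _ (hμ0 i))).symm

theorem OnGraph.unique {T T' : Sub k (P.sum Q)} {F : Q.V → MvPolynomial P.V k}
    {b : Q.ι → P.ι →₀ ℕ} (hF : ∀ s, IsForm (F s) (b s.1))
    (hd : DefOn ((Crd.inl k P Q).img T : Set (P.Pt k)) F)
    (h : OnGraph (T : Set ((P.sum Q).Pt k)) F) (h' : OnGraph (T' : Set ((P.sum Q).Pt k)) F)
    (he : (Crd.inl k P Q).img T = (Crd.inl k P Q).img T') : T = T' := by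
  obtain ⟨L', _, _, v, hv⟩ := exists_gen' ((Crd.inl k P Q).img T)
  exact (h.isGen hF hd hv).unique (h'.isGen hF (he ▸ hd) (he ▸ hv))

theorem OnGraph.change {T : Sub k (P.sum Q)} {F F' : Q.V → MvPolynomial P.V k}
    {b b' : Q.ι → P.ι →₀ ℕ} (hF : ∀ s, IsForm (F s) (b s.1)) (hF' : ∀ s, IsForm (F' s) (b' s.1))
    (hd : DefOn ((Crd.inl k P Q).img T : Set (P.Pt k)) F)
    (h : OnGraph (T : Set ((P.sum Q).Pt k)) F)
    (he : ∀ j s t, Van ((Crd.inl k P Q).img T : Set (P.Pt k))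
      (F ⟨j, s⟩ * F' ⟨j, t⟩ - F ⟨j, t⟩ * F' ⟨j, s⟩)) :
    OnGraph (T : Set ((P.sum Q).Pt k)) F' := by
  obtain ⟨L', _, _, v, hv⟩ := exists_gen' ((Crd.inl k P Q).img T)
  intro j s t
  obtain ⟨c, hc⟩ := minor_form (F := fun s => F' ⟨j, s⟩) (a := b' j) (fun s => hF' ⟨j, s⟩) s t
  have h1 := (hv.iff _ _ (IsWeightedHomogeneous.sub ((hF ⟨j, s⟩).mul (hF' ⟨j, t⟩))
    ((hF ⟨j, t⟩).mul (hF' ⟨j, s⟩)))).2 (he j s t)
  rw [← (h.isGen hF hd hv).iff _ _ hc, GC_aeval_minor]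
  rw [map_sub, map_mul, map_mul] at h1
  change aeval v (F' ⟨j, s⟩) * aeval v (F ⟨j, t⟩) - aeval v (F' ⟨j, t⟩) * aeval v (F ⟨j, s⟩) = 0
  linear_combination -h1

/-- On the graph, at a point where `F` is defined, the second component is given by `F`. -/
theorem OnGraph.eq_mk {T : Set ((P.sum Q).Pt k)} {F : Q.V → MvPolynomial P.V k}
    (h : OnGraph T F) {z : (P.sum Q).Pt k} (hz : z ∈ T) (j : Q.ι)
    (hj : (fun s => ev ((Crd.inl k P Q).pr z) (F ⟨j, s⟩)) ≠ 0) :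
    (Crd.inr k P Q).pr z j = Projectivization.mk k _ hj := by
  obtain ⟨s₀, hs₀⟩ := Function.ne_iff.mp hj
  refine eq_mk_of_minors _ hs₀ (fun s => ?_) hj
  have := h j s₀ s z hz
  rwa [ev_minor, sub_eq_zero] at this

/-- A place of `L` centred at a given prime. -/
theorem GC_place {R : Type u} [CommRing R] [Algebra k R] (φ : R →ₐ[k] L) (p : Ideal R)
    [p.IsPrime] (hp : ∀ f, φ f = 0 → f ∈ p) :
    ∃ (O : ValuationSubring L) (_ : Algebra k O) (ι : O →ₐ[k] L) (κ : Type u) (_ : Field κ)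
      (_ : Algebra k κ) (π : O →ₐ[k] κ), (∀ x, ι x = x) ∧ (∀ f, φ f ∈ O) ∧
      ∀ (f : R) (x : O), (x : L) = φ f → (π x = 0 ↔ f ∈ p) := by
  let ψ : Localization.AtPrime p →+* L := IsLocalization.lift (M := p.primeCompl)
    (g := (φ : R →+* L)) fun y => isUnit_iff_ne_zero.2 fun h => y.2 (hp _ h)
  have hψ : ∀ f, ψ (algebraMap R _ f) = φ f := fun f => IsLocalization.lift_eq _ f
  obtain ⟨O, hO, hl⟩ := IsLocalRing.exists_factor_valuationRing ψ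
  have hm : ∀ f, φ f ∈ O := fun f => hψ f ▸ hO _
  let c : k →+* O := (algebraMap k L).codRestrict O.toSubring fun a => φ.commutes a ▸ hm _
  let _ : Algebra k O := c.toAlgebra
  refine ⟨O, inferInstance, { O.subtype with commutes' := fun _ => rfl },
    IsLocalRing.ResidueField O, inferInstance, inferInstance,
    { IsLocalRing.residue O with commutes' := fun _ => rfl }, fun _ => rfl, hm, fun f x hx => ?_⟩
  have h1 : x = ψ.codRestrict O.toSubring hO (algebraMap R _ f) := Subtype.ext (hx.trans (hψ f).symm)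
  change IsLocalRing.residue O x = 0 ↔ _
  rw [← not_iff_not, ← Ne, IsLocalRing.residue_ne_zero_iff_isUnit, h1]
  exact (isUnit_map_iff (ψ.codRestrict O.toSubring hO) _).trans
    (IsLocalization.AtPrime.isUnit_to_map_iff _ p f)

variable [IsAlgClosed k]

theorem OnGraph.sdim_eq {T : Sub k (P.sum Q)} {F : Q.V → MvPolynomial P.V k}
    {b : Q.ι → P.ι →₀ ℕ} (hF : ∀ s, IsForm (F s) (b s.1))
    (hd : DefOn ((Crd.inl k P Q).img T : Set (P.Pt k)) F)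
    (h : OnGraph (T : Set ((P.sum Q).Pt k)) F) : sdim T = sdim ((Crd.inl k P Q).img T) := by
  obtain ⟨L', _, _, v, hv⟩ := exists_gen' ((Crd.inl k P Q).img T)
  refine le_antisymm ?_ ((Crd.inl k P Q).sdim_img_le T)
  rw [← ENat.natCast_le_natCast, ← (h.isGen hF hd hv).rk_rat, ← hv.rk_rat]
  refine rk_le_of_mem ?_
  rintro _ ⟨i | j, s, t, rfl⟩
  · exact IntermediateField.subset_adjoin _ _ ⟨i, s, t, rfl⟩
  · exact ratio_mem v hv.ne (hF ⟨j, s⟩) (hF ⟨j, t⟩)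

/-- The closure of the image of a rational map. -/
theorem exists_rimg (Z : Sub k P) {F : Q.V → MvPolynomial P.V k} {b : Q.ι → P.ι →₀ ℕ}
    (hF : ∀ s, IsForm (F s) (b s.1)) (hd : DefOn (Z : Set (P.Pt k)) F) :
    ∃ Z' : Sub k Q, sdim Z' ≤ sdim Z ∧
      (∀ g a, IsForm g a → (Van (Z' : Set (Q.Pt k)) g ↔ Van (Z : Set (P.Pt k)) (aeval F g))) ∧
      ∀ x ∈ Z, ∀ y : Q.Pt k,
        (∀ j, ∃ h, y j = Projectivization.mk k (fun s => ev x (F ⟨j, s⟩)) h) → y ∈ Z' := by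
  obtain ⟨L', _, _, v, hv⟩ := exists_gen' Z
  obtain ⟨Z', hZ'⟩ := exists_loc (k := k) (fun s => aeval v (F s)) (GC_ne hF hd hv)
  have key : ∀ g a, IsForm g a →
      (Van (Z' : Set (Q.Pt k)) g ↔ Van (Z : Set (P.Pt k)) (aeval F g)) := fun g a hg => by
    rw [← hZ'.iff _ _ hg, ← hv.iff _ _ (hg.aeval hF), comp_aeval_apply]
  refine ⟨Z', ?_, key, fun x hx y hy => ?_⟩
  · rw [← ENat.natCast_le_natCast, ← hZ'.rk_rat, ← hv.rk_rat]
    refine rk_le_of_mem ?_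
    rintro _ ⟨j, s, t, rfl⟩
    exact ratio_mem v hv.ne (hF ⟨j, s⟩) (hF ⟨j, t⟩)
  · refine Set.singleton_subset_iff.1 (subset_of_van Z'.isClosed fun g a hg h => ?_)
    intro y' hy'
    rw [Set.mem_singleton_iff.1 hy']
    choose μ hμ hμ' using fun j => exists_rep_eq (hy j).choose_spec
    have h1 : rp y = fun s => μ s.1 * ev x (F s) := funext fun s => hμ' s.1 s.2
    have h2 : eval (fun s => ev x (F s)) g = ev x (aeval F g) :=
      (eval₂Hom_bind₁ (RingHom.id k) (rp x) _ g).symm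
    rw [ev_eq, h1, hg.eval_scale, h2, (key g a hg).1 h x hx, mul_zero]

/-- The closure of the graph of a rational map. -/
theorem exists_gc (Z : Sub k P) {F : Q.V → MvPolynomial P.V k} {b : Q.ι → P.ι →₀ ℕ}
    (hF : ∀ s, IsForm (F s) (b s.1)) (hd : DefOn (Z : Set (P.Pt k)) F) :
    ∃ Z' : Sub k (P.sum Q), (Crd.inl k P Q).img Z' = Z ∧
      OnGraph (Z' : Set ((P.sum Q).Pt k)) F := by
  obtain ⟨L', _, _, v, hv⟩ := exists_gen' Z
  obtain ⟨Z', hZ'⟩ := exists_loc (k := k) _ (GC_ne_elim hF hd hv)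
  refine ⟨Z', ((Crd.inl k P Q).isGen_img hZ').unique hv, fun j s t => ?_⟩
  obtain ⟨c, hc⟩ := minor_form (F := fun s => F ⟨j, s⟩) (a := b j) (fun s => hF ⟨j, s⟩) s t
  rw [← hZ'.iff _ _ hc, GC_aeval_minor]
  change aeval v (F ⟨j, s⟩) * aeval v (F ⟨j, t⟩) - aeval v (F ⟨j, t⟩) * aeval v (F ⟨j, s⟩) = 0
  ring

/-- Properness: every subvariety `T` of the image is the image of a subvariety. -/
theorem exists_over {Z' : Sub k (P.sum Q)} {T : Sub k P} (hT : T ≤ (Crd.inl k P Q).img Z') :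
    ∃ T' ≤ Z', (Crd.inl k P Q).img T' = T := by
  obtain ⟨L', _, _, w, hw⟩ := exists_gen' Z'
  obtain ⟨x, hx⟩ := T.isIrreducible.nonempty
  obtain ⟨ς, hς⟩ := exists_inCh x
  have hT1 : ∃ x ∈ T, InCh ς x := ⟨x, hx, hς⟩
  have hw1 := (Crd.inl k P Q).isGen_img hw
  have h0 : ∀ i, w ⟨Sum.inl i, ς i⟩ ≠ 0 := fun i h =>
    exists_inCh_iff.1 ⟨x, hT hx, hς⟩ i ((hw1.iff _ _ (IsForm.X ⟨i, ς i⟩)).1 (by
      rw [aeval_X]
      exact h))
  have hv := hw1.scale (fun i => (w ⟨Sum.inl i, ς i⟩)⁻¹) fun i => inv_ne_zero (h0 i)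
  have hk := hv.ker (ς := ς) fun i => inv_mul_cancel₀ (h0 i)
  have := chI_prime hT1
  obtain ⟨O, _, ι, κ, _, _, π, hι, hm, hπ⟩ := GC_place
    (aeval fun s : P.V => (w ⟨Sum.inl s.1, ς s.1⟩)⁻¹ * (w ∘ (Crd.inl k P Q).ε) s)
    (chI (T : Set (P.Pt k)) ς) fun f hf => chI_anti hT ς (hk ▸ RingHom.mem_ker.2 hf)
  have h1 : ∀ j, ∃ s₁, w ⟨Sum.inr j, s₁⟩ ≠ 0 ∧
      ∀ s, (w ⟨Sum.inr j, s₁⟩)⁻¹ * w ⟨Sum.inr j, s⟩ ∈ O := fun j => by
    obtain ⟨t, ht⟩ := hw.ne (Sum.inr j)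
    have : Nonempty (Q.σ j) := ⟨t⟩
    obtain ⟨s₁, hs₁⟩ := Finite.exists_max fun s : Q.σ j => O.valuation (w ⟨Sum.inr j, s⟩)
    have h2 : 0 < O.valuation (w ⟨Sum.inr j, s₁⟩) :=
      ((O.valuation.pos_iff).2 ht).trans_le (hs₁ t)
    refine ⟨s₁, O.valuation.pos_iff.1 h2, fun s => O.mem_of_valuation_le_one _ ?_⟩
    rw [map_mul, map_inv₀, inv_mul_le_iff₀ h2, mul_one]
    exact hs₁ s
  choose s₁ hs₁ hs₂ using h1
  let τ : ∀ i, (P.sum Q).σ i := fun i => Sum.rec (motive := fun i => (P.sum Q).σ i) ς s₁ i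
  have hτ : ∀ i, w ⟨i, τ i⟩ ≠ 0 := by
    rintro (i | j)
    exacts [h0 i, hs₁ j]
  have hw' := hw.scale (fun i => (w ⟨i, τ i⟩)⁻¹) fun i => inv_ne_zero (hτ i)
  have hO : ∀ s : (P.sum Q).V, (w ⟨s.1, τ s.1⟩)⁻¹ * w s ∈ O := by
    rintro ⟨i | j, s⟩
    · have := hm (X ⟨i, s⟩)
      rwa [aeval_X] at this
    · exact hs₂ j s
  let y : (P.sum Q).V → O := fun s => ⟨_, hO s⟩
  have hy : ∀ i, π (y ⟨i, τ i⟩) ≠ 0 := fun i => by
    rw [show y ⟨i, τ i⟩ = 1 from Subtype.ext (inv_mul_cancel₀ (hτ i)), map_one]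
    exact one_ne_zero
  obtain ⟨T', hT'⟩ := exists_loc (k := k) (fun s => π (y s)) fun i => ⟨τ i, hy i⟩
  refine ⟨T', hw'.le hT' fun f a _ h => ?_,
    ((Crd.inl k P Q).isGen_img hT').unique ⟨fun i => ⟨ς i, hy (Sum.inl i)⟩, fun f a hf => ?_⟩⟩
  · have h2 : aeval y f = 0 := Subtype.ext (by
      rw [← hι, comp_aeval_apply]
      simp only [hι]
      exact h)
    rw [← comp_aeval_apply, h2, map_zero]
  · rw [← mem_chI_form hT1 hf, ← hπ f (aeval (y ∘ (Crd.inl k P Q).ε) f) (by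
      rw [← hι, comp_aeval_apply]
      simp only [hι]
      rfl), comp_aeval_apply]
    rfl

end Pool.Agent.Work.MP_ffcd14_ag
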