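import Mathlib

/-! # Noether normalisation with control to first order at a point -/

open Polynomial MvPolynomial

namespace Pool.Agent.Work.MP_ffcd14_ag.LPnn

variable {k : Type*} [Field k] {n : ℕ}

/-- The substitution `X_i ↦ X_i + X_0 ^ (N ^ i)` for `i ≠ 0`. -/
noncomputable def sub (N : ℕ) :
    MvPolynomial (Fin (n + 1)) k →ₐ[k] (MvPolynomial (Fin n) k)[X] :=
  aeval fun i => Fin.cases Polynomial.X
    (fun j : Fin n => Polynomial.X ^ (N ^ (j.1 + 1)) + Polynomial.C (MvPolynomial.X j)) i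

lemma sub_zero' (N : ℕ) : sub (k := k) (n := n) N (MvPolynomial.X 0) = Polynomial.X := by
  simp [sub]

lemma sub_succ (N : ℕ) (j : Fin n) : sub (k := k) N (MvPolynomial.X j.succ) =
    Polynomial.X ^ (N ^ (j.1 + 1)) + Polynomial.C (MvPolynomial.X j) := by
  simp [sub]

lemma sub_X_monic (N : ℕ) (hN : 0 < N) (i : Fin (n + 1)) :
    (sub (k := k) N (MvPolynomial.X i)).Monic ∧
      (sub (k := k) N (MvPolynomial.X i)).natDegree = N ^ i.1 := by
  refine Fin.cases ?_ (fun j => ?_) i
  · rw [sub_zero']; exact ⟨monic_X, by simp⟩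
  · rw [sub_succ]
    exact ⟨monic_X_pow_add_C _ (pow_pos hN _).ne', by rw [natDegree_X_pow_add_C]; rfl⟩

lemma sub_monomial (N : ℕ) (hN : 0 < N) (v : Fin (n + 1) →₀ ℕ) :
    (sub (k := k) N (monomial v 1)).Monic ∧
      (sub (k := k) N (monomial v 1)).natDegree = ∑ i : Fin (n + 1), N ^ i.1 * v i := by
  have h1 : (monomial v (1 : k) : MvPolynomial (Fin (n + 1)) k) =
      ∏ i, MvPolynomial.X i ^ v i := by
    rw [monomial_eq, MvPolynomial.C_1, one_mul, Finsupp.prod_fintype _ _ (fun i => pow_zero _)]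
  rw [h1, map_prod]
  have hm : ∀ i ∈ (Finset.univ : Finset (Fin (n + 1))),
      (sub (k := k) N (MvPolynomial.X i ^ v i)).Monic := fun i _ => by
    rw [map_pow]; exact (sub_X_monic N hN i).1.pow _
  refine ⟨monic_prod_of_monic _ _ hm, ?_⟩
  rw [natDegree_prod_of_monic _ _ hm]
  refine Finset.sum_congr rfl fun i _ => ?_
  rw [map_pow, (sub_X_monic N hN i).1.natDegree_pow, (sub_X_monic N hN i).2, mul_comm]

lemma weight_inj (N : ℕ) (hN : 1 < N) (v w : Fin (n + 1) →₀ ℕ) (hv : ∀ i, v i < N)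
    (hw : ∀ i, w i < N)
    (h : ∑ i : Fin (n + 1), N ^ i.1 * v i = ∑ i : Fin (n + 1), N ^ i.1 * w i) : v = w := by
  refine Finsupp.ext <| congrFun <| List.ofFn_inj.mp ?_
  apply Nat.ofDigits_inj_of_len_eq hN (by simp)
  · intro l hl
    obtain ⟨i, rfl⟩ := (List.mem_ofFn' _ _).mp hl
    exact hv i
  · intro l hl
    obtain ⟨i, rfl⟩ := (List.mem_ofFn' _ _).mp hl
    exact hw i
  simpa only [Nat.ofDigits_eq_sum_mapIdx, List.mapIdx_eq_ofFn, List.get_ofFn, List.length_ofFn,
    Fin.val_cast, mul_comm, List.sum_ofFn] using! h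

/-- After the substitution a nonzero polynomial becomes a scalar multiple of a monic one. -/
lemma exists_monic (f : MvPolynomial (Fin (n + 1)) k) (hf : f ≠ 0) :
    ∃ c : k, (c • sub (2 + f.totalDegree) f).Monic := by
  set N := 2 + f.totalDegree with hNdef
  have hN : 1 < N := by omega
  have hN0 : 0 < N := by omega
  obtain ⟨v, hv, hmax⟩ := Finset.exists_max_image f.support
    (fun v => ∑ i : Fin (n + 1), N ^ i.1 * v i) (support_nonempty.mpr hf)
  have hlt : ∀ w ∈ f.support, ∀ i, w i < N := fun w hw i =>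
    lt_of_le_of_lt ((monomial_le_degreeOf i hw).trans (degreeOf_le_totalDegree f i)) (by omega)
  have hc : coeff v f ≠ 0 := MvPolynomial.mem_support_iff.mp hv
  refine ⟨(coeff v f)⁻¹, ?_⟩
  have hsum : (coeff v f)⁻¹ • sub N f = sub N (monomial v 1) +
      ∑ w ∈ f.support.erase v, ((coeff v f)⁻¹ * coeff w f) • sub (k := k) N (monomial w 1) := by
    have hm : ∀ w : Fin (n + 1) →₀ ℕ, (monomial w (coeff w f) : MvPolynomial (Fin (n + 1)) k) =
        coeff w f • monomial w 1 := fun w => by rw [MvPolynomial.smul_monomial, smul_eq_mul, mul_one]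
    have hf' : sub N f = sub N (monomial v (coeff v f) +
        ∑ w ∈ f.support.erase v, monomial w (coeff w f)) := by
      rw [Finset.add_sum_erase _ (fun w => monomial w (coeff w f)) hv,
        f.support_sum_monomial_coeff]
    rw [hf']
    simp only [hm, map_add, map_sum, map_smul, smul_add, Finset.smul_sum, smul_smul,
      inv_mul_cancel₀ hc, one_smul]
  rw [hsum]
  refine (sub_monomial N hN0 v).1.add_of_left ?_
  refine lt_of_le_of_lt (degree_sum_le _ _) ?_
  have hne : sub (k := k) N (monomial v 1) ≠ 0 := (sub_monomial N hN0 v).1.ne_zero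
  refine (Finset.sup_lt_iff (Ne.bot_lt fun h => hne (degree_eq_bot.mp h))).mpr fun w hw => ?_
  obtain ⟨hwv, hw⟩ := Finset.mem_erase.mp hw
  refine lt_of_le_of_lt (degree_smul_le _ _) (degree_lt_degree ?_)
  rw [(sub_monomial N hN0 v).2, (sub_monomial N hN0 w).2]
  exact lt_of_le_of_ne (hmax w hw) fun h => hwv (weight_inj N hN w v (hlt w hw) (hlt v hv) h)

variable {B : Type*} [CommRing B] [Algebra k B]

/-- `B` is integral over the subalgebra generated by `S`. -/
def IntOver (k : Type*) [Field k] {B : Type*} [CommRing B] [Algebra k B] (S : Set B) : Prop :=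
  ∀ b : B, IsIntegral (Algebra.adjoin k S) b

lemma IntOver.trans {S S' : Set B} (h : IntOver k S)
    (hS : ∀ s ∈ S, IsIntegral (Algebra.adjoin k S') s) : IntOver k S' := by
  intro b
  have hle : Algebra.adjoin k S ≤
      (integralClosure (Algebra.adjoin k S') B).restrictScalars k := Algebra.adjoin_le hS
  obtain ⟨P, hP, hb⟩ := h b
  have hb' : IsIntegral (integralClosure (Algebra.adjoin k S') B) b := by
    refine ⟨P.map (Subalgebra.inclusion hle).toRingHom, hP.map _, ?_⟩
    exact (Polynomial.eval₂_map _ _ _).trans hb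
  exact isIntegral_trans b hb'

/-- One step of the normalisation. -/
lemma step (t : Fin (n + 1) → B) (ht : ¬ AlgebraicIndependent k t) :
    ∃ e : Fin n → ℕ, (∀ i, 2 ≤ e i) ∧
      IsIntegral (Algebra.adjoin k (Set.range fun i => t i.succ - t 0 ^ e i)) (t 0) := by
  rw [algebraicIndependent_iff] at ht
  push Not at ht
  obtain ⟨f, hf0, hf⟩ := ht
  obtain ⟨c, hc⟩ := exists_monic f hf
  set N := 2 + f.totalDegree with hNdef
  refine ⟨fun i => N ^ (i.1 + 1), fun i => ?_, ?_⟩
  · exact le_trans (by omega : 2 ≤ N) (Nat.le_self_pow (by omega) N)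
  set D := Algebra.adjoin k (Set.range fun i : Fin n => t i.succ - t 0 ^ N ^ (i.1 + 1))
  let ψ : MvPolynomial (Fin n) k →ₐ[k] D :=
    aeval fun i => ⟨t i.succ - t 0 ^ N ^ (i.1 + 1), Algebra.subset_adjoin ⟨i, rfl⟩⟩
  let Ψ : (MvPolynomial (Fin n) k)[X] →ₐ[k] B :=
    Polynomial.eval₂AlgHom (D.val.comp ψ) (t 0) (fun _ => Commute.all _ _)
  have hcomp : Ψ.comp (sub N) = MvPolynomial.aeval t := by
    refine MvPolynomial.algHom_ext fun i => ?_
    refine Fin.cases ?_ (fun j => ?_) i
    · simp [Ψ, sub_zero']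
    · simp [Ψ, ψ, sub_succ]
  refine ⟨(c • sub N f).map ψ.toRingHom, hc.map _, ?_⟩
  rw [Polynomial.eval₂_map]
  have h1 : Ψ (c • sub N f) = 0 := by
    rw [map_smul, ← AlgHom.comp_apply, hcomp, hf0, smul_zero]
  exact h1

variable {R : Type*} [CommRing R] [Algebra k R]

/-- Elimination of finitely many extra generators, changing the others only to second order. -/
lemma elim (π : R →ₐ[k] B) (m : Ideal R)
    (hdep : ∀ t : Fin (n + 1) → B, ¬ AlgebraicIndependent k t) (L : List R) :
    (∀ w ∈ L, w ∈ m) → ∀ u : Fin n → R,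
      IntOver k (Set.range (fun i => π (u i)) ∪ π '' {w | w ∈ L}) →
      ∃ v : Fin n → R, (∀ i, v i - u i ∈ m ^ 2) ∧ IntOver k (Set.range fun i => π (v i)) := by
  induction L with
  | nil =>
    intro _ u h
    exact ⟨u, fun i => by simp, by simpa using h⟩
  | cons w L ih =>
    intro hL u h
    obtain ⟨e, he, hint⟩ := step (Fin.cons (π w) fun i => π (u i) : Fin (n + 1) → B) (hdep _)
    replace hint : IsIntegral (Algebra.adjoin k (Set.range fun i => π (u i) - π w ^ e i))
      (π w) := hint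
    have hw : IsIntegral (Algebra.adjoin k
        (Set.range (fun i => π (u i - w ^ e i)) ∪ π '' {w | w ∈ L})) (π w) := by
      have hle : Algebra.adjoin k (Set.range fun i => π (u i) - π w ^ e i) ≤ Algebra.adjoin k
          (Set.range (fun i => π (u i - w ^ e i)) ∪ π '' {w | w ∈ L}) := by
        refine Algebra.adjoin_mono ?_
        rintro _ ⟨i, rfl⟩
        exact Or.inl ⟨i, by simp⟩
      obtain ⟨P, hP, hb⟩ := hint
      refine ⟨P.map (Subalgebra.inclusion hle).toRingHom, hP.map _, ?_⟩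
      exact (Polynomial.eval₂_map _ _ _).trans hb
    have hin : ∀ s ∈ Set.range (fun i => π (u i - w ^ e i)) ∪ π '' {w | w ∈ L},
        IsIntegral (Algebra.adjoin k
          (Set.range (fun i => π (u i - w ^ e i)) ∪ π '' {w | w ∈ L})) s := fun s hs =>
      isIntegral_algebraMap (x := (⟨s, Algebra.subset_adjoin hs⟩ : Algebra.adjoin k _))
    have hrest : ∀ s ∈ Set.range (fun i => π (u i)) ∪ π '' {x | x ∈ w :: L},
        IsIntegral (Algebra.adjoin k
          (Set.range (fun i => π (u i - w ^ e i)) ∪ π '' {w | w ∈ L})) s := by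
      rintro s (⟨i, rfl⟩ | ⟨x, hx, rfl⟩)
      · have h3 : π (u i) = π (u i - w ^ e i) + π w ^ e i := by simp
        simp only []
        rw [h3]
        exact (hin _ (Or.inl ⟨i, rfl⟩)).add (hw.pow _)
      · rcases List.mem_cons.mp hx with rfl | hx
        · exact hw
        · exact hin _ (Or.inr ⟨x, hx, rfl⟩)
    obtain ⟨v, hv, hv'⟩ := ih (fun x hx => hL x (List.mem_cons_of_mem _ hx))
      (fun i => u i - w ^ e i) (h.trans hrest)
    · refine ⟨v, fun i => ?_, hv'⟩
      have h2 : w ^ e i ∈ m ^ 2 :=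
        Ideal.pow_le_pow_right (he i) (Ideal.pow_mem_pow (hL w List.mem_cons_self) _)
      have h3 : v i - u i = (v i - (u i - w ^ e i)) - w ^ e i := by ring
      rw [h3]
      exact sub_mem (hv i) h2

lemma IntOver.aeval_isIntegral {ι : Type*} {t : ι → B} (h : IntOver k (Set.range t)) :
    (aeval t : MvPolynomial ι k →ₐ[k] B).toRingHom.IsIntegral := by
  let ψ : MvPolynomial ι k →ₐ[k] Algebra.adjoin k (Set.range t) :=
    aeval fun i => ⟨t i, Algebra.subset_adjoin ⟨i, rfl⟩⟩
  have hcomp : (Algebra.adjoin k (Set.range t)).val.comp ψ = MvPolynomial.aeval t := by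
    refine MvPolynomial.algHom_ext fun i => ?_
    simp [ψ]
  have hsurj : Function.Surjective ψ := by
    rintro ⟨b, hb⟩
    rw [Algebra.adjoin_range_eq_range_aeval] at hb
    obtain ⟨P, rfl⟩ := hb
    exact ⟨P, Subtype.ext (DFunLike.congr_fun hcomp P)⟩
  rw [← hcomp]
  exact RingHom.IsIntegral.trans ψ.toRingHom (Algebra.adjoin k (Set.range t)).val.toRingHom
    (RingHom.isIntegral_of_surjective _ hsurj) h

end Pool.Agent.Work.MP_ffcd14_ag.LPnn
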