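import Pool.Agent.Work.MP_ffcd14_ag.Cyc.KR
import Pool.Agent.Work.MP_ffcd14_ag.Cyc.LPnn

/-! # Smooth rational points: embedding dimension and local principality of prime divisors -/

open MvPolynomial

namespace Pool.Agent.Work.MP_ffcd14_ag

universe u

variable {k : Type u} [Field k] {σ : Type} [Finite σ]

omit [Finite σ] in
lemma LP_sub_C_mem (x : σ → k) (g : MvPolynomial σ k) :
    g - C (eval x g) ∈ RingHom.ker (eval x) := by
  simp [RingHom.mem_ker]

/-- The linear form with given coefficients, centred at `x`. -/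
noncomputable def LP_lin [Fintype σ] (x : σ → k) : (σ → k) →ₗ[k] MvPolynomial σ k where
  toFun c := ∑ s, c s • (X s - C (x s))
  map_add' c d := by simp [add_smul, Finset.sum_add_distrib]
  map_smul' a c := by simp [Finset.smul_sum, smul_smul]

omit [Finite σ] in
lemma LP_lin_mem [Fintype σ] (x : σ → k) (c : σ → k) : LP_lin x c ∈ RingHom.ker (eval x) := by
  simp [RingHom.mem_ker, LP_lin, smul_eq_C_mul]

omit [Finite σ] in
lemma LP_taylor [Fintype σ] (x : σ → k) (g : MvPolynomial σ k) :
    g - C (eval x g) - LP_lin x (fun s => eval x (pderiv s g)) ∈ RingHom.ker (eval x) ^ 2 := by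
  classical
  induction g using MvPolynomial.induction_on with
  | C a =>
    have h : (fun s : σ => eval x (pderiv s (C a : MvPolynomial σ k))) = 0 := by
      funext s; simp
    rw [h, map_zero]; simp
  | add p q hp hq =>
    have h : (fun s : σ => eval x (pderiv s (p + q))) =
        (fun s => eval x (pderiv s p)) + fun s => eval x (pderiv s q) := by
      funext s; simp
    rw [h, map_add, map_add, map_add]
    convert add_mem hp hq using 1
    ring
  | mul_X p t hp =>
    have h : (fun s : σ => eval x (pderiv s (p * X t))) =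
        x t • (fun s => eval x (pderiv s p)) + eval x p • Pi.single t 1 := by
      funext s
      by_cases hs : s = t
      · subst hs; simp [mul_comm, add_comm]
      · simp [pderiv_X, hs, Ne.symm hs, mul_comm]
    have h2 : LP_lin x (Pi.single t 1) = X t - C (x t) := by
      simp [LP_lin, Pi.single_apply]
    rw [h, map_add, map_smul, map_smul, h2]
    have h3 : p * X t - C (eval x (p * X t)) -
        (x t • LP_lin x (fun s => eval x (pderiv s p)) + eval x p • (X t - C (x t))) =
        C (x t) * (p - C (eval x p) - LP_lin x (fun s => eval x (pderiv s p))) +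
          (p - C (eval x p)) * (X t - C (x t)) := by
      simp only [smul_eq_C_mul, map_mul, eval_X]
      ring
    rw [h3]
    refine add_mem (Ideal.mul_mem_left _ _ hp) ?_
    rw [pow_two]
    exact Ideal.mul_mem_mul (LP_sub_C_mem x p) (by simp [RingHom.mem_ker])

/-- Elements of `I` with independent differentials cut down the cotangent space. -/
theorem exists_cotangent_gen (I : Ideal (MvPolynomial σ k)) (x : σ → k)
    (hx : ∀ f ∈ I, eval x f = 0) {κ : Type} [Finite κ] (f : κ → MvPolynomial σ k)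
    (hf : ∀ j, f j ∈ I) (hli : LinearIndependent k fun j s => eval x (pderiv s (f j)))
    {n : ℕ} (hn : Nat.card σ ≤ Nat.card κ + n) :
    ∃ y : Fin n → MvPolynomial σ k, (∀ i, eval x (y i) = 0) ∧
      RingHom.ker (eval x) ≤ I ⊔ Ideal.span (Set.range y) ⊔ RingHom.ker (eval x) ^ 2 := by
  classical
  let := Fintype.ofFinite σ
  let := Fintype.ofFinite κ
  set W := Submodule.span k (Set.range fun j s => eval x (pderiv s (f j))) with hW
  obtain ⟨W', hW'⟩ := W.exists_isCompl
  have h1 : Module.finrank k W = Nat.card κ := by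
    rw [hW, finrank_span_eq_card hli, Nat.card_eq_fintype_card]
  have h2 : Module.finrank k W + Module.finrank k W' = Nat.card σ := by
    rw [Submodule.finrank_add_eq_of_isCompl hW', Module.finrank_fintype_fun_eq_card,
      Nat.card_eq_fintype_card]
  have h3 : Module.finrank k W' ≤ n := by omega
  let b := Module.finBasis k W'
  let w : Fin n → σ → k := fun i =>
    if h : i.1 < Module.finrank k W' then (b ⟨i.1, h⟩ : σ → k) else 0
  refine ⟨fun i => LP_lin x (w i), fun i => LP_lin_mem x _, ?_⟩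
  set J := I ⊔ Ideal.span (Set.range fun i => LP_lin x (w i)) ⊔ RingHom.ker (eval x) ^ 2
  have hall : ∀ c : σ → k, LP_lin x c ∈ J := by
    have hT : (⊤ : Submodule k (σ → k)) ≤ (J.restrictScalars k).comap (LP_lin x) := by
      rw [← hW'.sup_eq_top]
      refine sup_le ?_ ?_
      · rw [hW, Submodule.span_le]
        rintro _ ⟨j, rfl⟩
        have ht := LP_taylor x (f j)
        rw [hx _ (hf j), map_zero, sub_zero] at ht
        have h4 : LP_lin x (fun s => eval x (pderiv s (f j))) =
            f j - (f j - LP_lin x (fun s => eval x (pderiv s (f j)))) := by ring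
        change LP_lin x (fun s => eval x (pderiv s (f j))) ∈ J
        rw [h4]
        exact sub_mem (Ideal.mem_sup_left (Ideal.mem_sup_left (hf j))) (Ideal.mem_sup_right ht)
      · intro c hc
        have h5 : (⟨c, hc⟩ : W') = ∑ i, b.repr ⟨c, hc⟩ i • b i := (b.sum_repr _).symm
        have h6 : c = ∑ i, b.repr ⟨c, hc⟩ i • (b i : σ → k) := by
          have := congrArg W'.subtype h5
          rw [map_sum] at this
          exact this
        rw [h6]
        refine Submodule.sum_mem _ fun i _ => Submodule.smul_mem _ _ ?_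
        change LP_lin x (b i) ∈ J
        refine Ideal.mem_sup_left (Ideal.mem_sup_right (Ideal.subset_span
          ⟨⟨i.1, lt_of_lt_of_le i.2 h3⟩, ?_⟩))
        simp [w]
    exact fun c => hT Submodule.mem_top
  intro g hg
  have ht := LP_taylor x g
  rw [RingHom.mem_ker.mp hg, map_zero, sub_zero] at ht
  have h4 : g = (g - LP_lin x (fun s => eval x (pderiv s g))) +
      LP_lin x (fun s => eval x (pderiv s g)) := by ring
  rw [h4]
  exact add_mem (Ideal.mem_sup_right ht) (hall _)

/-- The dimension is at most the embedding dimension. -/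
theorem trdeg_le_emb (I : Ideal (MvPolynomial σ k)) [I.IsPrime] (x : σ → k)
    (hx : ∀ f ∈ I, eval x f = 0) {κ : Type} [Finite κ] (f : κ → MvPolynomial σ k)
    (hf : ∀ j, f j ∈ I) (hli : LinearIndependent k fun j s => eval x (pderiv s (f j))) :
    Algebra.trdeg k (MvPolynomial σ k ⧸ I) + (Nat.card κ : Cardinal) ≤ (Nat.card σ : Cardinal) := by
  classical
  let := Fintype.ofFinite σ
  let := Fintype.ofFinite κ
  have hκ : Nat.card κ ≤ Nat.card σ := by
    have := hli.fintype_card_le_finrank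
    rwa [Module.finrank_fintype_fun_eq_card, ← Nat.card_eq_fintype_card,
      ← Nat.card_eq_fintype_card] at this
  obtain ⟨n, hn⟩ := Nat.exists_eq_add_of_le hκ
  obtain ⟨y, hy, hm⟩ := exists_cotangent_gen I x hx f hf hli hn.le
  set m := RingHom.ker (eval x : MvPolynomial σ k →+* k) with hmdef
  have : m.IsPrime := RingHom.ker_isPrime _
  obtain ⟨r, hr, hIr, hrm, hyr, htr⟩ := kr_many I m (fun g hg => hx g hg) y hy
  have hle : m ≤ r ⊔ m • m := by
    refine hm.trans (sup_le (sup_le (hIr.trans le_sup_left) ?_) ?_)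
    · refine le_trans ?_ le_sup_left
      rw [Ideal.span_le]
      rintro _ ⟨i, rfl⟩
      exact hyr i
    · rw [pow_two]; exact le_sup_right
  obtain ⟨a, ha, ham⟩ := Submodule.exists_sub_one_mem_and_smul_le_of_fg_of_le_sup
    (IsNoetherian.noetherian m) le_rfl hle
  have har : a ∉ r := fun h => by
    have h1 : (1 : MvPolynomial σ k) ∈ m := by
      have := sub_mem (hrm h) ha
      simpa using this
    exact (Ideal.ne_top_iff_one m).mp Ideal.IsPrime.ne_top' h1
  have hmr : m ≤ r := fun g hg =>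
    (hr.mem_or_mem (ham (Submodule.smul_mem_pointwise_smul g a m hg))).resolve_left har
  have : Algebra.IsAlgebraic k (MvPolynomial σ k ⧸ r) := ⟨fun z => by
    obtain ⟨g, rfl⟩ := Ideal.Quotient.mk_surjective z
    have h1 : Ideal.Quotient.mk r g = algebraMap k _ (eval x g) :=
      Ideal.Quotient.eq.mpr (hmr (LP_sub_C_mem x g))
    rw [h1]
    exact isAlgebraic_algebraMap _⟩
  rw [trdeg_eq_zero (A := MvPolynomial σ k ⧸ r), zero_add, Nat.card_eq_fintype_card,
    Fintype.card_fin] at htr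
  rw [hn, Nat.cast_add, add_comm (Nat.card κ : Cardinal)]
  exact add_le_add_left htr _

lemma LP_trdeg_le (I : Ideal (MvPolynomial σ k)) [I.IsPrime] (x : σ → k)
    (hx : ∀ f ∈ I, eval x f = 0) :
    Algebra.trdeg k (MvPolynomial σ k ⧸ I) ≤ (Nat.card σ : Cardinal) := by
  have := trdeg_le_emb I x hx (κ := Empty) (fun j => j.elim) (fun j => j.elim)
    linearIndependent_empty_type
  simpa using this

/-- A prime of a polynomial ring in `d + 1` variables with quotient of dimension at least `d`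
is principal. -/
lemma LP_principal {d : ℕ} (q : Ideal (MvPolynomial (Fin (d + 1)) k)) [hq : q.IsPrime]
    (hd : (d : Cardinal) ≤ Algebra.trdeg k (MvPolynomial (Fin (d + 1)) k ⧸ q)) :
    ∃ φ, q = Ideal.span {φ} := by
  by_cases h0 : q = ⊥
  · exact ⟨0, by simp [h0]⟩
  obtain ⟨φ, hφq, hφ⟩ := hq.exists_mem_prime_of_ne_bot h0
  refine ⟨φ, ?_⟩
  by_contra hne
  have : (Ideal.span {φ}).IsPrime := (Ideal.span_singleton_prime hφ.ne_zero).mpr hφ
  have hlt : Ideal.span {φ} < q :=
    lt_of_le_of_ne ((Ideal.span_singleton_le_iff_mem _).mpr hφq) (Ne.symm hne)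
  have hlt0 : (⊥ : Ideal (MvPolynomial (Fin (d + 1)) k)) < Ideal.span {φ} :=
    bot_lt_iff_ne_bot.mpr (by simpa using hφ.ne_zero)
  have : (⊥ : Ideal (MvPolynomial (Fin (d + 1)) k)).IsPrime := Ideal.isPrime_bot
  have h1 := trdeg_drop _ _ hlt
  have h2 := trdeg_drop _ _ hlt0
  have h3 := LP_trdeg_le (⊥ : Ideal (MvPolynomial (Fin (d + 1)) k)) 0
    (fun f hf => by rw [Ideal.mem_bot.mp hf, map_zero])
  rw [Nat.card_eq_fintype_card, Fintype.card_fin] at h3
  have h4 : ((d + 1 + 1 : ℕ) : Cardinal.{u}) ≤ ((d + 1 : ℕ) : Cardinal.{u}) := by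
    refine le_trans ?_ (h2.trans h3)
    push_cast
    exact add_le_add_left ((add_le_add_left hd 1).trans h1) 1
  have := Nat.cast_le.mp h4
  omega

/-- Separation of the point from the other points of a finite fibre. -/
lemma LP_sep (p : Ideal (MvPolynomial σ k)) (x : σ → k) {d : ℕ} (v : Fin d → MvPolynomial σ k)
    (hint : LPnn.IntOver k (Set.range fun i => Ideal.Quotient.mkₐ k p (v i))) :
    ∃ (a : MvPolynomial σ k) (N : ℕ), a - 1 ∈ RingHom.ker (eval x) ∧
      ∀ g ∈ RingHom.ker (eval x) ^ N, a * g ∈ p ⊔ Ideal.span (Set.range v) := by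
  set m := RingHom.ker (eval x : MvPolynomial σ k →+* k) with hmdef
  set J := p ⊔ Ideal.span (Set.range v) with hJ
  let ρ : (MvPolynomial σ k ⧸ p) →ₐ[k] (MvPolynomial σ k ⧸ J) :=
    Ideal.Quotient.factorₐ k le_sup_left
  have hρ : ρ.toRingHom.comp (aeval fun i => Ideal.Quotient.mkₐ k p (v i) :
      MvPolynomial (Fin d) k →ₐ[k] _).toRingHom =
      (algebraMap k (MvPolynomial σ k ⧸ J)).comp constantCoeff := by
    refine MvPolynomial.ringHom_ext (fun c => ?_) (fun i => ?_)
    · simp
    · have h1 : Ideal.Quotient.mk J (v i) = 0 :=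
        Ideal.Quotient.eq_zero_iff_mem.mpr (Ideal.mem_sup_right (Ideal.subset_span ⟨i, rfl⟩))
      simpa [ρ] using h1
  have : Algebra.IsIntegral k (MvPolynomial σ k ⧸ J) := ⟨fun z => by
    obtain ⟨g, rfl⟩ := Ideal.Quotient.mk_surjective z
    obtain ⟨P, hP, hb⟩ := hint.aeval_isIntegral (Ideal.Quotient.mk p g)
    refine ⟨P.map constantCoeff, hP.map _, ?_⟩
    rw [Polynomial.eval₂_map, ← hρ]
    have h2 := Polynomial.hom_eval₂ P (aeval fun i => Ideal.Quotient.mkₐ k p (v i) :
      MvPolynomial (Fin d) k →ₐ[k] _).toRingHom ρ.toRingHom (Ideal.Quotient.mk p g)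
    rw [hb, map_zero] at h2
    exact h2.symm⟩
  have : Module.Finite k (MvPolynomial σ k ⧸ J) := Algebra.IsIntegral.finite
  have : IsArtinianRing (MvPolynomial σ k ⧸ J) := IsArtinianRing.of_finite k _
  let m' := m.map (Ideal.Quotient.mk J)
  obtain ⟨N, hN⟩ := IsArtinian.monotone_stabilizes (R := MvPolynomial σ k ⧸ J)
    (M := MvPolynomial σ k ⧸ J) ⟨fun n => OrderDual.toDual (m' ^ n),
      fun a b hab => Ideal.pow_le_pow_right hab⟩
  have hN' : m' ^ N = m' ^ (N + 1) := hN (N + 1) (Nat.le_succ N)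
  have hle : m ^ N ≤ J ⊔ m • m ^ N := by
    have h1 : (m ^ N).map (Ideal.Quotient.mk J) = (m ^ (N + 1)).map (Ideal.Quotient.mk J) := by
      rw [Ideal.map_pow, Ideal.map_pow]; exact hN'
    have h2 := congrArg (Ideal.comap (Ideal.Quotient.mk J)) h1
    rw [Ideal.comap_map_of_surjective _ Ideal.Quotient.mk_surjective,
      Ideal.comap_map_of_surjective _ Ideal.Quotient.mk_surjective, ← RingHom.ker_eq_comap_bot,
      Ideal.mk_ker] at h2
    refine le_sup_left.trans (h2.le.trans ?_)
    rw [sup_comm, pow_succ', smul_eq_mul]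
  obtain ⟨a, ha, ham⟩ := Submodule.exists_sub_one_mem_and_smul_le_of_fg_of_le_sup
    (IsNoetherian.noetherian (m ^ N)) le_rfl hle
  exact ⟨a, N, ha, fun g hg => ham (Submodule.smul_mem_pointwise_smul g a _ hg)⟩

/-- Good coordinates: they generate the cotangent space, cut out the point on `p`, and
`R ⧸ p` is integral over all but the first of them. -/
lemma LP_coords (I p : Ideal (MvPolynomial σ k)) (hIp : I ≤ p) (x : σ → k) {d : ℕ}
    (hdep : ∀ t : Fin (d + 1) → MvPolynomial σ k ⧸ p, ¬ AlgebraicIndependent k t)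
    (y : Fin (d + 1) → MvPolynomial σ k) (hy : ∀ i, eval x (y i) = 0)
    (hm : RingHom.ker (eval x) ≤ I ⊔ Ideal.span (Set.range y) ⊔ RingHom.ker (eval x) ^ 2) :
    ∃ z : Fin (d + 1) → MvPolynomial σ k, (∀ i, eval x (z i) = 0) ∧
      RingHom.ker (eval x) ≤ I ⊔ Ideal.span (Set.range z) ⊔ RingHom.ker (eval x) ^ 2 ∧
      RingHom.ker (eval x) ≤ p ⊔ Ideal.span (Set.range z) ∧
      LPnn.IntOver k (Set.range fun i : Fin d => Ideal.Quotient.mkₐ k p (z i.succ)) := by
  classical
  let := Fintype.ofFinite σ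
  set m := RingHom.ker (eval x : MvPolynomial σ k →+* k) with hmdef
  let L : List (MvPolynomial σ k) := (Finset.univ : Finset σ).toList.map fun s => X s - C (x s)
  have hL : ∀ w ∈ L, w ∈ m := by
    intro w hw
    obtain ⟨s, -, rfl⟩ := List.mem_map.mp hw
    simp [hmdef, RingHom.mem_ker]
  have hstart : LPnn.IntOver k (Set.range (fun i : Fin d => Ideal.Quotient.mkₐ k p (y i.succ)) ∪
      Ideal.Quotient.mkₐ k p '' {w | w ∈ L}) := by
    intro b
    obtain ⟨g, rfl⟩ := Ideal.Quotient.mkₐ_surjective k p b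
    have hg : Ideal.Quotient.mkₐ k p g ∈ Algebra.adjoin k
        (Set.range (fun i : Fin d => Ideal.Quotient.mkₐ k p (y i.succ)) ∪
          Ideal.Quotient.mkₐ k p '' {w | w ∈ L}) := by
      induction g using MvPolynomial.induction_on with
      | C a => exact Subalgebra.algebraMap_mem _ a
      | add g h hg hh => rw [map_add]; exact add_mem hg hh
      | mul_X g s hg =>
        rw [map_mul]
        refine mul_mem hg ?_
        have h1 : (X s : MvPolynomial σ k) = (X s - C (x s)) + C (x s) := by ring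
        rw [h1, map_add]
        refine add_mem (Algebra.subset_adjoin (Or.inr ⟨_, ?_, rfl⟩))
          (Subalgebra.algebraMap_mem _ (x s))
        exact List.mem_map.mpr ⟨s, by simp, rfl⟩
    exact isIntegral_algebraMap (x := (⟨_, hg⟩ : Algebra.adjoin k _))
  obtain ⟨v, hv, hint⟩ := LPnn.elim (Ideal.Quotient.mkₐ k p) m hdep L hL _ hstart
  obtain ⟨a, N, ha, haN⟩ := LP_sep p x v hint
  let z : Fin (d + 1) → MvPolynomial σ k :=
    Fin.cons (y 0 * (1 - (a - 1) ^ 2) + (a - 1) ^ 2) v
  have ha2 : (a - 1) ^ 2 ∈ m ^ 2 := Ideal.pow_mem_pow ha 2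
  have hzy : ∀ i, z i - y i ∈ m ^ 2 := by
    intro i
    refine Fin.cases ?_ (fun j => hv j) i
    have h1 : z 0 - y 0 = (1 - y 0) * (a - 1) ^ 2 := by
      simp only [z, Fin.cons_zero]; ring
    rw [h1]
    exact Ideal.mul_mem_left _ _ ha2
  have hm2 : m ^ 2 ≤ m := Ideal.pow_le_self two_ne_zero
  have hz : ∀ i, z i ∈ m := fun i => by
    have h1 : z i = (z i - y i) + y i := by ring
    rw [h1]
    exact add_mem (hm2 (hzy i)) (hy i)
  have hgen : m ≤ I ⊔ Ideal.span (Set.range z) ⊔ m ^ 2 := by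
    refine hm.trans (sup_le (sup_le (le_sup_left.trans le_sup_left) ?_) le_sup_right)
    rw [Ideal.span_le]
    rintro _ ⟨i, rfl⟩
    have h1 : y i = z i - (z i - y i) := by ring
    rw [SetLike.mem_coe, h1]
    exact sub_mem (Ideal.mem_sup_left (Ideal.mem_sup_right (Ideal.subset_span ⟨i, rfl⟩)))
      (Ideal.mem_sup_right (hzy i))
  refine ⟨z, hz, hgen, ?_, hint⟩
  set J := p ⊔ Ideal.span (Set.range z) with hJ
  have hvJ : p ⊔ Ideal.span (Set.range v) ≤ J := by
    refine sup_le_sup_left (Ideal.span_mono ?_) p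
    rintro _ ⟨j, rfl⟩
    exact ⟨j.succ, rfl⟩
  have hNJ : m ^ N ≤ J := by
    intro g hg
    have h1 : g = g * z 0 + (a * g) * ((1 - y 0) * (2 - a)) := by
      simp only [z, Fin.cons_zero]; ring
    rw [h1]
    exact add_mem (Ideal.mul_mem_left _ _ (Ideal.mem_sup_right (Ideal.subset_span ⟨0, rfl⟩)))
      (Ideal.mul_mem_right _ _ (hvJ (haN g hg)))
  have hJ2 : m ≤ J ⊔ m ^ 2 := hgen.trans (sup_le_sup_right (sup_le_sup_right hIp _) _)
  have hpow : ∀ e : ℕ, m ≤ J ⊔ m ^ (e + 1) := by
    intro e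
    induction e with
    | zero => simp
    | succ e ih =>
      refine hJ2.trans (sup_le le_sup_left ?_)
      calc m ^ 2 = m * m := pow_two m
        _ ≤ m * (J ⊔ m ^ (e + 1)) := Ideal.mul_mono_right ih
        _ = m * J ⊔ m * m ^ (e + 1) := Ideal.mul_sup _ _ _
        _ ≤ J ⊔ m ^ (e + 1 + 1) := sup_le_sup Ideal.mul_le_right (pow_succ' m (e + 1)).ge
  exact (hpow N).trans (sup_le le_rfl ((Ideal.pow_le_pow_right (Nat.le_succ N)).trans hNJ))

lemma LP_nak {B : Type*} [CommRing B] [Algebra k B] {n : ℕ} (t : Fin n → B)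
    (hfin : (aeval t : MvPolynomial (Fin n) k →ₐ[k] B).toRingHom.Finite)
    (hgen : ∀ b : B, ∃ (c0 : k) (c : Fin n → B), b = algebraMap k B c0 + ∑ i, c i * t i) :
    ∃ a : MvPolynomial (Fin n) k, a - 1 ∈ Ideal.span (Set.range X) ∧
      ∀ b : B, ∃ P : MvPolynomial (Fin n) k, aeval t a * b = aeval t P := by
  let : Algebra (MvPolynomial (Fin n) k) B :=
    (aeval t : MvPolynomial (Fin n) k →ₐ[k] B).toRingHom.toAlgebra
  have : Module.Finite (MvPolynomial (Fin n) k) B := hfin
  have hsmul : ∀ (P : MvPolynomial (Fin n) k) (b : B), P • b = aeval t P * b := fun _ _ => rfl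
  let nn : Ideal (MvPolynomial (Fin n) k) := Ideal.span (Set.range X)
  let N : Submodule (MvPolynomial (Fin n) k) B := Submodule.span _ {1}
  have hle : (⊤ : Submodule (MvPolynomial (Fin n) k) B) ≤ N ⊔ nn • ⊤ := by
    intro b _
    obtain ⟨c0, c, rfl⟩ := hgen b
    refine add_mem (Submodule.mem_sup_left ?_)
      (Submodule.mem_sup_right (Submodule.sum_mem _ fun i _ => ?_))
    · have h1 : algebraMap k B c0 = (C c0 : MvPolynomial (Fin n) k) • (1 : B) := by
        rw [hsmul]; simp
      rw [h1]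
      exact Submodule.smul_mem _ _ (Submodule.subset_span rfl)
    · have h1 : c i * t i = (X i : MvPolynomial (Fin n) k) • c i := by
        rw [hsmul, aeval_X, mul_comm]
      rw [h1]
      exact Submodule.smul_mem_smul (Ideal.subset_span ⟨i, rfl⟩) Submodule.mem_top
  obtain ⟨a, ha, haN⟩ := Submodule.exists_sub_one_mem_and_smul_le_of_fg_of_le_sup
    Module.Finite.fg_top le_rfl hle
  refine ⟨a, ha, fun b => ?_⟩
  obtain ⟨P, hP⟩ := Submodule.mem_span_singleton.mp
    (haN (Submodule.smul_mem_pointwise_smul b a ⊤ Submodule.mem_top))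
  rw [hsmul, hsmul, mul_one] at hP
  exact ⟨P, hP.symm⟩

/-- Near the point every function on `p` is a quotient of polynomials in the coordinates. -/
lemma LP_surj (p : Ideal (MvPolynomial σ k)) (x : σ → k) {n : ℕ} (z : Fin n → MvPolynomial σ k)
    (hz : ∀ i, eval x (z i) = 0) (hm : RingHom.ker (eval x) ≤ p ⊔ Ideal.span (Set.range z))
    (hint : LPnn.IntOver k (Set.range fun i => Ideal.Quotient.mkₐ k p (z i))) :
    ∃ a : MvPolynomial (Fin n) k, aeval z a - 1 ∈ RingHom.ker (eval x) ∧
      ∀ r : MvPolynomial σ k, ∃ P : MvPolynomial (Fin n) k, aeval z a * r - aeval z P ∈ p := by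
  let ψ : MvPolynomial (Fin n) k →ₐ[k] MvPolynomial σ k ⧸ p :=
    aeval fun i => Ideal.Quotient.mkₐ k p (z i)
  have hψ : ∀ P, ψ P = Ideal.Quotient.mk p (aeval z P) := fun P => by
    have : ψ = (Ideal.Quotient.mkₐ k p).comp (aeval z) :=
      MvPolynomial.algHom_ext fun i => by simp [ψ]
    rw [this]; rfl
  have hfin : ψ.toRingHom.Finite := by
    refine hint.aeval_isIntegral.to_finite ?_
    refine RingHom.FiniteType.of_comp_finiteType (f := algebraMap k (MvPolynomial (Fin n) k)) ?_
    have : ψ.toRingHom.comp (algebraMap k (MvPolynomial (Fin n) k)) = algebraMap k _ :=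
      ψ.comp_algebraMap
    rw [this]
    exact RingHom.finiteType_algebraMap.mpr inferInstance
  obtain ⟨a, ha, haN⟩ := LP_nak _ hfin (by
    intro b
    obtain ⟨g, rfl⟩ := Ideal.Quotient.mk_surjective b
    obtain ⟨g1, hg1, g2, hg2, hg⟩ := Submodule.mem_sup.mp (hm (LP_sub_C_mem x g))
    obtain ⟨c, rfl⟩ := Ideal.mem_span_range_iff_exists_fun.mp hg2
    refine ⟨eval x g, fun i => Ideal.Quotient.mk p (c i), ?_⟩
    have h2 : g = C (eval x g) + ∑ i, c i * z i + g1 := by linear_combination -hg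
    have h3 : Ideal.Quotient.mk p g =
        Ideal.Quotient.mk p (C (eval x g) + ∑ i, c i * z i + g1) := congrArg _ h2
    rw [h3, map_add, map_add, Ideal.Quotient.eq_zero_iff_mem.mpr hg1, add_zero, map_sum]
    rfl)
  refine ⟨a, ?_, fun r => ?_⟩
  · have h1 : Ideal.span (Set.range X) ≤
        (RingHom.ker (eval x)).comap (aeval z : MvPolynomial (Fin n) k →ₐ[k] _) := by
      rw [Ideal.span_le]
      rintro _ ⟨i, rfl⟩
      simpa [RingHom.mem_ker] using hz i
    simpa using h1 ha
  · obtain ⟨P, hP⟩ := haN (Ideal.Quotient.mk p r)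
    refine ⟨P, Ideal.Quotient.eq.mp ?_⟩
    rw [map_mul, ← hψ, ← hψ]
    exact hP

/-- A prime divisor through a smooth rational point is principal near that point. -/
theorem lp (I p : Ideal (MvPolynomial σ k)) [p.IsPrime] (hIp : I ≤ p) (x : σ → k)
    (hx : ∀ f ∈ p, eval x f = 0) {κ : Type} [Finite κ] (f : κ → MvPolynomial σ k)
    (hf : ∀ j, f j ∈ I) (hli : LinearIndependent k fun j s => eval x (pderiv s (f j)))
    (hn : (Nat.card σ : Cardinal) ≤
      (Nat.card κ : Cardinal) + Algebra.trdeg k (MvPolynomial σ k ⧸ p) + 1) :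
    ∃ g ∈ p, ∀ f ∈ p, ∃ s, eval x s ≠ 0 ∧ s * f ∈ I ⊔ Ideal.span {g} := by
  obtain ⟨d, hd⟩ := Cardinal.lt_aleph0.mp
    (lt_of_le_of_lt (LP_trdeg_le p x hx) Cardinal.natCast_lt_aleph0)
  have hn' : Nat.card σ ≤ Nat.card κ + (d + 1) := by
    rw [hd] at hn
    exact_mod_cast hn
  obtain ⟨y, hy, hm⟩ := exists_cotangent_gen I x (fun g hg => hx g (hIp hg)) f hf hli hn'
  have hdep : ∀ t : Fin (d + 1) → MvPolynomial σ k ⧸ p, ¬ AlgebraicIndependent k t := by
    intro t ht
    have h1 := ht.lift_cardinalMk_le_trdeg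
    rw [hd] at h1
    simp only [Cardinal.mk_fin, Cardinal.lift_natCast, Nat.cast_le] at h1
    omega
  obtain ⟨z, hz, hgen, hmp, hint⟩ := LP_coords I p hIp x hdep y hy hm
  have hint' : LPnn.IntOver k (Set.range fun i => Ideal.Quotient.mkₐ k p (z i)) := by
    refine hint.trans ?_
    rintro _ ⟨i, rfl⟩
    exact isIntegral_algebraMap (x := (⟨_, Algebra.subset_adjoin ⟨i.succ, rfl⟩⟩ :
      Algebra.adjoin k (Set.range fun i => Ideal.Quotient.mkₐ k p (z i))))
  obtain ⟨a, ha, hsurj⟩ := LP_surj p x z hz hmp hint'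
  set m := RingHom.ker (eval x : MvPolynomial σ k →+* k) with hmdef
  have hpm : p ≤ m := fun g hg => hx g hg
  let ψ : MvPolynomial (Fin (d + 1)) k →ₐ[k] MvPolynomial σ k ⧸ p :=
    (Ideal.Quotient.mkₐ k p).comp (aeval z)
  let q : Ideal (MvPolynomial (Fin (d + 1)) k) := RingHom.ker ψ
  have : q.IsPrime := RingHom.ker_isPrime _
  have hq : ∀ P, P ∈ q ↔ aeval z P ∈ p := fun P => by
    rw [RingHom.mem_ker]; exact Ideal.Quotient.eq_zero_iff_mem
  have hdq : (d : Cardinal) ≤ Algebra.trdeg k (MvPolynomial (Fin (d + 1)) k ⧸ q) := by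
    have : Algebra.IsAlgebraic
        (Algebra.adjoin k (Set.range fun i : Fin d => Ideal.Quotient.mkₐ k p (z i.succ)))
        (MvPolynomial σ k ⧸ p) := ⟨fun b => (hint b).isAlgebraic⟩
    have : FaithfulSMul k (MvPolynomial σ k ⧸ p) :=
      (faithfulSMul_iff_algebraMap_injective k (MvPolynomial σ k ⧸ p)).mpr
        (algebraMap k (MvPolynomial σ k ⧸ p)).injective
    have hb := (Algebra.IsAlgebraic.isTranscendenceBasis_of_lift_le_trdeg_of_finite k
      (fun i : Fin d => Ideal.Quotient.mkₐ k p (z i.succ)) (by rw [hd]; simp)).1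
    have hb' : AlgebraicIndependent k
        fun i : Fin d => Ideal.Quotient.mk q (X i.succ : MvPolynomial (Fin (d + 1)) k) := by
      refine AlgebraicIndependent.of_comp (Ideal.kerLiftAlg ψ) ?_
      convert hb using 1
      funext i
      exact (Ideal.kerLiftAlg_mk ψ (X i.succ)).trans (by simp [ψ])
    simpa using hb'.lift_cardinalMk_le_trdeg
  obtain ⟨φ, hφ⟩ := LP_principal q hdq
  have hg : aeval z φ ∈ p := (hq φ).mp (hφ ▸ Ideal.mem_span_singleton_self φ)
  refine ⟨aeval z φ, hg, ?_⟩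
  set A := aeval z a with hA
  set K := I ⊔ Ideal.span {aeval z φ} ⊔ m • p with hK
  have hmp' : ∀ u ∈ m, ∀ w ∈ p, u * w ∈ K := fun u hu w hw =>
    Ideal.mem_sup_right (Ideal.mul_mem_mul hu hw)
  let G : Submodule ℤ (MvPolynomial σ k) :=
    { carrier := {r | ∃ P : MvPolynomial (Fin (d + 1)) k, A ^ 2 * r - aeval z P ∈ K}
      add_mem' := by
        rintro r s ⟨P, hP⟩ ⟨Q, hQ⟩
        refine ⟨P + Q, ?_⟩
        convert add_mem hP hQ using 1
        rw [map_add]; ring
      zero_mem' := ⟨0, by simp⟩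
      smul_mem' := by
        rintro c r ⟨P, hP⟩
        refine ⟨c • P, ?_⟩
        convert K.mul_mem_left (c : MvPolynomial σ k) hP using 1
        simp only [zsmul_eq_mul, map_mul, map_intCast]; ring }
  have hGmul : ∀ u ∈ m, ∀ w ∈ m, u * w ∈ G := by
    intro u hu w hw
    obtain ⟨P, hP⟩ := hsurj u
    obtain ⟨Q, hQ⟩ := hsurj w
    refine ⟨P * Q, ?_⟩
    have hQm : aeval z Q ∈ m := by
      have h1 : aeval z Q = A * w - (A * w - aeval z Q) := by ring
      rw [h1]
      exact sub_mem (m.mul_mem_left _ hw) (hpm hQ)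
    have h2 : A ^ 2 * (u * w) - aeval z (P * Q) =
        (A * u) * (A * w - aeval z Q) + aeval z Q * (A * u - aeval z P) := by
      rw [map_mul]; ring
    rw [h2]
    exact add_mem (hmp' _ (m.mul_mem_left _ hu) _ hQ) (hmp' _ hQm _ hP)
  have hG : ∀ r ∈ m, r ∈ G := by
    intro r hr
    obtain ⟨r12, h12, r3, h3, rfl⟩ := Submodule.mem_sup.mp (hgen hr)
    obtain ⟨r1, h1, r2, h2, rfl⟩ := Submodule.mem_sup.mp h12
    refine add_mem (add_mem ⟨0, ?_⟩ ?_) ?_
    · rw [map_zero, sub_zero]
      exact K.mul_mem_left _ (Ideal.mem_sup_left (Ideal.mem_sup_left h1))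
    · obtain ⟨c, rfl⟩ := Ideal.mem_span_range_iff_exists_fun.mp h2
      refine Submodule.sum_mem _ fun i _ => ?_
      obtain ⟨P, hP⟩ := hsurj (c i)
      refine ⟨a * P * X i, ?_⟩
      have h4 : A ^ 2 * (c i * z i) - aeval z (a * P * X i) =
          (A * z i) * (A * c i - aeval z P) := by
        rw [map_mul, map_mul, aeval_X, ← hA]; ring
      rw [h4]
      exact hmp' _ (m.mul_mem_left _ (hz i)) _ hP
    · rw [pow_two] at h3
      exact Submodule.mul_induction_on h3 hGmul fun _ _ => add_mem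
  have hKp : K ≤ p :=
    sup_le (sup_le hIp ((Ideal.span_singleton_le_iff_mem _).mpr hg)) Submodule.smul_le_right
  have hpK : p ≤ K := by
    intro r hr
    obtain ⟨P, hP⟩ := hG r (hpm hr)
    have hPp : aeval z P ∈ p := by
      have h1 : aeval z P = A ^ 2 * r - (A ^ 2 * r - aeval z P) := by ring
      rw [h1]
      exact sub_mem (p.mul_mem_left _ hr) (hKp hP)
    have hPq := (hq P).mpr hPp
    rw [hφ, Ideal.mem_span_singleton'] at hPq
    obtain ⟨c, rfl⟩ := hPq
    have h2 : r = (A ^ 2 * r - aeval z (c * φ)) + aeval z c * aeval z φ -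
        ((A + 1) * (A - 1)) * r := by
      rw [map_mul]; ring
    rw [h2]
    exact sub_mem (add_mem hP (K.mul_mem_left _ (Ideal.mem_sup_left (Ideal.mem_sup_right
      (Ideal.mem_span_singleton_self _))))) (hmp' _ (m.mul_mem_left _ ha) _ hr)
  obtain ⟨s, hs, hsp⟩ := Submodule.exists_sub_one_mem_and_smul_le_of_fg_of_le_sup
    (IsNoetherian.noetherian p) le_rfl hpK
  intro r hr
  refine ⟨s, ?_, hsp (Submodule.smul_mem_pointwise_smul r s p hr)⟩
  have h1 : eval x (s - 1) = 0 := hs
  rw [map_sub, map_one, sub_eq_zero] at h1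
  rw [h1]
  exact one_ne_zero

end Pool.Agent.Work.MP_ffcd14_ag
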