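import Pool.Agent.Work.MP_ffcd14_ag.Cyc.Noeth
import Pool.Agent.Work.MP_ffcd14_ag.Cyc.LP

/-! # Dimension of a smooth variety; prime divisors are locally principal at smooth points -/

open MvPolynomial Topology TopologicalSpace

namespace Pool.Agent.Work.MP_ffcd14_ag

universe u

variable {k : Type u} [Field k] {P : Amb}

theorem Var.amb_sub (X : Var k P) (Z : IrreducibleCloseds X.pts) :
    (X.amb Z : Set (P.Pt k)) ⊆ X.pts := by
  rintro _ ⟨x, -, rfl⟩
  exact x.2

theorem Var.amb_res (X : Var k P) (Z : Sub k P) (h : (Z : Set (P.Pt k)) ⊆ X.pts) :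
    X.amb (X.res Z h) = Z := by
  refine SetLike.coe_injective ?_
  exact Set.image_preimage_eq_of_subset (by rwa [Subtype.range_coe])

theorem Var.res_amb (X : Var k P) (Z : IrreducibleCloseds X.pts) :
    X.res (X.amb Z) (X.amb_sub Z) = Z := by
  refine SetLike.coe_injective ?_
  exact Set.preimage_image_eq _ Subtype.val_injective

theorem Var.amb_le_iff (X : Var k P) {Z Z' : IrreducibleCloseds X.pts} :
    X.amb Z ≤ X.amb Z' ↔ Z ≤ Z' := by
  exact Set.image_subset_image_iff Subtype.val_injective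

theorem Var.amb_lt_iff (X : Var k P) {Z Z' : IrreducibleCloseds X.pts} :
    X.amb Z < X.amb Z' ↔ Z < Z' := by
  rw [lt_iff_le_not_ge, lt_iff_le_not_ge, X.amb_le_iff, X.amb_le_iff]

theorem Var.amb_strictMono (X : Var k P) : StrictMono X.amb := fun _ _ h => X.amb_lt_iff.2 h

theorem Var.height_amb (X : Var k P) (Z : IrreducibleCloseds X.pts) :
    Order.height (X.amb Z) = Order.height Z := by
  refine (Order.height_eq_of_strictMono X.amb X.amb_strictMono (fun a b h => ?_) Z).symm
  have hb : (b : Set (P.Pt k)) ⊆ X.pts := Set.Subset.trans h.le (X.amb_sub a)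
  refine ⟨X.res b hb, ?_, X.amb_res b hb⟩
  rwa [← X.amb_lt_iff, X.amb_res]

/-- Local equations of a smooth variety in an affine chart. -/
theorem Var.chart_eq (X : Var k P) {x : P.Pt k} (hx : x ∈ X.pts) {ς : ∀ i, P.σ i}
    (hς : InCh ς x) :
    ∃ (κ : Type) (_ : Finite κ) (f : κ → MvPolynomial P.V k) (g : MvPolynomial P.V k)
      (b : P.ι →₀ ℕ), Nat.card (κ ⊕ P.ι) + X.dim = Nat.card P.V ∧ IsForm g b ∧ ev x g ≠ 0 ∧
      (∀ j, ∃ a, IsForm (g * f j) a) ∧ (∀ y, ev y g ≠ 0 → (∀ j, ev y (g * f j) = 0) → y ∈ X.pts) ∧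
      (∀ j : κ ⊕ P.ι, Sum.elim (fun j => g * f j) (fun i => MvPolynomial.X ⟨i, ς i⟩ - 1) j ∈
        chI X.pts ς) ∧
      LinearIndependent k fun (j : κ ⊕ P.ι) s => eval (hat ς x) (pderiv s
        (Sum.elim (fun j => g * f j) (fun i => MvPolynomial.X ⟨i, ς i⟩ - 1) j)) := by
  classical
  obtain ⟨κ, f, hc, hL⟩ := X.smooth x hx
  have := hL.finite
  let _ := Fintype.ofFinite κ
  let _ := Fintype.ofFinite P.V
  let _ := Fintype.ofFinite P.ι
  choose a ha using hL.1
  obtain ⟨g, b, hg, hgx, hgy⟩ := eventually_iff_form.mp hL.2.1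
  refine ⟨κ, inferInstance, f, g, b, by rw [Nat.card_sum]; omega, hg, hgx,
    fun j => ⟨_, hg.mul (ha j)⟩, fun y h1 h2 => (hgy y h1).2 fun j =>
      (mul_eq_zero.1 ((ev_mul y g (f j)).symm.trans (h2 j))).resolve_left h1, ?_, ?_⟩
  · rintro (j | i) y hy h
    · refine (eval_hat_eq_zero h (hg.mul (ha j))).2 ?_
      rw [ev_mul]
      by_cases h1 : ev y g = 0
      · rw [h1, zero_mul]
      · rw [(hgy y h1).1 hy j, mul_zero]
    · simp [hat_one h]
  · let μ : P.ι → k := fun i => (rp x ⟨i, ς i⟩)⁻¹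
    have hμ : ∀ i, μ i ≠ 0 := fun i => inv_ne_zero (hς i)
    have hw : hat ς x = fun s => μ s.1 * rp x s := funext fun s => by
      rw [hat, div_eq_inv_mul]
    have f0 : ∀ j, eval (hat ς x) (f j) = 0 := fun j =>
      (eval_hat_eq_zero hς (ha j)).2 (hL.ev_eq_zero hx j)
    have g0 : eval (hat ς x) g ≠ 0 := fun h => hgx ((eval_hat_eq_zero hς hg).1 h)
    refine Fintype.linearIndependent_iff.2 fun l hl => ?_
    have h1 : ∀ s, ∑ j, l (Sum.inl j) * eval (hat ς x) g * eval (hat ς x) (pderiv s (f j)) +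
        ∑ i, l (Sum.inr i) * (if (⟨i, ς i⟩ : P.V) = s then 1 else 0) = 0 := fun s => by
      have := congrFun hl s
      simpa [Finset.sum_apply, Fintype.sum_sum_type, f0, pderiv_X, Pi.single_apply, mul_assoc,
        apply_ite (eval (hat ς x))] using this
    have h2 : ∀ i, l (Sum.inr i) = 0 := fun i => by
      have e1 : ∑ s : P.V, (if s.1 = i then hat ς x s * ∑ j, l (Sum.inl j) * eval (hat ς x) g *
          eval (hat ς x) (pderiv s (f j)) else 0) = 0 := by
        have : ∀ j, l (Sum.inl j) * eval (hat ς x) g * ∑ s : P.V, (if s.1 = i then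
            hat ς x s * eval (hat ς x) (pderiv s (f j)) else 0) = 0 := fun j => by
          rw [(ha j).euler, f0]; simp
        refine Eq.trans ?_ (Finset.sum_eq_zero (s := Finset.univ) fun j _ => this j)
        simp only [Finset.mul_sum]
        rw [Finset.sum_comm]
        refine Finset.sum_congr rfl fun s _ => ?_
        split_ifs
        · exact Finset.sum_congr rfl fun j _ => by ring
        · simp
      have e2 : ∑ s : P.V, (if s.1 = i then hat ς x s * ∑ i', l (Sum.inr i') *
          (if (⟨i', ς i'⟩ : P.V) = s then 1 else 0) else 0) = l (Sum.inr i) := by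
        rw [Finset.sum_eq_single (⟨i, ς i⟩ : P.V), if_pos rfl, hat_one hς, one_mul,
          Finset.sum_eq_single i, if_pos rfl, mul_one]
        · intro i' _ h
          rw [if_neg fun h' => h (congrArg Sigma.fst h'), mul_zero]
        · simp
        · intro s _ h
          split_ifs with h'
          · subst h'
            rw [Finset.sum_eq_zero, mul_zero]
            intro i' _
            rw [if_neg, mul_zero]
            rintro rfl
            exact h rfl
          · rfl
        · simp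
      have e3 := congrArg₂ (· + ·) e1 e2
      simp only [zero_add] at e3
      rw [← e3, ← Finset.sum_add_distrib]
      refine Finset.sum_eq_zero fun s _ => ?_
      split_ifs
      · rw [← mul_add, h1 s, mul_zero]
      · simp
    have h3 := Fintype.linearIndependent_iff.1 hL.2.2
      (fun j => l (Sum.inl j) * eval (hat ς x) g * chi μ (a j)) (funext fun s => by
        have := congrArg (μ s.1 * ·) (h1 s)
        simp only [h2, zero_mul, Finset.sum_const_zero, add_zero, mul_zero, Finset.mul_sum] at this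
        rw [Finset.sum_apply, Pi.zero_apply, ← this]
        refine Finset.sum_congr rfl fun j _ => ?_
        rw [Pi.smul_apply, smul_eq_mul, ev_eq, mul_assoc, ← (ha j).eval_scale_pderiv μ, ← hw]
        ring)
    rintro (j | i)
    · exact (mul_eq_zero.1 ((mul_eq_zero.1 (h3 j)).resolve_right
        (chi_ne_zero hμ _))).resolve_right g0
    · exact h2 i

theorem coheight_le_sub {α : Type*} [Preorder α] (f : α → ℕ) (hf : StrictMono f) {N : ℕ}
    (h : ∀ y, f y ≤ N) (x : α) : Order.coheight x ≤ (N - f x : ℕ) := by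
  have := Order.coheight_le_coheight_apply_of_strictMono
    (fun y => OrderDual.toDual (N - f y)) (fun a b hab => by
      have := hf hab
      have := h b
      change N - f b < N - f a
      omega) x
  rwa [Order.coheight_toDual, Order.height_nat] at this

variable [IsAlgClosed k]

theorem Var.height_eq (X : Var k P) (Z : IrreducibleCloseds X.pts) :
    Order.height Z = sdim (X.amb Z) := by
  rw [← X.height_amb, MP_ffcd14_ag.height_eq]

theorem Var.coheight_fin (X : Var k P) (Z : IrreducibleCloseds X.pts) :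
    ∃ c : ℕ, Order.coheight Z = c := by
  have := coheight_le_sub (fun Z => sdim (X.amb Z)) (fun _ _ h => sdim_lt (X.amb_strictMono h))
    (N := Nat.card P.V) (fun y => (Nat.le_add_right _ _).trans (sdim_le_card _)) Z
  exact ⟨_, (ENat.natCast_toNat (ne_top_of_le_ne_top (ENat.natCast_ne_top _) this)).symm⟩

theorem Var.sdim_top (X : Var k P) (h : IsIrreducible X.pts) : sdim (X.top h) = X.dim := by
  obtain ⟨x, hx⟩ := h.nonempty
  obtain ⟨ς, hς⟩ := exists_inCh x
  obtain ⟨κ, _, f, g, b, hc, hg, hgx, hf, hloc, hI, hli⟩ := X.chart_eq hx hς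
  have hne : ∃ y ∈ X.top h, InCh ς y := ⟨x, hx, hς⟩
  refine le_antisymm ?_ ?_
  · have := chI_prime hne
    have h1 := trdeg_le_emb (chI (X.top h : Set (P.Pt k)) ς) (hat ς x) (fun φ hφ => hφ x hx hς)
      _ hI hli
    rw [← sdim_eq_trdeg hne] at h1
    have h2 : sdim (X.top h) + Nat.card (κ ⊕ P.ι) ≤ Nat.card P.V := by exact_mod_cast h1
    omega
  · have : (RingHom.ker (eval (hat ς x) : MvPolynomial P.V k →+* k)).IsPrime :=
      RingHom.ker_isPrime _
    obtain ⟨r, hr, -, h1, h2, h3⟩ := kr_many ⊥ (RingHom.ker (eval (hat ς x))) bot_le _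
      fun j => hI j x hx hς
    obtain ⟨Z, hZ, rfl⟩ := exists_chI_eq ς r fun i => h2 (Sum.inr i)
    have h4 : ¬ Van (Z : Set (P.Pt k)) g := fun h' =>
      hgx ((eval_hat_eq_zero hς hg).1 (h1 ((mem_chI_form hZ hg).2 h')))
    have h5 : Z ≤ X.top h := subset_of_van X.closed fun φ c hφ hv =>
      van_of_open hφ hg h4 fun y hy hy' => hv y (hloc y hy' fun j =>
        let ⟨a, ha⟩ := hf j; (mem_chI_form hZ ha).1 (h2 (Sum.inl j)) y hy)
    rw [← sdim_eq_trdeg hZ, (AlgEquiv.quotientBot k (MvPolynomial P.V k)).trdeg_eq,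
      MvPolynomial.trdeg_of_isDomain, ← Nat.cast_card, Cardinal.lift_natCast] at h3
    have h6 : Nat.card P.V ≤ sdim Z + Nat.card (κ ⊕ P.ι) := by exact_mod_cast h3
    have := sdim_mono h5
    omega

theorem Var.sdim_le (X : Var k P) (h : IsIrreducible X.pts) {Z : Sub k P}
    (hZ : (Z : Set (P.Pt k)) ⊆ X.pts) : sdim Z ≤ X.dim := by
  exact (sdim_mono (show Z ≤ X.top h from hZ)).trans (X.sdim_top h).le

theorem Var.coheight_iff (X : Var k P) (h : IsIrreducible X.pts) (Z : IrreducibleCloseds X.pts)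
    (c : ℕ) : Order.coheight Z = c ↔ sdim (X.amb Z) + c = X.dim := by
  have h1 : ∀ (c : ℕ) (Z : IrreducibleCloseds X.pts), sdim (X.amb Z) + c = X.dim →
      (c : ℕ∞) ≤ Order.coheight Z := fun c => by
    induction c with
    | zero => simp
    | succ c ih =>
      intro Z hZ
      have hlt : X.amb Z < X.top h := lt_of_le_of_ne (X.amb_sub Z) fun e => by
        rw [e, X.sdim_top h] at hZ; omega
      obtain ⟨T, a1, a2, a3⟩ := exists_cover_up hlt
      replace a2 : (T : Set (P.Pt k)) ⊆ X.pts := a2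
      have a4 : Z < X.res T a2 := by
        rw [← X.amb_lt_iff, X.amb_res]
        exact lt_of_le_of_ne a1 fun e => by rw [e] at a3; omega
      have a5 := ih (X.res T a2) (by rw [X.amb_res]; omega)
      push_cast
      exact (add_le_add_left a5 1).trans (Order.coheight_add_one_le a4)
  have h2 := X.sdim_le h (X.amb_sub Z)
  have h3 : Order.coheight Z = (X.dim - sdim (X.amb Z) : ℕ) := le_antisymm
    (coheight_le_sub (fun Z => sdim (X.amb Z)) (fun _ _ h => sdim_lt (X.amb_strictMono h))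
      (fun y => X.sdim_le h (X.amb_sub y)) Z) (h1 _ Z (by omega))
  rw [h3, Nat.cast_inj]
  omega

theorem Var.smAt (X : Var k P) (h : IsIrreducible X.pts) {x : P.Pt k} (hx : x ∈ X.pts) :
    SmAt (X.top h) x := by
  obtain ⟨ς, hς⟩ := exists_inCh x
  obtain ⟨κ, _, f, g, b, hc, -, -, -, -, hI, hli⟩ := X.chart_eq hx hς
  exact ⟨ς, hς, κ ⊕ P.ι, inferInstance, _, hI, hli, by rw [X.sdim_top h]; exact hc.ge⟩

/-- The rational map given by local generators of the ideal of a prime divisor `T` of `Z` is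
regular at every smooth point of `Z` and at every point outside `T`. -/
theorem lpg {Z T : Sub k P} (hTZ : T ≤ Z) (hd : sdim T + 1 = sdim Z) {κ : Type} [Fintype κ]
    {g : κ → MvPolynomial P.V k} {a : P.ι →₀ ℕ} (hg : Cuts (T : Set (P.Pt k)) g a) {x : P.Pt k}
    (hx : x ∈ Z) (h : SmAt Z x ∨ x ∉ T) :
    ∃ (b : P.ι →₀ ℕ) (e : κ → MvPolynomial P.V k), (∀ i, IsForm (e i) b) ∧
      (∃ i, ev x (e i) ≠ 0) ∧ ∀ i j, Van (Z : Set (P.Pt k)) (g i * e j - g j * e i) := by
  classical
  by_cases hxT : x ∈ T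
  swap
  · refine ⟨a, g, hg.form, by_contra fun hn => hxT (hg.mem T.isClosed fun i =>
      by_contra fun h' => hn ⟨i, h'⟩), fun i j y _ => ?_⟩
    rw [mul_comm, sub_self]
    exact map_zero _
  obtain ⟨ς, hς, κ', _, f, hf, hli, hc⟩ := h.resolve_right (not_not.2 hxT)
  have hZ : ∃ y ∈ Z, InCh ς y := ⟨x, hx, hς⟩
  have hT : ∃ y ∈ T, InCh ς y := ⟨x, hxT, hς⟩
  have hI := chI_prime hZ
  have hp := chI_prime hT
  obtain ⟨g0, h0, h1⟩ := lp (chI (Z : Set (P.Pt k)) ς) (chI (T : Set (P.Pt k)) ς) (chI_anti hTZ ς)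
    (hat ς x) (fun φ hφ => hφ x hxT hς) f hf hli (by
      rw [← sdim_eq_trdeg hT]
      exact_mod_cast (by omega : Nat.card P.V ≤ Nat.card κ' + sdim T + 1))
  set I := chI (Z : Set (P.Pt k)) ς with hIdef
  have nI : ∀ {s}, eval (hat ς x) s ≠ 0 → s ∉ I := fun h1 h2 => h1 (h2 x hx hς)
  have g0I : g0 ∉ I := fun h2 => by
    have h3 : chI (T : Set (P.Pt k)) ς ≤ I := fun φ hφ => by
      obtain ⟨s, a1, a2⟩ := h1 φ hφ
      rw [sup_eq_left.2 ((Ideal.span_singleton_le_iff_mem _).2 h2)] at a2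
      exact (hI.mem_or_mem a2).resolve_left (nI a1)
    have := sdim_mono (le_of_chI_le hT hZ h3)
    omega
  have h2 : ∀ j, ∃ s c, eval (hat ς x) s ≠ 0 ∧ s * g j - c * g0 ∈ I := fun j => by
    obtain ⟨s, a1, a2⟩ := h1 (g j) ((mem_chI_form hT (hg.form j)).2 (hg.van j))
    obtain ⟨u, hu, v, hv, e⟩ := Submodule.mem_sup.1 a2
    obtain ⟨c, rfl⟩ := Ideal.mem_span_singleton'.1 hv
    exact ⟨s, c, a1, by rw [← e, add_sub_cancel_right]; exact hu⟩
  choose s c hs hsc using h2
  let e' : κ → MvPolynomial P.V k := fun j => c j * ∏ j' ∈ Finset.univ.erase j, s j'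
  have hS : eval (hat ς x) (∏ j, s j) ≠ 0 := by
    rw [map_prod]; exact Finset.prod_ne_zero_iff.2 fun j _ => hs j
  have h3 : ∀ j, (∏ j, s j) * g j - e' j * g0 ∈ I := fun j => by
    have := I.mul_mem_left (∏ j' ∈ Finset.univ.erase j, s j') (hsc j)
    rw [← Finset.mul_prod_erase _ _ (Finset.mem_univ j)]
    convert this using 1
    simp only [e']
    ring
  have hom : ∀ {φ ψ : MvPolynomial P.V k}, (∀ (A : Type u) [CommRing A] [Algebra k A]
      (v : P.V → A), (∀ i, v ⟨i, ς i⟩ = 1) → aeval v φ = aeval v ψ) → ∀ A, φ - ψ ∈ chI A ς :=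
    fun H A y _ hy => by
      rw [map_sub, sub_eq_zero]
      exact H k (hat ς y) (hat_one hy)
  obtain ⟨G, d, hG, hG'⟩ := homog ς g0
  obtain ⟨e, b, he, he'⟩ := homog_many ς e'
  have h4 : ∀ j, e j - e' j ∈ I := fun j => hom (fun A _ _ v hv => he' A v hv j) _
  refine ⟨b, e, he, ?_, fun i j => ?_⟩
  · obtain ⟨t, d', E, a1, a2, a3⟩ := hg.gen x G d hG ((mem_chI_form hT hG).1 (by
      simpa using Ideal.add_mem _ (hom hG' _) h0))
    have a4 : g0 * ((∏ j, s j) * t - ∑ j, E j * e' j) ∈ I := by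
      have b1 := I.sum_mem (t := Finset.univ) fun j _ => I.mul_mem_left (E j) (h3 j)
      have b2 := I.mul_mem_left ((∏ j, s j) * t) (hom hG' _)
      convert I.sub_mem b1 b2 using 1
      have b3 : ∑ j, E j * ((∏ j, s j) * g j - e' j * g0) =
          (∏ j, s j) * ∑ j, E j * g j - g0 * ∑ j, E j * e' j := by
        rw [Finset.mul_sum, Finset.mul_sum, ← Finset.sum_sub_distrib]
        exact Finset.sum_congr rfl fun j _ => by ring
      rw [b3, ← a3]
      ring
    by_contra hn
    refine nI ?_ ((hI.mem_or_mem a4).resolve_left g0I)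
    rw [map_sub, map_sum, Finset.sum_eq_zero, sub_zero, map_mul]
    · exact mul_ne_zero hS fun h' => a2 ((eval_hat_eq_zero hς a1).1 h')
    · intro j _
      have b1 := h4 j x hx hς
      rw [map_sub, (eval_hat_eq_zero hς (he j)).2 (by_contra fun h' => hn ⟨j, h'⟩), zero_sub,
        neg_eq_zero] at b1
      rw [map_mul, b1, mul_zero]
  · refine (mem_chI_form hZ (a := a + b) (IsWeightedHomogeneous.sub ((hg.form i).mul (he j))
      ((hg.form j).mul (he i)))).1 ((hI.mem_or_mem (x := ∏ j, s j) ?_).resolve_left (nI hS))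
    convert I.add_mem (I.sub_mem (I.mul_mem_left (e' j) (h3 i)) (I.mul_mem_left (e' i) (h3 j)))
      (I.mul_mem_left (∏ j, s j) (I.sub_mem (I.mul_mem_left (g i) (h4 j))
        (I.mul_mem_left (g j) (h4 i)))) using 1
    ring

end Pool.Agent.Work.MP_ffcd14_ag
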