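import Pool.Agent.Work.MP_ffcd14_ag.Cyc.FDefs
import Pool.Agent.Work.MP_ffcd14_ag.Cyc.GC
import Pool.Agent.Work.MP_ffcd14_ag.Cyc.VarDim

/-! # Fibres of coordinate maps -/

open MvPolynomial Topology TopologicalSpace Filter

namespace Pool.Agent.Work.MP_ffcd14_ag

universe u v w w'

variable {k : Type u} [Field k] [IsAlgClosed k] {P P' P₀ P₁ P₂ Q : Amb}

omit [IsAlgClosed k] in
theorem isClosed_eq_crd (β β' : Crd k P P') : IsClosed {x | β.pr x = β'.pr x} := by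
  have key : {x | β.pr x = β'.pr x} = ⋂ (i : P.ι) (s : P.σ i) (t : P.σ i),
      {x : P'.Pt k | ev x (X (β.ε ⟨i, s⟩) * X (β'.ε ⟨i, t⟩) -
        X (β.ε ⟨i, t⟩) * X (β'.ε ⟨i, s⟩)) = 0} := by
    ext x
    simp only [Set.mem_ofPred_eq, Set.mem_iInter, ev_eq, map_sub, map_mul, eval_X, ← β.rp_pr,
      ← β'.rp_pr, sub_eq_zero]
    refine ⟨fun h i s t => by rw [h, mul_comm], fun h => funext fun i => ?_⟩
    obtain ⟨s₀, hs₀⟩ := Function.ne_iff.mp (β.pr x i).rep_nonzero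
    exact ((eq_mk_of_minors (β'.pr x i) hs₀ (fun s => h i s₀ s) (β.pr x i).rep_nonzero).trans
      (β.pr x i).mk_rep).symm
  rw [key]
  refine isClosed_iInter fun i => isClosed_iInter fun s => isClosed_iInter fun t => ?_
  have h : ∀ s t : P.σ i, IsForm (X (β.ε ⟨i, s⟩) * X (β'.ε ⟨i, t⟩) : MvPolynomial P'.V k)
      (Finsupp.single (β.ψ i) 1 + Finsupp.single (β'.ψ i) 1) := fun s t => by
    have := (IsForm.X (k := k) (β.ε ⟨i, s⟩)).mul (IsForm.X (β'.ε ⟨i, t⟩))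
    rwa [β.fst, β'.fst] at this
  exact isClosed_zero (a := Finsupp.single (β.ψ i) 1 + Finsupp.single (β'.ψ i) 1)
    ((weightedHomogeneousSubmodule k _ _).sub_mem (h s t) (h t s))

omit [IsAlgClosed k] in
theorem continuous_mkPt (x : P.Pt k) : Continuous (mkPt x : Q.Pt k → (P.sum Q).Pt k) := by
  let F : (P.sum Q).V → MvPolynomial Q.V k := Amb.elim (fun s => C (rp x s)) X
  have hF : ∀ s, IsForm (F s)
      (Sum.elim (fun _ => 0) (fun j => Finsupp.single j 1) s.1 : Q.ι →₀ ℕ) := by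
    rintro ⟨i | j, s⟩
    · exact isWeightedHomogeneous_C _ _
    · exact IsForm.X (⟨j, s⟩ : Q.V)
  have he : ∀ (y : Q.Pt k) (g : MvPolynomial (P.sum Q).V k),
      ev (mkPt x y) g = ev y (aeval F g) := by
    intro y g
    rw [ev_eq, ev_eq, ← aeval_eq_eval, ← aeval_eq_eval, ← AlgHom.comp_apply, comp_aeval]
    congr 2
    funext s
    rcases s with ⟨i | j, s⟩
    · exact (aeval_C (rp y) (rp x ⟨i, s⟩)).symm
    · exact (aeval_X (rp y) (⟨j, s⟩ : Q.V)).symm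
  refine continuous_of_form fun y g a hg hy => ?_
  simp only [he] at hy ⊢
  exact eventually_ne (IsForm.aeval hF hg) hy

omit [IsAlgClosed k] in
theorem exists_pt_avoid (Z : Sub k P) {𝓕 : Set (Sub k P)} (h𝓕 : 𝓕.Finite)
    (h : ∀ T ∈ 𝓕, ¬ Z ≤ T) : ∃ x ∈ Z, ∀ T ∈ 𝓕, x ∉ T := by
  by_contra hc
  push Not at hc
  obtain ⟨z, hz, hZ⟩ := isIrreducible_iff_sUnion_isClosed.1 Z.isIrreducible
    (h𝓕.image fun T : Sub k P => (T : Set (P.Pt k))).toFinset
    (fun z hz => by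
      obtain ⟨T, -, rfl⟩ := (Set.Finite.mem_toFinset _).1 hz
      exact T.isClosed)
    (fun x hx => by
      obtain ⟨T, hT, hxT⟩ := hc x hx
      exact ⟨T, (Set.Finite.mem_toFinset _).2 ⟨T, hT, rfl⟩, hxT⟩)
  obtain ⟨T, hT, rfl⟩ := (Set.Finite.mem_toFinset _).1 hz
  exact h T hT hZ

omit [IsAlgClosed k] in
theorem le_of_open {Z T : Sub k P} {h : MvPolynomial P.V k} {a : P.ι →₀ ℕ} (hh : IsForm h a)
    (hZ : ¬ Van (Z : Set (P.Pt k)) h) (H : ∀ x ∈ Z, ev x h ≠ 0 → x ∈ T) : Z ≤ T := by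
  exact subset_of_van T.isClosed fun f _ hf hv =>
    van_of_open hf hh hZ fun x hx h0 => hv x (H x hx h0)

omit [IsAlgClosed k] in
theorem FibA_pt_le {Z : Sub k P} {x : P.Pt k} (hx : x ∈ Z) : ({x} : Sub k P) ≤ Z :=
  fun y hy => by rw [show y = x from hy]; exact hx

theorem Crd.exists_over' (β : Crd k P P') {Z : Sub k P'} {T : Sub k P} (h : T ≤ β.img Z) :
    ∃ T' ≤ Z, β.img T' = T := by
  let γ := β.pair (Crd.refl k P')
  have h1 : (Crd.inl k P P').img (γ.img Z) = β.img Z := by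
    rw [← Crd.img_comp]; exact Crd.img_congr _ _ fun _ _ => rfl
  have h2 : (Crd.inr k P P').img (γ.img Z) = Z := by
    rw [← Crd.img_comp]
    exact (Crd.img_congr _ (Crd.refl k P') fun _ _ => rfl).trans (Crd.img_refl Z)
  obtain ⟨T', hT', hi⟩ := exists_over (Z' := γ.img Z) (T := T) (h1 ▸ h)
  refine ⟨(Crd.inr k P P').img T', h2 ▸ Crd.img_mono _ hT', ?_⟩
  rw [← Crd.img_comp, ← hi]
  refine Crd.img_congr _ _ fun x hx => ?_
  exact (γ.img_sub (isClosed_eq_crd (β.comp (Crd.inr k P P')) (Crd.inl k P P'))).2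
    (fun _ _ => rfl) (hT' hx)

theorem Crd.mem_img_iff (β : Crd k P P') {Z : Sub k P'} {x : P.Pt k} :
    x ∈ β.img Z ↔ ∃ z ∈ Z, β.pr z = x := by
  constructor
  · intro hx
    obtain ⟨T', hT', hi⟩ := β.exists_over' (T := {x}) (Z := Z) (FibA_pt_le hx)
    obtain ⟨z, hz⟩ := T'.isIrreducible.nonempty
    have := β.mem_img (Z := T') hz
    rw [hi] at this
    exact ⟨z, hT' hz, this⟩
  · rintro ⟨z, hz, rfl⟩
    exact β.mem_img hz

theorem fib_low (β : Crd k P P') {U : Sub k P'} {x : P'.Pt k} (hx : x ∈ U) :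
    ∃ T ≤ U, x ∈ T ∧ β.Cst T ∧ sdim U ≤ sdim T + sdim (β.img U) := by
  induction hn : sdim (β.img U) using Nat.strong_induction_on generalizing U with
  | _ n ih =>
    rcases Nat.eq_zero_or_pos n with rfl | hpos
    · refine ⟨U, le_rfl, hx, fun y hy z hz => ?_, le_self_add⟩
      have h1 := eq_pt_of_sdim hn (β.mem_img hz)
      have h2 := β.mem_img hy
      rw [h1] at h2
      exact h2
    · obtain ⟨g, hg, hgx, hgU⟩ := exists_form_pt (Z := β.img U) (hn ▸ hpos) (β.pr x)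
        (a := Finsupp.equivFunOnFinite.symm fun _ => 1) (fun _ => Nat.one_pos)
      obtain ⟨T0, h1, h2, h3, h4⟩ := krg (FibA_pt_le hx) (β.form hg)
        (fun h => hgU ((β.van_img hg).2 h)) (fun y hy => by
          rw [show y = x from hy, β.ev_rename, hgx])
      have hlt : sdim (β.img T0) < n := by
        rw [← hn]
        refine sdim_lt (lt_of_le_of_ne (β.img_mono h2) fun he => hgU ?_)
        rw [← he]
        exact (β.van_img hg).2 h3
      obtain ⟨T, t1, t2, t3, t4⟩ := ih _ hlt (h1 (show x ∈ ({x} : Sub k P') from rfl)) rfl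
      exact ⟨T, t1.trans h2, t2, t3, by omega⟩

omit [IsAlgClosed k] in
theorem Fib1.mono {β : Crd k P P'} {E U : Sub k P'} (h : Fib1 β E) (hU : U ≤ E) : Fib1 β U := by
  exact fun T hT => h T (hT.trans hU)

theorem Fib1.le {β : Crd k P P'} {E U : Sub k P'} (h : Fib1 β E) (hU : U ≤ E) :
    sdim U ≤ sdim (β.img U) + 1 := by
  obtain ⟨x, hx⟩ := U.isIrreducible.nonempty
  obtain ⟨T, t1, -, t3, t4⟩ := fib_low β (U := U) hx
  have := h T (t1.trans hU) t3
  omega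

theorem sdim_img_of_inj (β : Crd k P P') {U : Sub k P'}
    (h : ∀ x ∈ U, ∀ y ∈ U, β.pr x = β.pr y → x = y) : sdim (β.img U) = sdim U := by
  refine le_antisymm (β.sdim_img_le U) ?_
  obtain ⟨x, hx⟩ := U.isIrreducible.nonempty
  obtain ⟨T, t1, t2, t3, t4⟩ := fib_low β (U := U) hx
  have h1 : T ≤ {x} := fun y hy => h y (t1 hy) x hx (t3 y hy x t2)
  have h2 := sdim_mono h1
  rw [sdim_pt] at h2
  omega

theorem fib_full (β : Crd k P P') {U : Sub k P'} (hd : sdim (β.img U) + 1 ≤ sdim U) {x : P.Pt k}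
    (hx : x ∈ β.img U) {Φ : Sub k P'} (hΦ : sdim Φ ≤ 1) (h : ∀ z ∈ U, β.pr z = x → z ∈ Φ) :
    Φ ≤ U := by
  obtain ⟨z, hz, rfl⟩ := β.mem_img_iff.1 hx
  obtain ⟨T, t1, t2, t3, t4⟩ := fib_low β hz
  have h1 : T ≤ Φ := fun y hy => h y (t1 hy) (t3 y hy z t2)
  rw [← eq_of_sdim_le h1 (by omega)]
  exact t1

theorem infinite_of_sdim {T : Sub k P} (h : 0 < sdim T) : (T : Set (P.Pt k)).Infinite := by
  intro hfin
  obtain ⟨x, hx, hx'⟩ := exists_pt_avoid T (hfin.image fun x => ({x} : Sub k P)) (by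
    rintro _ ⟨y, -, rfl⟩ hle
    have h2 := sdim_mono hle
    rw [sdim_pt] at h2
    omega)
  exact hx' {x} ⟨x, hx, rfl⟩ rfl

end Pool.Agent.Work.MP_ffcd14_ag
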