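import Pool.Agent.Work.MP_ffcd14_ag.Main
import Pool.Agent.Work.MP_ffcd14_ag.Cyc.Defs2

/-! # Working definitions: subvarieties, generic points, coordinate maps -/

open MvPolynomial Topology TopologicalSpace Filter

namespace Pool.Agent.Work.MP_ffcd14_ag

universe u v w

variable {k : Type u} [Field k] {P P' P'' Q S : Amb}

/-- Irreducible closed subsets of the ambient space. -/
abbrev Sub (k : Type u) [Field k] (P : Amb) := IrreducibleCloseds (P.Pt k)

/-- `f` vanishes on `Z`. -/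
def Van (Z : Set (P.Pt k)) (f : MvPolynomial P.V k) : Prop := ∀ x ∈ Z, ev x f = 0

/-- The dimension. -/
noncomputable def sdim (Z : Sub k P) : ℕ := (Order.height Z).toNat

/-- `v` is (a vector representing) a generic point of `Z`. -/
structure IsGen {L : Type u} [Field L] [Algebra k L] (Z : Set (P.Pt k)) (v : P.V → L) : Prop where
  ne : ∀ i, ∃ s, v ⟨i, s⟩ ≠ 0
  iff : ∀ f a, IsForm f a → (aeval v f = 0 ↔ Van Z f)

/-- The ratios of the homogeneous coordinates. -/
def rat {L : Type u} [Field L] (v : P.V → L) : Set L := {y | ∃ i s t, y = v ⟨i, s⟩ / v ⟨i, t⟩}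

/-- The transcendence degree of a set. -/
noncomputable def rk (k : Type u) [Field k] {L : Type u} [Field L] [Algebra k L] (s : Set L) : ℕ∞ :=
  (AlgebraicIndependent.matroid k L).eRk s

/-- `x` lies in the standard affine chart `ς`. -/
def InCh (ς : ∀ i, P.σ i) (x : P.Pt k) : Prop := ∀ i, rp x ⟨i, ς i⟩ ≠ 0

/-- The affine coordinates of `x` in the chart `ς`. -/
noncomputable def hat (ς : ∀ i, P.σ i) (x : P.Pt k) : P.V → k :=
  fun s => rp x s / rp x ⟨s.1, ς s.1⟩

/-- The ideal of `Z` in the chart `ς`. -/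
def chI (Z : Set (P.Pt k)) (ς : ∀ i, P.σ i) : Ideal (MvPolynomial P.V k) where
  carrier := {f | ∀ x ∈ Z, InCh ς x → eval (hat ς x) f = 0}
  add_mem' hf hg x hx h := by rw [map_add, hf x hx h, hg x hx h, add_zero]
  zero_mem' x _ _ := map_zero _
  smul_mem' c f hf x hx h := by rw [smul_eq_mul, map_mul, hf x hx h, mul_zero]

/-- `Z` is smooth at `x` (Jacobian criterion in some chart). -/
def SmAt (Z : Sub k P) (x : P.Pt k) : Prop :=
  ∃ ς, InCh ς x ∧ ∃ (κ : Type) (_ : Finite κ) (f : κ → MvPolynomial P.V k),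
    (∀ j, f j ∈ chI (Z : Set (P.Pt k)) ς) ∧
    LinearIndependent k (fun j s => eval (hat ς x) (pderiv s (f j))) ∧
    Nat.card P.V ≤ Nat.card κ + sdim Z

/-- One projective space. -/
def Amb.one (κ : Type) [Finite κ] : Amb where
  ι := Unit
  σ _ := κ

/-- A function on the coordinates of a product. -/
def Amb.elim {α : Sort*} (f : P.V → α) (g : Q.V → α) : (P.sum Q).V → α
  | ⟨Sum.inl i, s⟩ => f ⟨i, s⟩
  | ⟨Sum.inr j, s⟩ => g ⟨j, s⟩

/-- A map of ambient spaces which repeats, permutes or forgets factors. -/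
structure Crd (k : Type u) [Field k] (P P' : Amb) where
  ε : P.V → P'.V
  ψ : P.ι → P'.ι
  fst : ∀ s, (ε s).1 = ψ s.1
  pr : P'.Pt k → P.Pt k
  rp_pr : ∀ y s, rp (pr y) s = rp y (ε s)

namespace Crd

/-- The identity. -/
def refl (k : Type u) [Field k] (P : Amb) : Crd k P P where
  ε := id
  ψ := id
  fst _ := rfl
  pr := id
  rp_pr _ _ := rfl

/-- Composition; on points `β.pr ∘ γ.pr`. -/
def comp (β : Crd k P P') (γ : Crd k P' P'') : Crd k P P'' where
  ε := γ.ε ∘ β.ε
  ψ := γ.ψ ∘ β.ψ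
  fst s := by simp [γ.fst, β.fst]
  pr := β.pr ∘ γ.pr
  rp_pr y s := by simp [β.rp_pr, γ.rp_pr]

/-- First projection. -/
def inl (k : Type u) [Field k] (P Q : Amb) : Crd k P (P.sum Q) where
  ε := (Blk.inl (k := k) P Q).ε
  ψ := Sum.inl
  fst _ := rfl
  pr := (Blk.inl P Q).pr
  rp_pr _ _ := rfl

/-- Second projection. -/
def inr (k : Type u) [Field k] (P Q : Amb) : Crd k Q (P.sum Q) where
  ε := (Blk.inr (k := k) P Q).ε
  ψ := Sum.inr
  fst _ := rfl
  pr := (Blk.inr P Q).pr
  rp_pr _ _ := rfl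

/-- The map to a product with given components. -/
def pair (β : Crd k P S) (γ : Crd k Q S) : Crd k (P.sum Q) S where
  ε := Amb.elim β.ε γ.ε
  ψ := Sum.elim β.ψ γ.ψ
  fst := by
    rintro ⟨i | j, s⟩
    · exact β.fst ⟨i, s⟩
    · exact γ.fst ⟨j, s⟩
  pr y := Sum.rec (motive := fun j => Projectivization k ((P.sum Q).σ j → k)) (β.pr y) (γ.pr y)
  rp_pr y := by
    rintro ⟨i | j, s⟩
    · exact β.rp_pr y ⟨i, s⟩
    · exact γ.rp_pr y ⟨j, s⟩

variable (β : Crd k P P')

theorem ev_rename (y : P'.Pt k) (f : MvPolynomial P.V k) :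
    ev y (rename β.ε f) = ev (β.pr y) f := by
  rw [ev_eq, ev_eq, eval_rename]
  exact congrArg (fun v => eval v f) (funext fun s => (β.rp_pr y s).symm)

theorem form {f : MvPolynomial P.V k} {a : P.ι →₀ ℕ} (hf : IsForm f a) :
    IsForm (rename β.ε f) (a.mapDomain β.ψ) := by
  have h : IsForm (rename β.ε f) (a.sum fun i n => n • Finsupp.single (β.ψ i) 1) := by
    rw [rename_eq_aeval]
    exact IsForm.aeval (b := fun i => Finsupp.single (β.ψ i) 1)
      (fun s => by simpa [← β.fst] using IsForm.X (β.ε s)) hf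
  simpa [Finsupp.mapDomain] using h

theorem continuous : Continuous β.pr :=
  continuous_of_form fun x g a hg hx => by
    simpa only [β.ev_rename] using eventually_ne (x := x) (β.form hg) (by rwa [β.ev_rename])

/-- The closure of the image. -/
def img (Z : Sub k P') : Sub k P := Z.map β.pr β.continuous

end Crd

/-- A coordinate map which sends `Ω` into `X`. -/
structure Prj (Ω : Var k P') (X : Var k P) extends Crd k P P' where
  maps : ∀ x ∈ Ω.pts, pr x ∈ X.pts

/-- The morphism given by a coordinate map. -/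
def Prj.hom {Ω : Var k P'} {X : Var k P} (π : Prj Ω X) : Hom Ω X where
  toFun x := ⟨π.pr x.1, π.maps _ x.2⟩
  reg _ j := ⟨Finsupp.single (π.ψ j) 1, fun s => MvPolynomial.X (π.ε ⟨j, s⟩),
    fun s => by simpa [π.fst] using IsForm.X (k := k) (π.ε ⟨j, s⟩),
    Eventually.of_forall fun y => by
      have h : (fun s => ev y.1 (MvPolynomial.X (π.ε ⟨j, s⟩))) = (π.pr y.1 j).rep :=
        funext fun s => by rw [ev_X]; exact (π.rp_pr y.1 ⟨j, s⟩).symm
      simp only [h]
      exact ⟨(π.pr y.1 j).rep_nonzero, (Projectivization.mk_rep _).symm⟩⟩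

/-- An irreducible variety as a subvariety of the ambient space. -/
def Var.top (X : Var k P) (h : IsIrreducible X.pts) : Sub k P := ⟨X.pts, h, X.closed⟩

/-- A subvariety of `X` as a subvariety of the ambient space. -/
def Var.amb (X : Var k P) (Z : IrreducibleCloseds X.pts) : Sub k P :=
  ⟨Subtype.val '' (Z : Set X.pts), Z.isIrreducible.image _ continuous_subtype_val.continuousOn,
    X.closed.isClosedEmbedding_subtypeVal.isClosedMap _ Z.isClosed⟩

/-- A subvariety of the ambient space contained in `X` as a subvariety of `X`. -/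
def Var.res (X : Var k P) (Z : Sub k P) (h : (Z : Set (P.Pt k)) ⊆ X.pts) :
    IrreducibleCloseds X.pts :=
  ⟨Subtype.val ⁻¹' (Z : Set (P.Pt k)), by
    obtain ⟨⟨z, hz⟩, hZ⟩ := Z.isIrreducible
    refine ⟨⟨⟨z, h hz⟩, hz⟩, ?_⟩
    rintro _ _ ⟨U, hU, rfl⟩ ⟨V, hV, rfl⟩ ⟨x, hx, hxU⟩ ⟨y, hy, hyV⟩
    obtain ⟨w, hw, hwU, hwV⟩ := hZ U V hU hV ⟨x.1, hx, hxU⟩ ⟨y.1, hy, hyV⟩
    exact ⟨⟨w, h hw⟩, hw, hwU, hwV⟩, Z.isClosed.preimage continuous_subtype_val⟩

end Pool.Agent.Work.MP_ffcd14_ag
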