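import Pool.Agent.Work.MP_ffcd14_ag.Cyc.Rk

/-! # Charts and generic points -/

open MvPolynomial Topology TopologicalSpace

namespace Pool.Agent.Work.MP_ffcd14_ag

universe u

variable {k : Type u} [Field k] {L L' : Type u} [Field L] [Algebra k L] [Field L'] [Algebra k L']
  {P : Amb}

/-- Homogenisation with respect to a chart. -/
theorem homog (ς : ∀ i, P.σ i) (f : MvPolynomial P.V k) :
    ∃ (g : MvPolynomial P.V k) (a : P.ι →₀ ℕ), IsForm g a ∧
      ∀ (A : Type u) [CommRing A] [Algebra k A] (v : P.V → A), (∀ i, v ⟨i, ς i⟩ = 1) →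
        aeval v g = aeval v f := by
  induction f using MvPolynomial.induction_on with
  | C c => exact ⟨C c, 0, isWeightedHomogeneous_C _ _, fun _ _ _ _ _ => rfl⟩
  | add p q hp hq =>
    obtain ⟨g, a, hg, h⟩ := hp
    obtain ⟨g', b, hg', h'⟩ := hq
    refine ⟨g * mono ς b + g' * mono ς a, a + b, ?_, fun A _ _ v hv => ?_⟩
    · exact IsWeightedHomogeneous.add (hg.mul (mono_form ς b))
        (add_comm b a ▸ hg'.mul (mono_form ς a))
    · simp [aeval_mono ς _ v hv, h A v hv, h' A v hv]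
  | mul_X p s hp =>
    obtain ⟨g, a, hg, h⟩ := hp
    exact ⟨g * X s, _, hg.mul (IsForm.X s), fun A _ _ v hv => by simp [h A v hv]⟩

/-- Simultaneous homogenisation, in one degree. -/
theorem homog_many (ς : ∀ i, P.σ i) {κ : Type} [Finite κ] (f : κ → MvPolynomial P.V k) :
    ∃ (g : κ → MvPolynomial P.V k) (a : P.ι →₀ ℕ), (∀ j, IsForm (g j) a) ∧
      ∀ (A : Type u) [CommRing A] [Algebra k A] (v : P.V → A), (∀ i, v ⟨i, ς i⟩ = 1) →
        ∀ j, aeval v (g j) = aeval v (f j) := by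
  let _ := Fintype.ofFinite κ
  choose g a hg h using fun j => homog ς (f j)
  refine ⟨fun j => g j * mono ς (∑ j, a j - a j), ∑ j, a j, fun j => ?_, fun A _ _ v hv j => ?_⟩
  · have := (hg j).mul (mono_form ς (∑ j, a j - a j))
    rwa [add_tsub_cancel_of_le
      (Finset.single_le_sum (f := a) (fun _ _ => zero_le) (Finset.mem_univ j))] at this
  · simp [aeval_mono ς _ v hv, h j A v hv]

theorem hat_one {ς : ∀ i, P.σ i} {x : P.Pt k} (hx : InCh ς x) (i : P.ι) :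
    hat ς x ⟨i, ς i⟩ = 1 := by
  exact div_self (hx i)

theorem eval_hat_eq_zero {ς : ∀ i, P.σ i} {x : P.Pt k} (hx : InCh ς x) {f : MvPolynomial P.V k}
    {a : P.ι →₀ ℕ} (hf : IsForm f a) : eval (hat ς x) f = 0 ↔ ev x f = 0 := by
  have h : hat ς x = fun s => (fun i => (rp x ⟨i, ς i⟩)⁻¹) s.1 * rp x s :=
    funext fun s => by simp only [hat]; rw [div_eq_mul_inv, mul_comm]
  rw [h, hf.eval_scale (fun i => (rp x ⟨i, ς i⟩)⁻¹) (rp x), ← ev_eq, mul_eq_zero,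
    or_iff_right (chi_ne_zero (fun i => inv_ne_zero (hx i)) a)]

theorem exists_inCh (x : P.Pt k) : ∃ ς, InCh ς x := by
  have hς : ∀ i, ∃ s, (x i).rep s ≠ 0 := fun i => Function.ne_iff.mp (x i).rep_nonzero
  choose ς hς using hς
  exact ⟨ς, hς⟩

/-- Every vector with non-zero blocks represents a point. -/
theorem exists_pt (v : P.V → k) (hv : ∀ i, ∃ s, v ⟨i, s⟩ ≠ 0) :
    ∃ x : P.Pt k, ∃ μ : P.ι → k, (∀ i, μ i ≠ 0) ∧ rp x = fun s => μ s.1 * v s := by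
  have h : ∀ i, (fun s => v ⟨i, s⟩) ≠ 0 := fun i => Function.ne_iff.mpr (hv i)
  choose μ hμ using fun i => Projectivization.exists_smul_eq_mk_rep k _ (h i)
  refine ⟨fun i => Projectivization.mk k _ (h i), fun i => μ i, fun i => (μ i).ne_zero, ?_⟩
  funext s
  exact (congrFun (hμ s.1) s.2).symm

theorem exists_pt_hat (ς : ∀ i, P.σ i) (v : P.V → k) (hv : ∀ i, v ⟨i, ς i⟩ = 1) :
    ∃ x : P.Pt k, InCh ς x ∧ hat ς x = v := by
  obtain ⟨x, μ, hμ, h⟩ := exists_pt v fun i => ⟨ς i, by simp [hv]⟩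
  refine ⟨x, fun i => by simp [h, hv, hμ], funext fun s => ?_⟩
  simp only [hat, h, hv, mul_one]
  exact mul_div_cancel_left₀ _ (hμ _)

theorem Van.mul {Z : Sub k P} {f g : MvPolynomial P.V k} {a b : P.ι →₀ ℕ} (hf : IsForm f a)
    (hg : IsForm g b) (h : Van (Z : Set (P.Pt k)) (f * g)) :
    Van (Z : Set (P.Pt k)) f ∨ Van (Z : Set (P.Pt k)) g := by
  exact isPreirreducible_iff_isClosed_union_isClosed.mp Z.isIrreducible.2 _ _ (isClosed_zero hf)
    (isClosed_zero hg) fun x hx => mul_eq_zero.mp ((ev_mul x f g).symm.trans (h x hx))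

theorem form_prod {κ : Type} (s : Finset κ) (f : κ → MvPolynomial P.V k)
    (hf : ∀ j ∈ s, ∃ a, IsForm (f j) a) : ∃ a, IsForm (∏ j ∈ s, f j) a :=
  Finset.prod_induction f (fun g => ∃ a, IsForm g a)
    (fun _ _ ⟨_, ha⟩ ⟨_, hb⟩ => ⟨_, ha.mul hb⟩) ⟨0, IsForm.one⟩ hf

theorem not_van_prod {Z : Sub k P} {κ : Type} (s : Finset κ) (f : κ → MvPolynomial P.V k)
    (hf : ∀ j ∈ s, ∃ a, IsForm (f j) a) (h : ∀ j ∈ s, ¬ Van (Z : Set (P.Pt k)) (f j)) :
    ¬ Van (Z : Set (P.Pt k)) (∏ j ∈ s, f j) := by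
  classical
  induction s using Finset.induction_on with
  | empty =>
    obtain ⟨x, hx⟩ := Z.isIrreducible.1
    intro h0
    simpa [ev] using h0 x hx
  | insert j s hj ih =>
    rw [Finset.prod_insert hj]
    obtain ⟨a, ha⟩ := hf j (Finset.mem_insert_self j s)
    obtain ⟨b, hb⟩ := form_prod s f fun i hi => hf i (Finset.mem_insert_of_mem hi)
    intro h0
    exact (h0.mul ha hb).elim (h j (Finset.mem_insert_self j s))
      (ih (fun i hi => hf i (Finset.mem_insert_of_mem hi))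
        fun i hi => h i (Finset.mem_insert_of_mem hi))

theorem subset_of_van {A B : Set (P.Pt k)} (hA : IsClosed A)
    (h : ∀ f a, IsForm f a → Van A f → Van B f) : B ⊆ A := by
  intro x hx
  by_contra hxA
  obtain ⟨g, a, hg, hgx, hgA⟩ := isClosed_iff_form.mp hA x hxA
  exact hgx (h g a hg hgA x hx)

theorem van_closure {A : Set (P.Pt k)} {f : MvPolynomial P.V k} {a : P.ι →₀ ℕ} (hf : IsForm f a) :
    Van (closure A) f ↔ Van A f := by
  exact ⟨fun h x hx => h x (subset_closure hx),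
    fun h => closure_minimal (t := {y | ev y f = 0}) h (isClosed_zero hf)⟩

/-- A form which vanishes on a non-empty principal open part of `Z` vanishes on `Z`. -/
theorem van_of_open {Z : Sub k P} {f g : MvPolynomial P.V k} {a b : P.ι →₀ ℕ} (hf : IsForm f a)
    (hg : IsForm g b) (hgZ : ¬ Van (Z : Set (P.Pt k)) g)
    (h : ∀ x ∈ Z, ev x g ≠ 0 → ev x f = 0) : Van (Z : Set (P.Pt k)) f := by
  refine (Van.mul hf hg fun x hx => ?_).resolve_right hgZ
  rw [ev_mul]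
  by_cases hx0 : ev x g = 0
  · rw [hx0, mul_zero]
  · rw [h x hx hx0, zero_mul]

theorem inCh_iff [Fintype P.ι] {ς : ∀ i, P.σ i} {x : P.Pt k} :
    InCh ς x ↔ ev x (∏ i, X (⟨i, ς i⟩ : P.V)) ≠ 0 := by
  rw [ev_eq, map_prod, Finset.prod_ne_zero_iff]
  simp [InCh]

theorem exists_inCh_iff {Z : Sub k P} {ς : ∀ i, P.σ i} :
    (∃ x ∈ Z, InCh ς x) ↔ ∀ i, ¬ Van (Z : Set (P.Pt k)) (X ⟨i, ς i⟩) := by
  let _ := Fintype.ofFinite P.ι
  constructor
  · rintro ⟨x, hx, h⟩ i hv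
    exact h i (by simpa [rp] using hv x hx)
  · intro h
    have h1 := not_van_prod (Z := Z) Finset.univ (fun i => X (⟨i, ς i⟩ : P.V))
      (fun i _ => ⟨_, IsForm.X _⟩) fun i _ => h i
    by_contra h2
    exact h1 fun x hx => by
      by_contra h3
      exact h2 ⟨x, hx, inCh_iff.mpr h3⟩

theorem mem_chI_form {Z : Sub k P} {ς : ∀ i, P.σ i} (h : ∃ x ∈ Z, InCh ς x)
    {f : MvPolynomial P.V k} {a : P.ι →₀ ℕ} (hf : IsForm f a) :
    f ∈ chI (Z : Set (P.Pt k)) ς ↔ Van (Z : Set (P.Pt k)) f := by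
  let _ := Fintype.ofFinite P.ι
  refine ⟨fun hf0 => ?_, fun hv x hx hς => (eval_hat_eq_zero hς hf).mpr (hv x hx)⟩
  obtain ⟨b, hb⟩ := form_prod (k := k) Finset.univ (fun i => X (⟨i, ς i⟩ : P.V))
    fun i _ => ⟨_, IsForm.X _⟩
  obtain ⟨x, hx, hς⟩ := h
  exact van_of_open hf hb (fun h0 => inCh_iff.mp hς (h0 x hx)) fun y hy h0 =>
    (eval_hat_eq_zero (inCh_iff.mpr h0) hf).mp (hf0 y hy (inCh_iff.mpr h0))

theorem mem_chI_congr {Z : Set (P.Pt k)} {ς : ∀ i, P.σ i} {f g : MvPolynomial P.V k}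
    (h : ∀ (A : Type u) [CommRing A] [Algebra k A] (v : P.V → A), (∀ i, v ⟨i, ς i⟩ = 1) →
      aeval v g = aeval v f) : g ∈ chI Z ς ↔ f ∈ chI Z ς := by
  refine forall₃_congr fun x _ hx => ?_
  have h1 : eval (hat ς x) g = eval (hat ς x) f := h k _ (hat_one hx)
  rw [h1]

theorem chI_prime {Z : Sub k P} {ς : ∀ i, P.σ i} (h : ∃ x ∈ Z, InCh ς x) :
    (chI (Z : Set (P.Pt k)) ς).IsPrime := by
  refine ⟨?_, fun {f g} hfg => ?_⟩
  · obtain ⟨x, hx, hς⟩ := h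
    rw [Ideal.ne_top_iff_one]
    intro h1
    simpa using h1 x hx hς
  · obtain ⟨f', a, hf, hf'⟩ := homog ς f
    obtain ⟨g', b, hg, hg'⟩ := homog ς g
    rw [← mem_chI_congr hf', ← mem_chI_congr hg', mem_chI_form h hf, mem_chI_form h hg]
    refine Van.mul hf hg ((mem_chI_form h (hf.mul hg)).mp ((mem_chI_congr ?_).mpr hfg))
    intro A _ _ v hv
    rw [map_mul, map_mul, hf' A v hv, hg' A v hv]

theorem chI_anti {A B : Set (P.Pt k)} (h : A ⊆ B) (ς : ∀ i, P.σ i) : chI B ς ≤ chI A ς := by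
  exact fun f hf x hx => hf x (h hx)

theorem le_of_chI_le {Z T : Sub k P} {ς : ∀ i, P.σ i} (hZ : ∃ x ∈ Z, InCh ς x)
    (hT : ∃ x ∈ T, InCh ς x) (h : chI (Z : Set (P.Pt k)) ς ≤ chI (T : Set (P.Pt k)) ς) :
    T ≤ Z := by
  exact subset_of_van Z.isClosed fun f a hf hv =>
    (mem_chI_form hT hf).mp (h ((mem_chI_form hZ hf).mpr hv))

theorem exists_frac (p : Ideal (MvPolynomial P.V k)) [p.IsPrime] :
    ∃ (L : Type u) (_ : Field L) (_ : Algebra k L) (v : P.V → L),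
      (∀ f, aeval v f = 0 ↔ f ∈ p) ∧ IntermediateField.adjoin k (Set.range v) = ⊤ := by
  let Q := MvPolynomial P.V k ⧸ p
  let v : P.V → FractionRing Q := fun s => algebraMap Q _ (Ideal.Quotient.mk p (X s))
  have h : ∀ f, aeval v f = algebraMap Q (FractionRing Q) (Ideal.Quotient.mk p f) := by
    intro f
    have : (aeval v : MvPolynomial P.V k →ₐ[k] FractionRing Q) =
        (IsScalarTower.toAlgHom k Q _).comp (Ideal.Quotient.mkₐ k p) := by
      ext s; exact aeval_X v s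
    rw [this]; rfl
  refine ⟨FractionRing Q, inferInstance, inferInstance, v, fun f => ?_, ?_⟩
  · rw [h, map_eq_zero_iff _ (IsFractionRing.injective Q _), Ideal.Quotient.eq_zero_iff_mem]
  · rw [eq_top_iff]
    intro z _
    obtain ⟨x, y, -, rfl⟩ := IsFractionRing.div_surjective Q z
    obtain ⟨x, rfl⟩ := Ideal.Quotient.mk_surjective x
    obtain ⟨y, rfl⟩ := Ideal.Quotient.mk_surjective y
    exact (IntermediateField.mem_adjoin_range_iff k v _).mpr ⟨x, y, by rw [h, h]⟩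

theorem exists_gen (Z : Sub k P) (ς : ∀ i, P.σ i) (h : ∃ x ∈ Z, InCh ς x) :
    ∃ (L : Type u) (_ : Field L) (_ : Algebra k L) (v : P.V → L), IsGen (Z : Set (P.Pt k)) v ∧
      (∀ i, v ⟨i, ς i⟩ = 1) ∧ IntermediateField.adjoin k (Set.range v) = ⊤ := by
  have := chI_prime h
  obtain ⟨L, _, _, v, hv, ht⟩ := exists_frac (chI (Z : Set (P.Pt k)) ς)
  have h1 : ∀ i, v ⟨i, ς i⟩ = 1 := fun i => by
    have := (hv (X ⟨i, ς i⟩ - 1)).mpr fun x _ hς => by simp [hat_one hς]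
    simpa [sub_eq_zero] using this
  exact ⟨L, _, _, v, ⟨fun i => ⟨ς i, by simp [h1]⟩,
    fun f a hf => (hv f).trans (mem_chI_form h hf)⟩, h1, ht⟩

theorem exists_gen' (Z : Sub k P) :
    ∃ (L : Type u) (_ : Field L) (_ : Algebra k L) (v : P.V → L), IsGen (Z : Set (P.Pt k)) v := by
  obtain ⟨x, hx⟩ := Z.isIrreducible.1
  obtain ⟨ς, hς⟩ := exists_inCh x
  obtain ⟨L, _, _, v, hv, -⟩ := exists_gen Z ς ⟨x, hx, hς⟩
  exact ⟨L, _, _, v, hv⟩

theorem IsGen.inCh {Z : Sub k P} {v : P.V → L} (h : IsGen (Z : Set (P.Pt k)) v)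
    {ς : ∀ i, P.σ i} (hv : ∀ i, v ⟨i, ς i⟩ ≠ 0) : ∃ x ∈ Z, InCh ς x := by
  exact exists_inCh_iff.mpr fun i h0 => hv i (by simpa using (h.iff _ _ (IsForm.X _)).mpr h0)

theorem IsGen.ker {Z : Sub k P} {v : P.V → L} (h : IsGen (Z : Set (P.Pt k)) v)
    {ς : ∀ i, P.σ i} (hv : ∀ i, v ⟨i, ς i⟩ = 1) :
    RingHom.ker (aeval v : MvPolynomial P.V k →ₐ[k] L) = chI (Z : Set (P.Pt k)) ς := by
  ext f
  obtain ⟨g, a, hg, hg'⟩ := homog ς f
  rw [RingHom.mem_ker, ← hg' L v hv, h.iff g a hg, ← mem_chI_congr hg',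
    mem_chI_form (h.inCh fun i => by simp [hv]) hg]

theorem IsGen.scale {Z : Set (P.Pt k)} {v : P.V → L} (h : IsGen Z v) (μ : P.ι → L)
    (hμ : ∀ i, μ i ≠ 0) : IsGen Z fun s => μ s.1 * v s := by
  refine ⟨fun i => (h.ne i).imp fun s hs => mul_ne_zero (hμ i) hs, fun f a hf => ?_⟩
  have h1 : (a.prod fun i n => μ i ^ n) ≠ 0 :=
    Finset.prod_ne_zero_iff.mpr fun i _ => pow_ne_zero _ (hμ i)
  rw [hf.aeval_scale, mul_eq_zero, or_iff_right h1, h.iff f a hf]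

theorem IsGen.map {Z : Set (P.Pt k)} {v : P.V → L} (h : IsGen Z v) (ψ : L →ₐ[k] L') :
    IsGen Z fun s => ψ (v s) := by
  refine ⟨fun i => (h.ne i).imp fun s hs => (map_ne_zero ψ).mpr hs, fun f a hf => ?_⟩
  rw [← h.iff f a hf, ← comp_aeval_apply, map_eq_zero]

theorem IsGen.le {Z Z' : Sub k P} {v : P.V → L} {v' : P.V → L'}
    (h : IsGen (Z : Set (P.Pt k)) v) (h' : IsGen (Z' : Set (P.Pt k)) v')
    (H : ∀ (f : MvPolynomial P.V k) a, IsForm f a → aeval v f = 0 → aeval v' f = 0) : Z' ≤ Z := by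
  exact subset_of_van Z.isClosed fun f a hf hv =>
    (h'.iff f a hf).mp (H f a hf ((h.iff f a hf).mpr hv))

theorem IsGen.unique {Z Z' : Sub k P} {v : P.V → L} (h : IsGen (Z : Set (P.Pt k)) v)
    (h' : IsGen (Z' : Set (P.Pt k)) v) : Z = Z' := by
  exact le_antisymm (h'.le h fun _ _ _ h => h) (h.le h' fun _ _ _ h => h)

theorem IsGen.lift {Z : Sub k P} {v : P.V → L} {v' : P.V → L'} (h : IsGen (Z : Set (P.Pt k)) v)
    (h' : IsGen (Z : Set (P.Pt k)) v') {ς : ∀ i, P.σ i} (hv : ∀ i, v ⟨i, ς i⟩ = 1)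
    (hv' : ∀ i, v' ⟨i, ς i⟩ = 1) (ht : IntermediateField.adjoin k (Set.range v) = ⊤) :
    ∃ ψ : L →ₐ[k] L', ∀ s, ψ (v s) = v' s := by
  have hk : ∀ f : MvPolynomial P.V k, aeval v f = 0 ↔ aeval v' f = 0 := fun f => by
    rw [← RingHom.mem_ker, ← RingHom.mem_ker, h.ker hv, h'.ker hv']
  let φ : MvPolynomial P.V k →ₐ[k] L := aeval v
  have hs := φ.rangeRestrict_surjective
  have hr : ∀ f, φ.rangeRestrict f = 0 ↔ aeval v' f = 0 := fun f => by
    rw [← hk, Subtype.ext_iff]; rfl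
  let g : φ.range →ₐ[k] L' := AlgHom.liftOfSurjective φ.rangeRestrict hs (aeval v')
    fun f hf => (hr f).mp hf
  have hg : ∀ f, g (φ.rangeRestrict f) = aeval v' f := fun f =>
    AlgHom.liftOfSurjective_apply ..
  have hinj : Function.Injective g := by
    rw [injective_iff_map_eq_zero]
    intro x hx
    obtain ⟨f, rfl⟩ := hs x
    exact (hr f).mpr ((hg f).symm.trans hx)
  have : IsFractionRing φ.range L := IsFractionRing.of_field _ _ fun z => by
    obtain ⟨r, s, rfl⟩ := (IntermediateField.mem_adjoin_range_iff k v z).mp (ht ▸ trivial)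
    exact ⟨φ.rangeRestrict r, φ.rangeRestrict s, rfl⟩
  refine ⟨IsFractionRing.liftAlgHom hinj, fun s => ?_⟩
  have h1 : v s = algebraMap φ.range L (φ.rangeRestrict (X s)) := by simp [φ]
  rw [h1, IsFractionRing.liftAlgHom_apply, IsFractionRing.lift_algebraMap]
  simpa using hg (X s)

theorem exists_loc_norm [IsAlgClosed k] (ς : ∀ i, P.σ i) (v : P.V → L)
    (hv : ∀ i, v ⟨i, ς i⟩ = 1) : ∃ Z : Sub k P, IsGen (Z : Set (P.Pt k)) v := by
  let S : Set (P.Pt k) := {x | ∀ f a, IsForm f a → aeval v f = 0 → ev x f = 0}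
  have key : ∀ f a, IsForm f a → aeval v f ≠ 0 → ∃ x ∈ S, ev x f ≠ 0 := by
    intro f a hf h0
    let p := RingHom.ker (aeval v : MvPolynomial P.V k →ₐ[k] L)
    have : p.IsPrime := RingHom.ker_isPrime _
    have h1 : f ∉ vanishingIdeal k (zeroLocus k p) := by
      rw [IsPrime.vanishingIdeal_zeroLocus]
      exact h0
    rw [mem_vanishingIdeal_iff] at h1
    push Not at h1
    obtain ⟨w, hw, hwf⟩ := h1
    obtain ⟨x, hx, rfl⟩ := exists_pt_hat ς w fun i => by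
      have := hw (X ⟨i, ς i⟩ - 1) (by simp [p, RingHom.mem_ker, hv])
      simpa [sub_eq_zero] using this
    exact ⟨x, fun g b hg hg0 => (eval_hat_eq_zero hx hg).mp (hw g hg0),
      fun h => hwf ((eval_hat_eq_zero hx hf).mpr h)⟩
  refine ⟨⟨S, ⟨?_, ?_⟩, ?_⟩, fun i => ⟨ς i, by simp [hv]⟩,
    fun f a hf => ⟨fun h0 x hx => hx f a hf h0, fun h0 => ?_⟩⟩
  · obtain ⟨x, hx, -⟩ := key 1 0 IsForm.one (by simp)
    exact ⟨x, hx⟩
  · rintro U V hU hV ⟨x, hx, hxU⟩ ⟨y, hy, hyV⟩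
    obtain ⟨f, a, hf, hfx, hfU⟩ := mem_nhds_iff_form.mp (hU.mem_nhds hxU)
    obtain ⟨g, b, hg, hgy, hgV⟩ := mem_nhds_iff_form.mp (hV.mem_nhds hyV)
    obtain ⟨z, hz, h0⟩ := key (f * g) _ (hf.mul hg) (by
      rw [map_mul]
      exact mul_ne_zero (fun h => hfx (hx f a hf h)) fun h => hgy (hy g b hg h))
    rw [ev_mul, mul_ne_zero_iff] at h0
    exact ⟨z, hz, hfU z h0.1, hgV z h0.2⟩
  · refine isClosed_iff_form.mpr fun x hx => ?_
    simp only [S, Set.mem_ofPred_eq, not_forall] at hx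
    obtain ⟨f, a, hf, h0, hx⟩ := hx
    exact ⟨f, a, hf, hx, fun y hy => hy f a hf h0⟩
  · by_contra h1
    obtain ⟨x, hx, h2⟩ := key f a hf h1
    exact h2 (h0 x hx)

/-- Nullstellensatz: every vector with non-zero blocks over an extension field is a generic point
of an irreducible closed set. -/
theorem exists_loc [IsAlgClosed k] (v : P.V → L) (hv : ∀ i, ∃ s, v ⟨i, s⟩ ≠ 0) :
    ∃ Z : Sub k P, IsGen (Z : Set (P.Pt k)) v := by
  choose ς hς using hv
  obtain ⟨Z, hZ⟩ := exists_loc_norm (k := k) ς (fun s => (v ⟨s.1, ς s.1⟩)⁻¹ * v s)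
    fun i => inv_mul_cancel₀ (hς i)
  refine ⟨Z, ?_⟩
  have := hZ.scale (fun i => v ⟨i, ς i⟩) hς
  simpa only [mul_inv_cancel_left₀ (hς _)] using this

/-- Every prime of a chart is the ideal of an irreducible closed set. -/
theorem exists_chI_eq [IsAlgClosed k] (ς : ∀ i, P.σ i) (p : Ideal (MvPolynomial P.V k))
    [p.IsPrime] (hp : ∀ i, X ⟨i, ς i⟩ - 1 ∈ p) :
    ∃ Z : Sub k P, (∃ x ∈ Z, InCh ς x) ∧ chI (Z : Set (P.Pt k)) ς = p := by
  obtain ⟨L, _, _, v, hv, -⟩ := exists_frac p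
  have h1 : ∀ i, v ⟨i, ς i⟩ = 1 := fun i => by
    simpa [sub_eq_zero] using (hv _).mpr (hp i)
  obtain ⟨Z, hZ⟩ := exists_loc (k := k) v fun i => ⟨ς i, by simp [h1]⟩
  refine ⟨Z, hZ.inCh fun i => by simp [h1], ?_⟩
  rw [← hZ.ker h1]
  ext f
  exact hv f

end Pool.Agent.Work.MP_ffcd14_ag
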