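import Pool.Agent.Work.MP_ffcd14_ag.Cyc.HI

/-! # From semi-positivity to the Hodge standard conjecture and back, in a numerical theory -/

open MvPolynomial Topology TopologicalSpace Filter

namespace Pool.Agent.Work.MP_ffcd14_ag

universe u v w

variable {k : Type u} [Field k] [IsAlgClosed k] {K : Type v} [Field K] [CharZero K]
  {P Q : Amb} {C : NT.{u, v, w} k K}

theorem Hom.irreducible {X : Var k P} {Y : Var k Q} (φ : Hom X Y) (hX : IsIrreducible X.pts)
    (h : Function.Surjective φ.toFun) : IsIrreducible Y.pts := by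
  have := Subtype.irreducibleSpace hX
  have h1 := (IrreducibleSpace.isIrreducible_univ X.pts).image (Subtype.val ∘ φ.toFun)
    (continuous_subtype_val.comp φ.continuous).continuousOn
  rwa [Set.image_univ, h.range_comp, Subtype.range_coe] at h1

omit [IsAlgClosed k] in
theorem glue_ln (X : Var k P) (a : P.ι →₀ ℕ) : ln C X a ∈ AA C X 1 :=
  HS_le_AA C X (ln_mem_HS C X a)

omit [IsAlgClosed k] in
theorem glue_pow {X : Var k P} {l y : EE C X} (hl : l ∈ AA C X 1) {c : ℕ} (hy : y ∈ AA C X c)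
    (p : ℕ) : l ^ p * y ∈ AA C X (c + p) := by
  induction p with
  | zero => simpa using hy
  | succ p ih =>
    have := AA_mul C X ih hl
    rwa [mul_right_comm, ← pow_succ] at this

variable (C) in
/-- The conjecture in codimension `n` and dimension `m + 2 n`. -/
def HN (X : Var k P) (l : EE C X) (n m : ℕ) : Prop :=
  ∀ y ∈ AA C X n, N0 C X (l ^ (m + 1) * y) → ¬ N0 C X y → 0 < (-1) ^ n * tau C X (l ^ m * y * y)

omit [IsAlgClosed k] in
theorem sh_of_hn (X : Var k P) (m : ℕ) (hm : m + 4 = X.dim) (a : P.ι →₀ ℕ)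
    (h : HN C X (ln C X a) 2 m) : SH C X m (ln C X a) := by
  intro y hy h1
  by_cases h2 : N0 C X y
  · rw [mul_comm, h2 _ _ (glue_pow (glue_ln X a) hy m)]
  · simpa using (h y hy
      ((N0_iff C X (c' := 1) (by omega) (glue_pow (glue_ln X a) hy _)).2 h1) h2).le

theorem glue_one (X : Var k P) (hX : IsIrreducible X.pts) : (1 : EE C X) ∈ AA C X 0 := by
  rw [AA_eq_CS C X hX]
  exact Submodule.subset_span ⟨X.top hX, subset_rfl, X.sdim_top hX, (cy_top C X hX).symm⟩

variable (hC : C.Cyc)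
include hC

/-- Every class of codimension two is primitive up to `l D`. -/
theorem glue_prim (hF : NFin C) (X : Var k P) (hX : IsIrreducible X.pts) (m : ℕ) (hm : m + 4 = X.dim)
    {a : P.ι →₀ ℕ} (ha : ∀ i, 0 < a i) {y : EE C X} (hy : y ∈ AA C X 2) :
    ∃ D ∈ AA C X 1, ∀ D' ∈ AA C X 1,
      tau C X (ln C X a ^ (m + 1) * (y - ln C X a * D) * D') = 0 := by
  obtain ⟨ρ, e, he, hs, hi⟩ := hF X 1 (m + 3) (by omega)
  have hl := glue_ln (C := C) X a
  have hst := fun D => hi_strict hC X hX (m + 2) hm ha (D := D)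
  generalize ln C X a = l at hl hst ⊢
  have orth : ∀ c, ∀ z ∈ AA C X c, (∀ j, tau C X (z * e j) = 0) → ∀ D ∈ AA C X 1,
      tau C X (z * D) = 0 := fun c z hz h D hD => by
    obtain ⟨t, ht⟩ := hs D hD
    have := ht c z hz
    rw [mul_comm, mul_sub, map_sub, Finset.mul_sum, map_sum,
      Finset.sum_eq_zero fun j _ => by rw [mul_smul_comm, map_smul, h, smul_zero]] at this
    simpa using this
  let D : (Fin ρ → ℚ) →ₗ[ℚ] EE C X := Fintype.linearCombination ℚ e
  have hD : ∀ s, D s ∈ AA C X 1 := fun s => by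
    rw [Fintype.linearCombination_apply]
    exact Submodule.sum_mem _ fun j _ => Submodule.smul_mem _ _ (he j)
  let T : (Fin ρ → ℚ) →ₗ[ℚ] Fin ρ → ℚ := LinearMap.pi fun j =>
    tau C X ∘ₗ LinearMap.mulRight ℚ (e j) ∘ₗ LinearMap.mulLeft ℚ (l ^ (m + 2)) ∘ₗ D
  have hT : ∀ s j, T s j = tau C X (l ^ (m + 2) * D s * e j) := fun _ _ => rfl
  have inj : Function.Injective T := by
    rw [injective_iff_map_eq_zero]
    intro s h0
    have := orth _ _ (glue_pow hl (hD s) (m + 2)) fun j => by rw [← hT, h0]; rfl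
    refine hi s (show N0 C X (D s) from hst (D s) (hD s) ?_ (this _ (hD s)))
    rw [← this _ hl, mul_right_comm, ← pow_succ]
  obtain ⟨s, hs'⟩ := LinearMap.injective_iff_surjective.1 inj
    fun j => tau C X (l ^ (m + 1) * y * e j)
  have hy' : y - l * D s ∈ AA C X 2 := (AA C X 2).sub_mem hy
    (AA_mul C X (c := 1) (c' := 1) hl (hD s))
  refine ⟨D s, hD s, orth _ _ (glue_pow hl hy' (m + 1)) fun j => ?_⟩
  have := congrFun hs' j
  rw [hT] at this
  rw [mul_sub, sub_mul, map_sub, ← this, ← mul_assoc, ← pow_succ, sub_self]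

theorem hn_two (hF : NFin C) (X : Var k P) (hX : IsIrreducible X.pts) (m : ℕ) (hm : m + 4 = X.dim)
    {a : P.ι →₀ ℕ} (ha : ∀ i, 0 < a i)
    (hL : ∀ y ∈ AA C X (m + 2), ∃ x ∈ AA C X 2, y = ln C X a ^ m * x)
    (h : SH C X m (ln C X a)) : HN C X (ln C X a) 2 m := by
  intro y hy h1 h2
  have hl := glue_ln (C := C) X a
  rw [neg_one_sq, one_mul]
  refine (h y hy (h1 1)).lt_of_ne fun h0 => h2 ?_
  refine (N0_iff C X (c' := m + 2) (by omega) hy).2 fun w hw => ?_
  obtain ⟨z, hz, rfl⟩ := hL w hw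
  obtain ⟨D, hD, hp⟩ := glue_prim hC hF X hX m hm ha hz
  have hz' : z - ln C X a * D ∈ AA C X 2 := (AA C X 2).sub_mem hz
    (AA_mul C X (c := 1) (c' := 1) hl hD)
  generalize ln C X a = l at *
  obtain ⟨z', rfl⟩ : ∃ z', z = z' + l * D := ⟨z - l * D, by ring⟩
  rw [add_sub_cancel_right] at hp hz'
  have key : ∀ c : ℚ, 0 ≤ 2 * c * tau C X (l ^ m * y * z') + tau C X (l ^ m * z' * z') := fun c => by
    have := h (c • y + z') (add_mem (Submodule.smul_mem _ _ hy) hz') fun D' hD' => by
      rw [mul_add, add_mul, map_add, hp D' hD', mul_smul_comm, smul_mul_assoc, map_smul,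
        h1 1 D' hD', smul_zero, add_zero]
    have e : l ^ m * (c • y + z') * (c • y + z') =
        (c * c) • (l ^ m * y * y) + (2 * c) • (l ^ m * y * z') + l ^ m * z' * z' := by
      simp only [Algebra.smul_def, map_mul, map_ofNat]
      ring
    rw [e, map_add, map_add, map_smul, map_smul, ← h0] at this
    simpa using this
  have h3 : tau C X (l ^ m * y * z') = 0 := by
    by_contra hne
    have := key (-(tau C X (l ^ m * z' * z') + 1) / (2 * tau C X (l ^ m * y * z')))
    rw [show ∀ p q : ℚ, 2 * (p / (2 * q)) * q = p / (2 * q) * (2 * q) from fun p q => by ring,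
      div_mul_cancel₀ _ (mul_ne_zero two_ne_zero hne)] at this
    linarith
  rw [show y * (l ^ m * (z' + l * D)) = l ^ m * y * z' + l ^ (m + 1) * y * D by ring, map_add, h3,
    h1 1 D hD, add_zero]

theorem hn_one (X : Var k P) (hX : IsIrreducible X.pts) {m : ℕ} (hm : m + 2 = X.dim)
    {a : P.ι →₀ ℕ} (ha : ∀ i, 0 < a i) : HN C X (ln C X a) 1 m := by
  intro y hy h1 h2
  have h3 := h1 0 1 (glue_one X hX)
  rw [mul_one] at h3
  have hr := rcsA hC X hX (List.replicate m a) (by simpa using hm)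
  rw [show lp' C X (List.replicate m a) = ln C X a ^ m by simp [lp']] at hr
  have h4 := hr.nonpos (glue_ln X a) hy
    (by rw [← pow_succ, ← pow_succ, show m + 1 + 1 = X.dim from hm]; exact tau_pos hC X hX ha)
    (by rw [← pow_succ, h3])
  have := h4.lt_of_ne fun h0 => h2 (hi_strict hC X hX m hm ha hy h3 h0)
  linarith

theorem hn_zero (X : Var k P) (hX : IsIrreducible X.pts)
    {a : P.ι →₀ ℕ} (ha : ∀ i, 0 < a i) : HN C X (ln C X a) 0 X.dim := by
  intro y hy _ h2
  have : y ∈ Submodule.span ℚ {(1 : EE C X)} := by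
    rw [AA_eq_CS C X hX] at hy
    refine Submodule.span_mono ?_ hy
    rintro _ ⟨U, hU, hd, rfl⟩
    rw [eq_of_sdim_le (U := U) (Z := X.top hX) hU (by rw [X.sdim_top hX]; omega), cy_top]
    rfl
  obtain ⟨q, rfl⟩ := Submodule.mem_span_singleton.1 this
  have q0 : q ≠ 0 := by
    rintro rfl
    exact h2 fun c y _ => by simp
  have := tau_pos hC X hX ha
  simp only [pow_zero, one_mul, mul_smul_comm, mul_one, map_smul, smul_eq_mul, ← mul_assoc]
  exact mul_pos (mul_self_pos.2 q0) this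

end Pool.Agent.Work.MP_ffcd14_ag
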