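import Pool.Agent.Work.MP_ffcd14_ag.Cyc.ChowCyc
import Pool.Agent.Work.MP_ffcd14_ag.Cyc.GlueN

-- merged part: Pool.Agent.Work.MP_ffcd14_ag.Cyc.WN
section
/-! # The numerical theory of a Weil cohomology: even classes and the rational trace -/

open MvPolynomial Topology TopologicalSpace Filter

namespace Pool.Agent.Work.MP_ffcd14_ag.W

set_option linter.unusedSectionVars false

universe u v w

variable {k : Type u} [Field k] {K : Type v} [Field K] [CharZero K] {P P' Q S : Amb}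
  (C : Weil.{u, v, w} k K)

/-- The even part of the cohomology. -/
noncomputable def evn (X : Var k P) : Subalgebra K (C.H X) := C.toCoh.evenSub X

omit [CharZero K] in
theorem mem_evn {X : Var k P} {c : ℕ} {x : C.H X} (hx : C.deg X (2 * c) x) : x ∈ evn C X :=
  Submodule.mem_iSup_of_mem (p := fun c => C.toCoh.gr X (2 * c)) c ((C.gr_iff X _ x).2 hx)

omit [CharZero K] in
theorem evn_ind {C : Weil.{u, v, w} k K} (X : Var k P) {p : C.H X → Prop}
    (h1 : ∀ c a, C.deg X (2 * c) a → p a) (h0 : p 0)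
    (h2 : ∀ a b, p a → p b → p (a + b)) {x : C.H X} (hx : x ∈ evn C X) : p x := by
  have hx' : x ∈ ⨆ c, C.toCoh.gr X (2 * c) := hx
  exact Submodule.iSup_induction (fun c => C.toCoh.gr X (2 * c)) (motive := p) hx'
    (fun c a ha => h1 c a ((C.gr_iff X _ _).1 ha)) h0 h2

omit [CharZero K] in
theorem evn_comm {X : Var k P} {x y : C.H X} (hx : x ∈ evn C X) (hy : y ∈ evn C X) :
    x * y = y * x := by
  refine evn_ind X (p := fun x => x * y = y * x) (fun c a ha => ?_) (by simp)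
    (fun a b ha hb => by rw [add_mul, mul_add, ha, hb]) hx
  refine evn_ind X (p := fun y => a * y = y * a) (fun c' b hb => ?_) (by simp)
    (fun b b' hb hb' => by rw [add_mul, mul_add, hb, hb']) hy
  rw [(C.pd X).2.2.2.1 _ _ a b ha hb]
  simp [mul_assoc, pow_mul]

omit [CharZero K] in
theorem pull_evn {X : Var k P} {Y : Var k Q} (φ : Hom X Y) {y : C.H Y} (hy : y ∈ evn C Y) :
    C.pull φ y ∈ evn C X := by
  obtain ⟨f, hf⟩ := C.pull_hom φ
  refine evn_ind Y (p := fun y => C.pull φ y ∈ evn C X)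
    (fun c a ha => mem_evn C (C.pull_gr φ _ a ha)) ?_ (fun a b ha hb => ?_) hy
  · rw [← hf, map_zero]
    exact zero_mem _
  · rw [← hf] at ha hb ⊢
    rw [map_add]
    exact add_mem ha hb

/-- The even cohomology, a commutative ring. -/
def EE (X : Var k P) : Type w := evn C X

noncomputable instance (X : Var k P) : Ring (EE C X) := inferInstanceAs (Ring (evn C X))

noncomputable instance (X : Var k P) : CommRing (EE C X) where
  mul_comm := fun x y => Subtype.ext (evn_comm C x.2 y.2)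

noncomputable instance (X : Var k P) : Algebra K (EE C X) :=
  inferInstanceAs (Algebra K (evn C X))

noncomputable instance (X : Var k P) : Algebra ℚ (EE C X) :=
  ((algebraMap K (EE C X)).comp (algebraMap ℚ K)).toAlgebra

instance (X : Var k P) : IsScalarTower ℚ K (EE C X) := IsScalarTower.of_algebraMap_eq' rfl

/-- The underlying cohomology class. -/
noncomputable def vl (X : Var k P) : EE C X →ₐ[K] C.H X := (evn C X).val

/-- An even class as an element of the even part. -/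
def mkE {X : Var k P} (x : C.H X) (hx : x ∈ evn C X) : EE C X := ⟨x, hx⟩

omit [CharZero K] in
@[simp] theorem vl_mkE {X : Var k P} (x : C.H X) (hx : x ∈ evn C X) :
    vl C X (mkE C x hx) = x := rfl

theorem vl_qsmul {X : Var k P} (q : ℚ) (x : EE C X) : vl C X (q • x) = (q : K) • vl C X x := by
  rw [← map_smul, Rat.cast_smul_eq_qsmul]

/-- The trace as a linear map. -/
noncomputable def trL (X : Var k P) : C.H X →ₗ[K] K := (C.pd X).2.1.mk' _

omit [CharZero K] in
@[simp] theorem trL_apply (X : Var k P) (x : C.H X) : trL C X x = C.tr X x := rfl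

/-- The rational trace. -/
noncomputable def tau (X : Var k P) : EE C X →ₗ[ℚ] ℚ :=
  rho K ∘ₗ (trL C X ∘ₗ (vl C X).toLinearMap).restrictScalars ℚ

/-- The hyperplane classes. -/
noncomputable def hy (X : Var k P) (i : P.ι) : EE C X :=
  mkE C (C.hyp X i) (mem_evn C (C.alg_gr X 1 _ (C.hyp_alg X i)))

/-- The class of `O(a)`. -/
noncomputable def ln (X : Var k P) (a : P.ι →₀ ℕ) : EE C X := lin (hy C X) a

/-- Pull-back as an algebra map. -/
noncomputable def plH {X : Var k P} {Y : Var k Q} (φ : Hom X Y) : C.H Y →ₐ[K] C.H X :=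
  (C.pull_hom φ).choose

omit [CharZero K] in
@[simp] theorem plH_apply {X : Var k P} {Y : Var k Q} (φ : Hom X Y) (y : C.H Y) :
    plH C φ y = C.pull φ y := congrFun (C.pull_hom φ).choose_spec y

/-- Pull-back on even classes. -/
noncomputable def plK {X : Var k P} {Y : Var k Q} (φ : Hom X Y) : EE C Y →ₐ[K] EE C X :=
  ((plH C φ).comp (vl C Y)).codRestrict (evn C X) fun y => by
    rw [AlgHom.comp_apply, plH_apply]
    exact pull_evn C φ y.2

/-- Pull-back. -/
noncomputable def pl {X : Var k P} {Y : Var k Q} (φ : Hom X Y) : EE C Y →ₐ[ℚ] EE C X :=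
  (plK C φ).restrictScalars ℚ

open Classical in
/-- The class of a subvariety (zero if it is not contained in `X`). -/
noncomputable def cy (X : Var k P) (Z : Sub k P) : EE C X :=
  if h : ∃ h : (Z : Set (P.Pt k)) ⊆ X.pts, C.cl X (X.res Z h) ∈ evn C X then
    mkE C (C.cl X (X.res Z h.choose)) h.choose_spec else 0

/-- Algebraic classes of codimension `c`. -/
noncomputable def AA (X : Var k P) (c : ℕ) : Submodule ℚ (EE C X) where
  carrier := {x | vl C X x ∈ C.A X c}
  add_mem' hx hy := by simpa using (C.A X c).add_mem hx hy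
  zero_mem' := by simp
  smul_mem' q x hx := by
    change vl C X (q • x) ∈ C.A X c
    rw [vl_qsmul]
    change vl C X x ∈ C.A X c at hx
    generalize vl C X x = y at hx
    induction hx using AddSubgroup.closure_induction with
    | mem y hy =>
      obtain ⟨q', Z, hZ, rfl⟩ := hy
      exact AddSubgroup.subset_closure ⟨q * q', Z, hZ, by rw [smul_smul, Rat.cast_mul]⟩
    | zero => simp
    | add y z _ _ hy hz => rw [smul_add]; exact AddSubgroup.add_mem _ hy hz
    | neg y _ hy => rw [smul_neg]; exact AddSubgroup.neg_mem _ hy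

/-- The span of the classes of the subvarieties of `X` with the property `p`. -/
noncomputable def CS (X : Var k P) (p : Sub k P → Prop) : Submodule ℚ (EE C X) :=
  Submodule.span ℚ {y | ∃ U : Sub k P, (U : Set (P.Pt k)) ⊆ X.pts ∧ p U ∧ y = cy C X U}

theorem vl_inj (X : Var k P) : Function.Injective (vl C X) := fun _ _ h => Subtype.ext h

theorem vl_hy (X : Var k P) (i : P.ι) : vl C X (hy C X i) = C.hyp X i := rfl

theorem vl_ln (X : Var k P) (a : P.ι →₀ ℕ) : vl C X (ln C X a) = lin (C.hyp X) a := by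
  simp only [ln, lin, Finsupp.sum, map_sum, map_nsmul, vl_hy]

theorem vl_pl {X : Var k P} {Y : Var k Q} (φ : Hom X Y) (y : EE C Y) :
    vl C X (pl C φ y) = C.pull φ (vl C Y y) := plH_apply C φ _

theorem tau_eq (X : Var k P) (x : EE C X) : tau C X x = rho K (C.tr X (vl C X x)) := rfl

theorem exists_vl (X : Var k P) {c : ℕ} {x : C.H X} (hx : x ∈ C.A X c) :
    ∃ y ∈ AA C X c, vl C X y = x :=
  ⟨mkE C x (mem_evn C (C.alg_gr X c x hx)), hx, rfl⟩

theorem tau_cast (X : Var k P) {c : ℕ} {x : EE C X} (hx : x ∈ AA C X c) :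
    (tau C X x : K) = C.tr X (vl C X x) := by
  obtain ⟨q, hq⟩ := C.alg_tr X c _ hx
  rw [tau_eq, hq, rho_cast]

theorem ln_single (X : Var k P) (i : P.ι) : ln C X (Finsupp.single i 1) = hy C X i := by
  simp [ln, lin]

theorem AA_mul (X : Var k P) {c c' : ℕ} {x y : EE C X} (hx : x ∈ AA C X c) (hy : y ∈ AA C X c') :
    x * y ∈ AA C X (c + c') := by
  change vl C X (x * y) ∈ C.A X (c + c')
  rw [map_mul]
  exact C.alg_mul X c c' _ _ hx hy

theorem AA_pl {X : Var k P} {Y : Var k Q} (φ : Hom X Y) {c : ℕ} {y : EE C Y}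
    (hy : y ∈ AA C Y c) : pl C φ y ∈ AA C X c := by
  change vl C X (pl C φ y) ∈ C.A X c
  rw [vl_pl]
  exact C.alg_pull φ c _ hy

theorem tau_AA (X : Var k P) {c : ℕ} {x : EE C X} (hx : x ∈ AA C X c) (hc : c ≠ X.dim) :
    tau C X x = 0 := by
  rw [tau_eq, (C.pd X).2.2.2.2.1 (2 * c) _ (C.alg_gr X c _ hx) (by omega), map_zero]

theorem pl_id {X : Var k P} (φ : Hom X X) (h : ∀ x, φ.toFun x = x) (y : EE C X) :
    pl C φ y = y :=
  vl_inj C X (by rw [vl_pl, C.pull_id φ h])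

theorem pl_comp {X : Var k P} {Y : Var k Q} {Z : Var k S} (φ : Hom X Y) (ψ : Hom Y Z)
    (χ : Hom X Z) (h : ∀ x, χ.toFun x = ψ.toFun (φ.toFun x)) (z : EE C Z) :
    pl C χ z = pl C φ (pl C ψ z) :=
  vl_inj C X (by rw [vl_pl, vl_pl, vl_pl, C.pull_comp φ ψ χ h])

theorem tau_iso {X : Var k P} {Y : Var k Q} (φ : Hom X Y) (ψ : Hom Y X) (h : Inv φ ψ)
    (y : EE C Y) : tau C X (pl C φ y) = tau C Y y := by
  rw [tau_eq, tau_eq, vl_pl, C.tr_iso φ ψ h]

theorem pl_hy {Ω : Var k P'} {X : Var k P} (π : Prj Ω X) (i : P.ι) :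
    pl C π.hom (hy C X i) = hy C Ω (π.ψ i) := by
  apply vl_inj
  rw [vl_pl, vl_hy, C.hyp_pull π.hom i (Finsupp.single (π.ψ i) 1)
    (fun s => MvPolynomial.X (π.ε ⟨i, s⟩)), ← vl_ln, ln_single]
  · intro s
    simpa [π.fst] using IsForm.X (k := k) (π.ε ⟨i, s⟩)
  · intro y
    have h : (fun s => ev y.1 (MvPolynomial.X (π.ε ⟨i, s⟩))) = (π.pr y.1 i).rep :=
      funext fun s => by rw [ev_X]; exact (π.rp_pr y.1 ⟨i, s⟩).symm
    simp only [h]
    exact ⟨(π.pr y.1 i).rep_nonzero, (Projectivization.mk_rep _).symm⟩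

theorem n1_cl_mem (X : Var k P) {p : IrreducibleCloseds X.pts → Prop}
    {Z : IrreducibleCloseds X.pts} (h : p Z) : C.cl X Z ∈ cyc K (C.cl X) p :=
  AddSubgroup.subset_closure ⟨1, Z, h, by simp⟩

theorem n1_cyc_mono (X : Var k P) {p q : IrreducibleCloseds X.pts → Prop} (h : ∀ Z, p Z → q Z) :
    cyc K (C.cl X) p ≤ cyc K (C.cl X) q := by
  refine AddSubgroup.closure_mono ?_
  rintro _ ⟨r, Z, hZ, rfl⟩
  exact ⟨r, Z, h Z hZ, rfl⟩

theorem n1_cyc_smul (X : Var k P) {p : IrreducibleCloseds X.pts → Prop} (q : ℚ) {y : C.H X}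
    (hy : y ∈ cyc K (C.cl X) p) : (q : K) • y ∈ cyc K (C.cl X) p := by
  induction hy using AddSubgroup.closure_induction with
  | mem y hy =>
    obtain ⟨q', Z, hZ, rfl⟩ := hy
    exact AddSubgroup.subset_closure ⟨q * q', Z, hZ, by rw [smul_smul, Rat.cast_mul]⟩
  | zero => simp
  | add y z _ _ hy hz => rw [smul_add]; exact AddSubgroup.add_mem _ hy hz
  | neg y _ hy => rw [smul_neg]; exact AddSubgroup.neg_mem _ hy

theorem n1_pd (X : Var k P) {x x' : C.H X} (h : ∀ y, C.tr X (x * y) = C.tr X (x' * y)) :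
    x = x' := by
  refine sub_eq_zero.1 ((C.pd X).2.2.2.2.2 _ fun y => ?_)
  rw [sub_mul, ← trL_apply, map_sub, trL_apply, trL_apply, h, sub_self]

theorem tau_pd0 (X : Var k P) {x : EE C X} (h : ∀ z, tau C X (x * z) = 0) : x = 0 := by
  classical
  have h1 : ∀ z : EE C X, C.tr X (vl C X (x * z)) = 0 := fun z => by
    by_contra h0
    have := h ((C.tr X (vl C X (x * z)))⁻¹ • z)
    rw [tau_eq, mul_smul_comm, map_smul, ← trL_apply, map_smul, trL_apply, smul_eq_mul,
      inv_mul_cancel₀ h0, ← Rat.cast_one, rho_cast] at this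
    exact one_ne_zero this
  apply vl_inj
  rw [map_zero]
  refine (C.pd X).2.2.2.2.2 _ fun y => ?_
  obtain ⟨gr, ⟨G⟩, hgr⟩ := (C.pd X).2.2.1
  rw [← trL_apply]
  induction y using DirectSum.Decomposition.inductionOn gr with
  | zero => rw [mul_zero, map_zero]
  | add y y' hy hy' => rw [mul_add, map_add, hy, hy', add_zero]
  | @homogeneous i y =>
    rcases Nat.even_or_odd' i with ⟨c, rfl | rfl⟩
    · have := h1 (mkE C y.1 (mem_evn C ((hgr _ _).2 y.2)))
      rwa [map_mul, vl_mkE] at this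
    · refine evn_ind X (p := fun a => trL C X (a * y.1) = 0) (fun c' a ha => ?_)
        (by rw [zero_mul, map_zero]) (fun a b ha hb => by rw [add_mul, map_add, ha, hb, add_zero]) x.2
      have h2 : C.deg X (2 * c' + (2 * c + 1)) (a * y.1) :=
        (hgr _ _).2 (SetLike.GradedMul.mul_mem ((hgr _ _).1 ha) y.2)
      exact (C.pd X).2.2.2.2.1 _ _ h2 (by omega)

variable [IsAlgClosed k]

theorem vl_cy (X : Var k P) {Z : Sub k P} (h : (Z : Set (P.Pt k)) ⊆ X.pts) :
    vl C X (cy C X Z) = C.cl X (X.res Z h) := by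
  obtain ⟨c, hc⟩ := X.coheight_fin (X.res Z h)
  have : C.cl X (X.res Z h) ∈ evn C X :=
    mem_evn C (C.alg_gr X c _ (n1_cl_mem C X (p := fun Z => Order.coheight Z = c) hc))
  rw [cy, dif_pos ⟨h, this⟩]
  rfl

omit [IsAlgClosed k] in
theorem n1_cy_zero (X : Var k P) {Z : Sub k P} (h : ¬ (Z : Set (P.Pt k)) ⊆ X.pts) :
    cy C X Z = 0 := by
  rw [cy, dif_neg fun h' => h h'.1]

theorem n1_vl_cy_amb (X : Var k P) (Z : IrreducibleCloseds X.pts) :
    vl C X (cy C X (X.amb Z)) = C.cl X Z := by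
  rw [vl_cy C X (X.amb_sub Z), X.res_amb]

theorem mem_CS_iff (X : Var k P) (p : Sub k P → Prop) (x : EE C X) :
    x ∈ CS C X p ↔ vl C X x ∈ cyc K (C.cl X) fun Z => p (X.amb Z) := by
  constructor
  · intro hx
    induction hx using Submodule.span_induction with
    | mem x hx =>
      obtain ⟨U, hU, hp, rfl⟩ := hx
      rw [vl_cy C X hU]
      exact n1_cl_mem C X (by rwa [X.amb_res])
    | zero => simp
    | add x y _ _ hx hy => rw [map_add]; exact add_mem hx hy
    | smul q x _ hx => rw [vl_qsmul]; exact n1_cyc_smul C X q hx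
  · intro hx
    have key : ∀ y ∈ cyc K (C.cl X) fun Z => p (X.amb Z), ∃ x ∈ CS C X p, vl C X x = y := by
      intro y hy
      induction hy using AddSubgroup.closure_induction with
      | mem y hy =>
        obtain ⟨q, Z, hZ, rfl⟩ := hy
        exact ⟨q • cy C X (X.amb Z), Submodule.smul_mem _ _
          (Submodule.subset_span ⟨_, X.amb_sub Z, hZ, rfl⟩), by rw [vl_qsmul, n1_vl_cy_amb]⟩
      | zero => exact ⟨0, zero_mem _, map_zero _⟩
      | add y z _ _ hy hz =>
        obtain ⟨y, hy, rfl⟩ := hy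
        obtain ⟨z, hz, rfl⟩ := hz
        exact ⟨y + z, add_mem hy hz, map_add _ _ _⟩
      | neg y _ hy =>
        obtain ⟨y, hy, rfl⟩ := hy
        exact ⟨-y, neg_mem hy, map_neg _ _⟩
    obtain ⟨x', hx', h⟩ := key _ hx
    rwa [← vl_inj C X h]

theorem cy_mem_AA (X : Var k P) (Z : Sub k P) : ∃ c, cy C X Z ∈ AA C X c := by
  by_cases h : (Z : Set (P.Pt k)) ⊆ X.pts
  · obtain ⟨c, hc⟩ := X.coheight_fin (X.res Z h)
    refine ⟨c, ?_⟩
    change vl C X (cy C X Z) ∈ C.A X c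
    rw [vl_cy C X h]
    exact n1_cl_mem C X hc
  · exact ⟨0, by rw [n1_cy_zero C X h]; exact zero_mem _⟩

theorem AA_le_CS (X : Var k P) (c : ℕ) : AA C X c ≤ CS C X fun _ => True := fun x hx =>
  (mem_CS_iff C X _ x).2 (n1_cyc_mono C X (fun _ _ => trivial) hx)

theorem AA_eq_CS (X : Var k P) (h : IsIrreducible X.pts) (c : ℕ) :
    AA C X c = CS C X fun U => sdim U + c = X.dim := by
  ext x
  rw [mem_CS_iff]
  exact ⟨fun hx => n1_cyc_mono C X (fun Z hZ => (X.coheight_iff h Z c).1 hZ) hx,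
    fun hx => n1_cyc_mono C X (fun Z hZ => (X.coheight_iff h Z c).2 hZ) hx⟩

theorem cy_top (X : Var k P) (h : IsIrreducible X.pts) : cy C X (X.top h) = 1 := by
  apply vl_inj
  rw [vl_cy C X (Z := X.top h) subset_rfl, map_one]
  refine n1_pd C X fun y => ?_
  rw [C.cl_tr (Hom.incl subset_rfl) _ (fun _ => rfl), C.pull_id _ (fun _ => rfl), one_mul]
  ext x
  exact ⟨fun _ => x.2, fun _ => ⟨x, rfl⟩⟩

/-- The numerical theory of a Weil cohomology. -/
noncomputable def nt : NT.{u, v, w} k K where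
  E := EE C
  tau := tau C
  hy := hy C
  pl π := pl C π.hom
  cy := cy C
  AA := AA C
  hy_mem := C.hyp_alg
  AA_mul := AA_mul C
  AA_pl π := AA_pl C π.hom
  tau_AA := tau_AA C
  pl_id π h := pl_id C π.hom fun x => Subtype.ext (h x.1 x.2)
  pl_comp ρ π χ h := pl_comp C ρ.hom π.hom χ.hom fun x => Subtype.ext (h x.1 x.2)
  pl_hy := pl_hy C
  cy_zero X _ := n1_cy_zero C X
  cy_mem := cy_mem_AA C
  AA_le := AA_le_CS C
  AA_eq := AA_eq_CS C
  cy_top := cy_top C
  pd X _ := tau_pd0 C X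
  tau_iso π ψ _ := tau_iso C π.hom ψ
  tau_pt X Z hZ h := by
    rw [tau_eq, vl_cy C X hZ, C.tr_pt X _ (by rw [n1_height_res, h]; rfl), ← Rat.cast_one,
      rho_cast]

theorem nt_fin : NFin (nt C) := by
  intro P X c c' h
  have hfin : Module.Finite K (C.H X) := (C.pd X).1
  obtain ⟨ρ, e, e', he, he', hd, hx⟩ := exists_rank_fact
    ((LinearMap.mul ℚ (EE C X)).compr₂ (tau C X)) (AA C X c) (AA C X c')
    (Module.finrank K (C.H X)) (by
      intro ρ e e' he he' hd
      have := linInd_of_dual (fun i => vl C X (e i))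
        (fun j => trL C X ∘ₗ LinearMap.mulRight K (vl C X (e' j))) (by
          intro i j
          have h1 := tau_cast C X (AA_mul C X (he i) (he' j))
          have h2 : tau C X (e i * e' j) = if i = j then 1 else 0 := hd i j
          rw [h2, map_mul] at h1
          change C.tr X (vl C X (e i) * vl C X (e' j)) = _
          rw [← h1]
          split_ifs <;> simp)
      simpa using this.fintype_card_le_finrank)
  let e₁ : Fin ρ → MP_ffcd14_ag.EE (nt C) X := e
  let e₂ : Fin ρ → MP_ffcd14_ag.EE (nt C) X := e'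
  have he₁ : ∀ j, e₁ j ∈ MP_ffcd14_ag.AA (nt C) X c := he
  have he₂ : ∀ j, e₂ j ∈ MP_ffcd14_ag.AA (nt C) X c' := he'
  have hd' : ∀ i j, MP_ffcd14_ag.tau (nt C) X (e₁ i * e₂ j) = if i = j then 1 else 0 := hd
  have hx' : ∀ x ∈ MP_ffcd14_ag.AA (nt C) X c, ∀ y ∈ MP_ffcd14_ag.AA (nt C) X c',
      MP_ffcd14_ag.tau (nt C) X (x * y) =
        ∑ j, MP_ffcd14_ag.tau (nt C) X (x * e₂ j) * MP_ffcd14_ag.tau (nt C) X (e₁ j * y) := hx
  clear_value e₁ e₂
  refine ⟨ρ, e₁, he₁, fun x hxc => ⟨fun j => MP_ffcd14_ag.tau (nt C) X (x * e₂ j), ?_⟩,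
    fun t ht => ?_⟩
  · rw [N0_iff (nt C) X h
      (sub_mem hxc (Submodule.sum_mem _ fun j _ => Submodule.smul_mem _ _ (he₁ j)))]
    intro y hy
    rw [sub_mul, map_sub, hx' x hxc y hy, Finset.sum_mul, map_sum]
    simp only [smul_mul_assoc, map_smul, smul_eq_mul, sub_self]
  · funext j
    have := ht c' (e₂ j) (he₂ j)
    rw [Finset.sum_mul, map_sum] at this
    simpa [smul_mul_assoc, hd'] using this

variable {C}

theorem nt_chow (hC : C.Chow) : (nt C).Chow where
  div {P} X Z hZ f a hf hv s hs := by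
    classical
    apply vl_inj
    have hinj : Function.Injective X.amb := fun U V h =>
      le_antisymm (X.amb_le_iff.1 h.le) (X.amb_le_iff.1 h.ge)
    have e : ∀ U : IrreducibleCloseds X.pts, ∑ᶠ _ : hgt U + 1 = hgt (X.res Z hZ),
        (len (idZ U) (idZ (X.res Z hZ) ⊔ Ideal.span {f})).toNat • C.cl X U =
          mu Z (X.amb U) f • C.cl X U := fun U => by
      rw [finsum_eq_if, mu, idZ_eq, idZ_eq, X.amb_res]
      have := VolT_hgt X U (X.res Z hZ)
      rw [X.amb_res] at this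
      by_cases h : sdim (X.amb U) + 1 = sdim Z
      · rw [if_pos h, if_pos (this.2 h)]
      · rw [if_neg h, if_neg (mt this.1 h), zero_smul]
    change vl C X (cy C X Z * ln C X a) = vl C X (∑ T ∈ s, (mu Z T f : ℚ) • cy C X T)
    rw [map_mul, vl_cy C X hZ, vl_ln, hC.1 X _ f a hf (by rwa [VolT_zer, X.amb_res]), map_sum,
      ← Finset.sum_preimage X.amb s hinj.injOn, finsum_congr e,
      finsum_eq_sum_of_support_subset (s := s.preimage X.amb hinj.injOn)]
    · refine Finset.sum_congr rfl fun U _ => ?_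
      rw [vl_qsmul, n1_vl_cy_amb, Rat.cast_natCast, Nat.cast_smul_eq_nsmul]
    · intro U hU
      simp only [Finset.coe_preimage, Set.mem_preimage, Finset.mem_coe]
      refine hs _ (Nat.pos_of_ne_zero fun h0 => hU ?_)
      simp only [h0, zero_smul]
    · intro T _ hT
      rw [n1_cy_zero C X fun h => hT ⟨_, X.amb_res T h⟩, smul_zero, map_zero]
  push {P P' Ω X} π Z hZ := by
    obtain ⟨n, h1, h2⟩ := hC.2.1 π.hom _ _ (n1_closure π hZ)
    refine ⟨n, ?_, fun y : EE C X => ?_⟩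
    · rw [h1, hgt, hgt, n1_height_res, n1_height_res]
      norm_cast
    · change tau C Ω (cy C Ω Z * pl C π.hom y) = n * tau C X (cy C X (π.img Z) * y)
      rw [tau_eq, tau_eq, map_mul, map_mul, vl_cy C Ω hZ,
        vl_cy C X (n1_img_sub π hZ), vl_pl, h2, ← nsmul_eq_mul, map_nsmul, nsmul_eq_mul]
  meet {P P' Ω X} π Z hZ T hT hp := by
    change cy C Ω Z * pl C π.hom (cy C X T) ∈ CS C Ω _
    rw [mem_CS_iff, map_mul, vl_cy C Ω hZ, vl_pl, vl_cy C X hT]
    refine n1_cyc_mono C Ω ?_ (hC.2.2 π.hom _ _ fun U h1 h2 => by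
      have := hp (Ω.amb U) ((n1_le_res Ω hZ).1 h1) ((π.toCrd.img_sub T.isClosed).2 (by
        rintro _ ⟨x, hx, rfl⟩
        exact h2 x hx))
      rw [hgt, hgt, hgt, n1_height_res, n1_height_res, Ω.height_eq]
      exact_mod_cast this)
    rintro U ⟨h1, h2, h3⟩
    refine ⟨(n1_le_res Ω hZ).1 h1, (π.toCrd.img_sub T.isClosed).2 ?_, ?_⟩
    · rintro _ ⟨x, hx, rfl⟩
      exact h2 x hx
    · rw [hgt, hgt, hgt, n1_height_res, n1_height_res, Ω.height_eq] at h3
      exact_mod_cast h3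

end Pool.Agent.Work.MP_ffcd14_ag.W
end

-- merged part: Pool.Agent.Work.MP_ffcd14_ag.Cyc.Glue
section
/-! # From a Weil cohomology to its numerical theory and back -/

open MvPolynomial Topology TopologicalSpace Filter

namespace Pool.Agent.Work.MP_ffcd14_ag.W

universe u v w

variable {k : Type u} [Field k] [IsAlgClosed k] {K : Type v} [Field K] [CharZero K]
  {P Q : Amb} {C : Weil.{u, v, w} k K}

/-- Transport of the conjecture along an isomorphism of algebras. -/
theorem glue_hdg {B B' : Type w} [Ring B] [Algebra K B] [Ring B'] [Algebra K B']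
    (f : B' →ₐ[K] B) (g : B →ₐ[K] B') (hfg : ∀ x, f (g x) = x) (tr : B →ₗ[K] K) (tr' : B' → K)
    (ht : ∀ y, tr (f y) = tr' y) {A : ℕ → AddSubgroup B} {A' : ℕ → AddSubgroup B'}
    (hf : ∀ c, ∀ y ∈ A' c, f y ∈ A c) (hg : ∀ c, ∀ x ∈ A c, g x ∈ A' c) {q : ℚ} (hq : 0 < q)
    {l : B} {l' : B'} (hl : l = (q : K) • f l') {d n : ℕ} (H : Hdg tr d A l n) :
    Hdg tr' d A' l' n := by
  intro x hx h1 h2
  obtain ⟨r, hr, e⟩ := H (f x) (hf _ _ hx) (fun c z hz => by
    have := h1 c _ (hg c z hz)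
    rw [← ht, map_mul f, map_mul f, map_pow f, hfg] at this
    rw [hl, smul_pow, smul_mul_assoc, smul_mul_assoc, map_smul, this, smul_zero])
    fun h => h2 fun c z hz => by rw [← ht, map_mul]; exact h c _ (hf c z hz)
  refine ⟨r / q ^ (d - 2 * n), by positivity, ?_⟩
  have q0 : (q : K) ≠ 0 := by exact_mod_cast hq.ne'
  rw [hl, smul_pow, mul_smul_comm, map_smul, smul_eq_mul, ← map_pow, ← map_mul, ← map_mul,
    ht] at e
  push_cast
  rw [eq_div_iff (pow_ne_zero _ q0), ← e]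
  ring

omit [IsAlgClosed k] [CharZero K] in
theorem glue_inv {X : Var k P} {Y : Var k Q} (φ : Hom X Y) (ψ : Hom Y X)
    (h : ∀ x, ψ.toFun (φ.toFun x) = x) (x : C.H X) : plH C φ (plH C ψ x) = x := by
  rw [plH_apply, plH_apply, ← C.pull_comp φ ψ (ψ.comp φ) (fun _ => rfl), C.pull_id _ h]

omit [IsAlgClosed k] [CharZero K] in
theorem glue_A {X : Var k P} {Y : Var k Q} (φ : Hom X Y) (c : ℕ) :
    ∀ y ∈ C.A Y c, plH C φ y ∈ C.A X c := fun y hy => by
  rw [plH_apply]
  exact C.alg_pull φ c y hy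

omit [IsAlgClosed k] in
theorem glue_l {X : Var k P} {Y : Var k Q} (φ : Hom X Y) {m : ℕ} (hm : 0 < m) {l : C.H X}
    {l' : C.H Y} (hl : m • l = C.pull φ l') : l = (((m : ℚ)⁻¹ : ℚ) : K) • plH C φ l' := by
  have m0 : (m : K) ≠ 0 := by exact_mod_cast hm.ne'
  rw [plH_apply, ← hl, ← Nat.cast_smul_eq_nsmul K, smul_smul]
  simp [m0]

/-- The conjecture is invariant under isomorphisms and positive multiples of `l`. -/
theorem hdg_iso {X : Var k P} {Y : Var k Q} (φ : Hom X Y) (ψ : Hom Y X) (h : Inv φ ψ)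
    (hd : Y.dim = X.dim) {m : ℕ} (hm : 0 < m) {l : C.H X} {l' : C.H Y}
    (hl : m • l = C.pull φ l') (n : ℕ) :
    Hdg (C.tr X) X.dim (C.A X) l n ↔ Hdg (C.tr Y) Y.dim (C.A Y) l' n := by
  rw [hd]
  refine ⟨glue_hdg (plH C φ) (plH C ψ) (glue_inv φ ψ h.1) (trL C X) _
    (fun y => by simpa using C.tr_iso φ ψ h y) (glue_A φ) (glue_A ψ) (q := (m : ℚ)⁻¹)
    (by positivity) (glue_l φ hm hl),
    glue_hdg (plH C ψ) (plH C φ) (glue_inv ψ φ h.2) (trL C Y) _
    (fun y => by simpa using C.tr_iso ψ φ h.symm y) (glue_A ψ) (glue_A φ) (q := m)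
    (by positivity) ?_⟩
  rw [← map_smul, Rat.cast_natCast, Nat.cast_smul_eq_nsmul, hl, ← plH_apply, glue_inv ψ φ h.2]

theorem lef_iso {X : Var k P} {Y : Var k Q} (φ : Hom X Y) (ψ : Hom Y X) (h : Inv φ ψ)
    {m : ℕ} (hm : 0 < m) {l : C.H X} {l' : C.H Y} (hl : m • l = C.pull φ l') (c c' e : ℕ)
    (H : ∀ y ∈ C.A X c', ∃ x ∈ C.A X c, y = l ^ e * x) :
    ∀ y ∈ C.A Y c', ∃ x ∈ C.A Y c, y = l' ^ e * x := by
  intro y hy
  obtain ⟨x, hx, ex⟩ := H _ (glue_A φ _ y hy)
  obtain ⟨z, hz, ez⟩ := exists_vl C Y (glue_A ψ _ x hx)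
  refine ⟨vl C Y (((m : ℚ)⁻¹ ^ e : ℚ) • z), (AA C Y c).smul_mem _ hz, ?_⟩
  rw [← glue_inv ψ φ h.2 y, ex, map_mul, map_pow, glue_l φ hm hl, map_smul, glue_inv ψ φ h.2,
    vl_qsmul, ez, smul_pow, smul_mul_assoc, mul_smul_comm, Rat.cast_pow]

theorem glue_N0 {X : Var k P} {c : ℕ} {x : EE C X} (hx : x ∈ AA C X c) :
    Num0 (C.tr X) (C.A X) (vl C X x) ↔ N0 (nt C) X x := by
  refine ⟨fun h c' (y : EE C X) hy => ?_, fun h c' z hz => ?_⟩
  · change tau C X (x * y) = 0
    rw [tau_eq, map_mul, h c' _ hy, map_zero]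
  · obtain ⟨y, hy, rfl⟩ := exists_vl C X hz
    have : tau C X (x * y) = 0 := h c' y hy
    rw [← map_mul, ← tau_cast C X (AA_mul C X hx hy), this, Rat.cast_zero]

/-- The conjecture in terms of the rational trace. -/
theorem glue_iff (X : Var k P) (a : P.ι →₀ ℕ) (n m : ℕ) (hm : m + 2 * n = X.dim) :
    Hdg (C.tr X) X.dim (C.A X) (lin (C.hyp X) a) n ↔
      HN (nt C) X (MP_ffcd14_ag.ln (nt C) X a) n m := by
  have e : X.dim - 2 * n = m := by omega
  have hp : ∀ p, ∀ y ∈ AA C X n, ln C X a ^ p * y ∈ AA C X (n + p) := fun p y hy =>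
    glue_pow (C := nt C) (glue_ln X a) hy p
  have key : ∀ y ∈ AA C X n, (Num0 (C.tr X) (C.A X) (lin (C.hyp X) a ^ (m + 1) * vl C X y) ↔
      N0 (nt C) X (ln C X a ^ (m + 1) * y : EE C X)) ∧
      C.tr X (vl C X y * vl C X y * lin (C.hyp X) a ^ m) =
        tau C X (ln C X a ^ m * y * y) := fun y hy => by
    rw [← glue_N0 (hp _ y hy), tau_cast C X (AA_mul C X (hp m y hy) hy),
      show ln C X a ^ m * y * y = y * y * ln C X a ^ m by ring]
    simp [vl_ln]
  unfold Hdg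
  rw [e]
  refine ⟨fun H (y : EE C X) hy h1 h2 => ?_, fun H x hx h1 h2 => ?_⟩
  · obtain ⟨q, hq, eq⟩ := H _ hy ((key y hy).1.2 h1) (mt (glue_N0 hy).1 h2)
    rw [(key y hy).2] at eq
    have : (-1) ^ n * tau C X (ln C X a ^ m * y * y) = q := by exact_mod_cast eq
    exact this ▸ hq
  · obtain ⟨y, hy, rfl⟩ := exists_vl C X hx
    refine ⟨(-1) ^ n * tau C X (ln C X a ^ m * y * y),
      H y hy ((key y hy).1.1 h1) (mt (glue_N0 hy).2 h2), ?_⟩
    rw [(key y hy).2]
    push_cast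
    rfl

variable (hC : C.Chow)
include hC

theorem hdg_two (X : Var k P) (hX : IsIrreducible X.pts) (m : ℕ) (hm : m + 4 = X.dim)
    {a : P.ι →₀ ℕ} (ha : ∀ i, 0 < a i)
    (hL : ∀ y ∈ C.A X (m + 2), ∃ x ∈ C.A X 2, y = lin (C.hyp X) a ^ m * x)
    (h : SH (nt C) X m (MP_ffcd14_ag.ln (nt C) X a)) :
    Hdg (C.tr X) X.dim (C.A X) (lin (C.hyp X) a) 2 := by
  refine (glue_iff X a 2 m (by omega)).2 (hn_two (nt_chow hC).cyc (nt_fin C) X hX m hm ha
    (fun (w : EE C X) hw => ?_) h)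
  obtain ⟨x, hx, ex⟩ := hL (vl C X w) hw
  obtain ⟨z, hz, rfl⟩ := exists_vl C X hx
  exact ⟨z, hz, show w = ln C X a ^ m * z from
    vl_inj C X (by rw [ex, map_mul, map_pow, vl_ln])⟩

theorem hdg_low (X : Var k P) (hX : IsIrreducible X.pts) (hd : 2 ≤ X.dim) (l : C.H X)
    (hl : C.Ample X l) {n : ℕ} (hn : n ≤ 1) : Hdg (C.tr X) X.dim (C.A X) l n := by
  obtain ⟨m, Q', X', φ, ψ, a, hm, hd', hi, ha, e⟩ := hl
  have hX' := φ.irreducible hX fun y => ⟨_, hi.2 y⟩
  refine (hdg_iso φ ψ hi hd' hm e n).2 ?_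
  obtain rfl | rfl : n = 0 ∨ n = 1 := by omega
  · exact (glue_iff X' a 0 X'.dim rfl).2 (hn_zero (nt_chow hC).cyc X' hX' ha)
  · exact (glue_iff X' a 1 (X'.dim - 2) (by omega)).2
      (hn_one (nt_chow hC).cyc X' hX' (by omega) ha)

end Pool.Agent.Work.MP_ffcd14_ag.W
end
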