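import Pool.Agent.Work.MP_ffcd14_ag.Cyc.MvD

/-! # Cycles in general position -/

open MvPolynomial Topology TopologicalSpace Filter

namespace Pool.Agent.Work.MP_ffcd14_ag

universe u v w w'

variable {k : Type u} [Field k] [IsAlgClosed k] {K : Type v} [Field K] [CharZero K]
  {P P' P₀ P₁ P₂ Q : Amb} {C : NT.{u, v, w} k K}

variable (hC : C.Cyc)
include hC

theorem genpos {Ω : Var k P'} {X : Var k P} (hX : IsIrreducible X.pts) (ρ : Prj Ω X)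
    {𝒵 : Set (Sub k P')} (h𝒵 : 𝒵.Finite) (h : ∀ Z ∈ 𝒵, (Z : Set (P'.Pt k)) ⊆ Ω.pts) {n : ℕ}
    {y : EE C X} (hy : y ∈ AA C X n) : y ∈ CS C X fun S => sdim S + n = X.dim ∧
      ∀ Z ∈ 𝒵, ∀ V ≤ Z, ρ.img V ≤ S → sdim V + n ≤ sdim Z := by
  choose 𝓖 g1 g2 g3 using fun Z : Sub k P' => ρ.gp Z
  have hfin : (⋃ Z ∈ 𝒵, insert (ρ.img Z) (𝓖 Z)).Finite :=
    h𝒵.biUnion fun Z _ => (g1 Z).insert _
  have himg : ∀ Z ∈ 𝒵, (ρ.img Z : Set (P.Pt k)) ⊆ X.pts := fun Z hZ =>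
    (ρ.img_sub X.closed).2 fun x hx => ρ.maps x (h Z hZ hx)
  have hsub : ∀ F ∈ ⋃ Z ∈ 𝒵, insert (ρ.img Z) (𝓖 Z), (F : Set (P.Pt k)) ⊆ X.pts := by
    intro F hF
    simp only [Set.mem_iUnion] at hF
    obtain ⟨Z, hZ, rfl | hF⟩ := hF
    · exact himg Z hZ
    · exact Set.Subset.trans (g2 Z F hF) (himg Z hZ)
  rw [AA_eq_CS C X hX] at hy
  refine Submodule.span_le.2 ?_ hy
  rintro _ ⟨S, hS, dS, rfl⟩
  refine Submodule.span_mono ?_ (mv_move hC X hX hS hfin hsub)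
  rintro _ ⟨S', hS', ⟨d1, d2⟩, rfl⟩
  refine ⟨S', hS', ⟨by omega, fun Z hZ V hV hVS => ?_⟩, rfl⟩
  rcases g3 Z V hV with e | ⟨F, hF, e1, e2⟩
  · have := d2 (ρ.img Z) (Set.mem_biUnion hZ (Set.mem_insert _ _)) _ hVS (Crd.img_mono _ hV)
    omega
  · have := d2 F (Set.mem_biUnion hZ (Set.mem_insert_of_mem _ hF)) _ hVS e1
    omega

end Pool.Agent.Work.MP_ffcd14_ag
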