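import Pool.Agent.Work.MP_ffcd14_ag.Cyc.ChowCyc
import Pool.Agent.Work.MP_ffcd14_ag.Cyc.GC
import Pool.Agent.Work.MP_ffcd14_ag.Cyc.Gp0

-- merged part: Pool.Agent.Work.MP_ffcd14_ag.Cyc.Desc
section
/-! # Mixed Hodge index inequality, descent of nullity to prime divisors -/

open MvPolynomial Topology TopologicalSpace Filter

namespace Pool.Agent.Work.MP_ffcd14_ag

universe u v w

variable {k : Type u} [Field k] [IsAlgClosed k] {K : Type v} [Field K] [CharZero K]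
  {P P' Q : Amb} {C : NT.{u, v, w} k K} (hC : C.Cyc)
theorem Desc_congr {B : Type w} [CommRing B] [Algebra ℚ B] {ν : B →ₗ[ℚ] ℚ} {S : Submodule ℚ B}
    {ω ω' : B} (h : RCS ν S ω) {c : ℚ} (hc : 0 < c) (e : ∀ y, ν (ω * y) = c * ν (ω' * y)) :
    RCS ν S ω' := by
  intro y hy z hz h0
  have := h y hy z hz
  simp only [mul_assoc, e] at this h0 ⊢
  have h2 := this (mul_pos hc h0)
  refine le_of_mul_le_mul_left (a := c ^ 2) ?_ (by positivity)
  nlinarith [h2]

theorem Desc_pow {B : Type w} [CommRing B] {z A η : B} (h : z * (η * η) = 0) (m : ℕ) :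
    z * (A + η) ^ (m + 1) = z * (A ^ (m + 1) + (m + 1) * (A ^ m * η)) := by
  induction m with
  | zero => simp
  | succ m ih =>
    rw [pow_succ, ← mul_assoc, ih]
    push_cast
    linear_combination (((m : B) + 1) * A ^ m) * h

/-- The index of the new factor. -/
def Desc_j (P : Amb) (κ : Type) [Finite κ] : (P.sum (Amb.one κ)).ι := Sum.inr ()

omit [IsAlgClosed k] in
theorem Desc_tau (X : Var k P) {z : EE C X} {s : Finset (Sub k P)} {m : Sub k P → ℚ}
    (h : z = ∑ T ∈ s, m T • cy C X T) (y : EE C X) :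
    tau C X (z * y) = ∑ T ∈ s, m T * nm C X T y := by
  rw [h, Finset.sum_mul, map_sum]
  exact Finset.sum_congr rfl fun T _ => by rw [smul_mul_assoc, map_smul, smul_eq_mul, nm_apply]

omit [IsAlgClosed k] in
theorem Desc_CS (X : Var k P) {p : Sub k P → Prop} (ℓ : EE C X →ₗ[ℚ] ℚ)
    (h : ∀ U : Sub k P, (U : Set (P.Pt k)) ⊆ X.pts → p U → ℓ (cy C X U) = 0) {x : EE C X}
    (hx : x ∈ CS C X p) : ℓ x = 0 := by
  have : CS C X p ≤ LinearMap.ker ℓ := Submodule.span_le.2 (by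
    rintro _ ⟨U, h1, h2, rfl⟩
    exact h U h1 h2)
  exact this hx

omit [IsAlgClosed k] [CharZero K] in
theorem Desc_rep (X : Var k P) (a b : P.ι →₀ ℕ) (i j : ℕ) :
    lp' C X (List.replicate i a ++ List.replicate j b) = ln C X a ^ i * ln C X b ^ j := by
  simp [lp']

include hC

/-- The closure of the graph of a rational map to a projective space. -/
theorem Desc_graph (X : Var k P) {Z : Sub k P} (hZ : (Z : Set (P.Pt k)) ⊆ X.pts) {κ : Type}
    [Finite κ] {g : κ → MvPolynomial P.V k} {a : P.ι →₀ ℕ} (hg : ∀ s, IsForm (g s) a)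
    (h0 : ∃ s, ¬ Van (Z : Set (P.Pt k)) (g s)) :
    ∃ Z' : Sub k (P.sum (Amb.one κ)),
      (Z' : Set ((P.sum (Amb.one κ)).Pt k)) ⊆ (X.ext (Amb.one κ)).pts ∧
      (Prj.one X (Amb.one κ)).img Z' = Z ∧ sdim Z' = sdim Z ∧
      (∃ n : ℚ, 0 < n ∧ ∀ y, nm C _ Z' (pl C (Prj.one X (Amb.one κ)) y) = n * nm C X Z y) ∧
      ∃ (s : Finset (Sub k (P.sum (Amb.one κ)))) (m : Sub k (P.sum (Amb.one κ)) → ℚ),
        (∀ T, T ∈ s ↔ T ≤ Z' ∧ sdim T + 1 = sdim Z ∧
          ∀ t, Van ((Prj.one X (Amb.one κ)).img T : Set (P.Pt k)) (g t)) ∧ (∀ T ∈ s, 0 < m T) ∧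
        cy C (X.ext (Amb.one κ)) Z' * (pl C (Prj.one X (Amb.one κ)) (ln C X a) -
          hy C _ (Desc_j P κ)) = ∑ T ∈ s, m T • cy C _ T := by
  have hF : ∀ s : (Amb.one κ).V, IsForm (g s.2) ((fun _ => a) s.1) := fun s => hg s.2
  have hd : DefOn (Q := Amb.one κ) (Z : Set (P.Pt k)) fun s => g s.2 := fun _ => h0
  obtain ⟨Z', hi, hG⟩ := exists_gc Z (F := fun s : (Amb.one κ).V => g s.2)
    (b := fun _ => a) hF hd
  have hs : (Z' : Set ((P.sum (Amb.one κ)).Pt k)) ⊆ (X.ext (Amb.one κ)).pts := fun z hz =>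
    Var.mem_ext.2 (hZ (by rw [← hi]; exact Crd.mem_img _ hz))
  have hdim : sdim Z' = sdim Z := by
    rw [OnGraph.sdim_eq (b := fun _ => a) hF (by rw [hi]; exact hd) hG, hi]
  have hi' : (Prj.one X (Amb.one κ)).img Z' = Z := hi
  refine ⟨Z', hs, hi, hdim, ?_, ?_⟩
  · obtain ⟨n, h1, h2⟩ := n_push hC (Prj.one X (Amb.one κ)) hs
    rw [hi'] at h1 h2
    exact ⟨n, by exact_mod_cast h1.2 hdim, h2⟩
  · obtain ⟨s, m, h1, h2, h3⟩ := n_ratio hC (X.ext (Amb.one κ)) hs
      (f := fun s => rename (Crd.inl k P (Amb.one κ)).ε (g s))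
      (e := fun s => MvPolynomial.X ⟨Sum.inr (), s⟩) (b := Finsupp.single (Desc_j P κ) 1)
      (fun s => (Crd.inl k P (Amb.one κ)).form (hg s))
      (fun s => IsForm.X (P := P.sum (Amb.one κ)) ⟨Sum.inr (), s⟩) (fun s t => hG () s t)
      (by
        obtain ⟨s, hs⟩ := h0
        exact ⟨s, fun h => hs (by rw [← hi]; exact (Crd.van_img _ (hg s)).2 h)⟩)
      (fun T _ => by
        obtain ⟨x, hx⟩ := T.isIrreducible.nonempty
        obtain ⟨s, hs⟩ := Function.ne_iff.1 (x (Sum.inr ())).rep_nonzero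
        exact ⟨s, fun h => hs (by simpa using h x hx)⟩)
    refine ⟨s, m, fun T => ?_, h2, ?_⟩
    · rw [h1, hdim]
      exact and_congr_right fun _ => and_congr_right fun _ => forall_congr' fun t =>
        (Crd.van_img _ (hg t)).symm
    · rw [← h3, pl_ln, ln_single]
      rfl

theorem Desc_mixed (n : ℕ) : ∀ {P : Amb} (as : List (P.ι →₀ ℕ)) (X : Var k P) {Z : Sub k P},
    (Z : Set (P.Pt k)) ⊆ X.pts → ∀ m : ℕ, as.length = n → n + m + 2 = sdim Z →
    ∀ a : P.ι →₀ ℕ, RCS (nm C X Z) (HS C X) (lp' C X as * ln C X a ^ m) := by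
  induction n with
  | zero =>
    intro P as X Z hZ m hl hm a
    obtain rfl := List.length_eq_zero_iff.1 hl
    simpa [lp'] using rcs_pure hC X hZ m (by omega) a
  | succ n ih =>
    intro P as X Z hZ m hl hm a
    obtain ⟨c, as, rfl⟩ := List.exists_cons_of_length_eq_add_one hl
    obtain ⟨g0, f0, v0⟩ := exists_form_deg (Set.finite_singleton Z) c
    replace v0 := v0 Z rfl
    obtain ⟨g1, f1, v1⟩ := exists_form_deg (finite_div Z f0 v0) c
    obtain ⟨Z', hs, hi, hd, ⟨N, N0, hN⟩, s, μ, s1, s2, s3⟩ := Desc_graph hC X hZ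
      (κ := Bool) (g := fun t => cond t g0 g1) (a := c) (by rintro (_ | _); exacts [f1, f0])
      ⟨true, v0⟩
    obtain ⟨π, hπ⟩ : ∃ π, π = Prj.one X (Amb.one Bool) := ⟨_, rfl⟩
    obtain ⟨η, hη⟩ : ∃ η, η = hy C (X.ext (Amb.one Bool)) (Desc_j P Bool) := ⟨_, rfl⟩
    rw [← hπ] at hi hN s1 s3
    rw [← hη] at s3
    have η2 : cy C _ Z' * (η * η) = 0 := by
      have := cy_van hC _ (Crd.inr k P (Amb.one Bool)) hs
        [Finsupp.single () 1, Finsupp.single () 1] (by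
          have h1 := sdim_le_card ((Crd.inr k P (Amb.one Bool)).img Z')
          have h2 : Nat.card (Amb.one Bool).ι = 1 := Nat.card_unique (α := Unit)
          have h3 : Nat.card (Amb.one Bool).V = 2 := by
            show Nat.card (Σ _ : Unit, Bool) = 2
            simp
          simp only [List.length_cons, List.length_nil]
          omega)
      simp only [lp', List.map_cons, List.map_nil, List.prod_cons, List.prod_nil, mul_one,
        Finsupp.mapDomain_single, ln_single] at this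
      rw [hη]
      exact this
    have sw : ∀ y, nm C _ Z' (η * pl C π y) = N * nm C X Z (ln C X c * y) := by
      intro y
      have h1 := Desc_tau _ s3 (pl C π y)
      rw [Finset.sum_eq_zero, mul_assoc, ← nm_apply, sub_mul, map_sub, ← map_mul, hN] at h1
      · linarith
      · intro T hT
        obtain ⟨t1, t2, t3⟩ := (s1 T).1 hT
        obtain ⟨n', n1, n2⟩ := n_push hC π (Set.Subset.trans t1 hs)
        have : n' = 0 := by
          by_contra hn
          have e := n1.1 (Nat.pos_of_ne_zero hn)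
          exact v1 (π.img T) ⟨by rw [← hi]; exact Crd.img_mono _ t1, by omega, t3 true⟩ (t3 false)
        rw [n2, this]
        simp
    have R : RCS (nm C _ Z') (HS C _) (pl C π (lp' C X as * ln C X a ^ m) * η) := by
      refine Desc_congr (ω := ((m : ℚ) + 1) • (pl C π (lp' C X as * ln C X a ^ m) * η))
        (RCS.lead (ω₀ := pl C π (lp' C X as * ln C X a ^ (m + 1))) fun t => ?_)
        (c := m + 1) (by positivity) fun y => by rw [smul_mul_assoc, map_smul, smul_eq_mul]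
      have := ih (as.map (Finsupp.mapDomain π.ψ)) _ hs (m + 1) (by simpa using hl) (by omega)
        (a.mapDomain π.ψ + t • Finsupp.single (Desc_j P Bool) 1)
      rw [ln_add, ln_smul, ln_single, ← pl_ln, ← pl_lp', ← hη] at this
      refine Desc_congr this one_pos fun y => ?_
      have h2 := Desc_pow (z := cy C _ Z') (A := pl C π (ln C X a)) (η := (t : ℚ) • η)
        (by rw [smul_mul_smul_comm, mul_smul_comm, η2, smul_zero]) m
      rw [one_mul, nm_apply, nm_apply]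
      congr 1
      simp only [map_mul, map_pow, Algebra.smul_def, map_add, map_natCast, map_one] at h2 ⊢
      linear_combination (pl C π (lp' C X as) * y) * h2
    intro y hy z hz h0
    have e : ∀ y z, nm C _ Z' (pl C π (lp' C X as * ln C X a ^ m) * η * pl C π y *
        pl C π z) = N * nm C X Z (lp' C X (c :: as) * ln C X a ^ m * y * z) := by
      intro y z
      have := sw (lp' C X as * ln C X a ^ m * y * z)
      simp only [map_mul] at this ⊢
      rw [show lp' C X (c :: as) = ln C X c * lp' C X as by simp [lp']]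
      convert this using 2 <;> ring_nf
    have := R _ (pl_HS C π hy) _ (pl_HS C π hz)
    simp only [e] at this
    have h2 := this (mul_pos N0 h0)
    refine le_of_mul_le_mul_left (a := N ^ 2) ?_ (by positivity)
    nlinarith [h2]

theorem rcs_mixed (as : List (P.ι →₀ ℕ)) (X : Var k P) {Z : Sub k P}
    (hZ : (Z : Set (P.Pt k)) ⊆ X.pts) (m : ℕ) (hm : as.length + m + 2 = sdim Z) (a : P.ι →₀ ℕ) :
    RCS (nm C X Z) (HS C X) (lp' C X as * ln C X a ^ m) :=
  Desc_mixed hC _ as X hZ m rfl hm a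

theorem rcs (X : Var k P) {Z : Sub k P} (hZ : (Z : Set (P.Pt k)) ⊆ X.pts)
    (as : List (P.ι →₀ ℕ)) (hm : as.length + 2 = sdim Z) :
    RCS (nm C X Z) (HS C X) (lp' C X as) := by
  simpa using rcs_mixed hC as X hZ 0 hm 0

theorem descend (X : Var k P) {Z T : Sub k P} (hZ : (Z : Set (P.Pt k)) ⊆ X.pts) (hT : T ≤ Z)
    (hd : sdim T + 1 = sdim Z) (as : List (P.ι →₀ ℕ)) (hm : as.length + 2 = sdim Z)
    {y D : EE C X} (hy : y ∈ HS C X) (hD : D ∈ HS C X) (h1 : 0 < nm C X Z (lp' C X as * y * y))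
    (h2 : nm C X Z (lp' C X as * y * D) = 0) (h3 : nm C X Z (lp' C X as * D * D) = 0) :
    nm C X T (lp' C X as * D) = 0 := by
  obtain ⟨κ, _, g, a, hg⟩ := exists_cuts (T : Set (P.Pt k))
  obtain ⟨Z', hs, hi, hd', ⟨N, N0, hN⟩, s, μ, s1, s2, s3⟩ := Desc_graph hC X hZ hg.form (by
    by_contra hc
    push Not at hc
    have : Z ≤ T := fun x hx => hg.mem T.isClosed fun i => hc i x hx
    have := sdim_mono this
    omega)
  obtain ⟨T0, t1, t2⟩ := exists_over (Z' := Z') (T := T) (by rw [← hi] at hT; exact hT)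
  obtain ⟨π, hπ⟩ : ∃ π, π = Prj.one X (Amb.one κ) := ⟨_, rfl⟩
  replace t2 : π.img T0 = T := by rw [hπ]; exact t2
  rw [← hπ] at hi hN s1 s3
  have R := rcs hC _ hs (as.map (Finsupp.mapDomain π.ψ)) (by simpa [hd'] using hm)
  rw [← pl_lp'] at R
  have h4 := R.null (pl_HS C π hy) (pl_HS C π hD)
    (by rw [← map_mul, ← map_mul, hN]; exact mul_pos N0 h1)
    (by rw [← map_mul, ← map_mul, hN, h2, mul_zero])
    (by rw [← map_mul, ← map_mul, hN, h3, mul_zero])
    (Submodule.sub_mem _ (pl_HS C π (ln_mem_HS C X a))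
      (Submodule.subset_span ⟨Desc_j P κ, rfl⟩))
  rw [← map_mul, nm_apply, mul_comm (pl C π _), ← mul_assoc, Desc_tau _ s3] at h4
  have key : ∀ T' ∈ s, ∃ c : ℚ, 0 ≤ c ∧ (π.img T' = T → 0 < c) ∧
      nm C _ T' (pl C π (lp' C X as * D)) = c * nm C X T (lp' C X as * D) := by
    intro T' hT'
    obtain ⟨u1, u2, u3⟩ := (s1 T').1 hT'
    obtain ⟨n, n1, n2⟩ := n_push hC π (Set.Subset.trans u1 hs)
    have le : π.img T' ≤ T := fun x hx => hg.mem T.isClosed fun i => u3 i x hx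
    by_cases e : π.img T' = T
    · rw [e] at n1 n2
      exact ⟨n, by positivity, fun _ => by exact_mod_cast n1.2 (by omega), n2 _⟩
    · have : n = 0 := by
        by_contra hn
        have := n1.1 (Nat.pos_of_ne_zero hn)
        have := sdim_lt (lt_of_le_of_ne le e)
        omega
      exact ⟨0, le_rfl, fun h => absurd h e, by rw [n2, this]; simp⟩
  choose! c c0 c1 c2 using key
  have T0s : T0 ∈ s := by
    refine (s1 T0).2 ⟨t1, ?_, fun t => by rw [t2]; exact hg.van t⟩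
    have a1 := π.sdim_img_le T0
    have a2 : sdim T0 < sdim Z' := sdim_lt (lt_of_le_of_ne t1 (by
      rintro rfl
      rw [hi] at t2
      rw [t2] at hd
      omega))
    rw [t2] at a1
    omega
  rw [Finset.sum_congr rfl fun T' hT' => by rw [c2 T' hT', ← mul_assoc], ← Finset.sum_mul] at h4
  exact (mul_eq_zero.1 h4).resolve_left (Finset.sum_pos'
    (fun T' hT' => mul_nonneg (s2 T' hT').le (c0 T' hT'))
    ⟨T0, T0s, mul_pos (s2 T0 T0s) (c1 T0 T0s t2)⟩).ne'

/-- A divisor class which is null for `h ^ (e + 1) A ^ e'` is orthogonal to `x h ^ e A ^ e'` for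
every class `x` of codimension two coming from the base. -/
theorem bc {Ω : Var k P'} {X : Var k P} (hX : IsIrreducible X.pts) (π : Prj Ω X) {Z : Sub k P'}
    (hZ : (Z : Set (P'.Pt k)) ⊆ Ω.pts) (hi : π.img Z = X.top hX) (hd : sdim Z = X.dim)
    (γ : Crd k Q P') (hγ : ∀ U ≤ Z, sdim U ≤ sdim (γ.img U))
    {a : P.ι →₀ ℕ} (ha : ∀ i, 0 < a i) {b : Q.ι →₀ ℕ} (hb : ∀ i, 0 < b i) (e e' : ℕ)
    (he : e + e' + 3 = X.dim) (he' : 1 ≤ e') {D : EE C Ω} (hD : D ∈ HS C Ω)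
    (h1 : nm C Ω Z (pl C π (ln C X a) ^ (e + 2) * ln C Ω (b.mapDomain γ.ψ) ^ e' * D) = 0)
    (h2 : nm C Ω Z (pl C π (ln C X a) ^ (e + 1) * ln C Ω (b.mapDomain γ.ψ) ^ e' * D * D) = 0)
    {x : EE C X} (hx : x ∈ AA C X 2) :
    nm C Ω Z (pl C π x * pl C π (ln C X a) ^ e * ln C Ω (b.mapDomain γ.ψ) ^ e' * D) = 0 := by
  rw [pl_ln] at h1 h2 ⊢
  obtain ⟨a', ha'⟩ : ∃ a', a' = a.mapDomain π.ψ := ⟨_, rfl⟩
  obtain ⟨b', hb'⟩ : ∃ b', b' = b.mapDomain γ.ψ := ⟨_, rfl⟩
  have pos : ∀ T ≤ Z, ∀ j, j + e' = sdim T → j ≤ sdim (π.img T) →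
      0 < nm C Ω T (ln C Ω a' ^ j * ln C Ω b' ^ e') := fun T hT j e1 e2 => by
    rw [ha', hb']
    exact nm_pos hC Ω π.toCrd γ (Set.Subset.trans hT hZ) (fun U hU => hγ U (hU.trans hT)) ha hb
      j e' e2 e1
  rw [← ha', ← hb'] at h1 h2 ⊢
  have top := X.sdim_top hX
  have hh := ln_mem_HS C Ω a'
  obtain ⟨f, c, f1, f2, f3⟩ := π.fibre Z
  have fin := (finite_div Z f1 f2).image π.img
  have key : ∀ S : Sub k P, (S : Set (P.Pt k)) ⊆ X.pts → sdim S + 2 = X.dim →
      (∀ V ≤ Z, π.img V ≤ S → sdim V + 2 ≤ sdim Z) →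
      nm C Ω Z (pl C π (cy C X S) * (ln C Ω a' ^ e * ln C Ω b' ^ e' * D)) = 0 := by
    intro S hS dS hb
    have hm := n_meet hC π hZ hS fun U h1 h2 => by
      have := hb U h1 h2
      omega
    obtain ⟨N, g, N0, g1, g2, g3⟩ := exists_form_van S.isClosed (fin.insert (X.top hX)) (by
      rintro _ (rfl | ⟨T, ⟨t1, t2, t3⟩, rfl⟩)
      · intro h
        have := sdim_mono (U := X.top hX) (Z := S) h
        omega
      · intro h
        have := hb T t1 h
        omega) ha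
    have G1 := π.form g1
    have G2 : ¬ Van (Z : Set (P'.Pt k)) (rename π.ε g) := fun h =>
      g3 _ (Set.mem_insert _ _) (by rw [← hi]; exact (π.van_img g1).2 h)
    obtain ⟨s, μ, s1, s2, s3⟩ := n_div' hC Ω hZ G1 G2
    rw [Finsupp.mapDomain_smul, ← ha', ln_smul] at s3
    have p1 : ∀ T ∈ s, 0 < nm C Ω T (ln C Ω a' ^ e * ln C Ω b' ^ e' * ln C Ω a' * ln C Ω a') := by
      intro T hT
      obtain ⟨t1, t2, t3⟩ := (s1 T).1 hT
      have : ¬ Van (T : Set (P'.Pt k)) f := fun h =>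
        g3 _ (Set.mem_insert_of_mem _ ⟨T, ⟨t1, t2, h⟩, rfl⟩) ((π.van_img g1).2 t3)
      have := f3 T t1 this
      rw [hi] at this
      convert pos T t1 (e + 2) (by omega) (by omega) using 2
      ring
    have p2 : ∀ T ∈ s, nm C Ω T (ln C Ω a' ^ e * ln C Ω b' ^ e' * ln C Ω a' * D) = 0 := by
      intro T hT
      obtain ⟨t1, t2, -⟩ := (s1 T).1 hT
      have := descend hC Ω hZ t1 t2 (List.replicate (e + 1) a' ++ List.replicate e' b')
        (by simp; omega) hh hD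
        (by
          rw [Desc_rep]
          convert pos Z le_rfl (e + 3) (by omega) (by rw [hi]; omega) using 2
          ring)
        (by rw [Desc_rep, ← h1]; congr 1; ring) (by rw [Desc_rep, h2])
      rw [Desc_rep] at this
      rw [← this]
      congr 1
      ring
    have p3 : ∀ T ∈ s, μ T * nm C Ω T (ln C Ω a' ^ e * ln C Ω b' ^ e' * D * D) = 0 := by
      refine (Finset.sum_eq_zero_iff_of_nonpos fun T hT => ?_).1 ?_
      · obtain ⟨t1, t2, -⟩ := (s1 T).1 hT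
        have R := rcs hC Ω (Set.Subset.trans t1 hZ) (List.replicate e a' ++ List.replicate e' b')
          (by simp; omega)
        rw [Desc_rep] at R
        exact mul_nonpos_of_nonneg_of_nonpos (s2 T hT).le (R.nonpos hh hD (p1 T hT) (p2 T hT))
      · rw [← Desc_tau _ s3, mul_assoc, ← nm_apply, smul_mul_assoc, map_smul,
          show ln C Ω a' * (ln C Ω a' ^ e * ln C Ω b' ^ e' * D * D) =
            ln C Ω a' ^ (e + 1) * ln C Ω b' ^ e' * D * D by ring, h2, smul_zero]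
    rw [nm_apply, ← mul_assoc]
    refine Desc_CS Ω (tau C Ω ∘ₗ LinearMap.mulRight ℚ (ln C Ω a' ^ e * ln C Ω b' ^ e' * D))
      (fun U _ hU => ?_) hm
    obtain ⟨u1, u2, u3⟩ := hU
    obtain ⟨T, t0, t1, t3, t2⟩ := krg u1 G1 G2 ((π.van_img g1).1 fun z hz => g2 z (u2 hz))
    have hT := (s1 T).2 ⟨t1, t2, t3⟩
    have := descend hC Ω (Set.Subset.trans t1 hZ) t0 (by omega)
      (List.replicate e a' ++ List.replicate e' b') (by simp; omega) hh hD
      (by rw [Desc_rep]; exact p1 T hT) (by rw [Desc_rep]; exact p2 T hT)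
      (by rw [Desc_rep]; exact (mul_eq_zero.1 (p3 T hT)).resolve_left (s2 T hT).ne')
    rw [Desc_rep] at this
    exact this
  rw [mul_assoc, mul_assoc, ← mul_assoc (ln C Ω a' ^ e)]
  obtain ⟨ℓ, hℓ⟩ : ∃ ℓ : EE C X →ₗ[ℚ] ℚ, ∀ x, ℓ x =
      nm C Ω Z (pl C π x * (ln C Ω a' ^ e * ln C Ω b' ^ e' * D)) :=
    ⟨nm C Ω Z ∘ₗ LinearMap.mulRight ℚ _ ∘ₗ (pl C π).toLinearMap, fun _ => rfl⟩
  rw [← hℓ]
  refine Desc_CS X ℓ (fun S hS hp => ?_)
    (genpos hC hX π (Set.finite_singleton Z) (fun _ h => h ▸ hZ) hx)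
  rw [hℓ]
  exact key S hS hp.1 (hp.2 Z rfl)

end Pool.Agent.Work.MP_ffcd14_ag
end

-- merged part: Pool.Agent.Work.MP_ffcd14_ag.Cyc.HI
section
/-! # Divisor classes on a smooth variety: the Hodge index theorem -/

open MvPolynomial Topology TopologicalSpace Filter

namespace Pool.Agent.Work.MP_ffcd14_ag

universe u v w

section Aux

variable {k : Type u} [Field k] {P P' : Amb}

theorem HI_mk_eq {V : Type} {v w : V → k} (hv : v ≠ 0) (hw : w ≠ 0)
    (h : ∀ s t, v s * w t = v t * w s) :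
    Projectivization.mk k v hv = Projectivization.mk k w hw := by
  obtain ⟨s₀, hs₀⟩ := Function.ne_iff.mp hw
  have h0 : w s₀ ≠ 0 := hs₀
  rw [Projectivization.mk_eq_mk_iff']
  refine ⟨v s₀ / w s₀, funext fun s => ?_⟩
  simp only [Pi.smul_apply, smul_eq_mul]
  field_simp
  linear_combination h s₀ s

theorem HI_irr {X : Var k P} {Y : Var k P'} (φ : Hom X Y) (hX : IsIrreducible X.pts)
    (h : Function.Surjective φ.toFun) : IsIrreducible Y.pts := by
  have h1 : IsIrreducible (Set.univ : Set X.pts) := by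
    have := Subtype.irreducibleSpace hX
    exact IrreducibleSpace.isIrreducible_univ _
  have h2 := h1.image (fun x => (φ.toFun x).1)
    (continuous_subtype_val.comp φ.continuous).continuousOn
  convert h2 using 1
  ext y
  constructor
  · intro hy
    obtain ⟨x, hx⟩ := h ⟨y, hy⟩
    exact ⟨x, trivial, congrArg Subtype.val hx⟩
  · rintro ⟨x, -, rfl⟩
    exact (φ.toFun x).2

theorem HI_img_top {Ω : Var k P'} {X : Var k P} (hΩ : IsIrreducible Ω.pts)
    (hX : IsIrreducible X.pts) (π : Prj Ω X) (ψ : Hom X Ω) (h : Inv π.hom ψ) :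
    π.img (Ω.top hΩ) = X.top hX := by
  refine le_antisymm ((π.img_sub X.closed).2 fun x hx => π.maps x hx) fun x hx => ?_
  have h1 : π.pr (ψ.toFun ⟨x, hx⟩).1 = x := congrArg Subtype.val (h.2 ⟨x, hx⟩)
  rw [← h1]
  exact π.mem_img (Z := Ω.top hΩ) (ψ.toFun ⟨x, hx⟩).2

theorem HI_prop {Z : Sub k P} {κ : Type} {g e e' : κ → MvPolynomial P.V k} {a b b' : P.ι →₀ ℕ}
    (hg : ∀ s, IsForm (g s) a) (he : ∀ s, IsForm (e s) b) (he' : ∀ s, IsForm (e' s) b')
    (h0 : ∃ s, ¬ Van (Z : Set (P.Pt k)) (g s))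
    (h1 : ∀ s t, Van (Z : Set (P.Pt k)) (g s * e t - g t * e s))
    (h2 : ∀ s t, Van (Z : Set (P.Pt k)) (g s * e' t - g t * e' s)) (s t : κ) {y : P.Pt k}
    (hy : y ∈ Z) : ev y (e s) * ev y (e' t) = ev y (e t) * ev y (e' s) := by
  obtain ⟨s₀, h0⟩ := h0
  have h3 : Van (Z : Set (P.Pt k)) (e s * e' t - e t * e' s) := by
    refine (Van.mul (hg s₀) (IsWeightedHomogeneous.sub ((he s).mul (he' t))
      ((he t).mul (he' s))) fun x hx => ?_).resolve_left h0
    have e1 := h1 s t x hx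
    have e2 := h2 s₀ s x hx
    have e3 := h2 s₀ t x hx
    simp only [ev_eq, map_mul, map_sub] at e1 e2 e3 ⊢
    linear_combination eval (rp x) (e s) * e3 - eval (rp x) (e t) * e2 -
      eval (rp x) (e' s₀) * e1
  have h4 := h3 y hy
  simp only [ev_eq, map_mul, map_sub] at h4 ⊢
  exact sub_eq_zero.mp h4

/-- A rational map which is locally given by forms without common zero is a morphism. -/
theorem HI_hom (X : Var k P) (hX : IsIrreducible X.pts) (Q : Amb)
    (g : ∀ j : Q.ι, Q.σ j → MvPolynomial P.V k) (a : Q.ι → P.ι →₀ ℕ)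
    (hg : ∀ j s, IsForm (g j s) (a j)) (h0 : ∀ j, ∃ s, ¬ Van X.pts (g j s))
    (h : ∀ (x : X.pts) j, ∃ (b : P.ι →₀ ℕ) (e : Q.σ j → MvPolynomial P.V k),
      (∀ s, IsForm (e s) b) ∧ (∃ s, ev x.1 (e s) ≠ 0) ∧
        ∀ s t, Van X.pts (g j s * e t - g j t * e s)) :
    ∃ θ : Hom X (Var.full k Q), ∀ x j s t,
      ev x.1 (g j s) * ((θ.toFun x).1 j).rep t = ev x.1 (g j t) * ((θ.toFun x).1 j).rep s := by
  choose b e he hne hv using h
  have hne' : ∀ x j, (fun s => ev x.1 (e x j s)) ≠ 0 := fun x j => Function.ne_iff.mpr (hne x j)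
  refine ⟨⟨fun x => ⟨fun j => Projectivization.mk k _ (hne' x j), trivial⟩, fun x j =>
    ⟨b x j, e x j, he x j, ?_⟩⟩, fun x j s t => ?_⟩
  · obtain ⟨s₀, hs₀⟩ := hne x j
    filter_upwards [continuous_subtype_val.continuousAt.eventually
      (eventually_ne (he x j s₀) hs₀)] with y hy
    refine ⟨Function.ne_iff.mpr ⟨s₀, hy⟩, HI_mk_eq _ _ fun s t => ?_⟩
    exact HI_prop (Z := X.top hX) (hg j) (he y j) (he x j) (h0 j) (hv y j) (hv x j) s t y.2
  · obtain ⟨c, -, hc⟩ := exists_rep_eq (p := Projectivization.mk k _ (hne' x j)) rfl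
    have h1 := hv x j s t x.1 x.2
    simp only [ev_eq, map_mul, map_sub] at h1
    change ev x.1 (g j s) * (Projectivization.mk k _ (hne' x j)).rep t =
      ev x.1 (g j t) * (Projectivization.mk k _ (hne' x j)).rep s
    rw [hc, hc]
    simp only [ev_eq]
    linear_combination c * h1

/-- The projection of the graph to the source, as a coordinate map. -/
def HI_prj {Q : Amb} {X : Var k P} {Y : Var k Q} (θ : Hom X Y) : Prj θ.graph X where
  toCrd := Crd.inl k P Q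
  maps _ hz := hz.choose

theorem HI_inv {Q : Amb} {X : Var k P} {Y : Var k Q} (θ : Hom X Y) :
    Inv (HI_prj θ).hom θ.graphInv :=
  ⟨fun z => θ.graphInv_fst z, fun _ => rfl⟩

end Aux

variable {k : Type u} [Field k] [IsAlgClosed k] {K : Type v} [Field K] [CharZero K]
  {P P' : Amb} {C : NT.{u, v, w} k K}

theorem HI_nm_top (X : Var k P) (hX : IsIrreducible X.pts) (y : EE C X) :
    nm C X (X.top hX) y = tau C X y := by
  rw [nm_apply, cy_top, one_mul]

omit [IsAlgClosed k] [CharZero K] in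
theorem HI_lp (X : Var k P) (a : P.ι →₀ ℕ) (n : ℕ) :
    lp' C X (List.replicate n a) = ln C X a ^ n := by
  rw [lp', List.map_replicate, List.prod_replicate]

variable (hC : C.Cyc)
include hC

/-- Along an isomorphism the class of a subvariety is a positive multiple of the pull-back of the
class of its image. -/
theorem n_iso {Ω : Var k P'} {X : Var k P} (hΩ : IsIrreducible Ω.pts) (hX : IsIrreducible X.pts)
    (π : Prj Ω X) (ψ : Hom X Ω) (h : Inv π.hom ψ) {Z : Sub k P'}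
    (hZ : (Z : Set (P'.Pt k)) ⊆ Ω.pts) :
    ∃ n : ℕ, 0 < n ∧ cy C Ω Z = (n : ℚ) • pl C π (cy C X (π.img Z)) := by
  have hd : sdim (Ω.top hΩ) = X.dim := by
    rw [← n_iso1 π ψ h (Z := Ω.top hΩ) subset_rfl, HI_img_top hΩ hX π ψ h, X.sdim_top hX]
  have hZ' := n1_img_sub π hZ
  have h1 := n_meet hC π (Z := Ω.top hΩ) subset_rfl hZ' fun U hU hU' => by
    have := sdim_mono hU'
    rw [n_iso1 π ψ h (Z := U) hU] at this
    omega
  rw [cy_top, one_mul] at h1
  have h2 : pl C π (cy C X (π.img Z)) ∈ Submodule.span ℚ {cy C Ω Z} := by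
    refine Submodule.span_mono ?_ h1
    rintro _ ⟨U, hU, ⟨-, h3, h4⟩, rfl⟩
    have h5 : U ≤ Z := fun x hx => by
      have h6 : (X.res (π.img Z) hZ' : Set X.pts) ⊆ ψ.toFun ⁻¹' (Ω.res Z hZ : Set Ω.pts) := by
        rw [← n1_closure π hZ]
        refine closure_minimal ?_ ((Ω.res Z hZ).isClosed.preimage ψ.continuous)
        rintro _ ⟨y, hy, rfl⟩
        rwa [Set.mem_preimage, h.1]
      have h7 := h6 (a := π.hom.toFun ⟨x, hU hx⟩) (h3 (π.mem_img hx))
      rwa [Set.mem_preimage, h.1] at h7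
    rw [n_iso1 π ψ h hZ] at h4
    rw [eq_of_sdim_le h5 (by omega)]
    rfl
  obtain ⟨q, hq⟩ := Submodule.mem_span_singleton.1 h2
  obtain ⟨n, hn, hp⟩ := n_push hC π hZ
  obtain ⟨a, ha⟩ : ∃ a : P.ι →₀ ℕ, ∀ i, 0 < a i :=
    ⟨Finsupp.equivFunOnFinite.symm fun _ => 1, fun _ => by simp⟩
  have h3 := nm_pos hC X (Crd.refl k P) (Crd.refl k P) hZ' (fun U _ => by rw [Crd.img_refl]) ha ha
    0 _ (Nat.zero_le _) (zero_add _)
  generalize ln C X _ ^ 0 * ln C X _ ^ _ = y at h3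
  have h4 : q * n = 1 := by
    refine mul_right_cancel₀ h3.ne' ?_
    rw [mul_assoc, ← hp, one_mul, nm_apply, nm_apply, ← tau_iso C π ψ hX h, map_mul (pl C π),
      ← hq, smul_mul_assoc, map_smul, smul_eq_mul]
  refine ⟨n, hn.2 (n_iso1 π ψ h hZ).symm, ?_⟩
  rw [← hq, smul_smul, mul_comm, h4, one_smul]

theorem HI_span (X : Var k P) (hX : IsIrreducible X.pts) {J : Type} [Finite J] (D : J → Sub k P)
    (hD : ∀ j, (D j : Set (P.Pt k)) ⊆ X.pts) (hd : ∀ j, sdim (D j) + 1 = X.dim) :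
    ∃ (P' : Amb) (Ω : Var k P') (π : Prj Ω X) (ψ : Hom X Ω), Inv π.hom ψ ∧ Ω.dim = X.dim ∧
      IsIrreducible Ω.pts ∧ ∀ j, pl C π (cy C X (D j)) ∈ HS C Ω := by
  choose κ hκ g a hg using fun j => exists_cuts (D j : Set (P.Pt k))
  let Q : Amb := { ι := J, σ := κ }
  have h0 : ∀ j, ∃ s, ¬ Van X.pts (g j s) := fun j => by
    by_contra h
    push Not at h
    have h1 : X.top hX ≤ D j := fun x hx => (hg j).mem (D j).isClosed fun s => h s x hx
    have h2 := sdim_mono h1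
    rw [X.sdim_top hX] at h2
    have := hd j
    omega
  obtain ⟨θ, hθ⟩ := HI_hom X hX Q g a (fun j => (hg j).form) h0 fun x j =>
    lpg (Z := X.top hX) (hD j) (by rw [X.sdim_top hX]; exact hd j) (hg j) x.2
      (Or.inl (X.smAt hX x.2))
  have hi := HI_inv θ
  have hΩ : IsIrreducible θ.graph.pts :=
    HI_irr θ.graphInv hX fun z => ⟨_, hi.1 z⟩
  refine ⟨_, θ.graph, HI_prj θ, θ.graphInv, hi, rfl, hΩ, fun j => ?_⟩
  have hev : ∀ (z : (P.sum Q).Pt k) s, ev z (rename (Crd.inl k P Q).ε (g j s)) =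
      ev ((Crd.inl k P Q).pr z) (g j s) := fun z s => (Crd.inl k P Q).ev_rename z _
  obtain ⟨S, m, hS, hm, hsum⟩ := n_ratio hC θ.graph (Z := θ.graph.top hΩ) subset_rfl
    (f := fun s => rename (Crd.inl k P Q).ε (g j s))
    (e := fun s : κ j => MvPolynomial.X (⟨Sum.inr j, s⟩ : (P.sum Q).V))
    (b := Finsupp.single (Sum.inr j) 1)
    (fun s => (Crd.inl k P Q).form ((hg j).form s))
    (fun s => IsForm.X (⟨Sum.inr j, s⟩ : (P.sum Q).V))
    (fun s t z hz => by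
      obtain ⟨hx, hz⟩ := hz
      have h1 := hθ ⟨_, hx⟩ j s t
      rw [hz] at h1
      have h2 := hev z s
      have h3 := hev z t
      simp only [ev_eq, map_mul, map_sub, eval_X] at h2 h3 ⊢
      rw [h2, h3]
      exact sub_eq_zero.mpr h1)
    (by
      obtain ⟨s, hs⟩ := h0 j
      refine ⟨s, fun hv => hs fun x hx => ?_⟩
      have := hv _ (θ.graphInv.toFun ⟨x, hx⟩).2
      rwa [hev] at this)
    (fun T _ => by
      obtain ⟨z, hz⟩ := T.isIrreducible.nonempty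
      obtain ⟨s, hs⟩ := Function.ne_iff.mp (z (Sum.inr j)).rep_nonzero
      exact ⟨s, fun hv => hs ((ev_X z _).symm.trans (hv z hz))⟩)
  have hdim : sdim (θ.graph.top hΩ) = X.dim := θ.graph.sdim_top hΩ
  have hT : ∀ T ∈ S, ∃ n : ℕ, 0 < n ∧
      cy C θ.graph T = (n : ℚ) • pl C (HI_prj θ) (cy C X (D j)) := by
    intro T hT
    obtain ⟨h1, h2, h3⟩ := (hS T).1 hT
    have h4 := n_iso1 (HI_prj θ) θ.graphInv hi (Z := T) h1
    have h5 := n_iso hC hΩ hX (HI_prj θ) θ.graphInv hi (Z := T) h1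
    have h6 : (HI_prj θ).img T ≤ D j := ((HI_prj θ).img_sub (D j).isClosed).2 fun z hz =>
      (hg j).mem (D j).isClosed fun s => (hev z s).symm.trans (h3 s z hz)
    have h7 : (HI_prj θ).img T = D j := eq_of_sdim_le h6 (by have := hd j; omega)
    rwa [h7] at h5
  have hne : S.Nonempty := by
    obtain ⟨T, h1, h2⟩ := exists_over (Z' := θ.graph.top hΩ) (T := D j)
      (le_of_le_of_eq (hD j : D j ≤ X.top hX) (HI_img_top hΩ hX (HI_prj θ) _ hi).symm)
    refine ⟨T, (hS T).2 ⟨h1, ?_, fun s z hz => ?_⟩⟩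
    · have h4 := n_iso1 (HI_prj θ) θ.graphInv hi (Z := T) h1
      have h5 : (HI_prj θ).img T = D j := h2
      rw [h5] at h4
      have := hd j
      omega
    · rw [hev]
      refine (hg j).van s _ ?_
      rw [← h2]
      exact (Crd.inl k P Q).mem_img hz
  choose! n hn hn' using hT
  have hc : 0 < ∑ T ∈ S, m T * n T := Finset.sum_pos
    (fun T hT => mul_pos (hm T hT) (by exact_mod_cast hn T hT)) hne
  rw [cy_top, one_mul, Finset.sum_congr rfl fun T hT => by rw [hn' T hT, smul_smul],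
    ← Finset.sum_smul] at hsum
  rw [← Submodule.smul_mem_iff _ hc.ne', ← hsum]
  exact sub_mem (ln_mem_HS C _ _) (ln_mem_HS C _ _)

/-- After re-embedding, finitely many given divisor classes are combinations of hyperplane
classes. -/
theorem div_span (X : Var k P) (hX : IsIrreducible X.pts) {κ : Type} [Finite κ] (x : κ → EE C X)
    (hx : ∀ i, x i ∈ AA C X 1) :
    ∃ (P' : Amb) (Ω : Var k P') (π : Prj Ω X) (ψ : Hom X Ω), Inv π.hom ψ ∧ Ω.dim = X.dim ∧
      IsIrreducible Ω.pts ∧ ∀ i, pl C π (x i) ∈ HS C Ω := by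
  rw [AA_eq_CS C X hX] at hx
  choose t ht hxt using fun i => Submodule.mem_span_finite_of_mem_span (hx i)
  choose D hD hd hcy using fun (j : Σ i, Fin (t i).card) =>
    ht j.1 ((t j.1).equivFin.symm j.2).2
  obtain ⟨P', Ω, π, ψ, h1, h2, h3, h4⟩ := HI_span hC X hX D hD hd
  refine ⟨P', Ω, π, ψ, h1, h2, h3, fun i => ?_⟩
  have : Submodule.span ℚ (t i : Set (EE C X)) ≤ (HS C Ω).comap (pl C π).toLinearMap := by
    refine Submodule.span_le.2 fun y hy => ?_
    have h5 := h4 ⟨i, (t i).equivFin ⟨y, hy⟩⟩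
    rw [← hcy, Equiv.symm_apply_apply] at h5
    exact h5
  exact this (hxt i)

theorem rcsA (X : Var k P) (hX : IsIrreducible X.pts) (as : List (P.ι →₀ ℕ))
    (hm : as.length + 2 = X.dim) : RCS (tau C X) (AA C X 1) (lp' C X as) := by
  intro y hy z hz
  obtain ⟨P', Ω, π, ψ, h1, h2, h3, h4⟩ := div_span hC X hX (κ := Bool)
    (fun b => cond b y z) (by rintro (_ | _) <;> assumption)
  have h5 := rcs hC Ω (Z := Ω.top h3) subset_rfl (as.map (Finsupp.mapDomain π.ψ))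
    (by rw [List.length_map, Ω.sdim_top h3]; omega) _ (h4 true) _ (h4 false)
  simp only [cond, HI_nm_top, ← pl_lp', ← map_mul, tau_iso C π ψ hX h1] at h5
  exact h5

theorem tau_pos (X : Var k P) (hX : IsIrreducible X.pts) {a : P.ι →₀ ℕ} (ha : ∀ i, 0 < a i) :
    0 < tau C X (ln C X a ^ X.dim) := by
  have h := nm_pos hC X (Crd.refl k P) (Crd.refl k P) (Z := X.top hX) subset_rfl
    (fun U _ => by rw [Crd.img_refl]) ha ha 0 X.dim (Nat.zero_le _)
    (by rw [X.sdim_top hX, zero_add])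
  rw [pow_zero, one_mul, HI_nm_top] at h
  have e : a.mapDomain (Crd.refl k P).ψ = a := Finsupp.mapDomain_id
  rwa [e] at h

theorem HI_pos {Ω : Var k P'} {X : Var k P} (π : Prj Ω X) (ψ : Hom X Ω) (h : Inv π.hom ψ)
    {a : P.ι →₀ ℕ} (ha : ∀ i, 0 < a i) {T : Sub k P'} (hT : (T : Set (P'.Pt k)) ⊆ Ω.pts) {n : ℕ}
    (hn : sdim T = n + 2) :
    0 < nm C Ω T (ln C Ω (a.mapDomain π.ψ) ^ n * ln C Ω (a.mapDomain π.ψ) *
      ln C Ω (a.mapDomain π.ψ)) := by
  have h1 := nm_pos hC Ω π.toCrd π.toCrd hT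
    (fun U hU => (n_iso1 π ψ h (Z := U) (Set.Subset.trans hU hT)).ge) ha ha 0 (n + 2)
    (Nat.zero_le _) (by omega)
  rwa [pow_zero, one_mul, pow_succ, pow_succ] at h1

theorem HI_first {Ω : Var k P'} {X : Var k P} (hΩ : IsIrreducible Ω.pts) (π : Prj Ω X)
    (ψ : Hom X Ω) (h : Inv π.hom ψ) {a : P.ι →₀ ℕ} (ha : ∀ i, 0 < a i) {D : EE C Ω}
    (hD : D ∈ HS C Ω) {n : ℕ} (hn : n + 2 ≤ Ω.dim)
    (H : ∀ T : Sub k P', (T : Set (P'.Pt k)) ⊆ Ω.pts → sdim T = n + 2 →
      nm C Ω T (ln C Ω (a.mapDomain π.ψ) ^ (n + 1) * D) = 0 ∧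
        nm C Ω T (ln C Ω (a.mapDomain π.ψ) ^ n * D * D) = 0)
    (U : Sub k P') (hU : (U : Set (P'.Pt k)) ⊆ Ω.pts) (hd : sdim U = n + 1) :
    nm C Ω U (ln C Ω (a.mapDomain π.ψ) ^ n * D) = 0 := by
  have hlt : U < Ω.top hΩ := lt_of_le_of_ne hU fun e => by
    rw [e, Ω.sdim_top hΩ] at hd
    omega
  obtain ⟨T, h1, h2, h3⟩ := exists_cover_up hlt
  obtain ⟨h4, h5⟩ := H T h2 (by omega)
  have h6 := descend hC Ω (Z := T) h2 h1 h3 (List.replicate n (a.mapDomain π.ψ))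
    (by rw [List.length_replicate]; omega) (ln_mem_HS C Ω (a.mapDomain π.ψ)) hD
  rw [HI_lp] at h6
  exact h6 (HI_pos hC π ψ h ha h2 (by omega)) (by rwa [← pow_succ]) h5

theorem HI_second {Ω : Var k P'} {X : Var k P} (hΩ : IsIrreducible Ω.pts) (π : Prj Ω X)
    (ψ : Hom X Ω) (h : Inv π.hom ψ) {a : P.ι →₀ ℕ} (ha : ∀ i, 0 < a i) {D : EE C Ω}
    (hD : D ∈ HS C Ω) {n : ℕ} (hn : n + 3 ≤ Ω.dim)
    (H : ∀ T : Sub k P', (T : Set (P'.Pt k)) ⊆ Ω.pts → sdim T = n + 1 + 2 →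
      nm C Ω T (ln C Ω (a.mapDomain π.ψ) ^ (n + 1 + 1) * D) = 0 ∧
        nm C Ω T (ln C Ω (a.mapDomain π.ψ) ^ (n + 1) * D * D) = 0)
    (U : Sub k P') (hU : (U : Set (P'.Pt k)) ⊆ Ω.pts) (hd : sdim U = n + 2) :
    nm C Ω U (ln C Ω (a.mapDomain π.ψ) ^ n * D * D) = 0 := by
  have hle : ∀ V : Sub k P', (V : Set (P'.Pt k)) ⊆ Ω.pts → sdim V = n + 2 →
      nm C Ω V (ln C Ω (a.mapDomain π.ψ) ^ n * D * D) ≤ 0 := fun V hV hdV =>
    (rcs_pure hC Ω hV n hdV.symm (a.mapDomain π.ψ)).nonpos (ln_mem_HS C Ω _) hD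
      (HI_pos hC π ψ h ha hV hdV)
      (by rw [← pow_succ]; exact HI_first hC hΩ π ψ h ha hD (by omega) H V hV hdV)
  have hlt : U < Ω.top hΩ := lt_of_le_of_ne hU fun e => by
    rw [e, Ω.sdim_top hΩ] at hd
    omega
  obtain ⟨T, h1, h2, h3⟩ := exists_cover_up hlt
  obtain ⟨N, g, -, hg, hgU, hgT⟩ := exists_form_van (π.img U).isClosed
    (Set.finite_singleton (π.img T)) (by
      rintro _ rfl hc
      have h4 := sdim_mono (U := π.img T) (Z := π.img U) hc
      rw [n_iso1 π ψ h (Z := T) h2, n_iso1 π ψ h hU] at h4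
      omega) ha
  obtain ⟨S, m, hS, hm, hsum⟩ := n_div' hC Ω (Z := T) h2 (π.form hg)
    fun hv => hgT _ rfl ((π.van_img hg).2 hv)
  have hUS : U ∈ S := (hS U).2 ⟨h1, h3, (π.van_img hg).1 hgU⟩
  have h5 := congrArg (fun y => tau C Ω (y * (ln C Ω (a.mapDomain π.ψ) ^ n * D * D))) hsum
  have h6 : cy C Ω T * ln C Ω ((N • a).mapDomain π.ψ) * (ln C Ω (a.mapDomain π.ψ) ^ n * D * D) =
      (N : ℚ) • (cy C Ω T * (ln C Ω (a.mapDomain π.ψ) ^ (n + 1) * D * D)) := by
    rw [Finsupp.mapDomain_smul, ln_smul, mul_smul_comm, smul_mul_assoc]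
    congr 1
    ring
  simp only [h6, Finset.sum_mul, smul_mul_assoc, map_sum, map_smul, ← nm_apply,
    (H T h2 (by omega)).2, smul_eq_mul, mul_zero] at h5
  have h7 := (Finset.sum_eq_zero_iff_of_nonpos fun V hV => by
    obtain ⟨e1, e2, -⟩ := (hS V).1 hV
    exact mul_nonpos_of_nonneg_of_nonpos (hm V hV).le
      (hle V (Set.Subset.trans e1 h2) (by omega))).1 h5.symm U hUS
  exact (mul_eq_zero.1 h7).resolve_left (hm U hUS).ne'

/-- The equality case of the Hodge index theorem. -/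
theorem hi_strict (X : Var k P) (hX : IsIrreducible X.pts) (m : ℕ) (hm : m + 2 = X.dim)
    {a : P.ι →₀ ℕ} (ha : ∀ i, 0 < a i) {D : EE C X} (hD : D ∈ AA C X 1)
    (h1 : tau C X (ln C X a ^ (m + 1) * D) = 0) (h2 : tau C X (ln C X a ^ m * D * D) = 0) :
    N0 C X D := by
  obtain ⟨P', Ω, π, ψ, h, hd, hΩ, h4⟩ := div_span hC X hX (κ := Unit) (fun _ => D) fun _ => hD
  have hD' := h4 ()
  have key : ∀ n ≤ m, ∀ T : Sub k P', (T : Set (P'.Pt k)) ⊆ Ω.pts → sdim T = n + 2 →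
      nm C Ω T (ln C Ω (a.mapDomain π.ψ) ^ (n + 1) * pl C π D) = 0 ∧
        nm C Ω T (ln C Ω (a.mapDomain π.ψ) ^ n * pl C π D * pl C π D) = 0 := by
    intro n hn
    induction hn using Nat.decreasingInduction with
    | self =>
      intro T hT hdT
      obtain rfl : T = Ω.top hΩ := eq_of_sdim_le hT (by rw [Ω.sdim_top hΩ]; omega)
      simp only [HI_nm_top, ← pl_ln, ← map_pow, ← map_mul, tau_iso C π ψ hX h]
      exact ⟨h1, h2⟩
    | of_succ n hn ih =>
      intro T hT hdT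
      exact ⟨HI_first hC hΩ π ψ h ha hD' (by omega) ih T hT hdT,
        HI_second hC hΩ π ψ h ha hD' (by omega) ih T hT hdT⟩
  rw [N0_iff C X (c := 1) (c' := m + 1) (by omega) hD]
  intro y hy
  have hy' := AA_pl C π hy
  rw [AA_eq_CS C Ω hΩ] at hy'
  have : (CS C Ω fun U => sdim U + (m + 1) = Ω.dim) ≤
      LinearMap.ker (tau C Ω ∘ₗ LinearMap.mulLeft ℚ (pl C π D)) := by
    refine Submodule.span_le.2 ?_
    rintro _ ⟨U, hU, hdU, rfl⟩
    have h5 := HI_first hC hΩ π ψ h ha hD' (n := 0) (by omega) (key 0 (Nat.zero_le _)) U hU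
      (by omega)
    rw [pow_zero, one_mul, nm_apply, mul_comm] at h5
    exact h5
  rw [← tau_iso C π ψ hX h, map_mul]
  exact this hy'

theorem bcA {Ω : Var k P'} {X : Var k P} (hΩ : IsIrreducible Ω.pts) (hX : IsIrreducible X.pts)
    (π : Prj Ω X) (hi : π.img (Ω.top hΩ) = X.top hX) (hd : Ω.dim = X.dim)
    {a : P.ι →₀ ℕ} (ha : ∀ i, 0 < a i) {b : P'.ι →₀ ℕ} (hb : ∀ i, 0 < b i) (e e' : ℕ)
    (he : e + e' + 3 = X.dim) (he' : 1 ≤ e') {D : EE C Ω} (hD : D ∈ AA C Ω 1)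
    (h1 : tau C Ω (pl C π (ln C X a) ^ (e + 2) * ln C Ω b ^ e' * D) = 0)
    (h2 : tau C Ω (pl C π (ln C X a) ^ (e + 1) * ln C Ω b ^ e' * D * D) = 0)
    {x : EE C X} (hx : x ∈ AA C X 2) :
    tau C Ω (pl C π x * pl C π (ln C X a) ^ e * ln C Ω b ^ e' * D) = 0 := by
  obtain ⟨P'', Ω', π', ψ, h, hd', hΩ', h4⟩ :=
    div_span hC Ω hΩ (κ := Unit) (fun _ => D) fun _ => hD
  have hc : ∀ z, pl C (π.comp π') z = pl C π' (pl C π z) :=
    pl_comp C π' π _ fun _ => rfl
  have h5 := bc hC hX (π.comp π') (Z := Ω'.top hΩ') subset_rfl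
    (by
      change (π.toCrd.comp π'.toCrd).img _ = _
      rw [Crd.img_comp, HI_img_top hΩ' hΩ π' ψ h, hi])
    (by rw [Ω'.sdim_top hΩ', hd', hd]) π'.toCrd
    (fun U hU => (n_iso1 π' ψ h (Z := U) hU).ge) ha hb e e' he he' (h4 ()) (x := x)
  simp only [hc, HI_nm_top, ← pl_ln, ← map_pow, ← map_mul, tau_iso C π' ψ hΩ h] at h5
  simp only [← map_pow, ← map_mul] at h1 h2 ⊢
  exact h5 h1 h2 hx

end Pool.Agent.Work.MP_ffcd14_ag
end
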