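import Pool.Agent.Work.MP_ffcd14_ag.Cyc.PDefs
import Pool.Agent.Work.MP_ffcd14_ag.Cyc.Noeth

/-! # Images under coordinate maps; fibre dimension -/

open MvPolynomial Topology TopologicalSpace

namespace Pool.Agent.Work.MP_ffcd14_ag

universe u

variable {k : Type u} [Field k] {L : Type u} [Field L] [Algebra k L] {P P' P'' Q : Amb}

/-- An algebraic relation survives every specialisation in which one coefficient survives. -/
theorem Img_spec {σ : Type} (w : σ → L) (S : Set σ) (y : σ)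
    (h : IsAlgebraic (Algebra.adjoin k (w '' S)) (w y)) :
    ∃ c : MvPolynomial σ k, aeval w c ≠ 0 ∧ ∀ (L' : Type u) [Field L'] [Algebra k L'] (w' : σ → L'),
      (∀ F : MvPolynomial σ k, aeval w F = 0 → aeval w' F = 0) → aeval w' c ≠ 0 →
        IsAlgebraic (Algebra.adjoin k (w' '' S)) (w' y) := by
  obtain ⟨p, hp, hpy⟩ := h
  have mem : ∀ (L' : Type u) [Field L'] [Algebra k L'] (w' : σ → L') (f : MvPolynomial S k),
      aeval (fun s : S => w' s) f ∈ Algebra.adjoin k (w' '' S) := by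
    intro L' _ _ w' f
    rw [Set.image_eq_range, Algebra.adjoin_range_eq_range_aeval]
    exact ⟨f, rfl⟩
  let φ : ∀ (L' : Type u) [Field L'] [Algebra k L'] (w' : σ → L'),
      MvPolynomial S k →ₐ[k] Algebra.adjoin k (w' '' S) := fun L' _ _ w' =>
    (aeval fun s : S => w' s).codRestrict _ (mem L' w')
  have hφ : Function.Surjective (φ L w) := by
    rintro ⟨z, hz⟩
    have hz' := hz
    rw [Set.image_eq_range, Algebra.adjoin_range_eq_range_aeval] at hz'
    obtain ⟨f, hf⟩ := hz'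
    exact ⟨f, Subtype.ext hf⟩
  obtain ⟨q, rfl⟩ := Polynomial.map_surjective (φ L w).toRingHom hφ p
  obtain ⟨n, hn⟩ : ∃ n, (q.map (φ L w).toRingHom).coeff n ≠ 0 := by
    by_contra hc
    push Not at hc
    exact hp (Polynomial.ext fun n => by simpa using hc n)
  have ren : ∀ (L' : Type u) [Field L'] [Algebra k L'] (w' : σ → L') (f : MvPolynomial S k),
      aeval w' (rename Subtype.val f) = ((φ L' w' f : Algebra.adjoin k (w' '' S)) : L') := by
    intro L' _ _ w' f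
    rw [aeval_rename]
    rfl
  have key : ∀ (L' : Type u) [Field L'] [Algebra k L'] (w' : σ → L'),
      aeval w' (q.eval₂ (rename (Subtype.val : S → σ)).toRingHom (X y : MvPolynomial σ k)) =
        Polynomial.aeval (w' y) (q.map (φ L' w').toRingHom) := by
    intro L' _ _ w'
    rw [Polynomial.aeval_def, Polynomial.eval₂_map]
    refine (Polynomial.hom_eval₂ q _ (aeval w' : MvPolynomial σ k →ₐ[k] L').toRingHom _).trans ?_
    congr 1
    · exact RingHom.ext fun f => ren L' w' f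
    · simp
  refine ⟨rename Subtype.val (q.coeff n), ?_, fun L' _ _ w' hker hc => ⟨q.map (φ L' w').toRingHom,
    fun h0 => hc ?_, ?_⟩⟩
  · rw [ren]
    rw [Polynomial.coeff_map] at hn
    exact fun h0 => hn (Subtype.ext h0)
  · have := congrArg (fun r => Polynomial.coeff r n) h0
    simp only [Polynomial.coeff_map, Polynomial.coeff_zero] at this
    rw [ren]
    exact congrArg Subtype.val this
  · rw [← key]
    exact hker _ ((key L w).trans hpy)

/-- Clearing denominators. -/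
theorem Img_clear {σ τ : Type} [Fintype τ] (d e : τ → σ) (F : MvPolynomial (σ ⊕ τ) k) :
    ∃ (N : ℕ) (G : MvPolynomial σ k), ∀ (L' : Type u) [Field L'] [Algebra k L'] (v : σ → L'),
      (∀ s, v (d s) ≠ 0) → aeval (Sum.elim v fun s => (v (d s))⁻¹ * v (e s)) F *
        (∏ s, v (d s)) ^ N = aeval v G := by
  classical
  induction F using MvPolynomial.induction_on with
  | C a => exact ⟨0, C a, fun L' _ _ v _ => by simp⟩
  | add p q hp hq =>
    obtain ⟨N, G, hG⟩ := hp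
    obtain ⟨M, H, hH⟩ := hq
    refine ⟨N + M, G * (∏ s, X (d s)) ^ M + H * (∏ s, X (d s)) ^ N, fun L' _ _ v hv => ?_⟩
    simp only [map_add, map_mul, map_pow, map_prod, aeval_X, ← hG L' v hv, ← hH L' v hv]
    ring
  | mul_X p s hp =>
    obtain ⟨N, G, hG⟩ := hp
    rcases s with s | s
    · refine ⟨N, G * X s, fun L' _ _ v hv => ?_⟩
      simp only [map_mul, aeval_X, ← hG L' v hv, Sum.elim_inl]
      ring
    · refine ⟨N + 1, G * X (e s) * ∏ t ∈ Finset.univ.erase s, X (d t), fun L' _ _ v hv => ?_⟩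
      have h1 := Finset.mul_prod_erase Finset.univ (fun t => v (d t)) (Finset.mem_univ s)
      have h2 := hv s
      simp only [map_mul, map_prod, aeval_X, ← hG L' v hv, Sum.elim_inr, pow_succ]
      rw [← h1]
      field_simp

/-- One form which controls finitely many forms. -/
theorem Img_prod (Z : Sub k P) {κ : Type} [Finite κ] (g : κ → MvPolynomial P.V k)
    (hg : ∀ j, ∃ a, IsForm (g j) a) (hZ : ∀ j, ¬ Van (Z : Set (P.Pt k)) (g j)) :
    ∃ (h : MvPolynomial P.V k) (a : P.ι →₀ ℕ), IsForm h a ∧ ¬ Van (Z : Set (P.Pt k)) h ∧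
      ∀ U : Set (P.Pt k), ¬ Van U h → ∀ j, ¬ Van U (g j) := by
  classical
  let _ := Fintype.ofFinite κ
  choose a ha using hg
  refine ⟨∏ j, g j, ∑ j, a j, IsWeightedHomogeneous.prod _ _ _ fun j _ => ha j,
    not_van_prod _ _ (fun j _ => ⟨_, ha j⟩) fun j _ => hZ j, fun U hU j hj => hU fun x hx => ?_⟩
  rw [ev_eq, map_prod]
  exact Finset.prod_eq_zero (Finset.mem_univ j) (hj x hx)

namespace Crd

variable (β : Crd k P P')

theorem van_img {Z : Sub k P'} {f : MvPolynomial P.V k} {a : P.ι →₀ ℕ} (hf : IsForm f a) :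
    Van (β.img Z : Set (P.Pt k)) f ↔ Van (Z : Set (P'.Pt k)) (rename β.ε f) := by
  rw [img, IrreducibleCloseds.coe_map, van_closure hf]
  constructor
  · intro h x hx
    rw [β.ev_rename]
    exact h _ ⟨x, hx, rfl⟩
  · rintro h _ ⟨x, hx, rfl⟩
    rw [← β.ev_rename]
    exact h x hx

theorem isGen_img {Z : Sub k P'} {v : P'.V → L} (h : IsGen (Z : Set (P'.Pt k)) v) :
    IsGen (β.img Z : Set (P.Pt k)) (v ∘ β.ε) := by
  refine ⟨fun i => ?_, fun f a hf => ?_⟩
  · obtain ⟨x, hx⟩ := Z.isIrreducible.nonempty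
    obtain ⟨s, hs⟩ := Function.ne_iff.mp (β.pr x i).rep_nonzero
    refine ⟨s, fun h0 => hs ?_⟩
    have h1 := (h.iff _ _ (IsForm.X (β.ε ⟨i, s⟩))).mp (by simpa using h0) x hx
    rw [ev_X] at h1
    exact (β.rp_pr x ⟨i, s⟩).trans h1
  · rw [← aeval_rename, h.iff _ _ (β.form hf), β.van_img hf]

theorem mem_img {Z : Sub k P'} {x : P'.Pt k} (hx : x ∈ Z) : β.pr x ∈ β.img Z :=
  subset_closure (s := β.pr '' (Z : Set (P'.Pt k))) ⟨x, hx, rfl⟩

theorem img_mono {U Z : Sub k P'} (h : U ≤ Z) : β.img U ≤ β.img Z :=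
  IrreducibleCloseds.map_mono β.continuous h

theorem img_sub {Z : Sub k P'} {A : Set (P.Pt k)} (hA : IsClosed A) :
    (β.img Z : Set (P.Pt k)) ⊆ A ↔ ∀ x ∈ Z, β.pr x ∈ A := by
  rw [img, IrreducibleCloseds.coe_map, hA.closure_subset_iff, Set.image_subset_iff]
  rfl

theorem img_comp (γ : Crd k P' P'') (Z : Sub k P'') : (β.comp γ).img Z = β.img (γ.img Z) := by
  refine le_antisymm ?_ ?_
  · exact ((β.comp γ).img_sub (β.img (γ.img Z)).isClosed).mpr fun x hx =>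
      β.mem_img (γ.mem_img hx)
  · refine (β.img_sub ((β.comp γ).img Z).isClosed).mpr ?_
    exact (γ.img_sub (((β.comp γ).img Z).isClosed.preimage β.continuous)).mpr fun x hx =>
      (β.comp γ).mem_img hx

theorem img_congr (β' : Crd k P P') {Z : Sub k P'} (h : ∀ x ∈ Z, β.pr x = β'.pr x) :
    β.img Z = β'.img Z := by
  refine le_antisymm ?_ ?_
  · exact (β.img_sub (β'.img Z).isClosed).mpr fun x hx => h x hx ▸ β'.mem_img hx
  · exact (β'.img_sub (β.img Z).isClosed).mpr fun x hx => (h x hx).symm ▸ β.mem_img hx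

theorem img_refl (Z : Sub k P) : (Crd.refl k P).img Z = Z :=
  le_antisymm (((Crd.refl k P).img_sub Z.isClosed).mpr fun _ hx => hx)
    fun _ hx => (Crd.refl k P).mem_img hx

omit [Algebra k L] in
theorem Img_rat (v : P'.V → L) : rat (v ∘ β.ε) ⊆ rat v := by
  rintro _ ⟨i, s, t, rfl⟩
  have key : ∀ a b : P'.V, a.1 = b.1 → v a / v b ∈ rat v := by
    rintro ⟨j, a⟩ ⟨j', b⟩ h
    obtain rfl : j = j' := h
    exact ⟨j, a, b, rfl⟩
  exact key _ _ ((β.fst ⟨i, s⟩).trans (β.fst ⟨i, t⟩).symm)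

variable [IsAlgClosed k]

theorem sdim_img_le (Z : Sub k P') : sdim (β.img Z) ≤ sdim Z := by
  obtain ⟨L, _, _, v, hv⟩ := exists_gen' Z
  have h := rk_mono (k := k) (β.Img_rat v)
  rw [hv.rk_rat, (β.isGen_img hv).rk_rat] at h
  exact_mod_cast h

theorem Img_rk {Z : Sub k P'} {v : P'.V → L} (h : IsGen (Z : Set (P'.Pt k)) v) (ς : ∀ i, P.σ i)
    (hv : ∀ i, v (β.ε ⟨i, ς i⟩) ≠ 0) :
    rk k (Set.range fun s : P.V => (v (β.ε ⟨s.1, ς s.1⟩))⁻¹ * v (β.ε s)) = sdim (β.img Z) := by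
  have h1 := (β.isGen_img h).scale (fun i => (v (β.ε ⟨i, ς i⟩))⁻¹) fun i => inv_ne_zero (hv i)
  rw [← h1.rk_rat, rk_rat_norm _ ς fun i => inv_mul_cancel₀ (hv i)]
  rfl

/-- Generic fibre dimension. -/
theorem fibre (Z : Sub k P') : ∃ (h : MvPolynomial P'.V k) (a : P'.ι →₀ ℕ), IsForm h a ∧
    ¬ Van (Z : Set (P'.Pt k)) h ∧ ∀ U ≤ Z, ¬ Van (U : Set (P'.Pt k)) h →
      sdim U + sdim (β.img Z) ≤ sdim (β.img U) + sdim Z := by
  classical
  let _ := Fintype.ofFinite P.V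
  obtain ⟨x, hx⟩ := Z.isIrreducible.nonempty
  obtain ⟨ς, hς⟩ := exists_inCh x
  obtain ⟨ς₀, hς₀⟩ := exists_inCh (β.pr x)
  obtain ⟨L, _, _, v, hv, hv1, -⟩ := exists_gen Z ς ⟨x, hx, hς⟩
  let d : P.V → P'.V := fun s => β.ε ⟨s.1, ς₀ s.1⟩
  have hdZ : ∀ i, ¬ Van (Z : Set (P'.Pt k)) (X (β.ε ⟨i, ς₀ i⟩)) := fun i h0 =>
    hς₀ i ((β.rp_pr x _).trans ((ev_X x _).symm.trans (h0 x hx)))
  have hd : ∀ i, v (β.ε ⟨i, ς₀ i⟩) ≠ 0 := fun i h0 =>
    hdZ i ((hv.iff _ _ (IsForm.X _)).mp (by simpa using h0))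
  have him : ∀ {L' : Type u} (f : P'.V → L') (g : P.V → L'),
      Sum.elim f g '' Set.range Sum.inr = Set.range g := by
    intro L' f g
    rw [← Set.range_comp]
    rfl
  obtain ⟨t, ht, halg⟩ := exists_rel_basis (k := k)
    (Sum.elim v fun s => (v (d s))⁻¹ * v (β.ε s)) (Set.range Sum.inr)
  have h1 : (sdim (β.img Z) : ℕ∞) + t.card ≤ sdim Z := by
    rw [← β.Img_rk hv ς₀ hd, ← him v, ht, ← hv.rk_rat, rk_rat_norm v ς hv1]
    refine rk_le_of_mem ?_
    have hm : ∀ s, v s ∈ IntermediateField.adjoin k (Set.range v) := fun s =>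
      IntermediateField.subset_adjoin _ _ ⟨s, rfl⟩
    rintro _ ⟨s | s, rfl⟩
    · exact hm s
    · exact mul_mem (inv_mem (hm _)) (hm _)
  choose c hc hspec using fun s : P'.V => Img_spec _ _ _ (halg (Sum.inl s))
  choose N G hG using fun F => Img_clear (k := k) d β.ε F
  choose g a hg hgG using fun s : P'.V => homog ς (G (c s))
  have hD : ∀ {L' : Type u} [Field L'] (v' : P'.V → L'), (∀ i, v' (β.ε ⟨i, ς₀ i⟩) ≠ 0) → ∀ n : ℕ,
      (∏ s, v' (d s)) ^ n ≠ 0 := fun v' h n =>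
    pow_ne_zero _ (Finset.prod_ne_zero_iff.mpr fun s _ => h s.1)
  obtain ⟨h, b, hh, hZ, hU⟩ := Img_prod Z
    (Sum.elim g (Sum.elim (fun j => X ⟨j, ς j⟩) fun i => X (β.ε ⟨i, ς₀ i⟩)))
    (by
      rintro (s | j | i)
      · exact ⟨_, hg s⟩
      · exact ⟨_, IsForm.X _⟩
      · exact ⟨_, IsForm.X _⟩)
    (by
      rintro (s | j | i)
      · intro h0
        have h2 := (hv.iff _ _ (hg s)).mpr h0
        rw [hgG s L v hv1, ← hG _ L v fun s => hd s.1] at h2
        exact mul_ne_zero (hc s) (hD v hd _) h2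
      · exact exists_inCh_iff.mp ⟨x, hx, hς⟩ j
      · exact hdZ i)
  refine ⟨h, b, hh, hZ, fun U hUZ hUh => ?_⟩
  have hU' := hU _ hUh
  obtain ⟨L', _, _, v', hv', hv1', -⟩ :=
    exists_gen U ς (exists_inCh_iff.mpr fun j => hU' (Sum.inr (Sum.inl j)))
  have hd' : ∀ i, v' (β.ε ⟨i, ς₀ i⟩) ≠ 0 := fun i h0 =>
    hU' (Sum.inr (Sum.inr i)) ((hv'.iff _ _ (IsForm.X _)).mp (by simpa using h0))
  have hker : ∀ F : MvPolynomial (P'.V ⊕ P.V) k,
      aeval (Sum.elim v fun s => (v (d s))⁻¹ * v (β.ε s)) F = 0 →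
        aeval (Sum.elim v' fun s => (v' (d s))⁻¹ * v' (β.ε s)) F = 0 := by
    intro F hF
    have h2 : G F ∈ RingHom.ker (aeval v : MvPolynomial P'.V k →ₐ[k] L) := by
      rw [RingHom.mem_ker, ← hG F L v fun s => hd s.1, hF, zero_mul]
    rw [hv.ker hv1] at h2
    have h3 := chI_anti (show (U : Set (P'.Pt k)) ⊆ Z from hUZ) ς h2
    rw [← hv'.ker hv1', RingHom.mem_ker, ← hG F L' v' fun s => hd' s.1] at h3
    exact (mul_eq_zero.mp h3).resolve_right (hD v' hd' _)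
  have h2 : (sdim U : ℕ∞) ≤ sdim (β.img U) + t.card := by
    rw [← hv'.rk_rat, rk_rat_norm v' ς hv1', ← β.Img_rk hv' ς₀ hd', ← him v']
    refine (rk_le_of_alg (s := (Sum.elim v' fun s => (v' (d s))⁻¹ * v' (β.ε s)) ''
      (Set.range Sum.inr ∪ ↑t)) ?_).trans ?_
    · rintro _ ⟨s, rfl⟩
      refine hspec s L' _ hker fun h0 => hU' (Sum.inl s) ((hv'.iff _ _ (hg s)).mp ?_)
      rw [hgG s L' v' hv1', ← hG _ L' v' fun s => hd' s.1, h0, zero_mul]
    · rw [Set.image_union]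
      refine (rk_union_le _ _).trans (add_le_add le_rfl ((rk_le_encard _).trans ?_))
      exact (Set.encard_image_le _ _).trans (Set.encard_coe_eq_coe_finsetCard t).le
  have h1' : sdim (β.img Z) + t.card ≤ sdim Z := by exact_mod_cast h1
  have h2' : sdim U ≤ sdim (β.img U) + t.card := by exact_mod_cast h2
  omega

/-- A finite family of subvarieties of the target controls all jumps of the fibre dimension. -/
theorem gp (Z : Sub k P') : ∃ 𝓕 : Set (Sub k P), 𝓕.Finite ∧ (∀ F ∈ 𝓕, F ≤ β.img Z) ∧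
    ∀ U ≤ Z, sdim U + sdim (β.img Z) ≤ sdim (β.img U) + sdim Z ∨
      ∃ F ∈ 𝓕, β.img U ≤ F ∧ sdim U + sdim F + 1 ≤ sdim (β.img U) + sdim Z := by
  induction hn : sdim Z using Nat.strong_induction_on generalizing Z with
  | _ n ih =>
  subst hn
  obtain ⟨h, a, hh, hZ, hU⟩ := β.fibre Z
  have hfin := finite_div Z hh hZ
  have ih' : ∀ T : Sub k P', ∃ 𝓕 : Set (Sub k P), sdim T + 1 = sdim Z → 𝓕.Finite ∧
      (∀ F ∈ 𝓕, F ≤ β.img T) ∧ ∀ U ≤ T, sdim U + sdim (β.img T) ≤ sdim (β.img U) + sdim T ∨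
        ∃ F ∈ 𝓕, β.img U ≤ F ∧ sdim U + sdim F + 1 ≤ sdim (β.img U) + sdim T := by
    intro T
    by_cases hT : sdim T + 1 = sdim Z
    · obtain ⟨𝓕, h𝓕⟩ := ih (sdim T) (by omega) T rfl
      exact ⟨𝓕, fun _ => h𝓕⟩
    · exact ⟨∅, fun h => absurd h hT⟩
  choose 𝓖 h𝓖 using ih'
  refine ⟨⋃ T ∈ {T : Sub k P' | T ≤ Z ∧ sdim T + 1 = sdim Z ∧ Van (T : Set (P'.Pt k)) h},
    insert (β.img T) (𝓖 T), hfin.biUnion fun T hT => (h𝓖 T hT.2.1).1.insert _, ?_, ?_⟩
  · intro F hF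
    simp only [Set.mem_iUnion, Set.mem_insert_iff, exists_prop] at hF
    obtain ⟨T, hT, rfl | hF⟩ := hF
    · exact β.img_mono hT.1
    · exact ((h𝓖 T hT.2.1).2.1 F hF).trans (β.img_mono hT.1)
  · intro U hUZ
    by_cases hUh : Van (U : Set (P'.Pt k)) h
    · obtain ⟨T, hUT, hTZ, hTh, hT⟩ := krg hUZ hh hZ hUh
      right
      rcases (h𝓖 T hT).2.2 U hUT with h1 | ⟨F, hF, h1, h2⟩
      · exact ⟨β.img T, Set.mem_biUnion (x := T) ⟨hTZ, hT, hTh⟩ (Set.mem_insert _ _),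
          β.img_mono hUT, by omega⟩
      · exact ⟨F, Set.mem_biUnion (x := T) ⟨hTZ, hT, hTh⟩ (Set.mem_insert_of_mem _ hF), h1,
          by omega⟩
    · exact Or.inl (hU U hUZ hUh)

end Crd

end Pool.Agent.Work.MP_ffcd14_ag
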