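import Mathlib

/-! # The linear algebra of the descent argument -/

open Finset

namespace Pool.Agent.Work.MP_ffcd14_ag

section Aux
variable {W : Type*} [AddCommGroup W] [Module ℚ W] [FiniteDimensional ℚ W]

lemma la_rep (P : W →ₗ[ℚ] W →ₗ[ℚ] ℚ) (hP : ∀ x y, P x y = P y x) (l : W →ₗ[ℚ] ℚ)
    (h : ∀ x, P x = 0 → l x = 0) : ∃ y, P y = l := by
  have h1 : l ∈ (LinearMap.ker P).dualAnnihilator :=
    (Submodule.mem_dualAnnihilator l).2 fun x hx => h x hx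
  rw [← LinearMap.range_dualMap_eq_dualAnnihilator_ker] at h1
  obtain ⟨z, hz⟩ := h1
  obtain ⟨y, rfl⟩ := (Module.evalEquiv ℚ W).surjective z
  refine ⟨y, ?_⟩
  rw [← hz]
  ext x
  simp [hP y x]

lemma la_dom₁ (P : W →ₗ[ℚ] W →ₗ[ℚ] ℚ) (hP : ∀ x y, P x y = P y x) (h0 : ∀ x, 0 ≤ P x x)
    (l : W →ₗ[ℚ] ℚ) (h : ∀ x, P x = 0 → l x = 0) : ∃ M, ∀ x, l x * l x ≤ M * P x x := by
  obtain ⟨y, rfl⟩ := la_rep P hP l h
  refine ⟨P y y, fun x => ?_⟩
  have := LinearMap.BilinForm.apply_mul_apply_le_of_forall_zero_le P h0 y x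
  rwa [hP x y] at this

lemma la_dom₂ (P b : W →ₗ[ℚ] W →ₗ[ℚ] ℚ) (hP : ∀ x y, P x y = P y x) (h0 : ∀ x, 0 ≤ P x x)
    (hb : ∀ x y, b x y = b y x) (h : ∀ x, P x = 0 → b x = 0) :
    ∃ M, 0 ≤ M ∧ ∀ x, b x x ≤ M * P x x := by
  obtain ⟨G, hG⟩ := Submodule.exists_isCompl (LinearMap.ker P)
  set π : W →ₗ[ℚ] W := G.subtype ∘ₗ G.projectionOnto _ hG.symm with hπ
  have hπ0 : ∀ x, P x = 0 → π x = 0 := fun x hx => by
    simp only [hπ, LinearMap.comp_apply]
    rw [Submodule.projectionOnto_apply_of_mem_right hG.symm (LinearMap.mem_ker.2 hx), map_zero]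
  have hπ1 : ∀ x, b (π x) = b x := fun x => by
    obtain ⟨u, hu, v, hv, rfl⟩ := Submodule.mem_sup.1
      (show x ∈ LinearMap.ker P ⊔ G by rw [hG.sup_eq_top]; trivial)
    have : π v = v := by
      simp only [hπ, LinearMap.comp_apply]
      rw [Submodule.projectionOnto_apply_of_mem_left hG.symm hv]; rfl
    rw [map_add, hπ0 u hu, this, zero_add, map_add, h u hu, zero_add]
  let e := Module.finBasis ℚ W
  choose M₁ hM₁ using fun i => la_dom₁ P hP h0 (e.coord i ∘ₗ π) fun x hx => by simp [hπ0 x hx]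
  choose M₂ hM₂ using fun i => la_dom₁ P hP h0 (b (e i)) fun x hx => by rw [hb, h x hx]; rfl
  refine ⟨∑ i, |M₁ i + M₂ i|, sum_nonneg fun _ _ => abs_nonneg _, fun x => ?_⟩
  have h1 : b x x = ∑ i, (e.coord i ∘ₗ π) x * b (e i) x := by
    have c : b (∑ i, e.repr (π x) i • e i) = b x := by rw [e.sum_repr, hπ1]
    rw [← c, map_sum, LinearMap.sum_apply]
    exact sum_congr rfl fun i _ => by rw [map_smul]; rfl
  rw [h1, sum_mul]
  refine sum_le_sum fun i _ => ?_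
  have a1 := hM₁ i x
  have a2 := hM₂ i x
  have a3 := mul_le_mul_of_nonneg_right (le_abs_self (M₁ i + M₂ i)) (h0 x)
  have a4 := mul_nonneg (abs_nonneg (M₁ i + M₂ i)) (h0 x)
  nlinarith [sq_nonneg ((e.coord i ∘ₗ π) x - b (e i) x)]

lemma la_two (b₀ b₁ : W →ₗ[ℚ] W →ₗ[ℚ] ℚ) (s₀ : ∀ x y, b₀ x y = b₀ y x)
    (s₁ : ∀ x y, b₁ x y = b₁ y x) (F₀ F₁ F₂ : Submodule ℚ W) (hF : F₁ ≤ F₀)
    (r₀ : ∀ x ∈ F₁, b₀ x = 0) (r₁ : ∀ x ∈ F₂, b₁ x = 0)
    (n₀ : ∀ x ∈ F₀, b₀ x x ≤ 0 ∧ (b₀ x x = 0 → x ∈ F₁))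
    (n₁ : ∀ x ∈ F₁, b₁ x x ≤ 0 ∧ (b₁ x x = 0 → x ∈ F₂)) :
    ∃ K : ℚ, 0 < K ∧ ∀ x ∈ F₀, b₁ x x + K * b₀ x x ≤ 0 ∧ (b₁ x x + K * b₀ x x = 0 → x ∈ F₂) := by
  let Z : Submodule ℚ W := F₀ ⊓ LinearMap.ker (b₁.compl₂ F₁.subtype)
  have hZ : ∀ z : Z, (z : W) ∈ F₀ ∧ ∀ f ∈ F₁, b₁ z f = 0 := fun z =>
    ⟨z.2.1, fun f hf => LinearMap.congr_fun (LinearMap.mem_ker.1 z.2.2) ⟨f, hf⟩⟩
  obtain ⟨M, hM0, hM⟩ := la_dom₂ (W := Z) (-(b₀.compl₁₂ Z.subtype Z.subtype))
    (b₁.compl₁₂ Z.subtype Z.subtype) (fun x y => by simp [s₀ x y])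
    (fun x => by simpa using (n₀ x (hZ x).1).1) (fun x y => by simp [s₁ x y]) (fun x hx => by
      have a1 : b₀ x x = 0 := by simpa using LinearMap.congr_fun hx x
      have a2 := (n₀ x (hZ x).1).2 a1
      have a3 := r₁ x ((n₁ x a2).2 ((hZ x).2 x a2))
      ext y
      simp [a3])
  refine ⟨M + 1, by linarith, fun x hx => ?_⟩
  obtain ⟨f, hf⟩ := la_rep (W := F₁) (b₁.compl₁₂ F₁.subtype F₁.subtype) (fun x y => by simp [s₁ x y])
    (b₁ x ∘ₗ F₁.subtype) fun y hy => by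
      have a1 : b₁ y y = 0 := by simpa using LinearMap.congr_fun hy y
      have a2 := r₁ y ((n₁ y y.2).2 a1)
      simp [s₁ x y, a2]
  have hf' : ∀ g ∈ F₁, b₁ (x - f) g = 0 := fun g hg => by
    have := LinearMap.congr_fun hf ⟨g, hg⟩
    simp only [LinearMap.compl₁₂_apply, Submodule.subtype_apply, LinearMap.comp_apply] at this
    rw [map_sub, LinearMap.sub_apply, this, sub_self]
  have hz : x - f ∈ Z := ⟨F₀.sub_mem hx (hF f.2), LinearMap.mem_ker.2 (by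
    ext g
    simpa using hf' g g.2)⟩
  have a1 := hM ⟨x - f, hz⟩
  simp only [LinearMap.compl₁₂_apply, Submodule.subtype_apply, LinearMap.neg_apply] at a1
  have a2 : b₀ (x - f) (x - f) = b₀ x x := by
    have c1 := s₀ x f
    simp only [map_sub, LinearMap.sub_apply, r₀ f f.2, LinearMap.zero_apply] at c1 ⊢
    linarith
  have a3 : b₁ x x = b₁ (x - f) (x - f) + b₁ f f := by
    have c1 := hf' f f.2
    have c2 := s₁ x f
    simp only [map_sub, LinearMap.sub_apply] at c1 ⊢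
    linarith
  have a4 := (n₁ f f.2).1
  have a5 := (n₀ x hx).1
  rw [a2] at a1
  refine ⟨by linarith, fun h => ?_⟩
  have a6 : b₀ x x = 0 := by linarith
  exact (n₁ x ((n₀ x hx).2 a6)).2 (by rw [a6] at h; linarith)

lemma la_filt : ∀ (n : ℕ) (b : ℕ → W →ₗ[ℚ] W →ₗ[ℚ] ℚ) (F : ℕ → Submodule ℚ W),
    (∀ i x y, b i x y = b i y x) → (∀ j, F (j + 1) ≤ F j) →
    (∀ i j, i < j → j ≤ n + 1 → ∀ x ∈ F j, b i x = 0) →
    (∀ j ≤ n, ∀ x ∈ F j, b j x x ≤ 0 ∧ (b j x x = 0 → x ∈ F (j + 1))) →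
    (∀ x ∈ F (n + 1), x = 0) →
    ∃ ε : ℚ, 0 < ε ∧ ∀ t, 0 < t → t ≤ ε → ∀ x ∈ F 0, x ≠ 0 →
      ∑ i ∈ range (n + 1), t ^ i * b i x x < 0
  | 0, b, F, _, _, _, hn, hz => ⟨1, one_pos, fun t _ _ x hx h0 => by
      have := hn 0 le_rfl x hx
      simpa using lt_of_le_of_ne this.1 fun h => h0 (hz x (this.2 h))⟩
  | n + 1, b, F, hs, hF, hr, hn, hz => by
    obtain ⟨K, hK, h2⟩ := la_two (b 0) (b 1) (hs 0) (hs 1) (F 0) (F 1) (F 2) (hF 0)
      (hr 0 1 one_pos (by omega)) (hr 1 2 one_lt_two (by omega)) (hn 0 (by omega))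
      (hn 1 (by omega))
    obtain ⟨ε, hε, h3⟩ := la_filt n (fun i => Nat.casesOn i (b 1 + K • b 0) fun i => b (i + 2))
      (fun j => Nat.casesOn j (F 0) fun j => F (j + 2))
      (fun i x y => by
        cases i with
        | zero => simp [hs 0 x y, hs 1 x y]
        | succ i => exact hs _ x y)
      (fun j => by
        cases j with
        | zero => exact (hF 1).trans (hF 0)
        | succ j => exact hF _)
      (fun i j hij hj x hx => by
        cases j with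
        | zero => omega
        | succ j =>
          cases i with
          | zero =>
            have a := hr 0 (j + 2) (by omega) (by omega) x hx
            have c := hr 1 (j + 2) (by omega) (by omega) x hx
            simp [a, c]
          | succ i => exact hr (i + 2) (j + 2) (by omega) (by omega) x hx)
      (fun j hj x hx => by
        cases j with
        | zero => simpa using h2 x hx
        | succ j => exact hn (j + 2) (by omega) x hx) hz
    refine ⟨min ε K⁻¹, lt_min hε (inv_pos.2 hK), fun t ht htε x hx h0 => ?_⟩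
    have a1 := h3 t ht (htε.trans (min_le_left _ _)) x hx h0
    have a2 : t * K ≤ 1 := by
      have := mul_le_mul_of_nonneg_right (htε.trans (min_le_right _ _)) hK.le
      rwa [inv_mul_cancel₀ hK.ne'] at this
    have a3 := (hn 0 (by omega) x hx).1
    rw [sum_range_succ'] at a1
    rw [sum_range_succ', sum_range_succ']
    simp only [pow_zero, one_mul, zero_add, pow_one] at a1 ⊢
    change _ + (b 1 x x + K * b 0 x x) < 0 at a1
    have a4 : ∑ i ∈ range n, t ^ (i + 1 + 1) * b (i + 1 + 1) x x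
        = t * ∑ i ∈ range n, t ^ (i + 1) * b (i + 2) x x := by
      rw [mul_sum]; exact sum_congr rfl fun i _ => by ring
    rw [a4]
    have a5 := mul_neg_of_pos_of_neg ht a1
    have a6 := mul_nonneg (sub_nonneg.2 a2) (neg_nonneg.2 a3)
    nlinarith

end Aux

theorem descent_la {V : Type*} [AddCommGroup V] [Module ℚ V] [FiniteDimensional ℚ V] (m : ℕ)
    (q : ℕ → V →ₗ[ℚ] V →ₗ[ℚ] ℚ) (φ : ℕ → V →ₗ[ℚ] ℚ) (p : ℕ → ℚ) (η α : V)
    (hs : ∀ i D D', q i D D' = q i D' D)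
    (h1 : ∀ i ≤ m + 2, ∀ D, q i η D = 0 → q i D D ≤ 0 ∧ (q i D D = 0 → q i D = 0))
    (h2 : ∀ i ≤ m + 1, q (i + 1) η = q i α)
    (h3 : ∀ D, q (m + 2) D = 0 → D = 0)
    (h4 : φ 0 = 0) (h5 : ∀ i, 1 ≤ i → i ≤ m + 1 → ∀ D, q i D = 0 → φ i D = 0)
    (Q : ℚ → V →ₗ[ℚ] V →ₗ[ℚ] ℚ) (Φ : ℚ → V →ₗ[ℚ] ℚ) (R : ℚ → ℚ)
    (hQ : ∀ t, Q t = ∑ i ∈ range (m + 3), (((m + 2).choose i : ℚ) * t ^ i) • q i)
    (hΦ : ∀ t, Φ t = ∑ i ∈ range (m + 2), (((m + 1).choose i : ℚ) * t ^ i) • φ i)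
    (hR : ∀ t, R t = ∑ i ∈ range (m + 1), ((m.choose i : ℚ) * t ^ i) * p i)
    (h6 : ∀ N : ℕ, 0 < N → ∀ t : ℚ, t = 1 / N → 0 < Q t (η + t • α) (η + t • α) ∧
      (∀ D, Q t D = 0 → D = 0) ∧ ∀ D, Q t D = Φ t → 0 ≤ R t - 2 * Φ t D + Q t D D) :
    0 ≤ p 0 := by
  by_contra hp
  push Not at hp
  let b : ℕ → (ℚ × V) →ₗ[ℚ] (ℚ × V) →ₗ[ℚ] ℚ := fun i => LinearMap.mk₂ ℚ
    (fun x y => (m.choose i : ℚ) * p i * (x.1 * y.1)
      - ((m + 1).choose i : ℚ) * (x.1 * φ i y.2 + y.1 * φ i x.2)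
      + ((m + 2).choose i : ℚ) * q i x.2 y.2)
    (fun _ _ _ => by simp; ring) (fun _ _ _ => by simp; ring) (fun _ _ _ => by simp; ring)
    (fun _ _ _ => by simp; ring)
  have hb : ∀ i x y, b i x y = (m.choose i : ℚ) * p i * (x.1 * y.1)
      - ((m + 1).choose i : ℚ) * (x.1 * φ i y.2 + y.1 * φ i x.2)
      + ((m + 2).choose i : ℚ) * q i x.2 y.2 := fun _ _ _ => rfl
  let F : ℕ → Submodule ℚ (ℚ × V) := fun j => Nat.casesOn j
    (LinearMap.ker (q 0 η ∘ₗ LinearMap.snd ℚ ℚ V)) fun j => LinearMap.ker (LinearMap.fst ℚ ℚ V) ⊓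
      ⨅ i, ⨅ (_ : i ≤ j), LinearMap.ker (q i ∘ₗ LinearMap.snd ℚ ℚ V)
  have hF0 : ∀ x, x ∈ F 0 ↔ q 0 η x.2 = 0 := fun x => by simp [F]
  have hF : ∀ j x, x ∈ F (j + 1) ↔ x.1 = 0 ∧ ∀ i ≤ j, q i x.2 = 0 := fun j x => by
    simp [F, Submodule.mem_iInf]
  obtain ⟨ε, hε, hneg⟩ := la_filt (m + 2) b F (fun i x y => by rw [hb, hb, hs]; ring)
    (fun j x hx => by
      obtain ⟨a1, a2⟩ := (hF j x).1 hx
      cases j with
      | zero => rw [hF0, hs, a2 0 le_rfl]; rfl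
      | succ j => exact (hF j x).2 ⟨a1, fun i hi => a2 i (by omega)⟩)
    (fun i j hij hj x hx => by
      obtain ⟨j, rfl⟩ : ∃ j', j = j' + 1 := ⟨j - 1, by omega⟩
      obtain ⟨a1, a2⟩ := (hF j x).1 hx
      have a3 := a2 i (by omega)
      have a4 : ((m + 1).choose i : ℚ) * φ i x.2 = 0 := by
        rcases Nat.eq_zero_or_pos i with rfl | c
        · simp [h4]
        by_cases d : i ≤ m + 1
        · rw [h5 i c d _ a3, mul_zero]
        · rw [Nat.choose_eq_zero_of_lt (by omega)]; simp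
      refine LinearMap.ext fun y => ?_
      rw [hb, a1, a3]
      simp only [zero_mul, mul_zero, zero_add, LinearMap.zero_apply, add_zero, zero_sub]
      rw [mul_left_comm, a4, mul_zero, neg_zero])
    (fun j hj x hx => by
      cases j with
      | zero =>
        obtain ⟨a1, a2⟩ := h1 0 (by omega) _ ((hF0 x).1 hx)
        have a3 : p 0 * (x.1 * x.1) ≤ 0 := mul_nonpos_of_nonpos_of_nonneg hp.le (mul_self_nonneg _)
        rw [hb, h4]
        simp only [Nat.choose_zero_right, Nat.cast_one, one_mul, LinearMap.zero_apply, mul_zero,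
          add_zero, sub_zero]
        refine ⟨by linarith, fun h => (hF 0 x).2 ⟨?_, fun i hi => ?_⟩⟩
        · have : p 0 * (x.1 * x.1) = 0 := by linarith
          simpa [hp.ne] using this
        · rw [Nat.le_zero.1 hi]; exact a2 (by linarith)
      | succ j =>
        obtain ⟨a1, a2⟩ := (hF j x).1 hx
        obtain ⟨a3, a4⟩ := h1 (j + 1) hj x.2 (by rw [h2 j (by omega), hs, a2 j le_rfl]; rfl)
        have a5 : (0 : ℚ) < (m + 2).choose (j + 1) := by exact_mod_cast Nat.choose_pos hj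
        rw [hb, a1]
        simp only [zero_mul, mul_zero, add_zero, sub_zero, zero_add]
        refine ⟨mul_nonpos_of_nonneg_of_nonpos a5.le a3, fun h => (hF _ x).2 ⟨a1, fun i hi => ?_⟩⟩
        rcases Nat.lt_or_ge i (j + 1) with c | c
        · exact a2 i (by omega)
        · rw [show i = j + 1 by omega]; exact a4 ((mul_eq_zero.1 h).resolve_left a5.ne'))
    (fun x hx => by
      obtain ⟨a1, a2⟩ := (hF _ x).1 hx
      exact Prod.ext a1 (h3 _ (a2 _ le_rfl)))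
  obtain ⟨N, hN⟩ := exists_nat_one_div_lt hε
  set t : ℚ := 1 / ((N + 1 : ℕ) : ℚ) with ht
  obtain ⟨g1, g2, g3⟩ := h6 (N + 1) (Nat.succ_pos N) t rfl
  have ht0 : 0 < t := by positivity
  have hQs : ∀ x y, Q t x y = Q t y x := fun x y => by
    simp only [hQ, LinearMap.sum_apply, LinearMap.smul_apply, hs _ x y]
  have hsum : ∀ x : ℚ × V, ∑ i ∈ range (m + 2 + 1), t ^ i * b i x x
      = x.1 * x.1 * R t - 2 * x.1 * Φ t x.2 + Q t x.2 x.2 := fun x => by
    have e1 : R t = ∑ i ∈ range (m + 2 + 1), ((m.choose i : ℚ) * t ^ i) * p i := by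
      rw [hR, sum_range_succ _ (m + 2), sum_range_succ _ (m + 1),
        Nat.choose_eq_zero_of_lt (show m < m + 1 by omega),
        Nat.choose_eq_zero_of_lt (show m < m + 2 by omega)]
      simp
    have e2 : Φ t x.2 = ∑ i ∈ range (m + 2 + 1), (((m + 1).choose i : ℚ) * t ^ i) * φ i x.2 := by
      rw [hΦ, sum_range_succ _ (m + 2), Nat.choose_eq_zero_of_lt (show m + 1 < m + 2 by omega)]
      simp [LinearMap.sum_apply]
    have e3 : Q t x.2 x.2
        = ∑ i ∈ range (m + 2 + 1), (((m + 2).choose i : ℚ) * t ^ i) * q i x.2 x.2 := by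
      rw [hQ]; simp [LinearMap.sum_apply]
    rw [e1, e2, e3, mul_sum, mul_sum, ← sum_sub_distrib, ← sum_add_distrib]
    exact sum_congr rfl fun i _ => by rw [hb]; ring
  obtain ⟨D, hD⟩ := la_rep (Q t) hQs (Φ t) fun x hx => by rw [g2 x hx, map_zero]
  have g4 := g3 D hD
  set L := η + t • α with hL
  have key : ∀ u v : ℚ, q 0 η (u • D + v • L) = 0 → (u, u • D + v • L) = 0 := fun u v h => by
    by_contra h0
    have a1 := hneg t ht0 (by rw [ht]; push_cast; exact hN.le) _ ((hF0 _).2 h) h0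
    rw [hsum] at a1
    simp only [map_add, map_smul, LinearMap.add_apply, LinearMap.smul_apply, smul_eq_mul] at a1
    have a2 : Q t D L = Φ t L := by rw [hD]
    have a3 := hQs L D
    have a4 := mul_nonneg (mul_self_nonneg u) g4
    have a5 := mul_nonneg (mul_self_nonneg v) g1.le
    rw [a3, a2] at a1
    nlinarith
  by_cases c : q 0 η D = 0
  · have := key 1 0 (by simpa using c)
    simp at this
  · have a1 := key (q 0 η L) (-(q 0 η D)) (by simp; ring)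
    have a2 : q 0 η L = 0 := congrArg Prod.fst a1
    have a3 : q 0 η L • D + -(q 0 η D) • L = 0 := congrArg Prod.snd a1
    rw [a2, zero_smul, zero_add, smul_eq_zero] at a3
    rcases a3 with a3 | a3
    · exact c (neg_eq_zero.1 a3)
    · rw [a3] at g1; simp at g1

end Pool.Agent.Work.MP_ffcd14_ag
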