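import Pool.Agent.Work.MP_ffcd14_ag.Cyc.Num2

/-! # Duality for the rational trace -/

open MvPolynomial Topology TopologicalSpace

namespace Pool.Agent.Work.MP_ffcd14_ag

universe u v w

variable {k : Type u} [Field k] [IsAlgClosed k] {K : Type v} [Field K] [CharZero K]
  {P P' : Amb} {C : NT.{u, v, w} k K}

omit [IsAlgClosed k] in
theorem tau_pd0 (X : Var k P) {x : EE C X} (h : ∀ z, tau C X (x * z) = 0) : x = 0 := C.pd X x h

omit [IsAlgClosed k] in
theorem tau_pd (X : Var k P) {x x' : EE C X} (h : ∀ z, tau C X (x * z) = tau C X (x' * z)) :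
    x = x' :=
  sub_eq_zero.1 (tau_pd0 X fun z => by rw [sub_mul, map_sub, h, sub_self])

end Pool.Agent.Work.MP_ffcd14_ag
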