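import Pool.Agent.Work.MP_ffcd14_ag.Cyc.MvDefs

/-! # The moving lemma: two correspondences -/

open MvPolynomial Topology TopologicalSpace Filter

namespace Pool.Agent.Work.MP_ffcd14_ag

universe u v w

variable {k : Type u} [Field k] [IsAlgClosed k] {K : Type v} [Field K] [CharZero K]
  {P : Amb} {C : NT.{u, v, w} k K}

/-- Classes on `X × X` whose push-forward to the second factor lies in `N`. -/
def MvG_N (X : Var k P) (N : Submodule ℚ (EE C X)) : Submodule ℚ (EE C (X.prod X)) where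
  carrier := {x | ∃ y ∈ N, ∀ z, tau C (X.prod X) (x * pl C (Prj.p2 X X) z) = tau C X (y * z)}
  add_mem' := by
    rintro x x' ⟨y, hy, h⟩ ⟨y', hy', h'⟩
    exact ⟨y + y', N.add_mem hy hy', fun z => by rw [add_mul, add_mul, map_add, map_add, h, h']⟩
  zero_mem' := ⟨0, N.zero_mem, fun z => by rw [zero_mul, zero_mul, map_zero, map_zero]⟩
  smul_mem' := by
    rintro q x ⟨y, hy, h⟩
    exact ⟨q • y, N.smul_mem q hy, fun z => by
      rw [smul_mul_assoc, smul_mul_assoc, map_smul, map_smul, h]⟩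

variable (hC : C.Cyc)
include hC

theorem MvG_cy (X : Var k P) (N : Submodule ℚ (EE C X)) {W : Sub k (P.sum P)}
    (hW : (W : Set ((P.sum P).Pt k)) ⊆ (X.prod X).pts) (u : EE C X)
    (h : sdim W = sdim ((Crd.inr k P P).img W) → cy C X ((Crd.inr k P P).img W) * u ∈ N) :
    cy C (X.prod X) W * pl C (Prj.p2 X X) u ∈ MvG_N X N := by
  obtain ⟨n, hn, h1⟩ := n_push hC (Prj.p2 X X) hW
  rcases Nat.eq_zero_or_pos n with rfl | hn'
  · refine ⟨0, N.zero_mem, fun z => ?_⟩
    rw [mul_assoc, ← map_mul, ← nm_apply, h1, Nat.cast_zero, zero_mul, zero_mul, map_zero]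
  · refine ⟨(n : ℚ) • _, N.smul_mem _ (h (hn.1 hn')), fun z => ?_⟩
    rw [mul_assoc, ← map_mul, ← nm_apply, h1, smul_mul_assoc, map_smul, smul_eq_mul, nm_apply,
      mul_assoc]
    rfl

theorem MvG_pow (X : Var k P) {Z : Sub k P} (hZ : (Z : Set (P.Pt k)) ⊆ X.pts) {u : EE C X}
    (hu : u ∈ HS C X) (i : ℕ) : cy C X Z * u ^ i ∈ CS C X fun U => sdim U + i = sdim Z := by
  induction i with
  | zero =>
    rw [pow_zero, mul_one]
    exact num2_cy_mem X hZ rfl
  | succ i ih =>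
    rw [pow_succ, ← mul_assoc]
    refine num2_CS_map X (LinearMap.mulRight ℚ u) _ (fun U hU hd => ?_) ih
    refine num2_CS_mono X (fun W hW => ?_) (cy_mul_HS hC X hU hu)
    omega

/-- The diagonal acts as a positive multiple of the identity. -/
theorem mv_diag (X : Var k P) (hX : IsIrreducible X.pts) :
    sdim ((Crd.diag k P).img (X.top hX)) = X.dim ∧
    ((Crd.diag k P).img (X.top hX) : Set ((P.sum P).Pt k)) = (X.prod X).pts ∩ Dia k P ∧
    ∃ n : ℚ, 0 < n ∧ ∀ z z', nm C (X.prod X) ((Crd.diag k P).img (X.top hX))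
      (pl C (Prj.p1 X X) z * pl C (Prj.p2 X X) z') = n * tau C X (z * z') := by
  have hd : sdim ((Crd.diag k P).img (X.top hX)) = sdim (X.top hX) :=
    sdim_img_of_inj (Crd.diag k P) fun x _ y _ e => congrArg (Crd.inl k P P).pr e
  refine ⟨hd.trans (X.sdim_top hX), ?_, ?_⟩
  · ext z
    constructor
    · intro hz
      obtain ⟨x, hx, rfl⟩ := (Crd.diag k P).mem_img_iff.1 hz
      exact ⟨⟨hx, hx⟩, rfl⟩
    · rintro ⟨h1, h2⟩
      exact (Crd.diag k P).mem_img_iff.2 ⟨(Crd.inl k P P).pr z, h1.1, sum_ext rfl h2⟩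
  obtain ⟨n, hn, h⟩ := n_push hC (Prj.diag X) (Z := X.top hX) subset_rfl
  have h0 : (0 : ℚ) < n := Nat.cast_pos.2 (hn.2 hd.symm)
  refine ⟨(n : ℚ)⁻¹, inv_pos.2 h0, fun z z' => ?_⟩
  have h1 : pl C (Prj.diag X) (pl C (Prj.p1 X X) z) = z :=
    (pl_comp C _ _ (Prj.refl X) (fun _ => rfl) z).symm.trans (pl_id C _ (fun _ => rfl) z)
  have h2 : pl C (Prj.diag X) (pl C (Prj.p2 X X) z') = z' :=
    (pl_comp C _ _ (Prj.refl X) (fun _ => rfl) z').symm.trans (pl_id C _ (fun _ => rfl) z')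
  have h3 := h (pl C (Prj.p1 X X) z * pl C (Prj.p2 X X) z')
  rw [map_mul, h1, h2, nm_apply, cy_top, one_mul] at h3
  rw [h3, inv_mul_cancel_left₀ h0.ne']
  rfl

/-- A power of the class `O(a, a)` sends a subvariety to a multiple of a power of `O(a)`. -/
theorem mv_kappa (X : Var k P) (hX : IsIrreducible X.pts) (a : P.ι →₀ ℕ) {S : Sub k P}
    (hS : (S : Set (P.Pt k)) ⊆ X.pts) : ∃ κ : ℚ, ∀ z,
      tau C (X.prod X) (ln C (X.prod X) (dbl a) ^ X.dim *
        (pl C (Prj.p1 X X) (cy C X S) * pl C (Prj.p2 X X) z)) =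
      κ * tau C X (ln C X a ^ (X.dim - sdim S) * z) := by
  have hΩ := Var.prod_irr hX hX
  have hin : ∀ U : Sub k (P.sum P), (U : Set ((P.sum P).Pt k)) ⊆ (X.prod X).pts →
      ((Crd.inr k P P).img U : Set (P.Pt k)) ⊆ X.pts := fun U hU =>
    ((Crd.inr k P P).img_sub X.closed).2 fun x hx => (hU hx).2
  have htop : sdim ((X.prod X).top hΩ) = X.dim + X.dim := (X.prod X).sdim_top hΩ
  have h1 := n_meet hC (Prj.p1 X X) (Z := (X.prod X).top hΩ) subset_rfl hS fun U hU hU' => by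
    have e1 := sdim_le_add U
    have e2 : sdim ((Crd.inl k P P).img U) ≤ sdim S := sdim_mono hU'
    have e3 := X.sdim_le hX (hin U hU)
    omega
  rw [cy_top, one_mul] at h1
  have key : pl C (Prj.p1 X X) (cy C X S) * ln C (X.prod X) (dbl a) ^ X.dim ∈
      MvG_N X (ℚ ∙ ln C X a ^ (X.dim - sdim S)) := by
    refine num2_CS_map (X.prod X) (LinearMap.mulRight ℚ _) _ (fun U hU hp => ?_) h1
    obtain ⟨-, h2, h3⟩ := hp
    have e2 : sdim ((Crd.inl k P P).img U) ≤ sdim S := sdim_mono h2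
    rw [LinearMap.mulRight_apply, ln_dbl, add_pow, Finset.mul_sum]
    refine Submodule.sum_mem _ fun i _ => ?_
    rw [← mul_assoc, ← mul_assoc, mul_comm _ (Nat.cast _), ← nsmul_eq_mul, ← map_pow
      (pl C (Prj.p2 X X))]
    refine nsmul_mem ?_ _
    rcases lt_or_ge (sdim S) i with hi | hi
    · have := cy_van hC (X.prod X) (Crd.inl k P P) hU (List.replicate i a)
        (by rw [List.length_replicate]; omega)
      rw [List.map_replicate, lp', List.map_replicate, List.prod_replicate] at this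
      rw [pl_ln]
      change cy C (X.prod X) U * ln C (X.prod X) (a.mapDomain (Crd.inl k P P).ψ) ^ i * _ ∈ _
      rw [this, zero_mul]
      exact zero_mem _
    · refine num2_CS_map (X.prod X) (LinearMap.mulRight ℚ _) _ (fun W hW hd => ?_)
        (MvG_pow hC (X.prod X) hU (pl_HS C (Prj.p1 X X) (ln_mem_HS C X a)) i)
      refine MvG_cy hC X _ hW _ fun e => ?_
      have e3 := X.sdim_le hX (hin W hW)
      have e4 : (Crd.inr k P P).img W = X.top hX :=
        eq_of_sdim_le (hin W hW) (by rw [X.sdim_top hX]; omega)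
      rw [e4, cy_top, one_mul, show i = sdim S by omega]
      exact Submodule.mem_span_singleton_self _
  obtain ⟨y, hy, h⟩ := key
  obtain ⟨κ, rfl⟩ := Submodule.mem_span_singleton.1 hy
  refine ⟨κ, fun z => ?_⟩
  rw [← mul_assoc, mul_comm (_ ^ X.dim), h, smul_mul_assoc, map_smul, smul_eq_mul]

/-- The action of a correspondence which meets the preimage of `S` properly. -/
theorem mv_act (X : Var k P) {S : Sub k P} (hS : (S : Set (P.Pt k)) ⊆ X.pts) {T : Sub k (P.sum P)}
    (hT : (T : Set ((P.sum P).Pt k)) ⊆ (X.prod X).pts) (hd : sdim T = X.dim)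
    (hp : ∀ U ≤ T, (Crd.inl k P P).img U ≤ S → sdim U ≤ sdim S) {p : Sub k P → Prop}
    (h : ∀ U ≤ T, (Crd.inl k P P).img U ≤ S → sdim ((Crd.inr k P P).img U) = sdim S →
      p ((Crd.inr k P P).img U)) :
    ∃ y ∈ CS C X p, ∀ z, nm C (X.prod X) T
      (pl C (Prj.p1 X X) (cy C X S) * pl C (Prj.p2 X X) z) = tau C X (y * z) := by
  have h1 := n_meet hC (Prj.p1 X X) hT hS fun U hU hU' => by
    have := hp U hU hU'
    omega
  have key : cy C (X.prod X) T * pl C (Prj.p1 X X) (cy C X S) ∈ MvG_N X (CS C X p) := by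
    refine num2_CS_map (X.prod X) LinearMap.id _ (fun U hU hq => ?_) h1
    obtain ⟨h2, h3, h4⟩ := hq
    have := MvG_cy hC X (CS C X p) hU 1 fun e => by
      rw [mul_one]
      exact num2_cy_mem X (((Crd.inr k P P).img_sub X.closed).2 fun x hx => (hU hx).2)
        (h U h2 h3 (by omega))
    rwa [map_one, mul_one] at this
  obtain ⟨y, hy, h2⟩ := key
  exact ⟨y, hy, fun z => by rw [nm_apply, ← mul_assoc, h2]⟩

end Pool.Agent.Work.MP_ffcd14_ag
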