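import Pool.Agent.Work.MP_ffcd14_ag.Cyc.MvDefs

/-! # The moving lemma: forms which cut out the diagonal -/

open MvPolynomial Topology TopologicalSpace Filter

namespace Pool.Agent.Work.MP_ffcd14_ag

universe u v w

variable {k : Type u} [Field k] {P : Amb}

/-- Divided differences. -/
theorem divdiff {τ R : Type*} [Fintype τ] [CommRing R] [Algebra k R] (u v : τ → R)
    (F : MvPolynomial τ k) : ∃ A : τ → R, aeval v F - aeval u F = ∑ s, A s * (v s - u s) ∧
      ∀ φ : R →ₐ[k] k, (∀ s, φ (u s) = φ (v s)) →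
        ∀ s, φ (A s) = eval (fun s => φ (u s)) (pderiv s F) := by
  classical
  induction F using MvPolynomial.induction_on with
  | C a => exact ⟨0, by simp, fun φ _ s => by simp⟩
  | add p q hp hq =>
    obtain ⟨A, h1, h2⟩ := hp
    obtain ⟨B, k1, k2⟩ := hq
    refine ⟨A + B, ?_, fun φ h s => ?_⟩
    · simp only [map_add, Pi.add_apply, add_mul, Finset.sum_add_distrib, ← h1, ← k1]
      ring
    · simp only [Pi.add_apply, map_add, h2 φ h, k2 φ h]
  | mul_X p n hp =>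
    obtain ⟨A, h1, h2⟩ := hp
    refine ⟨fun s => A s * v n + if s = n then aeval u p else 0, ?_, fun φ h s => ?_⟩
    · simp only [map_mul, aeval_X, add_mul, Finset.sum_add_distrib, ite_mul, zero_mul,
        Finset.sum_ite_eq', Finset.mem_univ, if_true, mul_right_comm _ (v n), ← Finset.sum_mul,
        ← h1]
      ring
    · simp only [map_add, map_mul, pderiv_mul, h2 φ h, eval_X, h n, pderiv_X]
      congr 1
      by_cases e : s = n
      · subst e
        simp only [if_true, Pi.single_eq_same, map_one, mul_one, comp_aeval_apply, aeval_eq_eval,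
          h]
      · simp [e, Ne.symm e]

/-- A minor times two monomials. -/
noncomputable def MvU_G (k : Type u) [Field k] (a : P.ι →₀ ℕ) (ς ς' : ∀ i, P.σ i) (i : P.ι)
    (s t : P.σ i) : MvPolynomial (P.sum P).V k :=
  (X ((Crd.inl k P P).ε ⟨i, s⟩) * X ((Crd.inr k P P).ε ⟨i, t⟩) -
      X ((Crd.inl k P P).ε ⟨i, t⟩) * X ((Crd.inr k P P).ε ⟨i, s⟩)) *
    (rename (Crd.inl k P P).ε (mono ς (a - Finsupp.single i 1)) *
      rename (Crd.inr k P P).ε (mono ς' (a - Finsupp.single i 1)))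

theorem MvU_ev (a : P.ι →₀ ℕ) (ς ς' : ∀ i, P.σ i) (i : P.ι) (s t : P.σ i) (z : (P.sum P).Pt k) :
    ev z (MvU_G k a ς ς' i s t) =
      (rp ((Crd.inl k P P).pr z) ⟨i, s⟩ * rp ((Crd.inr k P P).pr z) ⟨i, t⟩ -
        rp ((Crd.inl k P P).pr z) ⟨i, t⟩ * rp ((Crd.inr k P P).pr z) ⟨i, s⟩) *
      (ev ((Crd.inl k P P).pr z) (mono ς (a - Finsupp.single i 1)) *
        ev ((Crd.inr k P P).pr z) (mono ς' (a - Finsupp.single i 1))) := by
  rw [MvU_G, ev_mul, ev_mul, Crd.ev_rename, Crd.ev_rename]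
  simp only [ev_eq, map_sub, map_mul, eval_X, Crd.rp_pr]

theorem MvU_mem {a : P.ι →₀ ℕ} (ha : ∀ i, 0 < a i) (ς ς' : ∀ i, P.σ i) (i : P.ι) (s t : P.σ i) :
    MvU_G k a ς ς' i s t ∈ DW k a := by
  refine ⟨?_, fun x => by rw [MvU_ev, inl_mkPt, inr_mkPt, mul_comm (rp x _), sub_self, zero_mul]⟩
  have h : ∀ s t : P.σ i, IsForm (X ((Crd.inl k P P).ε ⟨i, s⟩) * X ((Crd.inr k P P).ε ⟨i, t⟩) :
      MvPolynomial (P.sum P).V k)
      (Finsupp.single (Sum.inl i) 1 + Finsupp.single (Sum.inr i) 1) := fun s t =>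
    (IsForm.X (k := k) ((Crd.inl k P P).ε ⟨i, s⟩)).mul (IsForm.X ((Crd.inr k P P).ε ⟨i, t⟩))
  have h1 : IsForm _ (Finsupp.single (Sum.inl i) 1 + Finsupp.single (Sum.inr i) 1) :=
    (weightedHomogeneousSubmodule k _ _).sub_mem (h s t) (h t s)
  have h2 := h1.mul (((Crd.inl k P P).form (mono_form ς (a - Finsupp.single i 1))).mul
    ((Crd.inr k P P).form (mono_form ς' (a - Finsupp.single i 1))))
  have e : a = Finsupp.single i 1 + (a - Finsupp.single i 1) :=
    (add_tsub_cancel_of_le (Finsupp.single_le_iff.mpr (ha i))).symm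
  have e' : dbl a = Finsupp.single (Sum.inl i) 1 + Finsupp.single (Sum.inr i) 1 +
      ((a - Finsupp.single i 1).mapDomain (Crd.inl k P P).ψ +
        (a - Finsupp.single i 1).mapDomain (Crd.inr k P P).ψ) := by
    conv_lhs => rw [e, dbl, Finsupp.mapDomain_add, Finsupp.mapDomain_add,
      Finsupp.mapDomain_single, Finsupp.mapDomain_single]
    exact add_add_add_comm _ _ _ _
  rw [e']
  exact h2

theorem MvU_mono {ς : ∀ i, P.σ i} {x : P.Pt k} (hx : InCh ς x) (b : P.ι →₀ ℕ) :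
    ev x (mono ς b : MvPolynomial P.V k) ≠ 0 := by
  rw [ev_eq, mono, eval_rename, eval_monomial, one_mul]
  exact Finset.prod_ne_zero_iff.mpr fun i _ => pow_ne_zero _ (hx i)

theorem DW_sep {a : P.ι →₀ ℕ} (ha : ∀ i, 0 < a i) {z : (P.sum P).Pt k} (h : z ∉ Dia k P) :
    ∃ G ∈ DW k a, ev z G ≠ 0 := by
  obtain ⟨ς, hς⟩ := exists_inCh ((Crd.inl k P P).pr z)
  obtain ⟨ς', hς'⟩ := exists_inCh ((Crd.inr k P P).pr z)
  by_contra hc
  push Not at hc
  refine h (funext fun i => ((eq_mk_of_minors ((Crd.inr k P P).pr z i) (hς i) (fun s => ?_)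
    ((Crd.inl k P P).pr z i).rep_nonzero).trans ((Crd.inl k P P).pr z i).mk_rep).symm)
  have := hc _ (MvU_mem ha ς ς' i (ς i) s)
  rw [MvU_ev] at this
  exact sub_eq_zero.1 ((mul_eq_zero.1 this).resolve_right
    (mul_ne_zero (MvU_mono hς _) (MvU_mono hς' _)))

theorem MvU_eq {ς : ∀ i, P.σ i} {y y' : P.Pt k} (hy : InCh ς y) (hy' : InCh ς y')
    (h : hat ς y = hat ς y') : y = y' := by
  refine funext fun i => ((eq_mk_of_minors (y' i) (hy i) (fun s => ?_)
    (y i).rep_nonzero).trans (y i).mk_rep).symm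
  have := (div_eq_div_iff (hy i) (hy' i)).1 (congrFun h ⟨i, s⟩)
  exact (mul_comm _ _).trans this.symm

/-- The derivative in the direction `(0, t)` at the point `w`. -/
noncomputable def MvU_L [Fintype P.V] (w : (P.sum P).V → k) :
    MvPolynomial (P.sum P).V k →ₗ[k] (P.V → k) →ₗ[k] k :=
  LinearMap.mk₂ k (fun G t => ∑ s, eval w (pderiv ((Crd.inr k P P).ε s) G) * t s)
    (fun _ _ _ => by simp only [map_add, add_mul, Finset.sum_add_distrib])
    (fun _ _ _ => by simp [Finset.mul_sum, mul_assoc])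
    (fun _ _ _ => by simp only [Pi.add_apply, mul_add, Finset.sum_add_distrib])
    (fun _ _ _ => by simp [Finset.mul_sum, mul_left_comm])

theorem MvU_L_apply [Fintype P.V] (w : (P.sum P).V → k) (G : MvPolynomial (P.sum P).V k)
    (t : P.V → k) : MvU_L w G t = ∑ s, eval w (pderiv ((Crd.inr k P P).ε s) G) * t s := rfl

theorem MvU_L_mul [Fintype P.V] (w : (P.sum P).V → k) (F G : MvPolynomial (P.sum P).V k)
    (t : P.V → k) : MvU_L w (F * G) t = MvU_L w F t * eval w G + eval w F * MvU_L w G t := by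
  simp only [MvU_L_apply, pderiv_mul, map_add, map_mul, add_mul, Finset.sum_add_distrib,
    Finset.sum_mul, Finset.mul_sum, mul_assoc, mul_comm (t _)]

theorem MvU_L_inl [Fintype P.V] (w : (P.sum P).V → k) (s : P.V) (t : P.V → k) :
    MvU_L w (X ((Crd.inl k P P).ε s)) t = 0 := by
  rw [MvU_L_apply]
  refine Finset.sum_eq_zero fun r _ => ?_
  rw [pderiv_X_of_ne, map_zero, zero_mul]
  intro h
  cases h

theorem MvU_L_inr [Fintype P.V] (w : (P.sum P).V → k) (s : P.V) (t : P.V → k) :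
    MvU_L w (X ((Crd.inr k P P).ε s)) t = t s := by
  rw [MvU_L_apply, Finset.sum_eq_single s (fun r _ hr => ?_) (by simp), pderiv_X_self, map_one,
    one_mul]
  rw [pderiv_X_of_ne, map_zero, zero_mul]
  exact fun h => hr ((Blk.inr (k := k) P P).inj h).symm

/-- The chart of the square. -/
def MvU_ch (ς : ∀ i, P.σ i) : ∀ j, (P.sum P).σ j :=
  Sum.rec (motive := fun j => (P.sum P).σ j) ς ς

theorem MvU_inCh {ς : ∀ i, P.σ i} {x : P.Pt k} (hx : InCh ς x) : InCh (MvU_ch ς) (mkPt x x) := by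
  rintro (i | i)
  exacts [hx i, hx i]

theorem MvU_L_G [Fintype P.V] (a : P.ι →₀ ℕ) {ς : ∀ i, P.σ i} {x : P.Pt k} (hx : InCh ς x)
    (i : P.ι) (s : P.σ i) {t : P.V → k} (ht : t ⟨i, ς i⟩ = 0) :
    MvU_L (hat (MvU_ch ς) (mkPt x x)) (MvU_G k a ς ς i (ς i) s) t = t ⟨i, s⟩ := by
  have h1 : ∀ r, hat (MvU_ch ς) (mkPt x x) ((Crd.inl k P P).ε r) = hat ς x r := fun _ => rfl
  have h2 : ∀ r, hat (MvU_ch ς) (mkPt x x) ((Crd.inr k P P).ε r) = hat ς x r := fun _ => rfl
  have h3 : eval (hat ς x) (mono ς (a - Finsupp.single i 1)) = 1 := by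
    rw [← aeval_eq_eval]
    exact aeval_mono ς _ _ (hat_one hx)
  have h4 : hat (MvU_ch ς) (mkPt x x) ∘ (Crd.inl k P P).ε = hat ς x := rfl
  have h5 : hat (MvU_ch ς) (mkPt x x) ∘ (Crd.inr k P P).ε = hat ς x := rfl
  rw [MvU_G, MvU_L_mul]
  simp only [map_sub, map_mul, LinearMap.sub_apply, MvU_L_mul, MvU_L_inl, MvU_L_inr, eval_X, h1, h2,
    eval_rename, h4, h5, h3, ht, hat_one hx]
  ring

/-- Divided differences along the diagonal. -/
theorem MvU_dd [Fintype P.V] (G : MvPolynomial (P.sum P).V k) :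
    ∃ B : P.V → MvPolynomial (P.sum P).V k,
      (∀ w : (P.sum P).V → k, eval w G -
        eval (Amb.elim (w ∘ (Crd.inl k P P).ε) (w ∘ (Crd.inl k P P).ε)) G =
          ∑ s, eval w (B s) * (w ((Crd.inr k P P).ε s) - w ((Crd.inl k P P).ε s))) ∧
      ∀ w : (P.sum P).V → k, (∀ s, w ((Crd.inl k P P).ε s) = w ((Crd.inr k P P).ε s)) →
        ∀ s, eval w (B s) = eval w (pderiv ((Crd.inr k P P).ε s) G) := by
  let _ := Fintype.ofFinite (P.sum P).V
  let u : (P.sum P).V → MvPolynomial (P.sum P).V k :=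
    Amb.elim (fun s => X ((Crd.inl k P P).ε s)) fun s => X ((Crd.inl k P P).ε s)
  obtain ⟨A, h1, h2⟩ := divdiff (k := k) u X G
  have hu : ∀ w : (P.sum P).V → k, (fun r => aeval w (u r)) =
      Amb.elim (w ∘ (Crd.inl k P P).ε) (w ∘ (Crd.inl k P P).ε) := fun w => by
    funext r
    rcases r with ⟨i | i, s⟩
    exacts [aeval_X _ _, aeval_X _ _]
  refine ⟨fun s => A ((Crd.inr k P P).ε s), fun w => ?_, fun w hw s => ?_⟩
  · have h3 := congrArg (aeval w) h1
    rw [map_sub, aeval_X_left_apply, comp_aeval_apply, hu, map_sum] at h3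
    simp only [aeval_eq_eval] at h3
    rw [h3]
    refine (Fintype.sum_of_injective _ (Blk.inr (k := k) P P).inj _ _ ?_ fun s => ?_).symm
    · rintro ⟨i | i, s⟩ h
      · have : u ⟨Sum.inl i, s⟩ = X ⟨Sum.inl i, s⟩ := rfl
        rw [this, sub_self, mul_zero, map_zero]
      · exact absurd ⟨⟨i, s⟩, rfl⟩ h
    · have : u ((Blk.inr (k := k) P P).ε s) = X ((Crd.inl k P P).ε s) := rfl
      rw [this, map_mul, map_sub, eval_X, eval_X]
      rfl
  · have h3 : Amb.elim (w ∘ (Crd.inl k P P).ε) (w ∘ (Crd.inl k P P).ε) = w := by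
      funext r
      rcases r with ⟨i | i, s⟩
      exacts [rfl, hw ⟨i, s⟩]
    have h4 := h2 (aeval w) (fun r => by rw [aeval_X, congrFun (hu w) r, h3]) ((Crd.inr k P P).ε s)
    rwa [hu, h3, aeval_eq_eval] at h4

theorem MvU_dd' [Fintype P.V] (F : MvPolynomial P.V k) :
    ∃ B : P.V → MvPolynomial (P.sum P).V k,
      (∀ w : (P.sum P).V → k, eval (w ∘ (Crd.inr k P P).ε) F - eval (w ∘ (Crd.inl k P P).ε) F =
          ∑ s, eval w (B s) * (w ((Crd.inr k P P).ε s) - w ((Crd.inl k P P).ε s))) ∧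
      ∀ w : (P.sum P).V → k, (∀ s, w ((Crd.inl k P P).ε s) = w ((Crd.inr k P P).ε s)) →
        ∀ s, eval w (B s) = eval (w ∘ (Crd.inr k P P).ε) (pderiv s F) := by
  obtain ⟨B, h1, h2⟩ := MvU_dd (rename (Crd.inr k P P).ε F)
  refine ⟨B, fun w => ?_, fun w hw s => ?_⟩
  · rw [← h1, eval_rename, eval_rename]
    rfl
  · rw [h2 w hw, pderiv_rename (f := (Crd.inr k P P).ε) (Blk.inr (k := k) P P).inj, eval_rename]

/-- Injectivity of a polynomial matrix is an open condition. -/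
theorem MvU_open {Q : Amb} {m n : Type} [Fintype m] [Fintype n] (M : Matrix m n (MvPolynomial Q.V k))
    {ς : ∀ i, Q.σ i} {x : Q.Pt k} (hx : InCh ς x)
    (h : ∀ t, (M.map (eval (hat ς x))).mulVec t = 0 → t = 0) :
    ∀ᶠ z in 𝓝 x, InCh ς z ∧ ∀ t, (M.map (eval (hat ς z))).mulVec t = 0 → t = 0 := by
  classical
  obtain ⟨g, hg⟩ := LinearMap.exists_leftInverse_of_injective
    (Matrix.toLin' (M.map (eval (hat ς x)))) (LinearMap.ker_eq_bot'.2 h)
  have h1 := congrArg LinearMap.toMatrix' hg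
  rw [LinearMap.toMatrix'_comp, LinearMap.toMatrix'_toLin', LinearMap.toMatrix'_id] at h1
  generalize LinearMap.toMatrix' g = B at h1
  let E : Matrix n n (MvPolynomial Q.V k) := Matrix.of fun i j => ∑ r, C (B i r) * M r j
  have h2 : ∀ w : Q.V → k, eval w E.det = (B * M.map (eval w)).det := fun w => by
    rw [RingHom.map_det]
    congr 1
    ext i j
    simp [E, Matrix.mul_apply]
  obtain ⟨p, c, hp, hp'⟩ := homog ς E.det
  have h3 : ∀ z, InCh ς z → (ev z p ≠ 0 ↔ (B * M.map (eval (hat ς z))).det ≠ 0) := fun z hz => by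
    have := hp' k _ (hat_one hz)
    simp only [aeval_eq_eval] at this
    rw [Ne, ← eval_hat_eq_zero hz hp, this, h2]
  filter_upwards [eventually_ne hp ((h3 x hx).2 (by rw [h1, Matrix.det_one]; exact one_ne_zero)),
    eventually_all.2 fun i => eventually_ne (x := x) (IsForm.X (⟨i, ς i⟩ : Q.V))
      (by rw [ev_X]; exact hx i)] with z h4 h5
  have hz : InCh ς z := fun i e => h5 i ((ev_X z _).trans e)
  refine ⟨hz, fun t ht => Matrix.eq_zero_of_mulVec_eq_zero ((h3 z hz).1 h4) ?_⟩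
  rw [← Matrix.mulVec_mulVec, ht, Matrix.mulVec_zero]

/-- Forms vanishing on the diagonal whose differentials at `(x, x)` have no common zero in the
tangent space cut out the diagonal near `(x, x)`. -/
theorem unram (X : Var k P) {x : P.Pt k} (hx : x ∈ X.pts) {a : P.ι →₀ ℕ} (ha : ∀ i, 0 < a i) :
    ∃ (N : Submodule k (P.V → k)) (L : MvPolynomial (P.sum P).V k →ₗ[k] (P.V → k) →ₗ[k] k),
      Module.finrank k N ≤ X.dim ∧ (∀ t ∈ N, t ≠ 0 → ∃ G ∈ DW k a, L G t ≠ 0) ∧
      ∀ (j : ℕ) (g : ℕ → MvPolynomial (P.sum P).V k), (∀ n, g n ∈ DW k a) →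
        (∀ t ∈ N, (∀ n < j, L (g n) t = 0) → t = 0) →
        ∀ᶠ z in 𝓝 (mkPt x x), z ∈ (X.prod X).pts → (∀ n < j, ev z (g n) = 0) → z ∈ Dia k P := by
  classical
  obtain ⟨ς, hς⟩ := exists_inCh x
  obtain ⟨κ, _, f, g₀, b, hc, -, -, -, -, hI, hli⟩ := X.chart_eq hx hς
  let _ := Fintype.ofFinite κ
  let _ := Fintype.ofFinite P.V
  let _ := Fintype.ofFinite P.ι
  obtain ⟨ff, hff⟩ : ∃ ff : κ ⊕ P.ι → MvPolynomial P.V k,
    ff = Sum.elim (fun j => g₀ * f j) (fun i => MvPolynomial.X ⟨i, ς i⟩ - 1) := ⟨_, rfl⟩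
  rw [← hff] at hI hli
  let D : Matrix (κ ⊕ P.ι) P.V k := Matrix.of fun j s => eval (hat ς x) (pderiv s (ff j))
  refine ⟨LinearMap.ker D.mulVecLin, MvU_L (hat (MvU_ch ς) (mkPt x x)), ?_, fun t ht h0 => ?_,
    fun j g hg hN => ?_⟩
  · have h1 : D.rank = _ := LinearIndependent.rank_matrix hli
    have h2 := LinearMap.finrank_range_add_finrank_ker D.mulVecLin
    rw [Module.finrank_fintype_fun_eq_card] at h2
    rw [Nat.card_eq_fintype_card, Nat.card_eq_fintype_card] at hc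
    unfold Matrix.rank at h1
    omega
  · obtain ⟨⟨i, s⟩, hs⟩ := Function.ne_iff.1 h0
    refine ⟨_, MvU_mem ha ς ς i (ς i) s, ?_⟩
    rw [MvU_L_G a hς i s]
    · exact hs
    · have := congrFun (LinearMap.mem_ker.1 ht) (Sum.inr i)
      simpa [D, hff, Matrix.mulVec, dotProduct, pderiv_X, Pi.single_apply, apply_ite] using this
  · choose A hA hA' using fun r => MvU_dd' (ff r)
    choose B hB hB' using fun n => MvU_dd (g n)
    let M : Matrix ((κ ⊕ P.ι) ⊕ Fin j) P.V (MvPolynomial (P.sum P).V k) :=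
      Matrix.of (Sum.elim A fun n => B n)
    refine (MvU_open M (MvU_inCh hς) fun t ht => hN t ?_ fun n hn => ?_).mono ?_
    rotate_left 2
    · rintro z ⟨hz, hz'⟩ hX h0
      have y1 : InCh ς ((Crd.inl k P P).pr z) := fun i => hz (Sum.inl i)
      have y2 : InCh ς ((Crd.inr k P P).pr z) := fun i => hz (Sum.inr i)
      have e1 : hat (MvU_ch ς) z ∘ (Crd.inl k P P).ε = hat ς ((Crd.inl k P P).pr z) := rfl
      have e2 : hat (MvU_ch ς) z ∘ (Crd.inr k P P).ε = hat ς ((Crd.inr k P P).pr z) := rfl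
      refine MvU_eq y1 y2 (sub_eq_zero.1 (hz' _ ?_)).symm
      funext r
      rcases r with r | n
      · have := hA r (hat (MvU_ch ς) z)
        rw [e1, e2, hI r _ hX.1 y1, hI r _ hX.2 y2, sub_self] at this
        exact this.symm
      · have := hB n (hat (MvU_ch ς) z)
        have e3 : Amb.elim (hat ς ((Crd.inl k P P).pr z)) (hat ς ((Crd.inl k P P).pr z)) =
            hat (MvU_ch ς) (mkPt ((Crd.inl k P P).pr z) ((Crd.inl k P P).pr z)) := by
          funext r
          rcases r with ⟨i | i, s⟩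
          exacts [rfl, rfl]
        rw [e1, e3, (eval_hat_eq_zero hz (hg n).1).2 (h0 n n.2),
          (eval_hat_eq_zero (MvU_inCh y1) (hg n).1).2 ((hg n).2 _), sub_self] at this
        exact this.symm
    · refine LinearMap.mem_ker.2 (funext fun r => Eq.trans ?_ (congrFun ht (Sum.inl r)))
      exact Finset.sum_congr rfl fun s _ => congrArg (· * t s)
        (hA' r (hat (MvU_ch ς) (mkPt x x)) (fun _ => rfl) s).symm
    · refine Eq.trans ?_ (congrFun ht (Sum.inr ⟨n, hn⟩))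
      exact Finset.sum_congr rfl fun s _ => congrArg (· * t s)
        (hB' n (hat (MvU_ch ς) (mkPt x x)) (fun _ => rfl) s).symm

end Pool.Agent.Work.MP_ffcd14_ag
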