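import Pool.Agent.Work.MP_ffcd14_ag.Cyc.MvS
import Pool.Agent.Work.MP_ffcd14_ag.Cyc.MvU
import Pool.Agent.Work.MP_ffcd14_ag.Cyc.MvG

/-! # The moving lemma -/

open MvPolynomial Topology TopologicalSpace Filter

namespace Pool.Agent.Work.MP_ffcd14_ag

universe u v w

variable {k : Type u} [Field k] [IsAlgClosed k] {K : Type v} [Field K] [CharZero K]
  {P : Amb} {C : NT.{u, v, w} k K}

omit [IsAlgClosed k] in
theorem MvD_dia {z : (P.sum P).Pt k} (h : z ∈ Dia k P) :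
    z = mkPt ((Crd.inl k P P).pr z) ((Crd.inl k P P).pr z) :=
  sum_ext rfl (Eq.symm h)

theorem MvD_sdim {U : Sub k (P.sum P)} (h : (U : Set ((P.sum P).Pt k)) ⊆ Dia k P) :
    sdim ((Crd.inl k P P).img U) = sdim U :=
  sdim_img_of_inj _ fun _ hx _ hy e => sum_ext e ((Eq.symm (h hx)).trans (e.trans (h hy)))

/-- The components of the products of `S` with the members of a finite family. -/
theorem MvD_prods (S : Sub k P) {𝓕 : Set (Sub k P)} (h𝓕 : 𝓕.Finite) :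
    ∃ 𝓖 : Sub k P → Set (Sub k (P.sum P)), (⋃ F ∈ 𝓕, 𝓖 F).Finite ∧
      (∀ F, ∀ G ∈ 𝓖 F, sdim G ≤ sdim S + sdim F) ∧
      ∀ F, ∀ U : Sub k (P.sum P), (Crd.inl k P P).img U ≤ S → (Crd.inr k P P).img U ≤ F →
        ∃ G ∈ 𝓖 F, U ≤ G := by
  have H : ∀ F : Sub k P,
      IsClosed {z | (Crd.inl k P P).pr z ∈ S ∧ (Crd.inr k P P).pr z ∈ F} := fun F =>
    (S.isClosed.preimage (Crd.inl k P P).continuous).inter
      (F.isClosed.preimage (Crd.inr k P P).continuous)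
  choose 𝓖 h1 h2 h3 using fun F => exists_comps (H F)
  refine ⟨𝓖, h𝓕.biUnion fun F _ => h1 F, fun F G hG => (sdim_le_add G).trans (add_le_add
    (sdim_mono ?_) (sdim_mono ?_)), fun F U a b => h3 F U fun z hz =>
      ⟨a ((Crd.inl k P P).mem_img hz), b ((Crd.inr k P P).mem_img hz)⟩⟩
  · exact ((Crd.inl k P P).img_sub S.isClosed).2 fun z hz => (h2 F G hG hz).1
  · exact ((Crd.inr k P P).img_sub F.isClosed).2 fun z hz => (h2 F G hG hz).2

omit [IsAlgClosed k] in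
/-- The components of the intersections of `S` with the members of a finite family. -/
theorem MvD_meets (S : Sub k P) {𝓕 : Set (Sub k P)} (h𝓕 : 𝓕.Finite) :
    ∃ 𝓦 : Set (Sub k P), 𝓦.Finite ∧ (∀ W ∈ 𝓦, W ≤ S) ∧
      ∀ F ∈ 𝓕, ∀ V ≤ S, V ≤ F → ∃ W ∈ 𝓦, V ≤ W ∧ W ≤ F := by
  choose 𝓦 h1 h2 h3 using fun F : Sub k P => exists_comps (S.isClosed.inter F.isClosed)
  refine ⟨⋃ F ∈ 𝓕, 𝓦 F, h𝓕.biUnion fun F _ => h1 F, fun W hW => ?_, fun F hF V a b => ?_⟩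
  · obtain ⟨F, -, hW⟩ := Set.mem_iUnion₂.1 hW
    exact fun x hx => (h2 F W hW hx).1
  · obtain ⟨W, hW, c⟩ := h3 F V fun x hx => ⟨a hx, b hx⟩
    exact ⟨W, Set.mem_biUnion hF hW, c, fun x hx => (h2 F W hW hx).2⟩

/-- Forms which cut out the diagonal near given points and cut properly elsewhere. -/
theorem MvD_forms (X : Var k P) (hX : IsIrreducible X.pts) {a : P.ι →₀ ℕ} (ha : ∀ i, 0 < a i)
    {𝓕 : Set (Sub k P)} (h𝓕 : 𝓕.Finite) {n : ℕ} {S : Sub k P}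
    (hS : (S : Set (P.Pt k)) ⊆ X.pts) (h : Exc X.dim 𝓕 (n + 1) S) :
    ∃ g : ℕ → MvPolynomial (P.sum P).V k, (∀ m, g m ∈ DW k a) ∧
      (∀ j ≤ X.dim, ∀ U ≤ (X.prod X).top (Var.prod_irr hX hX),
        (∀ m < j, Van (U : Set ((P.sum P).Pt k)) (g m)) →
        sdim U + j ≤ sdim ((X.prod X).top (Var.prod_irr hX hX))) ∧
      ∀ T ≤ (X.prod X).top (Var.prod_irr hX hX), ¬ (T : Set ((P.sum P).Pt k)) ⊆ Dia k P →
        (∀ m < X.dim, Van (T : Set ((P.sum P).Pt k)) (g m)) → ∀ U ≤ T,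
        (Crd.inl k P P).img U ≤ S → sdim U ≤ sdim S ∧
          ∀ F ∈ 𝓕, ∀ V ≤ (Crd.inr k P P).img U, V ≤ F → sdim V + X.dim ≤ sdim S + sdim F + n := by
  obtain ⟨𝓦, w1, w2, w3⟩ := MvD_meets S h𝓕
  obtain ⟨𝓖, g1, g2, g3⟩ := MvD_prods S (h𝓕.insert (X.top hX))
  have := w1.to_subtype
  choose x hx using fun W : 𝓦 => W.1.isIrreducible.nonempty
  choose N L u1 u2 u3 using fun W : 𝓦 => unram X (hS (w2 W.1 W.2 (hx W))) ha
  obtain ⟨g, e1, e2, e3⟩ := exists_seq (DW k a) (fun g hg => hg.1) (Dia k P)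
    (fun z hz => DW_sep ha hz) (g1.insert ((X.prod X).top (Var.prod_irr hX hX))) N L u2 X.dim
  have d2 : sdim ((X.prod X).top (Var.prod_irr hX hX)) = X.dim + X.dim := Var.sdim_top _ _
  have d1 := X.sdim_top hX
  refine ⟨g, e1, fun j hj U hU hv => ?_, fun T hT hD hv U hU hUS => ?_⟩
  · rcases e2 j hj _ (Set.mem_insert _ _) U hU hv with e | e
    · have := X.sdim_le hX (n1_img_sub (Prj.p1 X X) hU)
      have e' : sdim ((Prj.p1 X X).img U) = sdim U := MvD_sdim e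
      omega
    · exact e
  have key : ∀ F ∈ insert (X.top hX) 𝓕, ∀ V ≤ U, (Crd.inr k P P).img V ≤ F →
      (V : Set ((P.sum P).Pt k)) ⊆ Dia k P ∨ sdim V + X.dim ≤ sdim S + sdim F := by
    intro F hF V hV hVF
    obtain ⟨G, hG, c⟩ := g3 F V (((Crd.inl k P P).img_mono hV).trans hUS) hVF
    refine (e2 _ le_rfl G (Set.mem_insert_of_mem _ (Set.mem_biUnion hF hG)) V c
      fun m hm => num2_van_mono (hV.trans hU) (hv m hm)).imp_right fun e => e.trans (g2 F G hG)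
  have nd : ∀ W : 𝓦, mkPt (x W) (x W) ∉ T := fun W hW => by
    obtain ⟨f, b, hf, f0, f1⟩ := eventually_iff_form.1
      (u3 W X.dim g e1 (e3 W (u1 W)))
    refine hD (subset_of_van (isClosed_eq_crd _ _) fun f' b' hf' hv' => ?_)
    exact van_of_open hf' hf (fun H => f0 (H _ hW)) fun z hz hz' =>
      hv' z (f1 z hz' (hT hz) fun m hm => hv m hm z hz)
  refine ⟨?_, fun F hF V hV hVF => ?_⟩
  · rcases key _ (Set.mem_insert _ _) U le_rfl (n1_img_sub (Prj.p2 X X) (hU.trans hT)) with e | e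
    · exact (MvD_sdim e).ge.trans (sdim_mono hUS)
    · omega
  · obtain ⟨V', hV', rfl⟩ := (Crd.inr k P P).exists_over' hV
    rcases key F (Set.mem_insert_of_mem _ hF) V' hV' hVF with e | e
    · have c : (Crd.inl k P P).img V' = (Crd.inr k P P).img V' :=
        (Crd.inl k P P).img_congr _ fun z hz => e hz
      rw [← c] at hVF ⊢
      obtain ⟨W, hW, c1, c2⟩ := w3 F hF _ (((Crd.inl k P P).img_mono hV').trans hUS) hVF
      have c3 : (Crd.inl k P P).img V' ≠ W := fun H => by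
        obtain ⟨z, hz, ez⟩ := (Crd.inl k P P).mem_img_iff.1 (H.ge (hx ⟨W, hW⟩))
        refine nd ⟨W, hW⟩ (hU (hV' ?_))
        rw [← ez, ← MvD_dia (e hz)]
        exact hz
      have c4 := sdim_lt (lt_of_le_of_ne c1 c3)
      have c5 := h F hF W (w2 W hW) c2
      omega
    · have := (Crd.inr k P P).sdim_img_le V'
      omega

variable (hC : C.Cyc)
include hC

theorem move_step (X : Var k P) (hX : IsIrreducible X.pts) {𝓕 : Set (Sub k P)} (h𝓕 : 𝓕.Finite)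
    (h𝓕' : ∀ F ∈ 𝓕, (F : Set (P.Pt k)) ⊆ X.pts) {n : ℕ} {S : Sub k P}
    (hS : (S : Set (P.Pt k)) ⊆ X.pts) (h : Exc X.dim 𝓕 (n + 1) S) :
    cy C X S ∈ CS C X fun S' => sdim S' = sdim S ∧ Exc X.dim 𝓕 n S' := by
  classical
  obtain ⟨a, ha⟩ : ∃ a : P.ι →₀ ℕ, ∀ i, 0 < a i :=
    ⟨Finsupp.equivFunOnFinite.symm fun _ => 1, fun _ => Nat.one_pos⟩
  obtain ⟨g, g1, g2, g3⟩ := MvD_forms X hX ha h𝓕 hS h
  have hΩ := Var.prod_irr hX hX
  obtain ⟨s, m, s1, s2, s3⟩ := iter_div hC (X.prod X) (Z := (X.prod X).top hΩ) subset_rfl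
    (fun n => (g1 n).1) X.dim g2
  obtain ⟨d1, d2, ν, ν0, d3⟩ := mv_diag hC X hX
  obtain ⟨κ, hκ⟩ := mv_kappa hC X hX a hS
  have e2 : sdim ((X.prod X).top hΩ) = X.dim + X.dim := Var.sdim_top _ _
  set Δ := (Crd.diag k P).img (X.top hX)
  have hΔ : Δ ∈ s := by
    refine (s1 Δ).2 ⟨fun z hz => (d2.le hz).1, by omega, fun n _ z hz => ?_⟩
    rw [MvD_dia (d2.le hz).2]
    exact (g1 n).2 _
  have act : ∀ T : Sub k (P.sum P), ∃ y ∈ CS C X fun S' => sdim S' = sdim S ∧ Exc X.dim 𝓕 n S',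
      T ∈ s.erase Δ → ∀ z, nm C (X.prod X) T
        (pl C (Prj.p1 X X) (cy C X S) * pl C (Prj.p2 X X) z) = tau C X (y * z) := by
    intro T
    by_cases hT : T ∈ s.erase Δ
    · obtain ⟨t0, t1⟩ := Finset.mem_erase.1 hT
      obtain ⟨t2, t3, t4⟩ := (s1 T).1 t1
      have nd : ¬ (T : Set ((P.sum P).Pt k)) ⊆ Dia k P := fun H =>
        t0 (eq_of_sdim_le (fun z hz => d2.ge ⟨t2 hz, H hz⟩) (by omega))
      obtain ⟨y, y1, y2⟩ := mv_act hC X hS (T := T) t2 (by omega)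
        (fun U hU hUS => (g3 T t2 nd t4 U hU hUS).1)
        (p := fun S' => sdim S' = sdim S ∧ Exc X.dim 𝓕 n S') fun U hU hUS e =>
          ⟨e, fun F hF V hV hVF => e ▸ (g3 T t2 nd t4 U hU hUS).2 F hF V hV hVF⟩
      exact ⟨y, y1, fun _ => y2⟩
    · exact ⟨0, Submodule.zero_mem _, fun H => absurd H hT⟩
  choose y y1 y2 using act
  have c0 : m Δ * ν ≠ 0 := (mul_pos (s2 Δ hΔ) ν0).ne'
  have e : cy C X S = (m Δ * ν)⁻¹ • (κ • ln C X a ^ (X.dim - sdim S) -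
      ∑ T ∈ s.erase Δ, m T • y T) := by
    refine tau_pd X fun z => ?_
    have h1 := hκ z
    rw [cy_top, one_mul] at s3
    rw [s3, Finset.sum_mul, map_sum, ← Finset.add_sum_erase _ _ hΔ, smul_mul_assoc, map_smul,
      ← nm_apply, d3] at h1
    have h2 : ∑ T ∈ s.erase Δ, tau C (X.prod X) (m T • cy C (X.prod X) T *
        (pl C (Prj.p1 X X) (cy C X S) * pl C (Prj.p2 X X) z)) =
        tau C X ((∑ T ∈ s.erase Δ, m T • y T) * z) := by
      rw [Finset.sum_mul, map_sum]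
      refine Finset.sum_congr rfl fun T hT => ?_
      rw [smul_mul_assoc, smul_mul_assoc, map_smul, map_smul, ← nm_apply, y2 T hT]
    rw [h2] at h1
    rw [smul_mul_assoc, map_smul, sub_mul, map_sub, smul_mul_assoc, map_smul, smul_eq_mul,
      smul_eq_mul, ← h1, eq_inv_mul_iff_mul_eq₀ c0, smul_eq_mul]
    ring
  rw [e]
  refine Submodule.smul_mem _ _ (Submodule.sub_mem _ (Submodule.smul_mem _ _ ?_)
    (Submodule.sum_mem _ fun T _ => Submodule.smul_mem _ _ (y1 T)))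
  have := X.sdim_le hX hS
  refine num2_CS_mono X (fun U hU => ⟨by omega, fun F hF V a b => ?_⟩)
    (gen_ci hC X hX a h𝓕 (X.dim - sdim S))
  have := hU.2 F hF V a b
  omega

theorem mv_move (X : Var k P) (hX : IsIrreducible X.pts) {T : Sub k P}
    (hT : (T : Set (P.Pt k)) ⊆ X.pts) {𝓕 : Set (Sub k P)} (h𝓕 : 𝓕.Finite)
    (h𝓕' : ∀ F ∈ 𝓕, (F : Set (P.Pt k)) ⊆ X.pts) :
    cy C X T ∈ CS C X fun T' => sdim T' = sdim T ∧
      ∀ F ∈ 𝓕, ∀ U, U ≤ T' → U ≤ F → sdim U + X.dim ≤ sdim T' + sdim F := by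
  have key : ∀ n, ∀ S : Sub k P, (S : Set (P.Pt k)) ⊆ X.pts → sdim S = sdim T →
      Exc X.dim 𝓕 n S → cy C X S ∈ CS C X fun T' => sdim T' = sdim T ∧
        ∀ F ∈ 𝓕, ∀ U, U ≤ T' → U ≤ F → sdim U + X.dim ≤ sdim T' + sdim F := by
    intro n
    induction n with
    | zero => exact fun S hS e h => num2_cy_mem X hS ⟨e, h⟩
    | succ n ih =>
      exact fun S hS e h => num2_CS_map X LinearMap.id _
        (fun U hU hp => ih U hU (hp.1.trans e) hp.2) (move_step hC X hX h𝓕 h𝓕' hS h)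
  refine key X.dim T hT rfl fun F _ U a _ => ?_
  have := sdim_mono a
  omega

end Pool.Agent.Work.MP_ffcd14_ag
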