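import Pool.Agent.Work.MP_ffcd14_ag.Cyc.FP
import Pool.Agent.Work.MP_ffcd14_ag.Cyc.Meet

/-! # The moving lemma: definitions -/

open MvPolynomial Topology TopologicalSpace Filter

namespace Pool.Agent.Work.MP_ffcd14_ag

universe u v w

variable {k : Type u} [Field k] {P Q : Amb}

/-- The bidegree `(a, a)`. -/
noncomputable def dbl (a : P.ι →₀ ℕ) : (P.sum P).ι →₀ ℕ :=
  a.mapDomain Sum.inl + a.mapDomain Sum.inr

/-- Forms of bidegree `(a, a)` which vanish on the diagonal. -/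
def DW (k : Type u) [Field k] (a : P.ι →₀ ℕ) : Submodule k (MvPolynomial (P.sum P).V k) where
  carrier := {G | IsForm G (dbl a) ∧ ∀ x : P.Pt k, ev (mkPt x x) G = 0}
  add_mem' hf hg := ⟨hf.1.add hg.1, fun x => by
    rw [ev_eq, map_add, ← ev_eq, ← ev_eq, hf.2, hg.2, add_zero]⟩
  zero_mem' := ⟨isWeightedHomogeneous_zero _ _ _, fun _ => map_zero _⟩
  smul_mem' c f hf := ⟨(weightedHomogeneousSubmodule k _ _).smul_mem c hf.1, fun x => by
    rw [ev_eq, smul_eval, ← ev_eq, hf.2, mul_zero]⟩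

/-- The diagonal. -/
def Dia (k : Type u) [Field k] (P : Amb) : Set ((P.sum P).Pt k) :=
  {z | (Crd.inl k P P).pr z = (Crd.inr k P P).pr z}

variable [IsAlgClosed k]

/-- In a space of dimension `d`, `S` meets the members of `𝓕` with excess at most `n`. -/
def Exc (d : ℕ) (𝓕 : Set (Sub k P)) (n : ℕ) (S : Sub k P) : Prop :=
  ∀ F ∈ 𝓕, ∀ U ≤ S, U ≤ F → sdim U + d ≤ sdim S + sdim F + n

theorem sdim_le_add (U : Sub k (P.sum Q)) :
    sdim U ≤ sdim ((Crd.inl k P Q).img U) + sdim ((Crd.inr k P Q).img U) := by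
  obtain ⟨x, hx⟩ := U.isIrreducible.nonempty
  obtain ⟨T, h1, -, h2, h3⟩ := fib_low (Crd.inl k P Q) hx
  have h4 := sdim_img_of_inj (Crd.inr k P Q) (U := T) fun x hx y hy e => sum_ext (h2 x hx y hy) e
  have h5 := sdim_mono ((Crd.inr k P Q).img_mono h1)
  omega

omit [IsAlgClosed k] in
theorem ln_dbl {K : Type v} [Field K] [CharZero K] (C : NT.{u, v, w} k K) (X : Var k P)
    (a : P.ι →₀ ℕ) : ln C (X.prod X) (dbl a) =
      pl C (Prj.p1 X X) (ln C X a) + pl C (Prj.p2 X X) (ln C X a) := by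
  rw [pl_ln, pl_ln, ← ln_add]
  rfl

end Pool.Agent.Work.MP_ffcd14_ag
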