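import Pool.Agent.Work.MP_ffcd14_ag.Cyc.MvDefs

/-! # The moving lemma: general sequences of forms -/

open MvPolynomial Topology TopologicalSpace Filter

namespace Pool.Agent.Work.MP_ffcd14_ag

universe u v w

variable {k : Type u} [Field k] [IsAlgClosed k] {K : Type v} [Field K] [CharZero K]
  {P : Amb} {C : NT.{u, v, w} k K}

/-- The vectors of `N` killed by the first `j` linear forms. -/
def MvS_M {A V : Type*} [AddCommGroup A] [Module k A] [AddCommGroup V] [Module k V]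
    (N : Submodule k V) (L : A →ₗ[k] V →ₗ[k] k) (g : ℕ → A) (j : ℕ) : Submodule k V where
  carrier := {t | t ∈ N ∧ ∀ n < j, L (g n) t = 0}
  add_mem' hf hg := ⟨N.add_mem hf.1 hg.1, fun n hn => by
    rw [map_add, hf.2 n hn, hg.2 n hn, add_zero]⟩
  zero_mem' := ⟨N.zero_mem, fun _ _ => map_zero _⟩
  smul_mem' c t ht := ⟨N.smul_mem c ht.1, fun n hn => by rw [map_smul, ht.2 n hn, smul_zero]⟩

theorem MvS_seq (W : Submodule k (MvPolynomial P.V k)) {a : P.ι →₀ ℕ}
    (hW : ∀ g ∈ W, IsForm g a) (D : Set (P.Pt k)) (hD : ∀ x ∉ D, ∃ g ∈ W, ev x g ≠ 0)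
    {𝓖 : Set (Sub k P)} (h𝓖 : 𝓖.Finite) {I V : Type*} [Finite I] [AddCommGroup V] [Module k V]
    [Module.Finite k V] (N : I → Submodule k V) (L : I → MvPolynomial P.V k →ₗ[k] V →ₗ[k] k)
    (hL : ∀ i, ∀ t ∈ N i, t ≠ 0 → ∃ g ∈ W, L i g t ≠ 0) (j : ℕ) :
    ∃ g : ℕ → MvPolynomial P.V k, (∀ n, g n ∈ W) ∧
      (∀ j' ≤ j, ∀ G ∈ 𝓖, ∀ U ≤ G, (∀ n < j', Van (U : Set (P.Pt k)) (g n)) →
        (U : Set (P.Pt k)) ⊆ D ∨ sdim U + j' ≤ sdim G) ∧
      ∀ i, MvS_M (N i) (L i) g j = ⊥ ∨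
        Module.finrank k (MvS_M (N i) (L i) g j) + j ≤ Module.finrank k (N i) := by
  classical
  induction j with
  | zero =>
    refine ⟨fun _ => 0, fun _ => W.zero_mem, fun j' hj G _ U hU _ => Or.inr ?_,
      fun i => Or.inr ?_⟩
    · have := sdim_mono hU
      omega
    · exact Submodule.finrank_mono fun t ht => ht.1
  | succ j ih =>
    obtain ⟨g, hgW, hg, hM⟩ := ih
    have hcl : ∀ G : Sub k P,
        IsClosed ((G : Set (P.Pt k)) ∩ ⋂ n : Fin j, {y | ev y (g n) = 0}) := fun G =>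
      G.isClosed.inter (isClosed_iInter fun n => isClosed_zero (hW _ (hgW n)))
    choose s hs1 hs2 hs3 using fun G => exists_comps (hcl G)
    have hF : {T | T ∈ ⋃ G ∈ 𝓖, s G ∧ ¬ (T : Set (P.Pt k)) ⊆ D}.Finite :=
      (h𝓖.biUnion fun G _ => hs1 G).subset fun T hT => hT.1
    have := hF.to_subtype
    have ht : ∀ i : {i // MvS_M (N i) (L i) g j ≠ ⊥}, ∃ t ∈ MvS_M (N i) (L i) g j, t ≠ 0 :=
      fun i => (Submodule.ne_bot_iff _).1 i.2
    choose t ht1 ht2 using ht
    obtain ⟨f, hf⟩ := Submodule.exists_forall_notMem_of_forall_ne_top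
      (ι := {T | T ∈ ⋃ G ∈ 𝓖, s G ∧ ¬ (T : Set (P.Pt k)) ⊆ D} ⊕
        {i // MvS_M (N i) (L i) g j ≠ ⊥})
      (Sum.elim (fun T => (Noeth.vsub (T.1 : Set (P.Pt k))).comap W.subtype)
        fun i => (LinearMap.ker ((L i).flip (t i))).comap W.subtype) (by
        rintro (T | i) h0
        · obtain ⟨x, hx, hxD⟩ := Set.not_subset.1 T.2.2
          obtain ⟨f, hfW, hf⟩ := hD x hxD
          have h1 : (⟨f, hfW⟩ : W) ∈ (Noeth.vsub (T.1 : Set (P.Pt k))).comap W.subtype := by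
            rw [Sum.elim_inl] at h0
            rw [h0]; exact Submodule.mem_top
          exact hf (h1 x hx)
        · obtain ⟨f, hfW, hf⟩ := hL i (t i) (ht1 i).1 (ht2 i)
          have h1 : (⟨f, hfW⟩ : W) ∈ (LinearMap.ker ((L i).flip (t i))).comap W.subtype := by
            rw [Sum.elim_inr] at h0
            rw [h0]; exact Submodule.mem_top
          exact hf h1)
    have hlt : ∀ n < j, Function.update g j f.1 n = g n := fun n hn =>
      Function.update_of_ne hn.ne _ _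
    refine ⟨Function.update g j f.1, fun n => ?_, fun j' hj G hG U hU hv => ?_, fun i => ?_⟩
    · by_cases h : n = j
      · rw [h, Function.update_self]; exact f.2
      · rw [Function.update_of_ne h]; exact hgW n
    · rcases Nat.lt_or_ge j' (j + 1) with h | h
      · exact hg j' (by omega) G hG U hU fun n hn => hlt n (by omega) ▸ hv n hn
      · obtain rfl : j' = j + 1 := by omega
        obtain ⟨T, hT, hUT⟩ := hs3 G U fun x hx => ⟨hU hx, Set.mem_iInter.2 fun n => by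
          have := hv n (by omega) x hx
          rwa [hlt n n.2] at this⟩
        by_cases hTD : (T : Set (P.Pt k)) ⊆ D
        · exact Or.inl fun x hx => hTD (hUT hx)
        · have h1 := (hg j le_rfl G hG T (fun x hx => (hs2 G T hT hx).1) fun n hn x hx =>
            Set.mem_iInter.1 (hs2 G T hT hx).2 ⟨n, hn⟩).resolve_left hTD
          have h2 : ¬ Van (T : Set (P.Pt k)) f.1 :=
            hf (Sum.inl ⟨T, Set.mem_biUnion hG hT, hTD⟩)
          have h3 : U ≠ T := by
            rintro rfl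
            have := hv j (by omega)
            rw [Function.update_self] at this
            exact h2 this
          have h4 := sdim_lt (lt_of_le_of_ne hUT h3)
          exact Or.inr (by omega)
    · have hle : MvS_M (N i) (L i) (Function.update g j f.1) (j + 1) ≤ MvS_M (N i) (L i) g j :=
        fun t ht => ⟨ht.1, fun n hn => hlt n hn ▸ ht.2 n (by omega)⟩
      by_cases h : MvS_M (N i) (L i) g j = ⊥
      · exact Or.inl (le_bot_iff.1 (h ▸ hle))
      · have h1 := (hM i).resolve_left h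
        have h2 : MvS_M (N i) (L i) (Function.update g j f.1) (j + 1) < MvS_M (N i) (L i) g j := by
          refine lt_of_le_of_ne hle fun e => hf (Sum.inr ⟨i, h⟩) ?_
          have h3 := (e ▸ ht1 ⟨i, h⟩ :
            t ⟨i, h⟩ ∈ MvS_M (N i) (L i) (Function.update g j f.1) (j + 1)).2 j (by omega)
          rw [Function.update_self] at h3
          exact h3
        have h3 := Submodule.finrank_lt_finrank_of_lt h2
        exact Or.inr (by omega)

theorem MvS_under {Z : Sub k P} {a : P.ι →₀ ℕ} {g : ℕ → MvPolynomial P.V k}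
    (hg : ∀ n, IsForm (g n) a) (j : ℕ)
    (hp : ∀ j' ≤ j, ∀ U ≤ Z, (∀ n < j', Van (U : Set (P.Pt k)) (g n)) → sdim U + j' ≤ sdim Z)
    {U : Sub k P} (hU : U ≤ Z) (hv : ∀ n < j, Van (U : Set (P.Pt k)) (g n)) :
    ∃ T, U ≤ T ∧ T ≤ Z ∧ sdim T + j = sdim Z ∧ ∀ n < j, Van (T : Set (P.Pt k)) (g n) := by
  induction j with
  | zero => exact ⟨Z, hU, le_rfl, rfl, fun n hn => absurd hn (by omega)⟩
  | succ j ih =>
    obtain ⟨T, h1, h2, h3, h4⟩ := ih (fun j' hj => hp j' (by omega)) fun n hn => hv n (by omega)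
    have h5 : ¬ Van (T : Set (P.Pt k)) (g j) := fun h => by
      have := hp (j + 1) le_rfl T h2 fun n hn => by
        rcases Nat.lt_succ_iff_lt_or_eq.1 hn with h' | rfl
        · exact h4 n h'
        · exact h
      omega
    obtain ⟨T', h6, h7, h8, h9⟩ := krg h1 (hg j) h5 (hv j (by omega))
    refine ⟨T', h6, h7.trans h2, by omega, fun n hn => ?_⟩
    rcases Nat.lt_succ_iff_lt_or_eq.1 hn with h' | rfl
    · exact num2_van_mono h7 (h4 n h')
    · exact h8

/-- General members of a linear system cut properly outside the base locus and satisfy finitely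
many independence conditions. -/
theorem exists_seq (W : Submodule k (MvPolynomial P.V k)) {a : P.ι →₀ ℕ}
    (hW : ∀ g ∈ W, IsForm g a) (D : Set (P.Pt k)) (hD : ∀ x ∉ D, ∃ g ∈ W, ev x g ≠ 0)
    {𝓖 : Set (Sub k P)} (h𝓖 : 𝓖.Finite) {I V : Type*} [Finite I] [AddCommGroup V] [Module k V]
    [Module.Finite k V] (N : I → Submodule k V) (L : I → MvPolynomial P.V k →ₗ[k] V →ₗ[k] k)
    (hL : ∀ i, ∀ t ∈ N i, t ≠ 0 → ∃ g ∈ W, L i g t ≠ 0) (j : ℕ) :
    ∃ g : ℕ → MvPolynomial P.V k, (∀ n, g n ∈ W) ∧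
      (∀ j' ≤ j, ∀ G ∈ 𝓖, ∀ U ≤ G, (∀ n < j', Van (U : Set (P.Pt k)) (g n)) →
        (U : Set (P.Pt k)) ⊆ D ∨ sdim U + j' ≤ sdim G) ∧
      ∀ i, Module.finrank k (N i) ≤ j → ∀ t ∈ N i, (∀ n < j, L i (g n) t = 0) → t = 0 := by
  obtain ⟨g, h1, h2, h3⟩ := MvS_seq W hW D hD h𝓖 N L hL j
  refine ⟨g, h1, h2, fun i hi t ht h => ?_⟩
  have h4 : MvS_M (N i) (L i) g j = ⊥ := by
    rcases h3 i with h4 | h4
    · exact h4
    · exact Submodule.finrank_eq_zero.1 (by omega)
  have h5 : t ∈ MvS_M (N i) (L i) g j := ⟨ht, h⟩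
  rwa [h4, Submodule.mem_bot] at h5

variable (hC : C.Cyc)
include hC

/-- Proper intersection with several divisors. -/
theorem iter_div (X : Var k P) {Z : Sub k P} (hZ : (Z : Set (P.Pt k)) ⊆ X.pts) {a : P.ι →₀ ℕ}
    {g : ℕ → MvPolynomial P.V k} (hg : ∀ n, IsForm (g n) a) (j : ℕ)
    (hp : ∀ j' ≤ j, ∀ U ≤ Z, (∀ n < j', Van (U : Set (P.Pt k)) (g n)) → sdim U + j' ≤ sdim Z) :
    ∃ (s : Finset (Sub k P)) (m : Sub k P → ℚ),
      (∀ T, T ∈ s ↔ T ≤ Z ∧ sdim T + j = sdim Z ∧ ∀ n < j, Van (T : Set (P.Pt k)) (g n)) ∧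
      (∀ T ∈ s, 0 < m T) ∧ cy C X Z * ln C X a ^ j = ∑ T ∈ s, m T • cy C X T := by
  classical
  induction j with
  | zero =>
    refine ⟨{Z}, fun _ => 1, fun T => ?_, fun _ _ => one_pos, by simp⟩
    rw [Finset.mem_singleton]
    exact ⟨fun h => ⟨h.le, by rw [h, add_zero], fun n hn => absurd hn (by omega)⟩,
      fun h => eq_of_sdim_le h.1 (by omega)⟩
  | succ j ih =>
    obtain ⟨s, m, hs, hm, he⟩ := ih fun j' hj => hp j' (by omega)
    have h1 : ∀ T : Sub k P, ∃ (s' : Finset (Sub k P)) (m' : Sub k P → ℚ), T ∈ s →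
        (∀ T', T' ∈ s' ↔ T' ≤ T ∧ sdim T' + 1 = sdim T ∧ Van (T' : Set (P.Pt k)) (g j)) ∧
        (∀ T' ∈ s', 0 < m' T') ∧ cy C X T * ln C X a = ∑ T' ∈ s', m' T' • cy C X T' := by
      intro T
      by_cases hT : T ∈ s
      · obtain ⟨h2, h3, h4⟩ := (hs T).1 hT
        have h5 : ¬ Van (T : Set (P.Pt k)) (g j) := fun h => by
          have := hp (j + 1) le_rfl T h2 fun n hn => by
            rcases Nat.lt_succ_iff_lt_or_eq.1 hn with h' | rfl
            · exact h4 n h'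
            · exact h
          omega
        obtain ⟨s', m', h6⟩ := n_div' hC X (num2_sub h2 hZ) (hg j) h5
        exact ⟨s', m', fun _ => h6⟩
      · exact ⟨∅, 0, fun h => absurd h hT⟩
    choose s' m' h1 using h1
    refine ⟨s.biUnion s', fun T' => ∑ T ∈ s, if T' ∈ s' T then m T * m' T T' else 0,
      fun T' => ?_, fun T' hT' => ?_, ?_⟩
    · rw [Finset.mem_biUnion]
      constructor
      · rintro ⟨T, hT, hT'⟩
        obtain ⟨h2, h3, h4⟩ := (hs T).1 hT
        obtain ⟨h5, h6, h7⟩ := ((h1 T hT).1 T').1 hT'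
        refine ⟨h5.trans h2, by omega, fun n hn => ?_⟩
        rcases Nat.lt_succ_iff_lt_or_eq.1 hn with h' | rfl
        · exact num2_van_mono h5 (h4 n h')
        · exact h7
      · rintro ⟨h2, h3, h4⟩
        obtain ⟨T, h5, h6, h7, h8⟩ := MvS_under hg j (fun j' hj => hp j' (by omega)) h2
          fun n hn => h4 n (by omega)
        have hT := (hs T).2 ⟨h6, h7, h8⟩
        exact ⟨T, hT, ((h1 T hT).1 T').2 ⟨h5, by omega, h4 j (by omega)⟩⟩
    · obtain ⟨T, hT, hT''⟩ := Finset.mem_biUnion.1 hT'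
      refine Finset.sum_pos' (fun T₁ hT₁ => ?_) ⟨T, hT, ?_⟩
      · split_ifs with h
        · exact (mul_pos (hm T₁ hT₁) ((h1 T₁ hT₁).2.1 T' h)).le
        · exact le_rfl
      · rw [if_pos hT'']
        exact mul_pos (hm T hT) ((h1 T hT).2.1 T' hT'')
    · rw [pow_succ, ← mul_assoc, he, Finset.sum_mul]
      simp only [Finset.sum_smul]
      rw [Finset.sum_comm]
      refine Finset.sum_congr rfl fun T hT => ?_
      rw [smul_mul_assoc, (h1 T hT).2.2, Finset.smul_sum]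
      simp only [ite_smul, zero_smul]
      rw [← Finset.sum_filter, Finset.filter_mem_eq_inter,
        Finset.inter_eq_right.2 (Finset.subset_biUnion_of_mem s' hT)]
      exact Finset.sum_congr rfl fun T' _ => smul_smul _ _ _

/-- General complete intersections. -/
theorem gen_ci (X : Var k P) (hX : IsIrreducible X.pts) (a : P.ι →₀ ℕ) {𝓕 : Set (Sub k P)}
    (h𝓕 : 𝓕.Finite) (j : ℕ) :
    ln C X a ^ j ∈ CS C X fun S => sdim S + j = X.dim ∧ Exc X.dim 𝓕 0 S := by
  obtain ⟨g, h1, h2, -⟩ := exists_seq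
    (weightedHomogeneousSubmodule k (fun s : P.V => Finsupp.single s.1 1) a) (a := a)
    (fun g hg => hg) ∅ (fun x _ => by
      obtain ⟨ς, hς⟩ := exists_inCh x
      exact ⟨mono ς a, mono_form ς a, Noeth.ev_mono_ne hς a⟩) (h𝓕.insert (X.top hX)) (I := Empty)
    (V := k) Empty.elim (fun i => i.elim) (fun i => i.elim) j
  have h3 : ∀ j' ≤ j, ∀ G ∈ insert (X.top hX) 𝓕, ∀ U ≤ G,
      (∀ n < j', Van (U : Set (P.Pt k)) (g n)) → sdim U + j' ≤ sdim G :=
    fun j' hj G hG U hU hv => (h2 j' hj G hG U hU hv).resolve_left fun h => by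
      obtain ⟨x, hx⟩ := U.isIrreducible.nonempty
      exact h hx
  obtain ⟨s, m, hs, -, he⟩ := iter_div hC X (Z := X.top hX) (fun _ h => h) (a := a) h1 j
    fun j' hj => h3 j' hj _ (Set.mem_insert _ _)
  rw [cy_top, one_mul] at he
  rw [he]
  refine Submodule.sum_mem _ fun T hT => Submodule.smul_mem _ _ ?_
  obtain ⟨h4, h5, h6⟩ := (hs T).1 hT
  rw [X.sdim_top hX] at h5
  refine num2_cy_mem X h4 ⟨h5, fun F hF U hU hUF => ?_⟩
  have := h3 j le_rfl F (Set.mem_insert_of_mem _ hF) U hUF fun n hn => num2_van_mono hU (h6 n hn)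
  omega

end Pool.Agent.Work.MP_ffcd14_ag
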