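import Pool.Agent.Work.MP_ffcd14_ag.Cyc.NT

/-! # The numerical set-up: classes, trace, intersection numbers -/

open MvPolynomial Topology TopologicalSpace

namespace Pool.Agent.Work.MP_ffcd14_ag

universe u v w

variable {k : Type u} [Field k] {K : Type v} [Field K] [CharZero K] {P P' Q : Amb}

theorem exists_rho (K : Type v) [Field K] [CharZero K] :
    ∃ r : K →ₗ[ℚ] ℚ, ∀ q : ℚ, r (q : K) = q := by
  obtain ⟨r, hr⟩ := LinearMap.exists_leftInverse_of_injective (Algebra.linearMap ℚ K)
    (LinearMap.ker_eq_bot.mpr (algebraMap ℚ K).injective)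
  exact ⟨r, fun q => by simpa using LinearMap.congr_fun hr q⟩

/-- A rational retraction of the coefficient field. -/
noncomputable def rho (K : Type v) [Field K] [CharZero K] : K →ₗ[ℚ] ℚ := (exists_rho K).choose

theorem rho_cast (q : ℚ) : rho K (q : K) = q := (exists_rho K).choose_spec q

variable (C : NT.{u, v, w} k K)

/-- The ring of classes. -/
def EE (X : Var k P) : Type w := C.E X

noncomputable instance (X : Var k P) : CommRing (EE C X) := C.ring X

noncomputable instance (X : Var k P) : Algebra ℚ (EE C X) := C.alg X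

/-- The underlying class. -/
def vl (X : Var k P) (x : EE C X) : C.E X := x

/-- The rational trace. -/
noncomputable def tau (X : Var k P) : EE C X →ₗ[ℚ] ℚ := C.tau X

/-- The hyperplane classes. -/
noncomputable def hy (X : Var k P) (i : P.ι) : EE C X := C.hy X i

/-- The class of `O(a)`. -/
noncomputable def ln (X : Var k P) (a : P.ι →₀ ℕ) : EE C X := lin (hy C X) a

/-- Pull-back. -/
noncomputable def pl {Ω : Var k P'} {X : Var k P} (π : Prj Ω X) : EE C X →ₐ[ℚ] EE C Ω := C.pl π

/-- The class of a subvariety (zero if it is not contained in `X`). -/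
noncomputable def cy (X : Var k P) (Z : Sub k P) : EE C X := C.cy X Z

/-- Intersection numbers on the subvariety `Z`. -/
noncomputable def nm (X : Var k P) (Z : Sub k P) : EE C X →ₗ[ℚ] ℚ :=
  tau C X ∘ₗ LinearMap.mulLeft ℚ (cy C X Z)

theorem nm_apply (X : Var k P) (Z : Sub k P) (y : EE C X) :
    nm C X Z y = tau C X (cy C X Z * y) := rfl

/-- Algebraic classes of codimension `c`. -/
noncomputable def AA (X : Var k P) (c : ℕ) : Submodule ℚ (EE C X) := C.AA X c

/-- The span of the classes of the subvarieties of `X` with the property `p`. -/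
noncomputable def CS (X : Var k P) (p : Sub k P → Prop) : Submodule ℚ (EE C X) :=
  Submodule.span ℚ {y | ∃ U : Sub k P, (U : Set (P.Pt k)) ⊆ X.pts ∧ p U ∧ y = cy C X U}

/-- The span of the hyperplane classes. -/
noncomputable def HS (X : Var k P) : Submodule ℚ (EE C X) := Submodule.span ℚ (Set.range (hy C X))

/-- The algebra generated by the hyperplane classes. -/
noncomputable def HA (X : Var k P) : Subalgebra ℚ (EE C X) := Algebra.adjoin ℚ (Set.range (hy C X))

/-- A product of classes `O(a)`. -/
noncomputable def lp' (X : Var k P) (as : List (P.ι →₀ ℕ)) : EE C X := (as.map (ln C X)).prod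

/-- Numerically trivial classes. -/
def N0 (X : Var k P) (x : EE C X) : Prop := ∀ c, ∀ y ∈ AA C X c, tau C X (x * y) = 0

/-- Semi-positivity on primitive classes of codimension two, in dimension `m + 4`. -/
def SH (X : Var k P) (m : ℕ) (l : EE C X) : Prop :=
  ∀ y ∈ AA C X 2, (∀ D ∈ AA C X 1, tau C X (l ^ (m + 1) * y * D) = 0) →
    0 ≤ tau C X (l ^ m * y * y)

/-- Finite-dimensionality of the classes modulo numerical equivalence. -/
def NFin : Prop := ∀ {P : Amb} (X : Var k P) (c c' : ℕ), c + c' = X.dim →
  ∃ (ρ : ℕ) (e : Fin ρ → EE C X), (∀ j, e j ∈ AA C X c) ∧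
    (∀ x ∈ AA C X c, ∃ t : Fin ρ → ℚ, N0 C X (x - ∑ j, t j • e j)) ∧
    ∀ t : Fin ρ → ℚ, N0 C X (∑ j, t j • e j) → t = 0

end Pool.Agent.Work.MP_ffcd14_ag
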