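import Pool.Agent.Work.MP_ffcd14_ag.Cyc.Num1a
import Pool.Agent.Work.MP_ffcd14_ag.Cyc.VarDim
import Pool.Agent.Work.MP_ffcd14_ag.Cyc.Img

/-! # The axioms in working form -/

open MvPolynomial Topology TopologicalSpace Filter

namespace Pool.Agent.Work.MP_ffcd14_ag

set_option linter.unusedSectionVars false

universe u v w

variable {k : Type u} [Field k] {K : Type v} [Field K] [CharZero K] {P P' Q S : Amb}
  (C : NT.{u, v, w} k K)

theorem n1_le_res (X : Var k P) {Z : Sub k P} (hZ : (Z : Set (P.Pt k)) ⊆ X.pts)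
    {U : IrreducibleCloseds X.pts} : U ≤ X.res Z hZ ↔ X.amb U ≤ Z := by
  rw [← X.amb_le_iff, X.amb_res]

theorem n1_res_le (X : Var k P) {Z T : Sub k P} (hZ : (Z : Set (P.Pt k)) ⊆ X.pts)
    (hT : (T : Set (P.Pt k)) ⊆ X.pts) : X.res T hT ≤ X.res Z hZ ↔ T ≤ Z := by
  rw [n1_le_res, X.amb_res]

theorem n1_res_le' (X : Var k P) {T : Sub k P} (hT : (T : Set (P.Pt k)) ⊆ X.pts)
    {U : IrreducibleCloseds X.pts} : X.res T hT ≤ U ↔ T ≤ X.amb U := by
  rw [← X.amb_le_iff, X.amb_res]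

theorem n1_img_sub {Ω : Var k P'} {X : Var k P} (π : Prj Ω X) {Z : Sub k P'}
    (hZ : (Z : Set (P'.Pt k)) ⊆ Ω.pts) : (π.img Z : Set (P.Pt k)) ⊆ X.pts :=
  (π.toCrd.img_sub X.closed).2 fun x hx => π.maps x (hZ hx)

theorem n1_closure {Ω : Var k P'} {X : Var k P} (π : Prj Ω X) {Z : Sub k P'}
    (hZ : (Z : Set (P'.Pt k)) ⊆ Ω.pts) :
    closure (π.hom.toFun '' (Ω.res Z hZ : Set Ω.pts)) =
      (X.res (π.img Z) (n1_img_sub π hZ) : Set X.pts) := by
  rw [IsInducing.subtypeVal.closure_eq_preimage_closure_image]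
  change _ = Subtype.val ⁻¹' closure (π.pr '' (Z : Set (P'.Pt k)))
  congr 2
  ext y
  constructor
  · rintro ⟨_, ⟨x, hx, rfl⟩, rfl⟩
    exact ⟨x.1, hx, rfl⟩
  · rintro ⟨x, hx, rfl⟩
    exact ⟨_, ⟨⟨x, hZ hx⟩, hx, rfl⟩, rfl⟩

theorem n1_height_iso {α β : Type*} [TopologicalSpace α] [TopologicalSpace β] {f : α → β}
    {g : β → α} (hf : Continuous f) (hg : Continuous g) (h1 : ∀ x, g (f x) = x)
    (h2 : ∀ y, f (g y) = y) (Z : IrreducibleCloseds α) :
    Order.height (Z.map f hf) = Order.height Z := by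
  let e : α ≃ₜ β := ⟨⟨f, g, h1, h2⟩, hf, hg⟩
  refine le_antisymm ?_ (Order.height_le_height_apply_of_strictMono _
    (IrreducibleCloseds.map_strictMono_of_isInducing e.isInducing) Z)
  have h3 := Order.height_le_height_apply_of_strictMono _
    (IrreducibleCloseds.map_strictMono_of_isInducing e.symm.isInducing) (Z.map f hf)
  refine h3.trans (le_of_eq (congrArg _ ?_))
  apply SetLike.coe_injective
  change closure (e.symm '' closure (e '' (Z : Set α))) = Z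
  rw [e.symm.image_closure, closure_closure, ← Set.image_comp]
  simpa using Z.isClosed.closure_eq

variable [IsAlgClosed k]

theorem n1_height_res (X : Var k P) {Z : Sub k P} (hZ : (Z : Set (P.Pt k)) ⊆ X.pts) :
    Order.height (X.res Z hZ) = sdim Z := by
  rw [X.height_eq, X.amb_res]

omit [IsAlgClosed k] in
theorem n1_cy_zero (X : Var k P) {Z : Sub k P} (h : ¬ (Z : Set (P.Pt k)) ⊆ X.pts) :
    cy C X Z = 0 := C.cy_zero X Z h

theorem cy_mem_AA (X : Var k P) (Z : Sub k P) : ∃ c, cy C X Z ∈ AA C X c := C.cy_mem X Z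

theorem AA_le_CS (X : Var k P) (c : ℕ) : AA C X c ≤ CS C X fun _ => True := C.AA_le X c

theorem AA_eq_CS (X : Var k P) (h : IsIrreducible X.pts) (c : ℕ) :
    AA C X c = CS C X fun U => sdim U + c = X.dim := C.AA_eq X h c

theorem cy_top (X : Var k P) (h : IsIrreducible X.pts) : cy C X (X.top h) = 1 := C.cy_top X h

theorem CS_mul_AA (X : Var k P) {x y : EE C X} (hx : x ∈ CS C X fun _ => True) {c : ℕ}
    (hy : y ∈ AA C X c) : x * y ∈ CS C X fun _ => True := by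
  induction hx using Submodule.span_induction with
  | mem x hx =>
    obtain ⟨U, -, -, rfl⟩ := hx
    obtain ⟨c', hc'⟩ := cy_mem_AA C X U
    exact AA_le_CS C X _ (AA_mul C X hc' hy)
  | zero => simp
  | add x z _ _ hx hz => rw [add_mul]; exact add_mem hx hz
  | smul q x _ hx => rw [smul_mul_assoc]; exact Submodule.smul_mem _ _ hx

theorem nm_AA (X : Var k P) (h : IsIrreducible X.pts) (Z : Sub k P) {c : ℕ} {x : EE C X}
    (hx : x ∈ AA C X c) (hc : c ≠ sdim Z) : nm C X Z x = 0 := by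
  rw [nm_apply]
  by_cases hZ : (Z : Set (P.Pt k)) ⊆ X.pts
  · have hle := X.sdim_le h hZ
    have : cy C X Z ∈ AA C X (X.dim - sdim Z) := by
      rw [AA_eq_CS C X h]
      exact Submodule.subset_span ⟨Z, hZ, by omega, rfl⟩
    exact tau_AA C X (AA_mul C X this hx) (by omega)
  · rw [n1_cy_zero C X hZ, zero_mul, map_zero]

/-- An isomorphism preserves dimensions. -/
theorem n_iso1 {Ω : Var k P'} {X : Var k P} (π : Prj Ω X) (ψ : Hom X Ω) (h : Inv π.hom ψ)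
    {Z : Sub k P'} (hZ : (Z : Set (P'.Pt k)) ⊆ Ω.pts) : sdim (π.img Z) = sdim Z := by
  have hh : Order.height (X.res (π.img Z) (n1_img_sub π hZ)) = Order.height (Ω.res Z hZ) := by
    rw [← n1_height_iso π.hom.continuous ψ.continuous h.1 h.2 (Ω.res Z hZ)]
    congr 1
    exact SetLike.coe_injective (n1_closure π hZ).symm
  rw [n1_height_res, n1_height_res] at hh
  exact_mod_cast hh

/-- The working form of the properties of cycle classes. -/
structure NCyc (C : NT.{u, v, w} k K) : Prop where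
  vol : ∀ {P : Amb} (X : Var k P) {Z : Sub k P}, (Z : Set (P.Pt k)) ⊆ X.pts →
    ∀ {a : P.ι →₀ ℕ}, (∀ i, 0 < a i) →
    Tendsto (fun n : ℕ => ((sdim Z).factorial * hilb (Z : Set (P.Pt k)) (n • a) : ℝ) /
      n ^ sdim Z) atTop (𝓝 (nm C X Z (ln C X a ^ sdim Z) : ℝ))
  div : ∀ {P : Amb} (X : Var k P) {Z : Sub k P}, (Z : Set (P.Pt k)) ⊆ X.pts →
    ∃ m : Sub k P → MvPolynomial P.V k → ℕ, ∀ f a, IsForm f a → ¬ Van (Z : Set (P.Pt k)) f →
      (∀ T, 0 < m T f ↔ T ≤ Z ∧ sdim T + 1 = sdim Z ∧ Van (T : Set (P.Pt k)) f) ∧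
      (∀ g, IsForm g a → Van (Z : Set (P.Pt k)) (g - f) → ∀ T, m T g = m T f) ∧
      (∀ g b, IsForm g b → ¬ Van (Z : Set (P.Pt k)) g → ∀ T, m T (f * g) = m T f + m T g) ∧
      ∀ s : Finset (Sub k P), (∀ T, 0 < m T f → T ∈ s) →
        cy C X Z * ln C X a = ∑ T ∈ s, (m T f : ℚ) • cy C X T
  chow : C.Chow

/-- The working form of the properties of cycle classes. -/
abbrev NT.Cyc (C : NT.{u, v, w} k K) : Prop := NCyc C

variable {C} (hC : C.Cyc)
include hC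

theorem n_vol (X : Var k P) {Z : Sub k P} (hZ : (Z : Set (P.Pt k)) ⊆ X.pts) {a : P.ι →₀ ℕ}
    (ha : ∀ i, 0 < a i) :
    Tendsto (fun n : ℕ => ((sdim Z).factorial * hilb (Z : Set (P.Pt k)) (n • a) : ℝ) /
      n ^ sdim Z) atTop (𝓝 (nm C X Z (ln C X a ^ sdim Z) : ℝ)) := hC.vol X hZ ha

theorem n_div (X : Var k P) {Z : Sub k P} (hZ : (Z : Set (P.Pt k)) ⊆ X.pts) :
    ∃ m : Sub k P → MvPolynomial P.V k → ℕ, ∀ f a, IsForm f a → ¬ Van (Z : Set (P.Pt k)) f →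
      (∀ T, 0 < m T f ↔ T ≤ Z ∧ sdim T + 1 = sdim Z ∧ Van (T : Set (P.Pt k)) f) ∧
      (∀ g, IsForm g a → Van (Z : Set (P.Pt k)) (g - f) → ∀ T, m T g = m T f) ∧
      (∀ g b, IsForm g b → ¬ Van (Z : Set (P.Pt k)) g → ∀ T, m T (f * g) = m T f + m T g) ∧
      ∀ s : Finset (Sub k P), (∀ T, 0 < m T f → T ∈ s) →
        cy C X Z * ln C X a = ∑ T ∈ s, (m T f : ℚ) • cy C X T := hC.div X hZ

theorem n_push {Ω : Var k P'} {X : Var k P} (π : Prj Ω X) {Z : Sub k P'}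
    (hZ : (Z : Set (P'.Pt k)) ⊆ Ω.pts) :
    ∃ n : ℕ, (0 < n ↔ sdim Z = sdim (π.img Z)) ∧
      ∀ y, nm C Ω Z (pl C π y) = n * nm C X (π.img Z) y := hC.chow.push π hZ

theorem n_meet {Ω : Var k P'} {X : Var k P} (π : Prj Ω X) {Z : Sub k P'}
    (hZ : (Z : Set (P'.Pt k)) ⊆ Ω.pts) {T : Sub k P} (hT : (T : Set (P.Pt k)) ⊆ X.pts)
    (hp : ∀ U ≤ Z, π.img U ≤ T → sdim U + X.dim ≤ sdim Z + sdim T) :
    cy C Ω Z * pl C π (cy C X T) ∈
      CS C Ω fun U => U ≤ Z ∧ π.img U ≤ T ∧ sdim U + X.dim = sdim Z + sdim T :=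
  hC.chow.meet π hZ hT hp

end Pool.Agent.Work.MP_ffcd14_ag
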