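import Pool.Agent.Work.MP_ffcd14_ag.Cyc.NDefs

/-! # The axioms in working form, part one -/

open MvPolynomial Topology TopologicalSpace Filter

namespace Pool.Agent.Work.MP_ffcd14_ag

set_option linter.unusedSectionVars false

universe u v w

variable {k : Type u} [Field k] {K : Type v} [Field K] [CharZero K] {P P' Q S : Amb}
  (C : NT.{u, v, w} k K)

theorem ln_zero (X : Var k P) : ln C X 0 = 0 := by
  simp [ln, lin]

theorem ln_add (X : Var k P) (a b : P.ι →₀ ℕ) : ln C X (a + b) = ln C X a + ln C X b :=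
  Finsupp.sum_add_index' (h := fun i n => n • hy C X i) (fun _ => zero_nsmul _)
    fun _ _ _ => add_nsmul _ _ _

theorem ln_smul (X : Var k P) (n : ℕ) (a : P.ι →₀ ℕ) : ln C X (n • a) = (n : ℚ) • ln C X a := by
  induction n with
  | zero => simp [ln_zero]
  | succ n ih => rw [succ_nsmul, ln_add, ih, Nat.cast_succ, add_smul, one_smul]

theorem ln_single (X : Var k P) (i : P.ι) : ln C X (Finsupp.single i 1) = hy C X i := by
  simp [ln, lin]

theorem ln_mem_HS (X : Var k P) (a : P.ι →₀ ℕ) : ln C X a ∈ HS C X :=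
  Submodule.sum_mem _ fun i _ => nsmul_mem (Submodule.subset_span (Set.mem_range_self i)) _

theorem HS_le_HA (X : Var k P) {x : EE C X} (hx : x ∈ HS C X) : x ∈ HA C X :=
  (Submodule.span_le (p := Subalgebra.toSubmodule (HA C X))).2 Algebra.subset_adjoin hx

theorem HS_le_AA (X : Var k P) : HS C X ≤ AA C X 1 := by
  refine Submodule.span_le.2 ?_
  rintro _ ⟨i, rfl⟩
  exact C.hy_mem X i

theorem AA_mul (X : Var k P) {c c' : ℕ} {x y : EE C X} (hx : x ∈ AA C X c) (hy : y ∈ AA C X c') :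
    x * y ∈ AA C X (c + c') := C.AA_mul X hx hy

theorem AA_pl {Ω : Var k P'} {X : Var k P} (π : Prj Ω X) {c : ℕ} {y : EE C X}
    (hy : y ∈ AA C X c) : pl C π y ∈ AA C Ω c := C.AA_pl π hy

theorem tau_AA (X : Var k P) {c : ℕ} {x : EE C X} (hx : x ∈ AA C X c) (hc : c ≠ X.dim) :
    tau C X x = 0 := C.tau_AA X hx hc

theorem pl_id {X : Var k P} (π : Prj X X) (h : ∀ x : X.pts, π.pr x.1 = x.1) (y : EE C X) :
    pl C π y = y := C.pl_id π (fun x hx => h ⟨x, hx⟩) y

theorem pl_comp {X : Var k P} {Y : Var k Q} {Z : Var k S} (φ : Prj X Y) (ψ : Prj Y Z)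
    (χ : Prj X Z) (h : ∀ x : X.pts, χ.pr x.1 = ψ.pr (φ.pr x.1)) (z : EE C Z) :
    pl C χ z = pl C φ (pl C ψ z) := C.pl_comp φ ψ χ (fun x hx => h ⟨x, hx⟩) z

theorem tau_iso {Ω : Var k P'} {X : Var k P} (π : Prj Ω X) (ψ : Hom X Ω)
    (hX : IsIrreducible X.pts) (h : Inv π.hom ψ) (y : EE C X) :
    tau C Ω (pl C π y) = tau C X y := C.tau_iso π ψ hX h y

theorem pl_hy {Ω : Var k P'} {X : Var k P} (π : Prj Ω X) (i : P.ι) :
    pl C π (hy C X i) = hy C Ω (π.ψ i) := C.pl_hy π i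

theorem pl_ln {Ω : Var k P'} {X : Var k P} (π : Prj Ω X) (a : P.ι →₀ ℕ) :
    pl C π (ln C X a) = ln C Ω (a.mapDomain π.ψ) := by
  rw [ln, ln, lin, lin, Finsupp.sum_mapDomain_index (h := fun i n => n • hy C Ω i)
    (fun _ => zero_nsmul _) fun _ _ _ => add_nsmul _ _ _]
  simp only [Finsupp.sum, map_sum, map_nsmul, pl_hy]

theorem pl_HS {Ω : Var k P'} {X : Var k P} (π : Prj Ω X) {x : EE C X} (hx : x ∈ HS C X) :
    pl C π x ∈ HS C Ω := by
  induction hx using Submodule.span_induction with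
  | mem x hx =>
    obtain ⟨i, rfl⟩ := hx
    rw [pl_hy]
    exact Submodule.subset_span ⟨_, rfl⟩
  | zero => simp
  | add x y _ _ hx hy => rw [map_add]; exact add_mem hx hy
  | smul q x _ hx => rw [map_smul]; exact Submodule.smul_mem _ _ hx

theorem pl_HA {Ω : Var k P'} {X : Var k P} (π : Prj Ω X) {x : EE C X} (hx : x ∈ HA C X) :
    pl C π x ∈ HA C Ω := by
  induction hx using Algebra.adjoin_induction with
  | mem x hx =>
    obtain ⟨i, rfl⟩ := hx
    rw [pl_hy]
    exact Algebra.subset_adjoin ⟨_, rfl⟩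
  | algebraMap q => rw [AlgHom.commutes]; exact Subalgebra.algebraMap_mem _ _
  | add x y _ _ hx hy => rw [map_add]; exact add_mem hx hy
  | mul x y _ _ hx hy => rw [map_mul]; exact mul_mem hx hy

theorem pl_lp' {Ω : Var k P'} {X : Var k P} (π : Prj Ω X) (as : List (P.ι →₀ ℕ)) :
    pl C π (lp' C X as) = lp' C Ω (as.map (Finsupp.mapDomain π.ψ)) := by
  induction as with
  | nil => simp [lp']
  | cons a as ih =>
    simp only [lp', List.map_cons, List.prod_cons, map_mul, pl_ln] at ih ⊢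
    rw [ih]

theorem N0_iff (X : Var k P) {c c' : ℕ} (h : c + c' = X.dim) {x : EE C X} (hx : x ∈ AA C X c) :
    N0 C X x ↔ ∀ y ∈ AA C X c', tau C X (x * y) = 0 := by
  refine ⟨fun h0 => h0 c', fun h0 c'' y hy => ?_⟩
  by_cases hc : c'' = c'
  · exact h0 y (hc ▸ hy)
  · exact tau_AA C X (AA_mul C X hx hy) (by omega)

end Pool.Agent.Work.MP_ffcd14_ag
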