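import Pool.Agent.Work.MP_ffcd14_ag.Cyc.GDefs

/-! # Products of two varieties, the full ambient space -/

open MvPolynomial Topology TopologicalSpace Filter

namespace Pool.Agent.Work.MP_ffcd14_ag

universe u

variable {k : Type u} [Field k] {P P' Q S : Amb}

/-- The ambient space as a variety. -/
noncomputable def Var.full (k : Type u) [Field k] (P : Amb) : Var k P where
  pts := Set.univ
  dim := Nat.card P.V - Nat.card P.ι
  closed := isClosed_univ
  smooth x _ := by
    refine ⟨Empty, Empty.elim, ?_, fun j => j.elim, by simp, linearIndependent_empty_type⟩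
    have : Nat.card P.ι ≤ Nat.card P.V := by
      choose s hs using fun i => Function.ne_iff.mp (x i).rep_nonzero
      exact Nat.card_le_card_of_injective (fun i => (⟨i, s i⟩ : P.V))
        fun i j h => congrArg Sigma.fst h
    simp only [Nat.card_eq_fintype_card, Fintype.card_eq_zero, zero_add]
    omega

theorem card_sum_V (P Q : Amb) : Nat.card (P.sum Q).V = Nat.card P.V + Nat.card Q.V := by
  rw [← Nat.card_sum]
  exact Nat.card_congr (Equiv.sumSigmaDistrib (P.sum Q).σ)

theorem card_sum_ι (P Q : Amb) : Nat.card (P.sum Q).ι = Nat.card P.ι + Nat.card Q.ι :=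
  Nat.card_sum

/-- The product of two varieties. -/
def Var.prod (X : Var k P) (Y : Var k Q) : Var k (P.sum Q) where
  pts := {z | (Crd.inl k P Q).pr z ∈ X.pts ∧ (Crd.inr k P Q).pr z ∈ Y.pts}
  dim := X.dim + Y.dim
  closed := (X.closed.preimage (Crd.inl k P Q).continuous).inter
    (Y.closed.preimage (Crd.inr k P Q).continuous)
  smooth z hz := by
    classical
    obtain ⟨κ, f, hc, hL⟩ := X.smooth _ hz.1
    obtain ⟨κ', f', hc', hL'⟩ := Y.smooth _ hz.2
    have := hL.finite
    have := hL'.finite
    let _ := Fintype.ofFinite κ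
    let _ := Fintype.ofFinite κ'
    refine ⟨κ ⊕ κ', Sum.elim (fun c => rename (Blk.inl (k := k) P Q).ε (f c))
      fun c => rename (Blk.inr (k := k) P Q).ε (f' c), ?_, ?_, ?_, ?_⟩
    · rw [card_sum_V, card_sum_ι, Nat.card_sum]
      omega
    · rintro (c | c)
      · obtain ⟨a, ha⟩ := hL.1 c
        exact ⟨_, (Blk.inl P Q).form ha⟩
      · obtain ⟨a, ha⟩ := hL'.1 c
        exact ⟨_, (Blk.inr P Q).form ha⟩
    · filter_upwards [((Blk.inl (k := k) P Q).continuous.continuousAt (x := z)).eventually hL.2.1,
        ((Blk.inr (k := k) P Q).continuous.continuousAt (x := z)).eventually hL'.2.1] with w h1 h2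
      simp only [Sum.forall, Sum.elim_inl, Sum.elim_inr, Blk.ev_rename, ← h1, ← h2]
      rfl
    · rw [Fintype.linearIndependent_iff]
      intro l hl
      rintro (c | c)
      · refine Fintype.linearIndependent_iff.mp hL.2.2 (fun c => l (Sum.inl c))
          (funext fun s => ?_) c
        have := congrFun hl ((Blk.inl (k := k) P Q).ε s)
        simp only [Finset.sum_apply, Pi.smul_apply, Pi.zero_apply, Fintype.sum_sum_type,
          Sum.elim_inl, Sum.elim_inr, Blk.ev_pderiv] at this
        rw [Finset.sum_eq_zero (s := Finset.univ) (f := fun c : κ' => _), add_zero] at this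
        · simp only [Finset.sum_apply, Pi.smul_apply, Pi.zero_apply]
          exact this
        · intro c _
          rw [pderiv_rename_of_notMem]
          · simp [ev]
          · rintro ⟨s, hs⟩
            exact Sum.inr_ne_inl (congrArg Sigma.fst hs)
      · refine Fintype.linearIndependent_iff.mp hL'.2.2 (fun c => l (Sum.inr c))
          (funext fun s => ?_) c
        have := congrFun hl ((Blk.inr (k := k) P Q).ε s)
        simp only [Finset.sum_apply, Pi.smul_apply, Pi.zero_apply, Fintype.sum_sum_type,
          Sum.elim_inl, Sum.elim_inr, Blk.ev_pderiv] at this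
        rw [Finset.sum_eq_zero (s := Finset.univ) (f := fun c : κ => _), zero_add] at this
        · simp only [Finset.sum_apply, Pi.smul_apply, Pi.zero_apply]
          exact this
        · intro c _
          rw [pderiv_rename_of_notMem]
          · simp [ev]
          · rintro ⟨s, hs⟩
            exact Sum.inl_ne_inr (congrArg Sigma.fst hs)

/-- The product with a full ambient space. -/
noncomputable def Var.ext (X : Var k P) (Q : Amb) : Var k (P.sum Q) := X.prod (Var.full k Q)

/-- The first projection of `X × P_Q`. -/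
noncomputable def Prj.one (X : Var k P) (Q : Amb) : Prj (X.ext Q) X where
  toCrd := Crd.inl k P Q
  maps _ hx := hx.1

theorem Var.mem_ext {X : Var k P} {z : (P.sum Q).Pt k} :
    z ∈ (X.ext Q).pts ↔ (Crd.inl k P Q).pr z ∈ X.pts := ⟨fun h => h.1, fun h => ⟨h, trivial⟩⟩

/-- Composition of coordinate maps of varieties. -/
def Prj.comp {X : Var k P} {Y : Var k Q} {Z : Var k S} (β : Prj Y X) (γ : Prj Z Y) : Prj Z X where
  toCrd := β.toCrd.comp γ.toCrd
  maps x hx := β.maps _ (γ.maps x hx)

/-- The identity. -/
def Prj.refl (X : Var k P) : Prj X X where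
  toCrd := Crd.refl k P
  maps _ hx := hx

/-- `T` lies on the graph of the rational map given by the forms `F`. -/
def OnGraph (T : Set ((P.sum Q).Pt k)) (F : Q.V → MvPolynomial P.V k) : Prop :=
  ∀ j s t, Van T (minor (fun s => F ⟨j, s⟩) s t)

/-- The rational map given by `F` is defined on `Z`. -/
def DefOn (Z : Set (P.Pt k)) (F : Q.V → MvPolynomial P.V k) : Prop := ∀ j, ∃ s, ¬ Van Z (F ⟨j, s⟩)

end Pool.Agent.Work.MP_ffcd14_ag
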