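import Pool.Agent.Work.MP_ffcd14_ag.Cyc.GDefs

/-! # The rank function of the algebraic matroid -/

open MvPolynomial

namespace Pool.Agent.Work.MP_ffcd14_ag

universe u

variable {k : Type u} [Field k] {L L' : Type u} [Field L] [Algebra k L] [Field L'] [Algebra k L']
  {P : Amb}

theorem Rk_mem_closure {s : Set L} {y : L} :
    y ∈ (AlgebraicIndependent.matroid k L).closure s ↔ IsAlgebraic (Algebra.adjoin k s) y := by
  rw [AlgebraicIndependent.matroid_closure_eq]
  rfl

theorem Rk_comap {A B : Type u} [CommRing A] [IsDomain A] [Algebra k A] [CommRing B] [IsDomain B]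
    [Algebra k B] (ψ : A →ₐ[k] B) (hψ : Function.Injective ψ) :
    (AlgebraicIndependent.matroid k B).comap ψ = AlgebraicIndependent.matroid k A := by
  refine Matroid.ext_indep (by simp) fun I _ => ?_
  rw [Matroid.comap_indep_iff, and_iff_left hψ.injOn]
  exact (algebraicIndependent_image (R := k) (f := ψ) hψ.injOn).symm.trans
    (ψ.algebraicIndependent_iff (x := fun x : I => (x : A)) hψ)

theorem Rk_spanning {A : Type u} [CommRing A] [IsDomain A] [Algebra k A] {s : Set A}
    (hs : s.Finite) (h : Algebra.IsAlgebraic (Algebra.adjoin k s) A) :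
    ((((AlgebraicIndependent.matroid k A).eRk s).toNat : ℕ) : Cardinal) = Algebra.trdeg k A := by
  have h1 := AlgebraicIndependent.matroid_spanning_iff.2 h
  obtain ⟨B, hB, hBs⟩ := h1.exists_isBase_subset
  rw [h1.eRk_eq, ← hB.encard_eq_eRank, ← AlgebraicIndependent.matroid_cRank_eq,
    ← hB.cardinalMk_eq_cRank, ← Set.ncard_def, Set.cast_ncard (hs.subset hBs)]

theorem rk_mono {s t : Set L} (h : s ⊆ t) : rk k s ≤ rk k t := by
  exact (AlgebraicIndependent.matroid k L).eRk_mono h

theorem rk_le_of_alg {s t : Set L} (h : ∀ y ∈ t, IsAlgebraic (Algebra.adjoin k s) y) :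
    rk k t ≤ rk k s := by
  rw [rk, rk, ← Matroid.eRk_closure_eq _ s]
  exact (AlgebraicIndependent.matroid k L).eRk_mono fun y hy => Rk_mem_closure.2 (h y hy)

theorem rk_le_of_mem {s t : Set L} (h : ∀ y ∈ t, y ∈ IntermediateField.adjoin k s) :
    rk k t ≤ rk k s := by
  refine rk_le_of_alg fun y hy => IntermediateField.isAlgebraic_adjoin_iff.1 ?_
  exact isAlgebraic_algebraMap (⟨y, h y hy⟩ : IntermediateField.adjoin k s)

theorem rk_union_le (s t : Set L) : rk k (s ∪ t) ≤ rk k s + rk k t := by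
  exact Matroid.eRk_union_le_eRk_add_eRk _ s t

theorem rk_le_encard (s : Set L) : rk k s ≤ s.encard := by
  exact Matroid.eRk_le_encard _ s

theorem rk_image (ψ : L →ₐ[k] L') (s : Set L) : rk k (ψ '' s) = rk k s := by
  rw [rk, rk, ← Matroid.eRk_comap, Rk_comap ψ ψ.toRingHom.injective]

theorem rk_insert {s : Set L} {t : L} (h : Transcendental (Algebra.adjoin k s) t) :
    rk k (insert t s) = rk k s + 1 := by
  exact Matroid.eRk_insert_eq_add_one ⟨Set.mem_univ _, fun h' => h (Rk_mem_closure.1 h')⟩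

theorem rk_range_ne_top {σ : Type} [Finite σ] (v : σ → L) : rk k (Set.range v) ≠ ⊤ := by
  exact ne_top_of_le_ne_top (Set.finite_range v).encard_lt_top.ne (rk_le_encard _)

theorem rk_range_eq_trdeg {σ : Type} [Finite σ] (v : σ → L) :
    ((rk k (Set.range v)).toNat : Cardinal) =
      Algebra.trdeg k (MvPolynomial σ k ⧸ RingHom.ker (aeval v : MvPolynomial σ k →ₐ[k] L)) := by
  let I := RingHom.ker (aeval v : MvPolynomial σ k →ₐ[k] L)
  have hinj := Ideal.kerLiftAlg_injective (aeval v : MvPolynomial σ k →ₐ[k] L)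
  have : IsDomain (MvPolynomial σ k ⧸ I) :=
    hinj.isDomain (Ideal.kerLiftAlg (aeval v : MvPolynomial σ k →ₐ[k] L)).toRingHom
  have h1 : Set.range v = Ideal.kerLiftAlg (aeval v : MvPolynomial σ k →ₐ[k] L) ''
      Set.range fun i => Ideal.Quotient.mkₐ k I (X i) := by
    rw [← Set.range_comp]
    congr 1
    funext i
    simp [I]
  have h2 : Algebra.adjoin k (Set.range fun i => Ideal.Quotient.mkₐ k I (X i)) = ⊤ := by
    have h3 : (Set.range fun i => Ideal.Quotient.mkₐ k I (X i)) =
        Ideal.Quotient.mkₐ k I '' Set.range X := by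
      rw [← Set.range_comp]
      rfl
    rw [h3, Algebra.adjoin_image, adjoin_range_X, Algebra.map_top]
    exact (AlgHom.range_eq_top _).2 (Ideal.Quotient.mkₐ_surjective k I)
  rw [h1, rk, ← Matroid.eRk_comap, Rk_comap _ hinj]
  refine Rk_spanning (Set.finite_range _) ⟨fun y => ?_⟩
  exact isAlgebraic_algebraMap
    (⟨y, by rw [h2]; trivial⟩ : Algebra.adjoin k (Set.range fun i => Ideal.Quotient.mkₐ k I (X i)))

theorem rk_range_eq_trdeg_top {σ : Type} [Finite σ] (v : σ → L)
    (hv : IntermediateField.adjoin k (Set.range v) = ⊤) :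
    ((rk k (Set.range v)).toNat : Cardinal) = Algebra.trdeg k L := by
  refine Rk_spanning (Set.finite_range _) ⟨fun y => IntermediateField.isAlgebraic_adjoin_iff.1 ?_⟩
  exact isAlgebraic_algebraMap
    (⟨y, by rw [hv]; trivial⟩ : IntermediateField.adjoin k (Set.range v))

/-- A relative transcendence basis chosen among the generators. -/
theorem exists_rel_basis {σ : Type} [Finite σ] (v : σ → L) (s : Set σ) :
    ∃ t : Finset σ, rk k (v '' s) + t.card = rk k (Set.range v) ∧
      ∀ i, IsAlgebraic (Algebra.adjoin k (v '' (s ∪ t))) (v i) := by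
  classical
  let N := (AlgebraicIndependent.matroid k L).comap v
  have hE : N.E = Set.univ := by simp [N]
  obtain ⟨I, hI⟩ := N.exists_isBasis s (by simp [hE])
  obtain ⟨J, hJ, hIJ⟩ := hI.indep.subset_isBasis_of_subset (Set.subset_univ I) (by simp [hE])
  refine ⟨(Set.toFinite (J \ I)).toFinset, ?_, fun i => ?_⟩
  · rw [rk, rk, ← Set.image_univ, ← Matroid.eRk_comap, ← Matroid.eRk_comap, hI.eRk_eq_encard,
      hJ.eRk_eq_encard, ← Set.Finite.encard_eq_coe_toFinset_card, add_comm,
      Set.encard_sdiff_add_encard_of_subset hIJ]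
  · have h1 := (Matroid.comap_isBasis_iff.1 hJ).1
    refine Rk_mem_closure.1 (Matroid.closure_subset_closure _ (Set.image_mono ?_)
      (h1.subset_closure (Set.mem_image_of_mem v (Set.mem_univ i))))
    intro j hj
    by_cases hjI : j ∈ I
    · exact Or.inl (hI.subset hjI)
    · exact Or.inr (by simpa using ⟨hj, hjI⟩)

theorem Rk_weight {A : Type*} [CommRing A] (μ : P.ι → A) (d : P.V →₀ ℕ) :
    ((Finsupp.weight (fun s : P.V => Finsupp.single s.1 1) d).prod fun i n => μ i ^ n) =
      d.prod fun s n => μ s.1 ^ n := by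
  induction d using Finsupp.induction_linear with
  | zero => simp
  | add f g hf hg =>
    rw [map_add, Finsupp.prod_add_index' (by simp) (by simp [pow_add]),
      Finsupp.prod_add_index' (by simp) (by simp [pow_add]), hf, hg]
  | single s n => simp [Finsupp.weight_single]

theorem IsForm.aeval_scale {A : Type*} [CommRing A] [Algebra k A] {f : MvPolynomial P.V k}
    {a : P.ι →₀ ℕ} (hf : IsForm f a) (μ : P.ι → A) (v : P.V → A) :
    MvPolynomial.aeval (fun s => μ s.1 * v s) f =
      (a.prod fun i n => μ i ^ n) * MvPolynomial.aeval v f := by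
  induction hf using IsWeightedHomogeneous.induction_on with
  | zero => simp
  | add p q _ _ hp hq => rw [map_add, map_add, hp, hq, mul_add]
  | monomial d r hr =>
    rw [aeval_monomial, aeval_monomial, ← hr, Rk_weight]
    simp only [mul_pow, Finsupp.prod_mul]
    ring

theorem rat_scale (v : P.V → L) (μ : P.ι → L) (hμ : ∀ i, μ i ≠ 0) :
    rat (fun s => μ s.1 * v s) = rat v := by
  ext y
  simp only [rat, Set.mem_ofPred_eq, mul_div_mul_left _ _ (hμ _)]

theorem rk_rat_norm (v : P.V → L) (ς : ∀ i, P.σ i) (hv : ∀ i, v ⟨i, ς i⟩ = 1) :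
    rk k (rat v) = rk k (Set.range v) := by
  refine le_antisymm (rk_le_of_mem ?_) (rk_mono ?_)
  · rintro _ ⟨i, s, t, rfl⟩
    exact div_mem (IntermediateField.subset_adjoin _ _ (Set.mem_range_self _))
      (IntermediateField.subset_adjoin _ _ (Set.mem_range_self _))
  · rintro _ ⟨⟨i, s⟩, rfl⟩
    exact ⟨i, s, ς i, by rw [hv, div_one]⟩

theorem ratio_mem (v : P.V → L) (hv : ∀ i, ∃ s, v ⟨i, s⟩ ≠ 0) {f g : MvPolynomial P.V k}
    {a : P.ι →₀ ℕ} (hf : IsForm f a) (hg : IsForm g a) :
    aeval v f / aeval v g ∈ IntermediateField.adjoin k (rat v) := by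
  choose ς hς using hv
  have hc : (a.prod fun i n => (v ⟨i, ς i⟩)⁻¹ ^ n) ≠ 0 :=
    Finset.prod_ne_zero_iff.mpr fun i _ => pow_ne_zero _ (inv_ne_zero (hς i))
  have hm : ∀ p : MvPolynomial P.V k, aeval (fun s : P.V => (v ⟨s.1, ς s.1⟩)⁻¹ * v s) p ∈
      IntermediateField.adjoin k (rat v) := by
    intro p
    induction p using MvPolynomial.induction_on with
    | C c => rw [aeval_C]; exact IntermediateField.algebraMap_mem _ c
    | add p q hp hq => rw [map_add]; exact add_mem hp hq
    | mul_X p s hp =>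
      rw [map_mul, aeval_X]
      exact mul_mem hp (IntermediateField.subset_adjoin _ _
        ⟨s.1, s.2, ς s.1, by rw [div_eq_inv_mul]⟩)
  have h1 := div_mem (hm f) (hm g)
  rwa [hf.aeval_scale (fun i => (v ⟨i, ς i⟩)⁻¹) v, hg.aeval_scale (fun i => (v ⟨i, ς i⟩)⁻¹) v,
    mul_div_mul_left _ _ hc] at h1

end Pool.Agent.Work.MP_ffcd14_ag
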