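import Pool.Agent.Work.MP_ffcd14_ag.Cyc.Glue
import Pool.Agent.Work.MP_ffcd14_ag.Cyc.LA

/-! # Descent of the Hodge standard conjecture in codimension two -/

open MvPolynomial Topology TopologicalSpace Filter

namespace Pool.Agent.Work.MP_ffcd14_ag

universe u v w

section Alg

variable {B : Type w} [CommRing B] [Algebra ℚ B] {V : Type} [AddCommGroup V] [Module ℚ V]
  (τ : B →ₗ[ℚ] ℚ) (D : V →ₗ[ℚ] B)

/-- The bilinear form defined by a class. -/
noncomputable def t2Bil (ω : B) : V →ₗ[ℚ] V →ₗ[ℚ] ℚ :=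
  ((LinearMap.mul ℚ B).compl₁₂ D D).compr₂ (τ ∘ₗ LinearMap.mulLeft ℚ ω)

/-- The linear form defined by a class. -/
noncomputable def t2Lin (ω : B) : V →ₗ[ℚ] ℚ := τ ∘ₗ LinearMap.mulLeft ℚ ω ∘ₗ D

theorem t2Bil_apply (ω : B) (s t : V) : t2Bil τ D ω s t = τ (ω * D s * D t) := by
  rw [mul_assoc]; rfl

theorem t2Lin_apply (ω : B) (s : V) : t2Lin τ D ω s = τ (ω * D s) := rfl

theorem t2_binom (h A : B) (t : ℚ) (n : ℕ) : (h + t • A) ^ n =
    ∑ i ∈ Finset.range (n + 1), ((n.choose i : ℚ) * t ^ i) • (h ^ (n - i) * A ^ i) := by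
  rw [add_comm, add_pow]
  refine Finset.sum_congr rfl fun i _ => ?_
  simp only [Algebra.smul_def, map_mul, map_pow, map_natCast]
  ring

end Alg

variable {k : Type u} [Field k] [IsAlgClosed k] {K : Type v} [Field K] [CharZero K]
  {P P' Q : Amb} {C : NT.{u, v, w} k K}

omit [IsAlgClosed k] in
theorem t2_pow (X : Var k P) {x : EE C X} (hx : x ∈ AA C X 1) (n : ℕ) :
    x ^ (n + 1) ∈ AA C X (n + 1) := by
  induction n with
  | zero => simpa using hx
  | succ n ih => rw [pow_succ]; exact AA_mul C X ih hx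

variable (C) in
/-- The homogeneous algebraic classes. -/
def t2Alg (X : Var k P) (hX : IsIrreducible X.pts) : Submonoid (EE C X) where
  carrier := {y | ∃ c, y ∈ AA C X c}
  mul_mem' := fun ⟨_, h⟩ ⟨_, h'⟩ => ⟨_, AA_mul C X h h'⟩
  one_mem' := by rw [← cy_top C X hX]; exact cy_mem_AA C X _

omit [IsAlgClosed k] in
theorem t2_smul {X : Var k P} {m : ℕ} {l : EE C X} (h : SH C X m l) {t : ℚ} (ht : 0 < t) :
    SH C X m (t • l) := by
  intro y hy H
  have := h y hy fun D hD => by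
    have := H D hD
    rw [smul_pow, smul_mul_assoc, smul_mul_assoc, map_smul, smul_eq_mul] at this
    exact (mul_eq_zero.1 this).resolve_left (pow_pos ht _).ne'
  rw [smul_pow, smul_mul_assoc, smul_mul_assoc, map_smul, smul_eq_mul]
  positivity

theorem t2_top (X : Var k P) (hX : IsIrreducible X.pts) (y : EE C X) :
    nm C X (X.top hX) y = tau C X y := by
  rw [nm_apply, cy_top, one_mul]

variable (hC : C.Cyc)
include hC

theorem sh_descent (hF : NFin C) {Ω : Var k P'} {X : Var k P} (hΩ : IsIrreducible Ω.pts)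
    (hX : IsIrreducible X.pts) (π : Prj Ω X) (hi : π.img (Ω.top hΩ) = X.top hX)
    (hd : Ω.dim = X.dim) (m : ℕ) (hm : m + 4 = X.dim) {a : P.ι →₀ ℕ} (ha : ∀ i, 0 < a i)
    (H : ∀ b : P'.ι →₀ ℕ, (∀ i, 0 < b i) → SH C Ω m (ln C Ω b)) : SH C X m (ln C X a) := by
  intro x hx hprim
  obtain ⟨ρ, e, he, hsp, hind⟩ := hF Ω 1 (m + 3) (by omega)
  let D : (Fin ρ → ℚ) →ₗ[ℚ] EE C Ω := Fintype.linearCombination ℚ e
  have hD : ∀ t, D t ∈ AA C Ω 1 := fun t => by
    rw [Fintype.linearCombination_apply]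
    exact Submodule.sum_mem _ fun j _ => Submodule.smul_mem _ _ (he j)
  have hind' : ∀ t, N0 C Ω (D t) → t = 0 := fun t ht =>
    hind t (by rwa [← Fintype.linearCombination_apply])
  have co : ∀ z ∈ AA C Ω 1, ∃ t, ∀ y ∈ t2Alg C Ω hΩ, tau C Ω (y * D t) = tau C Ω (y * z) := by
    intro z hz
    obtain ⟨t, ht⟩ := hsp z hz
    refine ⟨t, fun y ⟨c, hy⟩ => ?_⟩
    have := ht c y hy
    rw [← Fintype.linearCombination_apply, sub_mul, map_sub, sub_eq_zero, mul_comm,
      mul_comm _ y] at this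
    exact this.symm
  clear_value D
  obtain ⟨b, hb⟩ : ∃ b : P'.ι →₀ ℕ, ∀ i, 0 < b i :=
    ⟨Finsupp.equivFunOnFinite.symm fun _ => 1, fun _ => by simp⟩
  have lnA : ∀ c, ln C Ω c ∈ AA C Ω 1 := fun c => HS_le_AA C Ω (ln_mem_HS C Ω c)
  obtain ⟨h, hh⟩ : ∃ h, h = pl C π (ln C X a) := ⟨_, rfl⟩
  have hh' : h = ln C Ω (a.mapDomain π.ψ) := hh.trans (pl_ln C π a)
  obtain ⟨A, hA⟩ : ∃ A, A = ln C Ω b := ⟨_, rfl⟩
  obtain ⟨x', hx'⟩ : ∃ x', x' = pl C π x := ⟨_, rfl⟩
  have h1 : h ∈ AA C Ω 1 := hh' ▸ lnA _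
  have A1 : A ∈ AA C Ω 1 := hA ▸ lnA _
  have x2 : x' ∈ AA C Ω 2 := hx' ▸ AA_pl C π hx
  have mh : h ∈ t2Alg C Ω hΩ := ⟨_, h1⟩
  have mA : A ∈ t2Alg C Ω hΩ := ⟨_, A1⟩
  have mD : ∀ t, D t ∈ t2Alg C Ω hΩ := fun t => ⟨_, hD t⟩
  have mω : ∀ i j, h ^ i * A ^ j ∈ t2Alg C Ω hΩ := fun i j => mul_mem (pow_mem mh _) (pow_mem mA _)
  obtain ⟨η, hη⟩ := co h h1
  obtain ⟨α, hα⟩ := co A A1
  have strict : ∀ (c : P'.ι →₀ ℕ) (t : ℚ), (∀ i, 0 < c i) → t ≠ 0 → ∀ s,
      t2Bil (tau C Ω) D ((t • ln C Ω c) ^ (m + 2)) s = 0 → s = 0 := by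
    intro c t hc ht s hs
    have z : ∀ s', tau C Ω (ln C Ω c ^ (m + 2) * D s * D s') = 0 := fun s' => by
      have := LinearMap.congr_fun hs s'
      rw [t2Bil_apply, smul_pow, smul_mul_assoc, smul_mul_assoc, map_smul, smul_eq_mul] at this
      exact (mul_eq_zero.1 this).resolve_left (pow_ne_zero _ ht)
    obtain ⟨l, hl⟩ := co _ (lnA c)
    refine hind' s (hi_strict hC Ω hΩ (m + 2) (by omega) hc (hD s) ?_ (z s))
    rw [pow_succ, mul_right_comm, ← hl _ (mul_mem (pow_mem (show _ ∈ t2Alg C Ω hΩ from ⟨_, lnA c⟩) _) (mD s)), z]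
  have key := descent_la m (fun i => t2Bil (tau C Ω) D (h ^ (m + 2 - i) * A ^ i))
    (fun i => t2Lin (tau C Ω) D (x' * (h ^ (m + 1 - i) * A ^ i)))
    (fun i => tau C Ω (x' * x' * (h ^ (m - i) * A ^ i))) η α
    (fun i s t => by rw [t2Bil_apply, t2Bil_apply, mul_right_comm]) ?_ ?_ ?_ ?_ ?_
    (fun t => t2Bil (tau C Ω) D ((h + t • A) ^ (m + 2)))
    (fun t => t2Lin (tau C Ω) D (x' * (h + t • A) ^ (m + 1)))
    (fun t => tau C Ω (x' * x' * (h + t • A) ^ m)) ?_ ?_ ?_ ?_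
  · obtain ⟨n, hn, hp⟩ := n_push hC π (Z := Ω.top hΩ) subset_rfl
    have n0 : (0 : ℚ) < n := by
      exact_mod_cast hn.2 (by rw [hi, Var.sdim_top, Var.sdim_top, hd])
    have := hp (ln C X a ^ m * x * x)
    rw [hi, t2_top, t2_top, map_mul (pl C π), map_mul (pl C π), map_pow, ← hh,
      ← hx'] at this
    rw [Nat.sub_zero, pow_zero, mul_one, mul_comm, ← mul_assoc, this] at key
    exact nonneg_of_mul_nonneg_right key n0
  · intro i hi' s hs
    obtain ⟨j, hj⟩ := Nat.exists_eq_add_of_le hi'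
    have r := rcsA hC Ω hΩ (List.replicate j (a.mapDomain π.ψ) ++ List.replicate i b)
      (by simp; omega)
    simp only [lp', List.map_append, List.map_replicate, List.prod_append, List.prod_replicate,
      ← hh', ← hA] at r
    have p := nm_pos hC Ω π.toCrd (Crd.refl k P') (Z := Ω.top hΩ) subset_rfl
      (fun U _ => by rw [Crd.img_refl]) ha hb (j + 2) i (by rw [hi, Var.sdim_top]; omega)
      (by rw [Var.sdim_top]; omega)
    rw [t2_top, show (Crd.refl k P').ψ = id from rfl, Finsupp.mapDomain_id, ← hh', ← hA] at p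
    have p' : 0 < tau C Ω (h ^ j * A ^ i * D η * D η) := by
      rw [hη _ (mul_mem (mω j i) (mD η)), mul_right_comm, hη _ (mul_mem (mω j i) mh)]
      convert p using 2
      ring
    simp only [show m + 2 - i = j by omega, t2Bil_apply] at hs ⊢
    refine ⟨r.nonpos (hD η) (hD s) p' hs, fun z => LinearMap.ext fun s' => ?_⟩
    rw [t2Bil_apply]
    exact r.null (hD η) (hD s) p' hs z (hD s')
  · intro i hi'
    obtain ⟨j, hj⟩ := Nat.exists_eq_add_of_le hi'
    refine LinearMap.ext fun s => ?_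
    simp only [show m + 2 - (i + 1) = j by omega, show m + 2 - i = j + 1 by omega, t2Bil_apply]
    rw [mul_right_comm, hη _ (mul_mem (mω _ _) (mD s)), mul_right_comm _ (D α),
      hα _ (mul_mem (mω _ _) (mD s))]
    congr 1
    ring
  · intro s hs
    refine strict b 1 hb one_ne_zero s ?_
    rwa [Nat.sub_self, pow_zero, one_mul, hA, ← one_smul ℚ (ln C Ω b)] at hs
  · refine LinearMap.ext fun s => ?_
    have z := (N0_iff C X (c := m + 1 + 2) (c' := 1) (by omega)
      (AA_mul C X (t2_pow X (HS_le_AA C X (ln_mem_HS C X a)) m) hx)).2 hprim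
    have := tau_N0 hC π z (AA_le_CS C Ω 1 (hD s))
    rw [map_mul (pl C π), map_pow, ← hh, ← hx'] at this
    rw [t2Lin_apply, LinearMap.zero_apply, ← this]
    congr 1
    rw [Nat.sub_zero]
    ring
  · intro i i1 hi' s hs
    obtain ⟨j, hj⟩ := Nat.exists_eq_add_of_le hi'
    simp only [show m + 2 - i = j + 1 by omega, show m + 1 - i = j by omega] at hs ⊢
    have z1 := LinearMap.congr_fun hs η
    have z2 := LinearMap.congr_fun hs s
    rw [t2Bil_apply, LinearMap.zero_apply] at z1 z2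
    rw [hη _ (mul_mem (mω _ _) (mD s))] at z1
    have := bcA hC hΩ hX π hi hd ha hb j i (by omega) i1 (hD s) (by
      rw [← hh, ← hA, ← z1]; congr 1; ring) (by rw [← hh, ← hA, z2]) hx
    rw [← hh, ← hA, ← hx'] at this
    rw [t2Lin_apply, ← mul_assoc, this]
  · intro t
    refine LinearMap.ext fun s => LinearMap.ext fun s' => ?_
    simp only [t2_binom, t2Bil_apply, LinearMap.sum_apply, LinearMap.smul_apply, Finset.sum_mul,
      smul_mul_assoc, map_sum, map_smul]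
  · intro t
    refine LinearMap.ext fun s => ?_
    simp only [t2_binom, t2Lin_apply, LinearMap.sum_apply, LinearMap.smul_apply, Finset.sum_mul,
      Finset.mul_sum, smul_mul_assoc, mul_smul_comm, map_sum, map_smul]
  · intro t
    simp only [t2_binom, Finset.mul_sum, mul_smul_comm, map_sum, map_smul, smul_eq_mul]
  · intro N hN t ht
    have N0' : (0 : ℚ) < N := by exact_mod_cast hN
    have t0 : 0 < t := by rw [ht]; positivity
    have hc : ∀ i, 0 < (N • a.mapDomain π.ψ + b) i := fun i => by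
      rw [Finsupp.add_apply]; exact Nat.add_pos_right _ (hb i)
    have hL : h + t • A = t • ln C Ω (N • a.mapDomain π.ψ + b) := by
      rw [ln_add, ln_smul, smul_add, smul_smul, ← hh', ← hA, ht, one_div_mul_cancel N0'.ne',
        one_smul]
    have L1 : h + t • A ∈ AA C Ω 1 := Submodule.add_mem _ h1 (Submodule.smul_mem _ _ A1)
    have mL : h + t • A ∈ t2Alg C Ω hΩ := ⟨_, L1⟩
    have hl : ∀ y ∈ t2Alg C Ω hΩ, tau C Ω (y * D (η + t • α)) = tau C Ω (y * (h + t • A)) := by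
      intro y hy
      rw [map_add, map_smul, mul_add, mul_add, mul_smul_comm, mul_smul_comm, map_add, map_add,
        map_smul, map_smul, hη y hy, hα y hy]
    have sh := t2_smul (H _ hc) t0
    have st := strict _ t hc t0.ne'
    have ps : 0 < tau C Ω ((h + t • A) ^ (m + 4)) := by
      rw [hL, smul_pow, map_smul, smul_eq_mul, hm, ← hd]
      exact mul_pos (pow_pos t0 _) (tau_pos hC Ω hΩ hc)
    rw [← hL] at sh st
    generalize h + t • A = L at *
    refine ⟨?_, st, fun s hs => ?_⟩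
    · rw [t2Bil_apply, hl _ (mul_mem (pow_mem mL _) (mD _)), mul_right_comm,
        hl _ (mul_mem (pow_mem mL _) mL), ← pow_succ, ← pow_succ]
      exact ps
    · have y1 := AA_mul C Ω L1 (hD s)
      rw [one_add_one_eq_two] at y1
      have y2 := Submodule.sub_mem _ x2 y1
      have := sh _ y2 fun E hE => by
        obtain ⟨s', hs'⟩ := co E hE
        have z := LinearMap.congr_fun hs s'
        rw [t2Bil_apply, t2Lin_apply] at z
        rw [← hs' _ (mul_mem (pow_mem mL _) ⟨_, y2⟩), show L ^ (m + 1) * (x' - L * D s) * D s' =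
          x' * L ^ (m + 1) * D s' - L ^ (m + 2) * D s * D s' by ring, map_sub, z, sub_self]
      rw [t2Bil_apply, t2Lin_apply]
      rwa [show L ^ m * (x' - L * D s) * (x' - L * D s) = x' * x' * L ^ m -
        (x' * L ^ (m + 1) * D s + x' * L ^ (m + 1) * D s) + L ^ (m + 2) * D s * D s by ring,
        map_add, map_sub, map_add, ← two_mul] at this

omit hC in
theorem descent_main {C : Weil.{u, v, w} k K} (hC : C.Chow) (Y : Var k Q) (X : Var k P) (hY : IsIrreducible Y.pts) (hd : Y.dim = X.dim)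
    (h4 : 4 ≤ X.dim) (f : Hom Y X) (hf : Function.Surjective f.toFun)
    (H : ∀ L, C.Ample Y L → Hdg (C.tr Y) Y.dim (C.A Y) L 2) (l : C.H X) (hl : C.Ample X l)
    (hL : ∀ y ∈ C.A X (X.dim - 2), ∃ x ∈ C.A X 2, y = l ^ (X.dim - 4) * x) :
    Hdg (C.tr X) X.dim (C.A X) l 2 := by
  obtain ⟨m, hm⟩ := Nat.exists_eq_add_of_le' h4
  rw [show X.dim - 2 = m + 2 by omega, show X.dim - 4 = m by omega] at hL
  obtain ⟨n, Q', X', φ, ψ, a, hn, hd', hi, ha, e⟩ := hl
  have sj : Function.Surjective (φ.comp f).toFun := fun y => by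
    obtain ⟨z, hz⟩ := hf (ψ.toFun y)
    exact ⟨z, (congrArg φ.toFun hz).trans (hi.2 y)⟩
  generalize φ.comp f = θ at sj
  have hX' := θ.irreducible hY sj
  have hΩ := θ.graphInv.irreducible hY fun z => ⟨_, θ.graphInv_fst z⟩
  have iv : Inv θ.graphInv θ.graphFst := ⟨fun _ => rfl, θ.graphInv_fst⟩
  let π : Prj θ.graph X' := ⟨Crd.inr k Q Q', fun z hz => (θ.graphSnd.toFun ⟨z, hz⟩).2⟩
  have him : π.img (θ.graph.top hΩ) = X'.top hX' := by
    refine le_antisymm ((π.img_sub X'.closed).2 π.maps) fun x hx => ?_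
    obtain ⟨y, hy⟩ := sj ⟨x, hx⟩
    have := π.mem_img (Z := θ.graph.top hΩ) (θ.graphInv.toFun y).2
    rwa [show π.pr (θ.graphInv.toFun y).1 = x from congrArg Subtype.val hy] at this
  refine (W.hdg_iso φ ψ hi hd' hn e 2).2 (W.hdg_two hC X' hX' m (by omega) ha
    (W.lef_iso φ ψ hi hn e 2 (m + 2) m hL) (sh_descent (W.nt_chow hC).cyc (W.nt_fin C) hΩ hX' π him (hd.trans hd'.symm) m
      (by omega) ha fun b hb => sh_of_hn θ.graph m (hm.symm.trans hd.symm) b
        ((W.glue_iff θ.graph b 2 m (hm.symm.trans hd.symm)).1 ?_)))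
  exact (W.hdg_iso θ.graphInv θ.graphFst iv rfl one_pos (one_smul _ _) 2).1
    (H _ ⟨1, _, _, θ.graphInv, θ.graphFst, b, one_pos, rfl, iv, hb, one_smul _ _⟩)

end Pool.Agent.Work.MP_ffcd14_ag
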